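import Pool.Agent.SteinFill.Spec
import Pool.Agent.Knieper.Flow

/-!
# Smooth flow of a compactly supported smooth vector field
-/

namespace Pool.Agent.SteinFill

open scoped ContDiff Topology NNReal
open Set Filter

noncomputable section

/-- Uniqueness of solutions of autonomous equations. -/
theorem flow_unique {E : Type} [NormedAddCommGroup E] [NormedSpace ℝ E] {Z : E → E}
    {K : ℝ≥0} (hZ : LipschitzWith K Z) {α β : ℝ → E} (hα : ∀ t, HasDerivAt α (Z (α t)) t)
    (hβ : ∀ t, HasDerivAt β (Z (β t)) t) (h0 : α 0 = β 0) : α = β :=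
  ODE_solution_unique_univ (v := fun _ => Z) (s := fun _ => univ) (K := K) (t₀ := 0)
    (fun _ => hZ.lipschitzOnWith) (fun t => ⟨hα t, trivial⟩) (fun t => ⟨hβ t, trivial⟩) h0

/-- The flow of a smooth compactly supported field is `C^n` for every `n`. -/
theorem flow_contDiff (n : ℕ) : ∀ (E : Type) [NormedAddCommGroup E] [NormedSpace ℝ E]
    [FiniteDimensional ℝ E] (Z : E → E), ContDiff ℝ ∞ Z → HasCompactSupport Z →
    ∀ Φ : ℝ → E → E, (∀ x, Φ 0 x = x) → (∀ t x, HasDerivAt (fun s => Φ s x) (Z (Φ t x)) t) →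
    ∀ t, ContDiff ℝ n (Φ t) := by
  induction n with
  | zero =>
    intro E _ _ _ Z hZ hZc Φ hΦ0 hΦ t
    obtain ⟨K, hK⟩ := (hZ.of_le (by exact_mod_cast le_top : (1 : WithTop ℕ∞) ≤ ∞)
      ).lipschitzWith_of_hasCompactSupport hZc (by norm_num)
    obtain ⟨Ψ, A, hΨ0, hΨ, -, -, hd, -⟩ := Knieper.flow_theorem E Z
      (by exact_mod_cast contDiff_infty.mp hZ 2) hZc
    have h : ∀ x, (fun s => Φ s x) = fun s => Ψ s x := fun x =>
      flow_unique hK (hΦ · x) (hΨ · x) (by simp only [hΦ0, hΨ0])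
    have h' : Φ t = Ψ t := funext fun x => congrFun (h x) t
    rw [h']
    simp only [CharP.cast_eq_zero]
    exact contDiff_zero.mpr (continuous_iff_continuousAt.mpr fun x => (hd t x).continuousAt)
  | succ n ih =>
    intro E _ _ _ Z hZ hZc Φ hΦ0 hΦ t
    obtain ⟨K, hK⟩ := (hZ.of_le (by exact_mod_cast le_top : (1 : WithTop ℕ∞) ≤ ∞)
      ).lipschitzWith_of_hasCompactSupport hZc (by norm_num)
    obtain ⟨Ψ, A, hΨ0, hΨ, hA0, hA, hd, hL⟩ := Knieper.flow_theorem E Z
      (by exact_mod_cast contDiff_infty.mp hZ 2) hZc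
    have h : ∀ x, (fun s => Φ s x) = fun s => Ψ s x := fun x =>
      flow_unique hK (hΦ · x) (hΨ · x) (by simp only [hΦ0, hΨ0])
    have h' : Φ = Ψ := funext fun t => funext fun x => congrFun (h x) t
    subst h'
    -- bound for the linearised flow
    obtain ⟨L, hL0, hL⟩ := hL (|t| + 1)
    have hAb : ∀ s ∈ Icc (-(|t| + 1)) (|t| + 1), ∀ x, ‖A s x‖ ≤ L := by
      intro s hs x
      have hlip : LipschitzWith L.toNNReal (Φ s) := by
        refine LipschitzWith.of_dist_le_mul fun x y => ?_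
        rw [dist_eq_norm, dist_eq_norm, Real.coe_toNNReal _ hL0]
        exact (hL s hs x y).1
      have := (hd s x).le_of_lipschitz hlip
      rwa [Real.coe_toNNReal _ hL0] at this
    -- the prolonged field
    let χ : ContDiffBump (0 : E) := ⟨L + 1, L + 2, by linarith, by linarith⟩
    let Z₁ : E × E → E × E := fun p => χ p.2 • (Z p.1, fderiv ℝ Z p.1 p.2)
    have hχ : ContDiff ℝ ∞ (χ : E → ℝ) := χ.contDiff
    have hdZ : ContDiff ℝ ∞ (fderiv ℝ Z) := hZ.fderiv_right (by norm_cast)
    have hZ₁ : ContDiff ℝ ∞ Z₁ := by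
      refine (hχ.comp contDiff_snd).smul ((hZ.comp contDiff_fst).prodMk ?_)
      exact (hdZ.comp contDiff_fst).clm_apply contDiff_snd
    have hZ₁c : HasCompactSupport Z₁ := by
      refine HasCompactSupport.intro (hZc.isCompact.prod χ.hasCompactSupport.isCompact) ?_
      rintro ⟨x, v⟩ hxv
      rw [mem_prod, not_and_or] at hxv
      rcases hxv with hx | hv
      · have h1 : Z x = 0 := image_eq_zero_of_notMem_tsupport hx
        have h2 : fderiv ℝ Z x = 0 := by
          refine image_eq_zero_of_notMem_tsupport fun h => hx ?_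
          exact tsupport_fderiv_subset ℝ h
        simp only [Z₁, h1, h2]
        simp
      · have h1 : χ v = 0 := image_eq_zero_of_notMem_tsupport hv
        simp only [Z₁, h1, zero_smul]
    obtain ⟨K₁, hK₁⟩ := (hZ₁.of_le (by exact_mod_cast le_top : (1 : WithTop ℕ∞) ≤ ∞)
      ).lipschitzWith_of_hasCompactSupport hZ₁c (by norm_num)
    obtain ⟨Θ, -, hΘ0, hΘ, -, -, -, -⟩ := Knieper.flow_theorem (E × E) Z₁
      (by exact_mod_cast contDiff_infty.mp hZ₁ 2) hZ₁c
    have hΘn : ContDiff ℝ n (Θ t) := ih (E × E) Z₁ hZ₁ hZ₁c Θ hΘ0 hΘ t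
    -- comparison
    have hcomp : ∀ x v, ‖v‖ ≤ 1 → (Θ t (x, v)).2 = A t x v := by
      intro x v hv
      have hmem : t ∈ Ioo (-(|t| + 1)) (|t| + 1) := by
        rw [mem_Ioo]
        constructor
        · linarith [neg_abs_le t]
        · linarith [le_abs_self t]
      have key := ODE_solution_unique_of_mem_Ioo (v := fun _ => Z₁) (s := fun _ => univ)
        (K := K₁) (t₀ := 0) (a := -(|t| + 1)) (b := |t| + 1) (f := fun s => Θ s (x, v))
        (g := fun s => (Φ s x, A s x v)) (fun s _ => hK₁.lipschitzOnWith)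
        ⟨by linarith [abs_nonneg t], by linarith [abs_nonneg t]⟩
        (fun s _ => ⟨hΘ s (x, v), trivial⟩)
        (fun s hs => ⟨by
          have h1 := (hΦ s x).prodMk ((hA s x).clm_apply (hasDerivAt_const s v))
          refine h1.congr_deriv ?_
          have h2 : ‖A s x v‖ ≤ L + 1 := by
            refine ((A s x).le_opNorm v).trans ?_
            have := hAb s (Ioo_subset_Icc_self hs) x
            nlinarith [norm_nonneg v]
          have h3 : χ (A s x v) = 1 := χ.one_of_mem_closedBall (by simpa using h2)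
          simp only [Z₁, h3, one_smul]
          simp, trivial⟩)
        (by simp [hΘ0, hΦ0, hA0]) hmem
      simp only at key
      rw [key]
    have hAn : ContDiff ℝ n (A t) := by
      rw [contDiff_clm_apply_iff]
      intro v
      have h1 : (fun x => A t x v) = fun x => (‖v‖ + 1) • (Θ t (x, (‖v‖ + 1)⁻¹ • v)).2 := by
        funext x
        have hpos : 0 < ‖v‖ + 1 := by positivity
        rw [hcomp x _ (by
          rw [norm_smul, Real.norm_of_nonneg (by positivity)]
          rw [inv_mul_le_iff₀ hpos]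
          linarith), map_smul, smul_smul, mul_inv_cancel₀ hpos.ne', one_smul]
      rw [h1]
      have h2 : ContDiff ℝ n fun x : E => (Θ t (x, (‖v‖ + 1)⁻¹ • v)).2 :=
        contDiff_snd.comp (hΘn.comp (contDiff_id.prodMk contDiff_const))
      exact h2.const_smul _
    have : ContDiff ℝ ((n : WithTop ℕ∞) + 1) (Φ t) :=
      contDiff_succ_iff_hasFDerivAt.mpr ⟨A t, hAn, hd t⟩
    exact_mod_cast this

/-- Smooth flow of a compactly supported smooth vector field. -/
theorem tFlow : TFlow := by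
  intro E _ _ _ Z hZ hZc
  obtain ⟨K, hK⟩ := (hZ.of_le (by exact_mod_cast le_top : (1 : WithTop ℕ∞) ≤ ∞)
    ).lipschitzWith_of_hasCompactSupport hZc (by norm_num)
  obtain ⟨Φ, A, hΦ0, hΦ, hA0, hA, hd, -⟩ := Knieper.flow_theorem E Z
    (by exact_mod_cast contDiff_infty.mp hZ 2) hZc
  refine ⟨Φ, hΦ0, fun s t x => ?_, hΦ, fun t => ?_, fun t x v => ?_⟩
  · have h := flow_unique hK (α := fun s => Φ s (Φ t x)) (β := fun s => Φ (s + t) x)
      (fun s => hΦ s (Φ t x)) (fun s => (hΦ (s + t) x).comp_add_const s t)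
      (by simp [hΦ0])
    exact congrFun h s
  · rw [contDiff_infty]
    intro n
    exact flow_contDiff n E Z hZ hZc Φ hΦ0 hΦ t
  · have h1 : ∀ s, fderiv ℝ (Φ s) x = A s x := fun s => (hd s x).fderiv
    simp only [h1]
    have h2 := (hA t x).clm_apply (hasDerivAt_const t v)
    refine h2.congr_deriv ?_
    simp

end

end Pool.Agent.SteinFill
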