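import Pool.Agent.SteinFill.Spec
import Pool.Agent.Sqz.HolDeriv

/-!
# SF-BRIDGE: from contactomorphic links to contactomorphic boundaries of Stein domains
-/

namespace Pool.Agent.SteinFill

open scoped ContDiff
open Complex (I)

noncomputable section

/-- Velocities are mapped to velocities. -/
lemma tan_map_bridge {E G : Type} [NormedAddCommGroup E] [NormedSpace ℝ E] [NormedAddCommGroup G]
    [NormedSpace ℝ G] {S : Set E} {S' : Set G} {f : E → G} {f' : E →L[ℝ] G} {p : E}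
    (hf : HasFDerivAt f f' p) (hS : ∀ᶠ q in nhds p, q ∈ S → f q ∈ S') {v : E}
    (hv : v ∈ Tan S p) : f' v ∈ Tan S' (f p) := by
  obtain ⟨γ, h0, hγ, hd⟩ := hv
  refine ⟨f ∘ γ, by simp [h0], ?_, ?_⟩
  · have hc : Filter.Tendsto γ (nhds 0) (nhds p) := by
      have := hd.continuousAt
      rw [ContinuousAt, h0] at this
      exact this
    filter_upwards [hγ, hc.eventually hS] with s h1 h2
    exact h2 h1
  · have : HasFDerivAt f f' (γ 0) := by rw [h0]; exact hf
    exact this.comp_hasDerivAt (0 : ℝ) hd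

/-- Tangent spaces of a Stein domain and of its boundary. -/
lemma tan_domain (hT : TTan) {N : ℕ} (D : SteinDomain N) {p : CN N} (hp : p ∈ D.bd) :
    ∃ A : Set (CN N), (∀ v ∈ A, I • v ∈ A) ∧ Tan D.bd p = {v | v ∈ A ∧ fderiv ℝ D.φ p v = 0} := by
  obtain ⟨k, hk, O, F, hO, hpO, hF, hX, hsurj⟩ := D.surface p hp.1 hp.2.le
  have hFc : ContDiffAt ℂ 1 F p := by exact_mod_cast Sqz.Hol.contDiffAt hO hF hpO 1
  have hFs : HasStrictFDerivAt F (fderiv ℂ F p) p := hFc.hasStrictFDerivAt (by simp)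
  have hFr : HasStrictFDerivAt F ((fderiv ℂ F p).restrictScalars ℝ) p := hFs.restrictScalars ℝ
  have hφc : ContDiffAt ℝ 1 D.φ p := (D.smooth.of_le (by exact_mod_cast le_top)).contDiffAt
  have hφs : HasStrictFDerivAt D.φ (fderiv ℝ D.φ p) p := hφc.hasStrictFDerivAt (by simp)
  have hFp : F p = 0 := (hX p hpO).1 hp.1
  have hs : Function.Surjective ((fderiv ℂ F p).restrictScalars ℝ) := hsurj p hpO hp.1
  have hO' : ∀ᶠ q in nhds p, q ∈ O := hO.mem_nhds hpO
  have hTX : Tan D.X p = {v | ((fderiv ℂ F p).restrictScalars ℝ) v = 0} := by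
    refine hT (CN N) (CN k) F _ D.X p hFr hs hFp ?_
    filter_upwards [hO'] with q hq using hX q hq
  obtain ⟨v₀, hv₀, hv₀'⟩ := D.regular p hp.1 hp.2
  rw [hTX] at hv₀
  refine ⟨{v | fderiv ℂ F p v = 0}, fun v hv => ?_, ?_⟩
  · simp only [Set.mem_ofPred_eq] at hv ⊢
    rw [map_smul, hv, smul_zero]
  · have h1 := hT (CN N) (CN k × ℝ) (fun q => (F q, D.φ q)) _ D.bd p (hFr.prodMk hφs) ?_
      (by simp [hFp, hp.2]) ?_
    · rw [h1]
      ext v
      simp [Prod.ext_iff]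
    · rintro ⟨c, a⟩
      obtain ⟨w, hw⟩ := hs c
      refine ⟨w + ((a - fderiv ℝ D.φ p w) / fderiv ℝ D.φ p v₀) • v₀, ?_⟩
      have h2 : fderiv ℂ F p v₀ = 0 := hv₀
      have h3 : fderiv ℂ F p w = c := hw
      have h4 : fderiv ℂ F p (((a - fderiv ℝ D.φ p w) / fderiv ℝ D.φ p v₀) • v₀) = 0 := by
        have := ((fderiv ℂ F p).restrictScalars ℝ).map_smul
          ((a - fderiv ℝ D.φ p w) / fderiv ℝ D.φ p v₀) v₀
        simp only [ContinuousLinearMap.coe_restrictScalars'] at this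
        rw [this, h2, smul_zero]
      ext1
      · simp [h3, h4]
      · simp only [ContinuousLinearMap.prod_apply, map_add, map_smul, Prod.snd_add,
          Prod.smul_snd, smul_eq_mul]
        field_simp
        ring
    · filter_upwards [hO'] with q hq
      simp only [Prod.mk_eq_zero]
      rw [← hX q hq]
      rfl

/-- The linear embedding `(x,y,z) ↦ (x,y,√ε z,0,0,0,0)`. -/
def embL (ε : ℝ) : CN 3 →L[ℂ] CN 7 :=
  LinearMap.toContinuousLinearMap
    { toFun := fun q => WithLp.toLp 2 ![q 0, q 1, ((Real.sqrt ε : ℝ) : ℂ) * q 2, 0, 0, 0, 0]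
      map_add' := by
        intro a b
        ext i
        fin_cases i <;> simp [mul_add]
      map_smul' := by
        intro a b
        ext i
        fin_cases i <;> simp [mul_left_comm] }

/-- Its left inverse. -/
def projR (ε : ℝ) : CN 7 →L[ℂ] CN 3 :=
  LinearMap.toContinuousLinearMap
    { toFun := fun q => WithLp.toLp 2 ![q 0, q 1, ((Real.sqrt ε : ℝ) : ℂ)⁻¹ * q 2]
      map_add' := by
        intro a b
        ext i
        fin_cases i <;> simp [mul_add]
      map_smul' := by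
        intro a b
        ext i
        fin_cases i <;> simp [mul_left_comm] }

lemma embL_apply (ε : ℝ) (q : CN 3) :
    embL ε q = WithLp.toLp 2 ![q 0, q 1, ((Real.sqrt ε : ℝ) : ℂ) * q 2, 0, 0, 0, 0] := rfl

lemma projR_apply (ε : ℝ) (q : CN 7) :
    projR ε q = WithLp.toLp 2 ![q 0, q 1, ((Real.sqrt ε : ℝ) : ℂ)⁻¹ * q 2] := rfl

lemma norm_embL (ε : ℝ) (hε : 0 < ε) (q : CN 3) :
    ‖embL ε q‖ ^ 2 = ‖base q‖ ^ 2 + ε * ‖q 2‖ ^ 2 := by
  rw [EuclideanSpace.norm_sq_eq, EuclideanSpace.norm_sq_eq]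
  simp only [embL_apply, base, Fin.sum_univ_succ, Fin.sum_univ_zero]
  simp [mul_pow, Real.sq_sqrt hε.le]
  ring

lemma projR_embL (ε : ℝ) (hε : 0 < ε) (q : CN 3) : projR ε (embL ε q) = q := by
  have h : ((Real.sqrt ε : ℝ) : ℂ) ≠ 0 := by
    exact_mod_cast (Real.sqrt_pos.2 hε).ne'
  ext i
  fin_cases i <;> simp [projR_apply, embL_apply, h]

lemma embL_projR (ε : ℝ) (hε : 0 < ε) (q : CN 7) (h3 : q 3 = 0) (h4 : q 4 = 0) (h5 : q 5 = 0)
    (h6 : q 6 = 0) : embL ε (projR ε q) = q := by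
  have h : ((Real.sqrt ε : ℝ) : ℂ) ≠ 0 := by
    exact_mod_cast (Real.sqrt_pos.2 hε).ne'
  ext i
  fin_cases i <;> simp [projR_apply, embL_apply, h, h3, h4, h5, h6]

/-- Derivative of `‖A x‖² - 1`. -/
lemma fderiv_normsq {N M : ℕ} (A : CN N →L[ℂ] CN M) (p w : CN N) :
    fderiv ℝ (fun q => ‖A q‖ ^ 2 - 1) p w = 2 * (inner ℂ (A p) (A w) : ℂ).re := by
  have hA : HasFDerivAt (fun q => A q) (A.restrictScalars ℝ) p :=
    (A.hasFDerivAt (x := p)).restrictScalars ℝ
  have h1 : HasFDerivAt (fun q => ‖A q‖ ^ 2 - 1)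
      ((2 • (innerSL ℝ (A p) : CN M →L[ℝ] ℝ)).comp (A.restrictScalars ℝ)) p :=
    ((hasStrictFDerivAt_norm_sq (A p)).hasFDerivAt.comp p hA).sub_const 1
  rw [h1.fderiv]
  simp only [ContinuousLinearMap.comp_apply, ContinuousLinearMap.coe_restrictScalars']
  have h2 : (innerSL ℝ (A p) : CN M →L[ℝ] ℝ) (A w) = (inner ℂ (A p) (A w) : ℂ).re := by
    rw [innerSL_apply_apply]
    simp [PiLp.inner_apply, Complex.inner]
  rw [smul_apply, h2]
  simp

lemma norm_sq_sub_one_iff {r : ℝ} (hr : 0 ≤ r) : r ^ 2 - 1 = 0 ↔ r = 1 := by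
  constructor
  · intro h
    have h1 : (r - 1) * (r + 1) = 0 := by linarith [h]
    rcases mul_eq_zero.1 h1 with h2 | h2
    · linarith
    · linarith
  · rintro rfl
    norm_num

/-- The linear embedding maps the boundary of the branched cover onto the link. -/
lemma mem_bd_iff {ε : ℝ} (hε : 0 < ε) {D : SteinDomain 3}
    (hDX : D.X = {q | (q 2) ^ 6 = (q 1) ^ 2 - (q 0) ^ 3 - 1 / 8})
    (hDφ : D.φ = fun q => ‖base q‖ ^ 2 + ε * ‖q 2‖ ^ 2 - 1) (q : CN 3) :
    q ∈ D.bd ↔ embL ε q ∈ link (slice (fam1 (ε ^ 3)) 0) := by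
  have h6 : (((Real.sqrt ε : ℝ) : ℂ)) ^ 6 = ((ε : ℝ) : ℂ) ^ 3 := by
    have h : (Real.sqrt ε) ^ 6 = ε ^ 3 := by
      calc (Real.sqrt ε) ^ 6 = ((Real.sqrt ε) ^ 2) ^ 3 := by ring
        _ = ε ^ 3 := by rw [Real.sq_sqrt hε.le]
    exact_mod_cast h
  have hε' : ((ε : ℝ) : ℂ) ^ 3 ≠ 0 := pow_ne_zero 3 (by exact_mod_cast hε.ne')
  have h1 : (q ∈ D.X) ↔ ((embL ε q, (0 : ℝ)) ∈ fam1 (ε ^ 3)) := by
    rw [hDX]
    simp only [fam1, embL_apply, Set.mem_ofPred_eq]
    simp [mul_pow, h6]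
    intro h
    exact absurd h hε.ne'
  have h2 : D.φ q = 0 ↔ ‖embL ε q‖ = 1 := by
    rw [← norm_sq_sub_one_iff (norm_nonneg (embL ε q)), norm_embL ε hε, hDφ]
  constructor
  · rintro ⟨ha, hb⟩
    exact ⟨h1.1 ha, h2.1 hb⟩
  · rintro ⟨ha, hb⟩
    exact ⟨h1.2 ha, h2.2 hb⟩

theorem tBridge (hT : TTan) : TBridge := by
  intro ε hε hε1 D V hDX hDφ hVφ hL
  obtain ⟨g, g', hg, hg', hm, hm', hgg, hgg', hc⟩ := hL
  have hVbd : V.bd = link V.X := by
    ext q
    simp only [SteinDomain.bd, link, Set.mem_ofPred_eq, hVφ]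
    rw [norm_sq_sub_one_iff (norm_nonneg q)]
  have hMem := mem_bd_iff hε hDX hDφ
  have hLR : ∀ q ∈ link (slice (fam1 (ε ^ 3)) 0), embL ε (projR ε q) = q := by
    rintro q ⟨⟨h3, h4, h5, h6, -⟩, -⟩
    exact embL_projR ε hε q h3 h4 h5 h6
  have hRM : ∀ q ∈ link (slice (fam1 (ε ^ 3)) 0), projR ε q ∈ D.bd := by
    intro q hq
    rw [hMem, hLR q hq]
    exact hq
  have hLd : ∀ p, HasFDerivAt (embL ε) ((embL ε).restrictScalars ℝ) p := fun p =>
    ((embL ε).hasFDerivAt (x := p)).restrictScalars ℝ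
  have hLsm : ContDiff ℝ ∞ (embL ε) := ((embL ε).restrictScalars ℝ).contDiff
  have hRsm : ContDiff ℝ ∞ (projR ε) := ((projR ε).restrictScalars ℝ).contDiff
  have hgd : ∀ p, HasFDerivAt g (fderiv ℝ g p) p := fun p =>
    ((hg.differentiable (by simp)) p).hasFDerivAt
  have hGd : ∀ p, HasFDerivAt (fun q => g (embL ε q))
      ((fderiv ℝ g (embL ε p)).comp ((embL ε).restrictScalars ℝ)) p := fun p =>
    (hgd (embL ε p)).comp p (hLd p)
  have hGf : ∀ p v, fderiv ℝ (fun q => g (embL ε q)) p v =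
      fderiv ℝ g (embL ε p) (embL ε v) := by
    intro p v
    rw [(hGd p).fderiv]
    rfl
  refine ⟨fun q => g (embL ε q), fun q => projR ε (g' q), Set.univ, Set.univ, isOpen_univ,
    isOpen_univ, Set.subset_univ _, Set.subset_univ _, (hg.comp hLsm).contDiffOn,
    (hRsm.comp hg').contDiffOn, ?_, ?_, ?_, ?_, ?_⟩
  · intro p hp
    rw [hVbd]
    exact hm ((hMem p).1 hp)
  · intro q hq
    rw [hVbd] at hq
    exact hRM _ (hm' hq)
  · intro p hp
    simp only
    rw [hgg _ ((hMem p).1 hp), projR_embL ε hε]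
  · intro q hq
    rw [hVbd] at hq
    simp only
    rw [hLR _ (hm' hq), hgg' q hq]
  · intro p hp v hv
    have hLp := (hMem p).1 hp
    have hLv : embL ε v ∈ Tan (link (slice (fam1 (ε ^ 3)) 0)) (embL ε p) := by
      refine tan_map_bridge (hLd p) ?_ hv
      exact Filter.Eventually.of_forall fun q hq => (hMem q).1 hq
    have hGp : g (embL ε p) ∈ V.bd := by
      rw [hVbd]
      exact hm hLp
    have hGv : fderiv ℝ g (embL ε p) (embL ε v) ∈ Tan V.bd (g (embL ε p)) := by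
      refine tan_map_bridge (hgd (embL ε p)) ?_ hLv
      refine Filter.Eventually.of_forall fun q hq => ?_
      rw [hVbd]
      exact hm hq
    obtain ⟨hc1, hc2⟩ := hc _ hLp _ hLv
    have hDφ' : D.φ = fun q => ‖embL ε q‖ ^ 2 - 1 := by
      rw [hDφ]
      funext q
      rw [norm_embL ε hε]
    have hd1 : fderiv ℝ D.φ p (I • v) = -(2 * (inner ℂ (embL ε p) (embL ε v) : ℂ).im) := by
      rw [hDφ', fderiv_normsq, map_smul, inner_smul_right]
      simp
    have hd2 : ∀ w, fderiv ℝ V.φ (g (embL ε p)) (I • w) =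
        -(2 * (inner ℂ (g (embL ε p)) w : ℂ).im) := by
      intro w
      have h := fderiv_normsq (ContinuousLinearMap.id ℂ (CN 7)) (g (embL ε p)) (I • w)
      simp only [ContinuousLinearMap.id_apply] at h
      rw [hVφ, h, inner_smul_right]
      simp
    obtain ⟨A, hA, hTA⟩ := tan_domain hT D hp
    obtain ⟨B, hB, hTB⟩ := tan_domain hT V hGp
    have hx1 : v ∈ D.ξ p ↔ fderiv ℝ D.φ p (I • v) = 0 := by
      constructor
      · rintro ⟨-, h2⟩
        rw [hTA] at h2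
        exact h2.2
      · intro h
        refine ⟨hv, ?_⟩
        rw [hTA] at hv ⊢
        exact ⟨hA v hv.1, h⟩
    have hx2 : fderiv ℝ g (embL ε p) (embL ε v) ∈ V.ξ (g (embL ε p)) ↔
        fderiv ℝ V.φ (g (embL ε p)) (I • fderiv ℝ g (embL ε p) (embL ε v)) = 0 := by
      constructor
      · rintro ⟨-, h2⟩
        rw [hTB] at h2
        exact h2.2
      · intro h
        refine ⟨hGv, ?_⟩
        rw [hTB] at hGv ⊢
        exact ⟨hB _ hGv.1, h⟩
    simp only
    rw [hGf, hx1, hx2, hd1, hd2]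
    constructor
    · constructor
      · intro h
        have h1 : (inner ℂ (embL ε p) (embL ε v) : ℂ).im = 0 := by linarith
        rw [hc2.1 h1]
        simp
      · intro h
        have h1 : (inner ℂ (g (embL ε p)) (fderiv ℝ g (embL ε p) (embL ε v)) : ℂ).im = 0 := by
          linarith
        rw [hc2.2 h1]
        simp
    · constructor
      · intro h
        have h1 : 0 < (inner ℂ (embL ε p) (embL ε v) : ℂ).im := by linarith
        have := hc1.1 h1
        linarith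
      · intro h
        have h1 : 0 < (inner ℂ (g (embL ε p))
          (fderiv ℝ g (embL ε p) (embL ε v)) : ℂ).im := by linarith
        have := hc1.2 h1
        linarith

end

end Pool.Agent.SteinFill
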