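import Pool.Agent.SteinFill.Spec

/-!
# Stein fillings of branched covers: branched covers have a trivial canonical bundle (SF-CTRIV)
-/

namespace Pool.Agent.SteinFill

open scoped ContDiff
open Complex (I)

noncomputable section

namespace CTrivJob

/-! ### Holomorphic functions of several variables are `C¹` -/

lemma contAt_fderiv_apply {E : Type} [NormedAddCommGroup E] [NormedSpace ℂ E]
    [FiniteDimensional ℂ E] {f : E → ℂ} {U : Set E} (hU : IsOpen U) (hf : DifferentiableOn ℂ f U)
    (v : E) {p : E} (hp : p ∈ U) : ContinuousAt (fun q => fderiv ℂ f q v) p := by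
  have : ProperSpace E := FiniteDimensional.proper ℂ E
  obtain ⟨R, hR, hRU⟩ := Metric.nhds_basis_closedBall.mem_iff.1 (hU.mem_nhds hp)
  have hfd : ∀ x ∈ U, DifferentiableAt ℂ f x := fun x hx => hf.differentiableAt (hU.mem_nhds hx)
  set r : ℝ := R / (2 * (1 + ‖v‖)) with hr
  have hv : 0 ≤ ‖v‖ := norm_nonneg v
  have hr0 : 0 < r := by positivity
  have hrv : r * ‖v‖ ≤ R / 2 := by
    have h1 : r * (2 * (1 + ‖v‖)) = R := by rw [hr]; field_simp
    nlinarith
  have huc : UniformContinuousOn f (Metric.closedBall p R) :=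
    (isCompact_closedBall p R).uniformContinuousOn_of_continuous
      ((hf.mono hRU).continuousOn)
  rw [Metric.continuousAt_iff]
  intro e he
  obtain ⟨δ, hδ, hδ'⟩ := Metric.uniformContinuousOn_iff.1 huc (e * r / 2) (by positivity)
  refine ⟨min δ (R / 2), by positivity, fun q hq => ?_⟩
  have hq1 : dist q p < δ := hq.trans_le (min_le_left _ _)
  have hq2 : dist q p < R / 2 := hq.trans_le (min_le_right _ _)
  have hmem : ∀ x : E, dist x p ≤ R / 2 → ∀ t : ℂ, ‖t‖ ≤ r →
      x + t • v ∈ Metric.closedBall p R := by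
    intro x hx t ht
    rw [Metric.mem_closedBall, dist_eq_norm]
    have : x + t • v - p = (x - p) + t • v := by abel
    rw [this]
    refine (norm_add_le _ _).trans ?_
    rw [norm_smul, ← dist_eq_norm]
    have := mul_le_mul_of_nonneg_right ht hv
    linarith
  have hφd : ∀ x : E, dist x p ≤ R / 2 → ∀ t : ℂ, ‖t‖ ≤ r →
      HasDerivAt (fun t : ℂ => f (x + t • v)) (fderiv ℂ f (x + t • v) v) t := by
    intro x hx t ht
    have h1 := (hfd _ (hRU (hmem x hx t ht))).hasFDerivAt
    have h2 : HasDerivAt (fun t : ℂ => x + t • v) v t := by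
      simpa using ((hasDerivAt_id t).smul_const v).const_add x
    exact h1.comp_hasDerivAt t h2
  have hder : HasDerivAt (fun t : ℂ => f (q + t • v) - f (p + t • v))
      (fderiv ℂ f q v - fderiv ℂ f p v) 0 := by
    have h1 := hφd q hq2.le 0 (by simpa using hr0.le)
    have h2 := hφd p (by simpa using (by positivity : (0 : ℝ) ≤ R / 2)) 0 (by simpa using hr0.le)
    have h3 := h1.sub h2
    simp only [zero_smul, add_zero] at h3
    exact h3
  have hdc : DiffContOnCl ℂ (fun t : ℂ => f (q + t • v) - f (p + t • v)) (Metric.ball 0 r) := by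
    refine DifferentiableOn.diffContOnCl fun t ht => ?_
    rw [closure_ball (0 : ℂ) hr0.ne', Metric.mem_closedBall, dist_zero_right] at ht
    have h1 := hφd q hq2.le t ht
    have h2 := hφd p (by simpa using (by positivity : (0 : ℝ) ≤ R / 2)) t ht
    exact (h1.sub h2).differentiableAt.differentiableWithinAt
  have hb := Complex.norm_deriv_le_of_forall_mem_sphere_norm_le (c := (0 : ℂ)) hr0 hdc
    (C := e * r / 2) ?_
  · rw [hder.deriv] at hb
    rw [dist_eq_norm]
    refine hb.trans_lt ?_
    have : e * r / 2 / r = e / 2 := by field_simp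
    rw [this]
    linarith
  · intro t ht
    rw [mem_sphere_zero_iff_norm] at ht
    have h1 := hmem q hq2.le t ht.le
    have h2 := hmem p (by simpa using (by positivity : (0 : ℝ) ≤ R / 2)) t ht.le
    have h3 := hδ' _ h1 _ h2 (by simpa using hq1)
    rw [dist_eq_norm] at h3
    exact h3.le

lemma contAt_fderiv {E : Type} [NormedAddCommGroup E] [NormedSpace ℂ E]
    [FiniteDimensional ℂ E] {f : E → ℂ} {U : Set E} (hU : IsOpen U) (hf : DifferentiableOn ℂ f U)
    {p : E} (hp : p ∈ U) : ContinuousAt (fderiv ℂ f) p := by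
  have h : ContinuousOn (fderiv ℂ f) U := by
    rw [continuousOn_clm_apply]
    intro v q hq
    exact (contAt_fderiv_apply hU hf v hq).continuousWithinAt
  exact h.continuousAt (hU.mem_nhds hp)

lemma strict {E : Type} [NormedAddCommGroup E] [NormedSpace ℂ E]
    [FiniteDimensional ℂ E] {f : E → ℂ} {U : Set E} (hU : IsOpen U) (hf : DifferentiableOn ℂ f U)
    {p : E} (hp : p ∈ U) : HasStrictFDerivAt f (fderiv ℂ f p) p := by
  refine hasStrictFDerivAt_of_hasFDerivAt_of_continuousAt ?_ (contAt_fderiv hU hf hp)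
  filter_upwards [hU.mem_nhds hp] with q hq
  exact (hf.differentiableAt (hU.mem_nhds hq)).hasFDerivAt

/-! ### The projection -/

/-- `(x,y,z) ↦ (x,y)` as a continuous linear map -/
def baseL : CN 3 →L[ℂ] CN 2 :=
  LinearMap.toContinuousLinearMap
    { toFun := base
      map_add' := by
        intro a b
        ext i
        fin_cases i <;> simp [base]
      map_smul' := by
        intro a b
        ext i
        fin_cases i <;> simp [base] }

@[simp] lemma baseL_apply (q : CN 3) : baseL q = base q := rfl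

/-- the third coordinate -/
def coordL (i : Fin 3) : CN 3 →L[ℂ] ℂ := EuclideanSpace.proj i

@[simp] lemma coordL_apply (i : Fin 3) (q : CN 3) : coordL i q = q i := rfl

section

variable (C : ComplexCurve) (m : ℕ)

/-- the equation `z^m - f(x,y)` -/
def Feq (q : CN 3) : ℂ := (q 2) ^ m - C.f (base q)

/-- its domain -/
def Odom : Set (CN 3) := {q | base q ∈ C.U}

lemma isOpen_Odom : IsOpen (Odom C) := C.open_U.preimage baseL.continuous

lemma diff_Feq : DifferentiableOn ℂ (Feq C m) (Odom C) := by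
  intro q hq
  refine DifferentiableAt.differentiableWithinAt ?_
  have h1 : DifferentiableAt ℂ (fun q : CN 3 => C.f (base q)) q := by
    have := (C.holo.differentiableAt (C.open_U.mem_nhds hq)).comp q baseL.differentiableAt
    exact this
  have h2 : DifferentiableAt ℂ (fun q : CN 3 => (q 2) ^ m) q :=
    ((coordL 2).differentiableAt (x := q)).pow m
  exact h2.sub h1

lemma fderiv_Feq {q : CN 3} (hq : q ∈ Odom C) (v : CN 3) :
    fderiv ℂ (Feq C m) q v =
      (m : ℂ) * (q 2) ^ (m - 1) * v 2 - fderiv ℂ C.f (base q) (base v) := by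
  have h1 : HasFDerivAt (fun q : CN 3 => C.f (base q))
      ((fderiv ℂ C.f (base q)).comp baseL) q :=
    (C.holo.differentiableAt (C.open_U.mem_nhds hq)).hasFDerivAt.comp q baseL.hasFDerivAt
  have h2 : HasFDerivAt (fun q : CN 3 => (q 2) ^ m) _ q :=
    ((coordL 2).hasFDerivAt (x := q)).pow m
  have h3 := (h2.sub h1).fderiv
  unfold Feq
  have h4 : fderiv ℂ (fun q : CN 3 => (q 2) ^ m - C.f (base q)) q v = _ :=
    congrArg (fun L : CN 3 →L[ℂ] ℂ => L v) h3
  rw [h4]
  simp [mul_assoc]

/-- partial derivatives -/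
def par (i : Fin 3) (q : CN 3) : ℂ := fderiv ℂ (Feq C m) q (EuclideanSpace.single i 1)

lemma fderiv_eq_sum (q v : CN 3) :
    fderiv ℂ (Feq C m) q v = par C m 0 q * v 0 + par C m 1 q * v 1 + par C m 2 q * v 2 := by
  have hv : v = v 0 • EuclideanSpace.single (0 : Fin 3) (1 : ℂ) +
      v 1 • EuclideanSpace.single (1 : Fin 3) (1 : ℂ) +
      v 2 • EuclideanSpace.single (2 : Fin 3) (1 : ℂ) := by
    ext i
    fin_cases i <;> simp
  conv_lhs => rw [hv]
  rw [map_add, map_add, map_smul, map_smul, map_smul]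
  simp only [par, smul_eq_mul]
  ring

/-- the form -/
def Om (q v w : CN 3) : ℂ :=
  (starRingEnd ℂ) (par C m 0 q) * (v 1 * w 2 - v 2 * w 1) -
  (starRingEnd ℂ) (par C m 1 q) * (v 0 * w 2 - v 2 * w 0) +
  (starRingEnd ℂ) (par C m 2 q) * (v 0 * w 1 - v 1 * w 0)

end

/-- linear algebra: two vectors in the kernel of `a` with `det (conj a, v, w) = 0` are
proportional -/
lemma lin_alg {a0 a1 a2 v0 v1 v2 w0 w1 w2 : ℂ} (ha : a0 ≠ 0 ∨ a1 ≠ 0 ∨ a2 ≠ 0)
    (hv : a0 * v0 + a1 * v1 + a2 * v2 = 0) (hw : a0 * w0 + a1 * w1 + a2 * w2 = 0)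
    (hd : (starRingEnd ℂ) a0 * (v1 * w2 - v2 * w1) - (starRingEnd ℂ) a1 * (v0 * w2 - v2 * w0) +
      (starRingEnd ℂ) a2 * (v0 * w1 - v1 * w0) = 0) :
    v1 * w2 - v2 * w1 = 0 ∧ v0 * w2 - v2 * w0 = 0 ∧ v0 * w1 - v1 * w0 = 0 := by
  set b0 := (starRingEnd ℂ) a0
  set b1 := (starRingEnd ℂ) a1
  set b2 := (starRingEnd ℂ) a2
  have hs : b0 * a0 + b1 * a1 + b2 * a2 ≠ 0 := by
    have h0 : b0 * a0 = ((Complex.normSq a0 : ℝ) : ℂ) := Complex.normSq_eq_conj_mul_self.symm
    have h1 : b1 * a1 = ((Complex.normSq a1 : ℝ) : ℂ) := Complex.normSq_eq_conj_mul_self.symm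
    have h2 : b2 * a2 = ((Complex.normSq a2 : ℝ) : ℂ) := Complex.normSq_eq_conj_mul_self.symm
    rw [h0, h1, h2]
    intro h
    have h' : Complex.normSq a0 + Complex.normSq a1 + Complex.normSq a2 = 0 := by
      exact_mod_cast h
    have n0 := Complex.normSq_nonneg a0
    have n1 := Complex.normSq_nonneg a1
    have n2 := Complex.normSq_nonneg a2
    rcases ha with h3 | h3 | h3
    · have := Complex.normSq_pos.2 h3; linarith
    · have := Complex.normSq_pos.2 h3; linarith
    · have := Complex.normSq_pos.2 h3; linarith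
  have key : ∀ x : ℂ, (b0 * a0 + b1 * a1 + b2 * a2) * x = 0 → x = 0 := by
    intro x hx
    rcases mul_eq_zero.1 hx with h | h
    · exact absurd h hs
    · exact h
  refine ⟨key _ ?_, key _ ?_, key _ ?_⟩
  · linear_combination a0 * hd + (b1 * w2 - b2 * w1) * hv - (b1 * v2 - b2 * v1) * hw
  · linear_combination (-a1) * hd + (b0 * w2 - b2 * w0) * hv - (b0 * v2 - b2 * v0) * hw
  · linear_combination a2 * hd + (b0 * w1 - b1 * w0) * hv - (b0 * v1 - b1 * v0) * hw

/-- the gradient does not vanish on `W` -/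
lemma par_ne (C : ComplexCurve) {m : ℕ} (hm : 2 ≤ m) {q : CN 3} (hq : q ∈ Odom C)
    (hF : Feq C m q = 0) (hb : ‖base q‖ ≤ 1) :
    par C m 0 q ≠ 0 ∨ par C m 1 q ≠ 0 ∨ par C m 2 q ≠ 0 := by
  by_contra hcon
  push Not at hcon
  obtain ⟨h0, h1, h2⟩ := hcon
  have hall : ∀ v, fderiv ℂ (Feq C m) q v = 0 := by
    intro v
    rw [fderiv_eq_sum, h0, h1, h2]
    ring
  have hbase2 : base (EuclideanSpace.single (2 : Fin 3) (1 : ℂ)) = 0 := by
    ext i
    fin_cases i <;> simp [base]
  have hz : q 2 = 0 := by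
    have := hall (EuclideanSpace.single (2 : Fin 3) (1 : ℂ))
    rw [fderiv_Feq C m hq, hbase2] at this
    simp only [map_zero, sub_zero, PiLp.single_apply, if_true, mul_one] at this
    rcases mul_eq_zero.1 this with h | h
    · exfalso
      have : m = 0 := by exact_mod_cast h
      omega
    · exact pow_eq_zero_iff (by omega) |>.1 h
  have hf : C.f (base q) = 0 := by
    have : (q 2) ^ m - C.f (base q) = 0 := hF
    rw [hz, zero_pow (by omega), zero_sub, neg_eq_zero] at this
    exact this
  have hne := C.smooth (base q) (by rwa [mem_closedBall_zero_iff]) hf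
  apply hne
  ext v
  have := hall (WithLp.toLp 2 ![v 0, v 1, 0])
  rw [fderiv_Feq C m hq, hz, zero_pow (by omega)] at this
  have hbv : base (WithLp.toLp 2 ![v 0, v 1, 0]) = v := by
    ext i
    fin_cases i <;> simp [base]
  rw [hbv] at this
  simpa using this

end CTrivJob

open CTrivJob in
theorem tCoverTriv (hT : TTan) : TCoverTriv := by
  intro C m ε D hm hε hD
  obtain ⟨hX, hφ⟩ := hD
  have hWmem : ∀ p ∈ D.W, p ∈ Odom C ∧ Feq C m p = 0 ∧ ‖base p‖ ≤ 1 := by
    intro p hp
    obtain ⟨hpX, hpφ⟩ := hp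
    rw [hX] at hpX
    rw [hφ] at hpφ
    refine ⟨hpX.1, sub_eq_zero.2 hpX.2, ?_⟩
    simp only at hpφ
    have h1 : 0 ≤ ε * ‖p 2‖ ^ 2 := by positivity
    have h2 : ‖base p‖ ^ 2 ≤ 1 := by linarith
    exact (sq_le_one_iff₀ (norm_nonneg _)).1 h2
  have hTan : ∀ p ∈ D.W, Tan D.X p = {v | fderiv ℂ (Feq C m) p v = 0} := by
    intro p hp
    obtain ⟨h1, h2, h3⟩ := hWmem p hp
    have hs : HasStrictFDerivAt (Feq C m) ((fderiv ℂ (Feq C m) p).restrictScalars ℝ) p :=
      (strict (isOpen_Odom C) (diff_Feq C m) h1).restrictScalars ℝ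
    have hsurj : Function.Surjective ((fderiv ℂ (Feq C m) p).restrictScalars ℝ) := by
      intro y
      have hv : ∃ v, fderiv ℂ (Feq C m) p v ≠ 0 := by
        rcases par_ne C hm h1 h2 h3 with h | h | h
        · exact ⟨_, h⟩
        · exact ⟨_, h⟩
        · exact ⟨_, h⟩
      obtain ⟨v, hv⟩ := hv
      refine ⟨(y / fderiv ℂ (Feq C m) p v) • v, ?_⟩
      rw [ContinuousLinearMap.coe_restrictScalars', map_smul, smul_eq_mul, div_mul_cancel₀ _ hv]
    have := hT (CN 3) ℂ (Feq C m) _ D.X p hs hsurj h2 ?_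
    · rw [this]
      rfl
    · filter_upwards [(isOpen_Odom C).mem_nhds h1] with q hq
      rw [hX]
      constructor
      · rintro ⟨_, h⟩
        exact sub_eq_zero.2 h
      · intro h
        exact ⟨hq, sub_eq_zero.1 h⟩
  have hpar : ∀ i, ContinuousOn (par C m i) D.W := fun i p hp =>
    (contAt_fderiv_apply (isOpen_Odom C) (diff_Feq C m) _ (hWmem p hp).1).continuousWithinAt
  refine ⟨Om C m, ?_⟩
  constructor
  · have hp : ∀ i, ContinuousOn (fun x : CN 3 × CN 3 × CN 3 => par C m i x.1)
        {x | x.1 ∈ D.W ∧ x.2.1 ∈ Tan D.X x.1 ∧ x.2.2 ∈ Tan D.X x.1} := fun i =>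
      (hpar i).comp continuous_fst.continuousOn fun x hx => hx.1
    have hc : ∀ i, ContinuousOn (fun x : CN 3 × CN 3 × CN 3 => (starRingEnd ℂ) (par C m i x.1))
        {x | x.1 ∈ D.W ∧ x.2.1 ∈ Tan D.X x.1 ∧ x.2.2 ∈ Tan D.X x.1} := fun i =>
      Complex.continuous_conj.comp_continuousOn (hp i)
    have hv : ∀ i : Fin 3, ContinuousOn (fun x : CN 3 × CN 3 × CN 3 => x.2.1 i)
        {x | x.1 ∈ D.W ∧ x.2.1 ∈ Tan D.X x.1 ∧ x.2.2 ∈ Tan D.X x.1} := fun i =>
      ((coordL i).continuous.comp (continuous_fst.comp continuous_snd)).continuousOn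
    have hw : ∀ i : Fin 3, ContinuousOn (fun x : CN 3 × CN 3 × CN 3 => x.2.2 i)
        {x | x.1 ∈ D.W ∧ x.2.1 ∈ Tan D.X x.1 ∧ x.2.2 ∈ Tan D.X x.1} := fun i =>
      ((coordL i).continuous.comp (continuous_snd.comp continuous_snd)).continuousOn
    unfold Om
    exact (((hc 0).mul (((hv 1).mul (hw 2)).sub ((hv 2).mul (hw 1)))).sub
      ((hc 1).mul (((hv 0).mul (hw 2)).sub ((hv 2).mul (hw 0))))).add
      ((hc 2).mul (((hv 0).mul (hw 1)).sub ((hv 1).mul (hw 0))))
  · intro p _ u _ v _ w _
    simp only [Om, PiLp.add_apply]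
    ring
  · intro p _ v _ w _ a
    simp only [Om, PiLp.smul_apply, Complex.real_smul]
    ring
  · intro p _ v _
    simp only [Om]
    ring
  · intro p _ v _ w _
    simp only [Om, mulI, PiLp.smul_apply, smul_eq_mul]
    ring
  · intro p hp v hv w hw h0
    rw [hTan p hp] at hv hw
    have hv' : fderiv ℂ (Feq C m) p v = 0 := hv
    have hw' : fderiv ℂ (Feq C m) p w = 0 := hw
    rw [fderiv_eq_sum] at hv' hw'
    obtain ⟨h1, h2, h3⟩ := hWmem p hp
    obtain ⟨c0, c1, c2⟩ := lin_alg (par_ne C hm h1 h2 h3) hv' hw' h0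
    -- a complex dependency
    have hdep : ∃ α β : ℂ, (α, β) ≠ (0, 0) ∧ α • v + β • w = 0 := by
      by_cases hv0 : v 0 = 0
      · by_cases hv1 : v 1 = 0
        · by_cases hv2 : v 2 = 0
          · refine ⟨1, 0, by simp, ?_⟩
            ext i
            fin_cases i <;> simp [hv0, hv1, hv2]
          · refine ⟨w 2, -v 2, by simp [hv2], ?_⟩
            ext i
            fin_cases i
            · simp only [PiLp.add_apply, PiLp.smul_apply, smul_eq_mul, PiLp.zero_apply,
                Fin.zero_eta]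
              linear_combination c1
            · simp only [PiLp.add_apply, PiLp.smul_apply, smul_eq_mul, PiLp.zero_apply,
                Fin.mk_one]
              linear_combination c0
            · simp only [PiLp.add_apply, PiLp.smul_apply, smul_eq_mul, PiLp.zero_apply,
                Fin.reduceFinMk]
              ring
        · refine ⟨w 1, -v 1, by simp [hv1], ?_⟩
          ext i
          fin_cases i
          · simp only [PiLp.add_apply, PiLp.smul_apply, smul_eq_mul, PiLp.zero_apply,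
              Fin.zero_eta]
            linear_combination c2
          · simp only [PiLp.add_apply, PiLp.smul_apply, smul_eq_mul, PiLp.zero_apply,
              Fin.mk_one]
            ring
          · simp only [PiLp.add_apply, PiLp.smul_apply, smul_eq_mul, PiLp.zero_apply,
              Fin.reduceFinMk]
            linear_combination (-1 : ℂ) * c0
      · refine ⟨w 0, -v 0, by simp [hv0], ?_⟩
        ext i
        fin_cases i
        · simp only [PiLp.add_apply, PiLp.smul_apply, smul_eq_mul, PiLp.zero_apply,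
            Fin.zero_eta]
          ring
        · simp only [PiLp.add_apply, PiLp.smul_apply, smul_eq_mul, PiLp.zero_apply,
            Fin.mk_one]
          linear_combination (-1 : ℂ) * c2
        · simp only [PiLp.add_apply, PiLp.smul_apply, smul_eq_mul, PiLp.zero_apply,
            Fin.reduceFinMk]
          linear_combination (-1 : ℂ) * c1
    obtain ⟨α, β, hne, hdep⟩ := hdep
    refine ⟨α.re, α.im, β.re, β.im, ?_, ?_⟩
    · intro h
      apply hne
      simp only [Prod.mk.injEq] at h ⊢
      exact ⟨Complex.ext h.1 h.2.1, Complex.ext h.2.2.1 h.2.2.2⟩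
    · have e : ∀ (z : ℂ) (x : CN 3), z • x = z.re • x + z.im • mulI p x := by
        intro z x
        ext i
        simp only [PiLp.add_apply, PiLp.smul_apply, mulI, smul_eq_mul, Complex.real_smul]
        conv_lhs => rw [← Complex.re_add_im z]
        ring
      rw [e α v, e β w] at hdep
      rw [← hdep]
      abel

end

end Pool.Agent.SteinFill
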