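import Pool.Agent.SteinFill.Spec

/-!
# The two charts of `A_t`
-/

namespace Pool.Agent.SteinFill

theorem tChartI : TChartI := by
  intro t q hσ h0 h1 h2 h4 h7
  have hσ2 : (q 4) ^ 2 ≠ 0 := pow_ne_zero 2 hσ
  refine ⟨h0, h1, h2, ?_, h4, ?_, h7, ?_, ?_, ?_⟩
  · apply mul_left_cancel₀ hσ2
    linear_combination (q 4 * q 5 + ((q 3) ^ 2 * q 0 + q 3 * q 1 * t - 2 * (q 0) ^ 2 * t ^ 2 +
      q 3 * t ^ 4)) * h4 - ((q 0) ^ 2 * q 3 + 2 * q 0 * q 1 * t + (q 3) ^ 2 * t ^ 2 -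
      2 * q 0 * t ^ 4) * h1 + (-4 * q 0 * t ^ 4 + (q 3) ^ 2 * t ^ 2) * h2
  · apply mul_left_cancel₀ hσ
    linear_combination q 0 * h1 - q 3 * h4 + t * h7
  · apply mul_left_cancel₀ hσ2
    linear_combination (q 6 * q 4 + (((q 3) ^ 2 - 2 * q 0 * t ^ 2) * q 1 + (q 0) ^ 2 * q 3 * t +
      (q 3) ^ 2 * t ^ 3 - 2 * q 0 * t ^ 5)) * h7 - ((q 0) ^ 3 * q 3 + (q 3) ^ 4 -
      4 * (q 3) ^ 2 * q 0 * t ^ 2 + 2 * (q 0) ^ 2 * t ^ 4 + 2 * (q 0) ^ 2 * q 1 * t) * h1 +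
      (-4 * q 0 * (q 3) ^ 2 * t ^ 2 + (q 3) ^ 4) * h2
  · apply mul_left_cancel₀ hσ
    linear_combination q 1 * h4 - q 0 * h7 - t * q 3 * h1 + t ^ 3 * h4 + q 3 * t * h2
  · apply mul_left_cancel₀ hσ
    linear_combination q 1 * h1 - q 3 * h7 + t * q 0 * h4 - t ^ 3 * h1 + 2 * t ^ 3 * h2

theorem tChartP : TChartP := by
  intro t q hD h0 h2 h3 h5 h10
  have hD2 : ((q 0) ^ 2 - t ^ 2 * q 3) ^ 2 ≠ 0 := pow_ne_zero 2 hD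
  have hS : ((q 0) ^ 2 - t ^ 2 * q 3) * q 4 = q 5 * (q 3 * q 0 - t * q 1 - t ^ 4) := by
    linear_combination q 0 * h5 + t * h10
  have hK : ((q 0) ^ 2 - t ^ 2 * q 3) * q 6 =
      q 5 * (q 0 * q 1 + q 0 * t ^ 3 - t * (q 3) ^ 2) := by
    linear_combination (-q 0) * h10 - t * q 3 * h5
  refine ⟨h0, ?_, h2, h3, ?_, h5, ?_, ?_, h10, ?_⟩
  · apply mul_left_cancel₀ hD2
    linear_combination (((q 0) ^ 2 - t ^ 2 * q 3) * q 4 +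
      q 5 * (q 3 * q 0 - t * q 1 - t ^ 4)) * hS + (q 3 * q 0 - t * q 1 - t ^ 4) ^ 2 * h3 +
      (-3 * (q 0) ^ 2 * q 3 * t ^ 2 + 2 * q 0 * q 1 * t ^ 3 + 2 * q 0 * t ^ 6 +
        (q 3) ^ 2 * t ^ 4) * h2
  · apply mul_left_cancel₀ hD
    linear_combination q 5 * hS + (q 3 * q 0 - t * q 1 - t ^ 4) * h3 + (-2 * q 0 * t ^ 2) * h2
  · apply mul_left_cancel₀ hD2
    linear_combination (((q 0) ^ 2 - t ^ 2 * q 3) * q 6) * hS +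
      (q 5 * (q 3 * q 0 - t * q 1 - t ^ 4)) * hK +
      ((q 3 * q 0 - t * q 1 - t ^ 4) * (q 0 * q 1 + q 0 * t ^ 3 - t * (q 3) ^ 2)) * h3 +
      ((q 0) ^ 3 * q 3 * t - 2 * (q 0) ^ 2 * q 1 * t ^ 2 - 2 * (q 0) ^ 2 * t ^ 5 +
        q 0 * (q 3) ^ 2 * t ^ 3) * h2
  · apply mul_left_cancel₀ hD2
    linear_combination (((q 0) ^ 2 - t ^ 2 * q 3) * q 6 +
      q 5 * (q 0 * q 1 + q 0 * t ^ 3 - t * (q 3) ^ 2)) * hK +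
      (q 0 * q 1 + q 0 * t ^ 3 - t * (q 3) ^ 2) ^ 2 * h3 +
      ((q 0) ^ 4 * q 3 + 2 * (q 0) ^ 3 * q 1 * t + 2 * (q 0) ^ 3 * t ^ 4 -
        3 * (q 0) ^ 2 * (q 3) ^ 2 * t ^ 2) * h2
  · apply mul_left_cancel₀ hD
    linear_combination q 1 * hS - q 3 * hK - t ^ 3 * hS + q 5 * (-t) * h2

end Pool.Agent.SteinFill
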