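import Pool.Agent.SteinFill.Spec

/-!
# The ends of the families match
-/

namespace Pool.Agent.SteinFill

open scoped ContDiff
open Complex (I)

noncomputable section

theorem ends_first (c : ℝ) : link (slice (fam1 c) 1) = link (slice fam2 0) := by
  have key : slice (fam1 c) 1 = slice fam2 0 := by
    ext q
    simp only [slice, fam1, fam2, Set.mem_ofPred_eq]
    constructor
    · rintro ⟨h3, h4, h5, h6, h⟩
      refine ⟨q 0, q 1, q 2, ?_, ?_⟩
      · have h' : (q 2) ^ 6 = (q 1) ^ 2 - (q 0) ^ 3 := by
          rw [h]; push_cast; ring
        rw [h']; ring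
      · ext i
        fin_cases i <;> simp [h3, h4, h5, h6]
    · rintro ⟨x, y, z, h, hq⟩
      have e0 : q 0 = x := by rw [hq]; simp
      have e1 : q 1 = y := by rw [hq]; simp
      have e2 : q 2 = z := by rw [hq]; simp
      have e3 : q 3 = 0 := by rw [hq]; simp
      have e4 : q 4 = 0 := by rw [hq]; simp
      have e5 : q 5 = 0 := by rw [hq]; simp
      have e6 : q 6 = 0 := by rw [hq]; simp
      refine ⟨e3, e4, e5, e6, ?_⟩
      rw [e0, e1, e2, h]
      push_cast
      ring
  rw [key]

theorem ends_second (t₀ : ℝ) : link (slice fam2 1) = link (slice (fam3 t₀) 0) := by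
  have key : slice fam2 1 = slice (fam3 t₀) 0 := by
    ext q
    simp only [slice, fam2, fam3, Set.mem_ofPred_eq]
    constructor
    · rintro ⟨x, y, z, h, hq⟩
      have e0 : q 0 = x := by rw [hq]; simp
      have e1 : q 1 = y := by rw [hq]; simp
      have e2 : q 2 = 0 := by rw [hq]; simp
      have e3 : q 3 = z ^ 2 := by rw [hq]; simp
      have e4 : q 4 = z ^ 3 := by rw [hq]; simp
      have e5 : q 5 = x * z := by rw [hq]; simp
      have e6 : q 6 = y * z := by rw [hq]; simp
      constructor
      · exact e2
      all_goals
        simp only [e0, e1, e3, e4, e5, e6]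
        push_cast
        first
        | ring1
        | linear_combination h
        | linear_combination z ^ 2 * h
    · intro hs
      have h1 := hs.r1
      have h2 := hs.r2
      have h3 := hs.r3
      have h5 := hs.r5
      have h9 := hs.r9
      have h11 := hs.r11
      push_cast at h1 h2 h3 h5 h9 h11
      simp only [zero_mul] at h1 h2 h3 h5 h9 h11
      by_cases hq3 : q 3 = 0
      · have e4 : q 4 = 0 := by
          have : (q 4) ^ 2 = 0 := by rw [h1, hq3]; ring
          exact pow_eq_zero_iff (two_ne_zero) |>.1 this
        have e5 : q 5 = 0 := by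
          have : (q 5) ^ 2 = 0 := by rw [h3, hq3]; ring
          exact pow_eq_zero_iff (two_ne_zero) |>.1 this
        have e6 : q 6 = 0 := by
          have : (q 6) ^ 2 = 0 := by rw [h9, hq3]; ring
          exact pow_eq_zero_iff (two_ne_zero) |>.1 this
        refine ⟨q 0, q 1, 0, ?_, ?_⟩
        · rw [h2, hq3]; ring
        · ext i
          fin_cases i <;> simp [hq3, e4, e5, e6, hs.r0]
      · have hz2 : (q 4 / q 3) ^ 2 = q 3 := by
          field_simp
          linear_combination h1
        have hz3 : (q 4 / q 3) ^ 3 = q 4 := by
          field_simp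
          linear_combination q 4 * h1
        have hx : q 0 * (q 4 / q 3) = q 5 := by
          field_simp
          linear_combination h5
        have hy : q 1 * (q 4 / q 3) = q 6 := by
          field_simp
          linear_combination h11
        refine ⟨q 0, q 1, q 4 / q 3, ?_, ?_⟩
        · have : (q 4 / q 3) ^ 6 = (q 3) ^ 3 := by
            calc (q 4 / q 3) ^ 6 = ((q 4 / q 3) ^ 2) ^ 3 := by ring
              _ = _ := by rw [hz2]
          rw [this, h2]; ring
        · ext i
          fin_cases i
          · simp
          · simp
          · simp [hs.r0]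
          · simp only [sub_self, Complex.ofReal_one, one_mul, hz2, hz3, hx, hy]; rfl
          · simp only [sub_self, Complex.ofReal_one, one_mul, hz2, hz3, hx, hy]; rfl
          · simp only [sub_self, Complex.ofReal_one, one_mul, hz2, hz3, hx, hy]; rfl
          · simp only [sub_self, Complex.ofReal_one, one_mul, hz2, hz3, hx, hy]; rfl
  rw [key]

theorem tEnds : TEnds := ⟨ends_first, ends_second⟩

end

end Pool.Agent.SteinFill
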