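import Pool.Agent.SteinFill.Spec

namespace Pool.Agent.SteinFill

open scoped ContDiff
open Complex (I)

noncomputable section

namespace VL_

/-- real coordinate -/
def pr {N : ℕ} (i : Fin N) : CN N →L[ℝ] ℂ :=
  (EuclideanSpace.proj i : CN N →L[ℂ] ℂ).restrictScalars ℝ

theorem pr_apply {N : ℕ} (i : Fin N) (v : CN N) : pr i v = v i := rfl

def B0 : ℂ →L[ℝ] ℂ →L[ℝ] ℝ :=
  Complex.reCLM.smulRight Complex.reCLM + Complex.imCLM.smulRight Complex.imCLM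

theorem B0_apply (a b : ℂ) : B0 a b = a.re * b.re + a.im * b.im := by
  simp [B0]

def Bw {N : ℕ} (c : Fin N → ℝ) : CN N →L[ℝ] CN N →L[ℝ] ℝ :=
  ∑ i, c i • B0.bilinearComp (pr i) (pr i)

theorem Bw_apply {N : ℕ} (c : Fin N → ℝ) (v w : CN N) :
    Bw c v w = ∑ i, c i * ((v i).re * (w i).re + (v i).im * (w i).im) := by
  simp only [Bw, _root_.sum_apply, _root_.smul_apply,
    ContinuousLinearMap.bilinearComp_apply, B0_apply, pr_apply, smul_eq_mul]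

theorem Bw_symm {N : ℕ} (c : Fin N → ℝ) (v w : CN N) : Bw c v w = Bw c w v := by
  rw [Bw_apply, Bw_apply]
  refine Finset.sum_congr rfl fun i _ => by ring

theorem fderiv_Bw {N : ℕ} (c : Fin N → ℝ) :
    fderiv ℝ (fun q => Bw c q q - 1) = fun p => (2 : ℝ) • Bw c p := by
  funext p
  have h := (Bw c).hasFDerivAt_of_bilinear (hasFDerivAt_id p) (hasFDerivAt_id p)
  have h2 := (h.sub_const 1).fderiv
  simp only [id] at h2
  rw [h2]
  ext v
  simp [ContinuousLinearMap.precompR_apply, ContinuousLinearMap.precompL_apply]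
  rw [Bw_symm c v p]
  ring

theorem levi_Bw {N : ℕ} (c : Fin N → ℝ) (p v : CN N) :
    levi (fun q => Bw c q q - 1) p v = 4 * ∑ i, c i * Complex.normSq (v i) := by
  unfold levi
  rw [fderiv_Bw]
  have h : fderiv ℝ (fun p => (2 : ℝ) • Bw c p) p = (2 : ℝ) • Bw c :=
    ((2 : ℝ) • Bw c).fderiv
  rw [h]
  simp only [_root_.smul_apply, Bw_apply, smul_eq_mul, Finset.mul_sum,
    ← Finset.sum_add_distrib]
  refine Finset.sum_congr rfl fun i _ => ?_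
  have h1 : ((I • v) i) = I * v i := rfl
  rw [h1, Complex.normSq_apply, Complex.mul_re, Complex.mul_im]
  simp
  ring

theorem contDiff_Bw {N : ℕ} (c : Fin N → ℝ) : ContDiff ℝ ∞ (fun q => Bw c q q - 1) := by
  have h : ContDiff ℝ ∞ (fun q => Bw c q q) :=
    (Bw c).isBoundedBilinearMap.contDiff.comp (contDiff_id.prodMk contDiff_id)
  exact h.sub contDiff_const

theorem Bw_self {N : ℕ} (c : Fin N → ℝ) (q : CN N) :
    Bw c q q = ∑ i, c i * ‖q i‖ ^ 2 := by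
  rw [Bw_apply]
  refine Finset.sum_congr rfl fun i _ => ?_
  rw [← Complex.normSq_eq_norm_sq, Complex.normSq_apply]

theorem norm_eq {N : ℕ} : (fun q : CN N => ‖q‖ ^ 2 - 1) = fun q => Bw (fun _ => 1) q q - 1 := by
  funext q
  rw [Bw_self, EuclideanSpace.norm_sq_eq]
  simp

theorem re_inner {N : ℕ} (p v : CN N) : (inner ℂ p v : ℂ).re = Bw (fun _ => 1) p v := by
  rw [Bw_apply, PiLp.inner_apply, Complex.re_sum]
  refine Finset.sum_congr rfl fun i _ => ?_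
  simp
  ring

theorem isClosed_symSurf (t : ℝ) : IsClosed (symSurf t) := by
  have hc : ∀ i : Fin 7, Continuous fun q : CN 7 => q i := fun i =>
    (EuclideanSpace.proj i : CN 7 →L[ℂ] ℂ).continuous
  have h : symSurf t = {q : CN 7 | q 2 = 0} ∩
      {q : CN 7 | (q 4) ^ 2 = (q 3) ^ 3 - 3 * q 3 * q 0 * (t:ℂ) ^ 2 + 2 * q 1 * (t:ℂ) ^ 3 + 2 * (t:ℂ) ^ 6} ∩
      {q : CN 7 | (q 1) ^ 2 = (q 0) ^ 3 + (q 3) ^ 3 - 3 * q 3 * q 0 * (t:ℂ) ^ 2 + (t:ℂ) ^ 6} ∩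
      {q : CN 7 | (q 5) ^ 2 = (q 0) ^ 2 * q 3 + 2 * q 0 * q 1 * (t:ℂ) + (q 3) ^ 2 * (t:ℂ) ^ 2 - 2 * q 0 * (t:ℂ) ^ 4} ∩
      {q : CN 7 | q 4 * q 5 = (q 3) ^ 2 * q 0 + q 3 * q 1 * (t:ℂ) - 2 * (q 0) ^ 2 * (t:ℂ) ^ 2 + q 3 * (t:ℂ) ^ 4} ∩
      {q : CN 7 | q 0 * q 4 = q 3 * q 5 - (t:ℂ) * q 6} ∩
      {q : CN 7 | q 6 * q 4 = ((q 3) ^ 2 - 2 * q 0 * (t:ℂ) ^ 2) * q 1 + (q 0) ^ 2 * q 3 * (t:ℂ) +
        (q 3) ^ 2 * (t:ℂ) ^ 3 - 2 * q 0 * (t:ℂ) ^ 5} ∩
      {q : CN 7 | (q 6) ^ 2 = (q 0) ^ 3 * q 3 + (q 3) ^ 4 - 4 * (q 3) ^ 2 * q 0 * (t:ℂ) ^ 2 +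
        2 * (q 0) ^ 2 * (t:ℂ) ^ 4 + 2 * (q 0) ^ 2 * q 1 * (t:ℂ)} ∩
      {q : CN 7 | q 1 * q 5 = q 0 * q 6 + (t:ℂ) * q 3 * q 4 - (t:ℂ) ^ 3 * q 5} ∩
      {q : CN 7 | q 1 * q 4 = q 3 * q 6 - (t:ℂ) * q 0 * q 5 + (t:ℂ) ^ 3 * q 4} := by
    ext q
    simp only [symSurf, Set.mem_ofPred_eq, Set.mem_inter_iff]
    constructor
    · rintro ⟨h0, h1, h2, h3, h4, h5, h7, h9, h10, h11⟩
      exact ⟨⟨⟨⟨⟨⟨⟨⟨⟨h0, h1⟩, h2⟩, h3⟩, h4⟩, h5⟩, h7⟩, h9⟩, h10⟩, h11⟩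
    · rintro ⟨⟨⟨⟨⟨⟨⟨⟨⟨h0, h1⟩, h2⟩, h3⟩, h4⟩, h5⟩, h7⟩, h9⟩, h10⟩, h11⟩
      exact ⟨h0, h1, h2, h3, h4, h5, h7, h9, h10, h11⟩
  rw [h]
  have hc0 := hc 0
  have hc1 := hc 1
  have hc2 := hc 2
  have hc3 := hc 3
  have hc4 := hc 4
  have hc5 := hc 5
  have hc6 := hc 6
  refine IsClosed.inter (IsClosed.inter (IsClosed.inter (IsClosed.inter (IsClosed.inter
    (IsClosed.inter (IsClosed.inter (IsClosed.inter (IsClosed.inter ?_ ?_) ?_) ?_) ?_) ?_) ?_) ?_)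
    ?_) ?_ <;> exact isClosed_eq (by fun_prop) (by fun_prop)


theorem curve_key (x y : ℂ) (h : y ^ 2 - x ^ 3 - 1 / 8 = 0) (hn : ‖x‖ ^ 2 + ‖y‖ ^ 2 = 1)
    (ha : (starRingEnd ℂ x) * (2 * y) + (starRingEnd ℂ y) * (3 * x ^ 2) = 0) : False := by
  have hx0 : x ≠ 0 := by
    rintro rfl
    have h1 : y ^ 2 = 1 / 8 := by linear_combination h
    have h2 : ‖y‖ ^ 2 = 1 / 8 := by
      rw [← norm_pow, h1]; norm_num
    rw [norm_zero] at hn
    linarith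
  have hy0 : y ≠ 0 := by
    rintro rfl
    have h1 : x ^ 3 = -(1 / 8) := by linear_combination -h
    have h2 : ‖x‖ ^ 3 = 1 / 8 := by
      rw [← norm_pow, h1]; norm_num
    rw [norm_zero] at hn
    have h3 : ‖x‖ = 1 := by
      have := norm_nonneg x
      nlinarith
    rw [h3] at h2
    norm_num at h2
  have hxp := norm_pos_iff.2 hx0
  have hyp := norm_pos_iff.2 hy0
  have h1 : ‖(starRingEnd ℂ x) * (2 * y)‖ = ‖(starRingEnd ℂ y) * (3 * x ^ 2)‖ := by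
    rw [eq_neg_of_add_eq_zero_left ha, norm_neg]
  simp only [norm_mul, norm_pow, RCLike.norm_conj] at h1
  norm_num at h1
  have h2 : ‖x‖ = 2 / 3 := by
    have h3 : ‖x‖ * ‖y‖ * (3 * ‖x‖ - 2) = 0 := by linarith
    have h4 : ‖x‖ * ‖y‖ ≠ 0 := by positivity
    have h5 := (mul_eq_zero.1 h3).resolve_left h4
    linarith
  have h3 : ‖y‖ ^ 2 = 5 / 9 := by
    rw [h2] at hn
    linarith
  have h4 : y ^ 2 = x ^ 3 + 1 / 8 := by linear_combination h
  have h5 : ‖y‖ ^ 2 ≤ ‖x‖ ^ 3 + 1 / 8 := by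
    rw [← norm_pow, h4]
    refine (norm_add_le _ _).trans ?_
    rw [norm_pow]
    norm_num
  rw [h3, h2] at h5
  norm_num at h5

def fC (p : CN 2) : ℂ := (p 1) ^ 2 - (p 0) ^ 3 - 1 / 8

def fC' (p : CN 2) : CN 2 →L[ℂ] ℂ :=
  (2 * p 1) • (EuclideanSpace.proj 1 : CN 2 →L[ℂ] ℂ) -
    (3 * (p 0) ^ 2) • (EuclideanSpace.proj 0 : CN 2 →L[ℂ] ℂ)

theorem hasFDerivAt_fC (p : CN 2) : HasFDerivAt fC (fC' p) p := by
  have h0 : HasFDerivAt (fun q : CN 2 => q 0) (EuclideanSpace.proj 0 : CN 2 →L[ℂ] ℂ) p :=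
    (EuclideanSpace.proj 0 : CN 2 →L[ℂ] ℂ).hasFDerivAt
  have h1 : HasFDerivAt (fun q : CN 2 => q 1) (EuclideanSpace.proj 1 : CN 2 →L[ℂ] ℂ) p :=
    (EuclideanSpace.proj 1 : CN 2 →L[ℂ] ℂ).hasFDerivAt
  have h := ((h1.pow 2).sub (h0.pow 3)).sub_const (1 / 8 : ℂ)
  refine h.congr_fderiv ?_
  ext v
  simp [fC']

theorem fC'_apply (p v : CN 2) : fC' p v = 2 * p 1 * v 1 - 3 * (p 0) ^ 2 * v 0 := by
  simp [fC']

theorem inner2 (p v : CN 2) : (inner ℂ p v : ℂ) =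
    (starRingEnd ℂ (p 0)) * v 0 + (starRingEnd ℂ (p 1)) * v 1 := by
  rw [PiLp.inner_apply, Fin.sum_univ_two]
  simp
  ring

/-- vectors of `ℂ³` -/
def v3 (a b c : ℂ) : CN 3 := WithLp.toLp 2 ![a, b, c]

theorem v3_0 (a b c : ℂ) : v3 a b c 0 = a := rfl
theorem v3_1 (a b c : ℂ) : v3 a b c 1 = b := rfl
theorem v3_2 (a b c : ℂ) : v3 a b c 2 = c := rfl

def fD (p : CN 3) : ℂ := (p 2) ^ 6 - ((p 1) ^ 2 - (p 0) ^ 3 - 1 / 8)

def fD' (p : CN 3) : CN 3 →L[ℂ] ℂ :=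
  (6 * (p 2) ^ 5) • (EuclideanSpace.proj 2 : CN 3 →L[ℂ] ℂ) -
    (2 * p 1) • (EuclideanSpace.proj 1 : CN 3 →L[ℂ] ℂ) +
    (3 * (p 0) ^ 2) • (EuclideanSpace.proj 0 : CN 3 →L[ℂ] ℂ)

theorem hasStrictFDerivAt_fD (p : CN 3) : HasStrictFDerivAt fD (fD' p) p := by
  have h0 : HasStrictFDerivAt (fun q : CN 3 => q 0) (EuclideanSpace.proj 0 : CN 3 →L[ℂ] ℂ) p :=
    (EuclideanSpace.proj 0 : CN 3 →L[ℂ] ℂ).hasStrictFDerivAt
  have h1 : HasStrictFDerivAt (fun q : CN 3 => q 1) (EuclideanSpace.proj 1 : CN 3 →L[ℂ] ℂ) p :=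
    (EuclideanSpace.proj 1 : CN 3 →L[ℂ] ℂ).hasStrictFDerivAt
  have h2 : HasStrictFDerivAt (fun q : CN 3 => q 2) (EuclideanSpace.proj 2 : CN 3 →L[ℂ] ℂ) p :=
    (EuclideanSpace.proj 2 : CN 3 →L[ℂ] ℂ).hasStrictFDerivAt
  have h := (h2.pow 6).sub (((h1.pow 2).sub (h0.pow 3)).sub_const (1 / 8 : ℂ))
  refine h.congr_fderiv ?_
  ext v
  simp [fD']
  ring

theorem fD'_apply (p v : CN 3) :
    fD' p v = 6 * (p 2) ^ 5 * v 2 - 2 * p 1 * v 1 + 3 * (p 0) ^ 2 * v 0 := by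
  simp [fD']

theorem fD'_ne (p : CN 3) (hp : fD p = 0) : ∃ v, fD' p v ≠ 0 := by
  by_contra hcon
  push Not at hcon
  have h0 := hcon (v3 1 0 0)
  have h1 := hcon (v3 0 1 0)
  have h2 := hcon (v3 0 0 1)
  rw [fD'_apply, v3_0, v3_1, v3_2] at h0 h1 h2
  have e0 : p 0 = 0 := by simpa using h0
  have e1 : p 1 = 0 := by simpa using h1
  have e2 : p 2 = 0 := by simpa using h2
  simp [fD, e0, e1, e2] at hp

theorem surj_of_ne {E : Type} [NormedAddCommGroup E] [NormedSpace ℂ E] (L : E →L[ℂ] ℂ)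
    (h : ∃ v, L v ≠ 0) : Function.Surjective L := by
  obtain ⟨v, hv⟩ := h
  intro c
  refine ⟨(c / L v) • v, ?_⟩
  rw [map_smul, smul_eq_mul, div_mul_cancel₀ _ hv]

theorem cover_key (x y z : ℂ) (ε : ℝ) (he : 0 < ε) (he1 : ε ≤ 1)
    (h : z ^ 6 = y ^ 2 - x ^ 3 - 1 / 8) (hn : ‖x‖ ^ 2 + ‖y‖ ^ 2 + ε * ‖z‖ ^ 2 = 1)
    (ha : (starRingEnd ℂ x) * (2 * y) + (starRingEnd ℂ y) * (3 * x ^ 2) = 0)
    (hb : (starRingEnd ℂ x) * (6 * z ^ 5) - ε * (starRingEnd ℂ z) * (3 * x ^ 2) = 0)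
    (hc : (starRingEnd ℂ y) * (6 * z ^ 5) + ε * (starRingEnd ℂ z) * (2 * y) = 0) : False := by
  set S : ℝ := 2 * ‖x‖ ^ 2 + 3 * ‖y‖ ^ 2 + ε * ‖z‖ ^ 2 with hS
  have hS1 : 1 ≤ S := by
    have h1 : 0 ≤ ‖x‖ ^ 2 := by positivity
    have h2 : 0 ≤ ‖y‖ ^ 2 := by positivity
    rw [hS]
    linarith
  have hSn : ‖(S : ℂ)‖ = S := by
    rw [Complex.norm_real, Real.norm_of_nonneg (by linarith)]
  have hsq : ∀ w : ℂ, ((‖w‖ ^ 2 : ℝ) : ℂ) = w * (starRingEnd ℂ w) := by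
    intro w
    rw [Complex.mul_conj, Complex.normSq_eq_norm_sq]
  have hSc : (S : ℂ) = 2 * (x * (starRingEnd ℂ x)) + 3 * (y * (starRingEnd ℂ y)) +
      ε * (z * (starRingEnd ℂ z)) := by
    rw [hS, ← hsq, ← hsq, ← hsq]
    push_cast
    ring
  have hy : y = 0 := by
    have h1 : 2 * y * (S : ℂ) = 3 / 4 * (starRingEnd ℂ y) := by
      rw [hSc]
      linear_combination (2 * x) * ha + z * hc - 6 * (starRingEnd ℂ y) * h
    have h2 := congrArg norm h1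
    rw [norm_mul, norm_mul, norm_mul, hSn, RCLike.norm_conj] at h2
    norm_num at h2
    by_contra hy
    have h3 := norm_pos_iff.2 hy
    nlinarith
  subst hy
  simp only [norm_zero, map_zero] at hn ha hb hc
  have h' : z ^ 6 = -x ^ 3 - 1 / 8 := by rw [h]; ring
  have hSc' : (S : ℂ) = 2 * (x * (starRingEnd ℂ x)) + ε * (z * (starRingEnd ℂ z)) := by
    rw [hSc]; simp
  have hx : ‖x‖ ≤ 1 / 4 := by
    have h1 : 3 * x ^ 2 * (S : ℂ) = -(3 / 4 * (starRingEnd ℂ x)) := by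
      rw [hSc']
      linear_combination (-z) * hb + 6 * (starRingEnd ℂ x) * h'
    have h2 := congrArg norm h1
    rw [norm_neg, norm_mul, norm_mul, norm_mul, norm_pow, hSn, RCLike.norm_conj] at h2
    norm_num at h2
    by_contra hx
    push Not at hx
    have h3 : 0 < ‖x‖ := by linarith
    have h4 : 3 * ‖x‖ ^ 2 ≤ 3 * ‖x‖ ^ 2 * S := by nlinarith
    nlinarith
  have hz : 6 * ‖z‖ ^ 5 ≤ 3 / 4 * ε * ‖z‖ := by
    have h1 : 6 * z ^ 5 * (S : ℂ) = -(3 / 4 * ε * (starRingEnd ℂ z)) := by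
      rw [hSc']
      linear_combination (2 * x) * hb + 6 * ε * (starRingEnd ℂ z) * h'
    have h2 := congrArg norm h1
    rw [norm_neg, norm_mul, norm_mul, norm_mul, norm_mul, norm_pow, hSn, RCLike.norm_conj,
      Complex.norm_real, Real.norm_of_nonneg he.le] at h2
    norm_num at h2
    have h4 : 6 * ‖z‖ ^ 5 ≤ 6 * ‖z‖ ^ 5 * S := by
      have : 0 ≤ 6 * ‖z‖ ^ 5 := by positivity
      nlinarith
    linarith
  have hx2 : ‖x‖ ^ 2 ≤ 1 / 16 := by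
    have := norm_nonneg x
    nlinarith
  have hz2 : 15 / 16 ≤ ε * ‖z‖ ^ 2 := by
    norm_num at hn
    linarith
  have hz0 : 0 < ‖z‖ := by
    rcases (norm_nonneg z).eq_or_lt with h | h
    · rw [← h] at hz2; norm_num at hz2
    · exact h
  have hz4 : ‖z‖ ^ 4 ≤ ε / 8 := by
    have h1 : ‖z‖ * (6 * ‖z‖ ^ 4) ≤ ‖z‖ * (3 / 4 * ε) := by nlinarith
    have h2 := le_of_mul_le_mul_left h1 hz0
    linarith
  have h5 : (ε * ‖z‖ ^ 2) ^ 2 ≤ 1 / 8 := by
    calc (ε * ‖z‖ ^ 2) ^ 2 = ε ^ 2 * ‖z‖ ^ 4 := by ring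
      _ ≤ 1 * (1 / 8) := by
        refine mul_le_mul ?_ (by linarith) (by positivity) (by norm_num)
        nlinarith
      _ = 1 / 8 := by norm_num
  nlinarith

end VL_

open VL_

theorem tV (hT : TTan) (hS : TSmooth) : TV := by
  intro t₀ ht hF
  refine ⟨{ X := symSurf t₀
            φ := fun q => ‖q‖ ^ 2 - 1
            smooth := ?_
            compact := ?_
            surface := ?_
            psh := ?_
            regular := ?_ }, rfl, rfl⟩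
  · rw [norm_eq]; exact contDiff_Bw _
  · refine Metric.isCompact_of_isClosed_isBounded ?_ ?_
    · refine (isClosed_symSurf t₀).inter ?_
      exact isClosed_le ((continuous_norm.pow 2).sub continuous_const) continuous_const
    · refine (Metric.isBounded_closedBall (x := (0 : CN 7)) (r := 1)).subset ?_
      intro q hq
      have h := hq.2
      rw [mem_closedBall_zero_iff]
      nlinarith [norm_nonneg q]
  · intro p hp _
    exact ⟨5, rfl, hS t₀ ht.ne' p hp⟩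
  · intro p _ _ v _ hv
    rw [norm_eq, levi_Bw]
    have : ∑ i, (1 : ℝ) * Complex.normSq (v i) = ‖v‖ ^ 2 := by
      rw [EuclideanSpace.norm_sq_eq]
      refine Finset.sum_congr rfl fun i _ => ?_
      rw [Complex.normSq_eq_norm_sq, one_mul]
    rw [this]
    have h := norm_pos_iff.2 hv
    positivity
  · intro p hp hp1
    have hpn : ‖p‖ = 1 := by
      have h1 : ‖p‖ ^ 2 - 1 = 0 := hp1
      have h2 := norm_nonneg p
      nlinarith
    have hmem : ((p, (1 : ℝ)) : CN 7 × ℝ) ∈ fam3 t₀ := by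
      show SymRel (((1 : ℝ) * t₀ : ℝ) : ℂ) p
      rw [one_mul]
      exact hp
    obtain ⟨O, F, hO, hpO, hFs, hFd, hFX, hFv⟩ :=
      hF.loc (p, 1) hmem hpn ⟨by norm_num, le_refl _⟩
    set G : CN 7 → CN 5 := fun q => F (q, 1) with hG
    have hGs : ContDiffAt ℝ ∞ G p := by
      have h1 : ContDiffAt ℝ ∞ F (p, 1) := hFs.contDiffAt (hO.mem_nhds hpO)
      exact h1.comp p (contDiffAt_id.prodMk contDiffAt_const)
    have hGd : DifferentiableAt ℂ G p := hFd (p, 1) hpO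
    have hGr : fderiv ℝ G p = (fderiv ℂ G p).restrictScalars ℝ :=
      hGd.fderiv_restrictScalars ℝ
    have hst : HasStrictFDerivAt G (fderiv ℝ G p) p :=
      hGs.hasStrictFDerivAt (by simp)
    have hsurj : Function.Surjective (fderiv ℝ G p) := by
      intro c
      obtain ⟨v, hv, _⟩ := hFv c 0
      refine ⟨v, ?_⟩
      rw [hGr]
      exact hv
    have hev : ∀ᶠ q in nhds p, q ∈ symSurf t₀ ↔ G q = 0 := by
      have h1 : ∀ᶠ q in nhds p, ((q, (1 : ℝ)) : CN 7 × ℝ) ∈ O := by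
        have hc : Continuous fun q : CN 7 => ((q, (1 : ℝ)) : CN 7 × ℝ) := by fun_prop
        exact hc.continuousAt.eventually (hO.mem_nhds hpO)
      filter_upwards [h1] with q hq
      have h2 := hFX (q, 1) hq ⟨by norm_num, le_refl _⟩
      rw [← h2]
      show q ∈ symSurf t₀ ↔ SymRel (((1 : ℝ) * t₀ : ℝ) : ℂ) q
      rw [one_mul]
      rfl
    have hG0 : G p = 0 := hev.self_of_nhds.1 hp
    have hTan := hT _ _ G _ (symSurf t₀) p hst hsurj hG0 hev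
    obtain ⟨v, hv0, hv1⟩ := hFv 0 1
    refine ⟨v, ?_, ?_⟩
    · rw [hTan]
      show fderiv ℝ G p v = 0
      rw [hGr]
      exact hv0
    · rw [norm_eq, fderiv_Bw]
      show ((2 : ℝ) • Bw (fun _ => 1) p) v ≠ 0
      rw [_root_.smul_apply, ← re_inner]
      have : (inner ℂ p v : ℂ) = 1 := hv1
      rw [this]
      simp

theorem tCurve : TCurve := by
  refine ⟨{ f := fC
            U := Set.univ
            open_U := isOpen_univ
            ball_sub := Set.subset_univ _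
            holo := fun p _ => (hasFDerivAt_fC p).differentiableAt.differentiableWithinAt
            smooth := ?_
            transverse := ?_ }, rfl, rfl⟩
  · intro p _ hp h0
    rw [(hasFDerivAt_fC p).fderiv] at h0
    have h1 := congrArg (fun L : CN 2 →L[ℂ] ℂ => L (WithLp.toLp 2 ![1, 0])) h0
    have h2 := congrArg (fun L : CN 2 →L[ℂ] ℂ => L (WithLp.toLp 2 ![0, 1])) h0
    simp only [fC'_apply] at h1 h2
    have e0 : p 0 = 0 := by simpa using h1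
    have e1 : p 1 = 0 := by simpa using h2
    simp [fC, e0, e1] at hp
  · intro p hp hp0
    have hn : ‖p 0‖ ^ 2 + ‖p 1‖ ^ 2 = 1 := by
      have h1 : ‖p‖ = 1 := by simpa using hp
      have h2 := EuclideanSpace.norm_sq_eq p
      rw [Fin.sum_univ_two, h1] at h2
      linarith
    refine ⟨WithLp.toLp 2 ![2 * p 1, 3 * (p 0) ^ 2], ?_, ?_⟩
    · rw [(hasFDerivAt_fC p).fderiv, fC'_apply]
      show 2 * p 1 * (3 * p 0 ^ 2) - 3 * p 0 ^ 2 * (2 * p 1) = 0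
      ring
    · intro h
      rw [inner2] at h
      exact curve_key (p 0) (p 1) hp0 hn h


namespace VL_

def wt (ε : ℝ) : Fin 3 → ℝ := ![1, 1, ε]

theorem Bw_wt (ε : ℝ) (q : CN 3) :
    Bw (wt ε) q q = ‖q 0‖ ^ 2 + ‖q 1‖ ^ 2 + ε * ‖q 2‖ ^ 2 := by
  rw [Bw_self, Fin.sum_univ_three]
  simp [wt]

theorem phi_eq (ε : ℝ) : (fun q : CN 3 => ‖base q‖ ^ 2 + ε * ‖q 2‖ ^ 2 - 1) =
    fun q => Bw (wt ε) q q - 1 := by
  funext q
  rw [Bw_wt, EuclideanSpace.norm_sq_eq, Fin.sum_univ_two]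
  rfl

/-- the hermitian form -/
def ell (ε : ℝ) (p v : CN 3) : ℂ :=
  (starRingEnd ℂ (p 0)) * v 0 + (starRingEnd ℂ (p 1)) * v 1 + ε * (starRingEnd ℂ (p 2)) * v 2

theorem re_ell (ε : ℝ) (p v : CN 3) : (ell ε p v).re = Bw (wt ε) p v := by
  rw [Bw_apply, Fin.sum_univ_three]
  simp [wt, ell]
  ring

theorem ell_smul (ε : ℝ) (p v : CN 3) (c : ℂ) : ell ε p (c • v) = c * ell ε p v := by
  have h : ∀ i, (c • v) i = c * v i := fun i => rfl
  simp only [ell, h]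
  ring

def e1 : CN 1 := EuclideanSpace.single 0 1

def G1 (q : CN 3) : CN 1 := fD q • e1

theorem hasFDerivAt_G1 (q : CN 3) : HasFDerivAt G1 ((fD' q).smulRight e1) q :=
  (hasStrictFDerivAt_fD q).hasFDerivAt.smul_const e1

theorem G1_eq_zero (q : CN 3) : G1 q = 0 ↔ fD q = 0 := by
  unfold G1
  rw [smul_eq_zero]
  constructor
  · rintro (h | h)
    · exact h
    · exfalso
      have := congrArg (fun w : CN 1 => w 0) h
      simp [e1] at this
  · exact Or.inl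

end VL_

theorem tCover (hT : TTan) : TCover := by
  intro ε he he1
  have hX : ∀ q : CN 3, q ∈ {q : CN 3 | (q 2) ^ 6 = (q 1) ^ 2 - (q 0) ^ 3 - 1 / 8} ↔
      fD q = 0 := by
    intro q
    show (q 2) ^ 6 = (q 1) ^ 2 - (q 0) ^ 3 - 1 / 8 ↔ _
    unfold fD
    rw [sub_eq_zero]
  refine ⟨{ X := {q | (q 2) ^ 6 = (q 1) ^ 2 - (q 0) ^ 3 - 1 / 8}
            φ := fun q => ‖base q‖ ^ 2 + ε * ‖q 2‖ ^ 2 - 1
            smooth := ?_
            compact := ?_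
            surface := ?_
            psh := ?_
            regular := ?_ }, rfl, rfl⟩
  · rw [phi_eq]; exact contDiff_Bw _
  · refine Metric.isCompact_of_isClosed_isBounded ?_ ?_
    · have hc : ∀ i : Fin 3, Continuous fun q : CN 3 => q i := fun i =>
        (EuclideanSpace.proj i : CN 3 →L[ℂ] ℂ).continuous
      have hc0 := hc 0
      have hc1 := hc 1
      have hc2 := hc 2
      refine IsClosed.inter ?_ ?_
      · exact isClosed_eq (by fun_prop) (by fun_prop)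
      · have h1 : Continuous (fun q : CN 3 => ‖base q‖ ^ 2 + ε * ‖q 2‖ ^ 2 - 1) := by
          rw [phi_eq]; exact (contDiff_Bw _).continuous
        exact isClosed_le h1 continuous_const
    · refine (Metric.isBounded_closedBall (x := (0 : CN 3)) (r := 1 / ε)).subset ?_
      intro q hq
      have h : ‖base q‖ ^ 2 + ε * ‖q 2‖ ^ 2 - 1 ≤ 0 := hq.2
      rw [congrFun (phi_eq ε) q, Bw_wt] at h
      rw [mem_closedBall_zero_iff, ← abs_norm, ← sq_le_sq₀ (abs_nonneg _) (by positivity), sq_abs,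
        EuclideanSpace.norm_sq_eq, Fin.sum_univ_three]
      have h1 : (0 : ℝ) ≤ ‖q 0‖ ^ 2 := by positivity
      have h2 : (0 : ℝ) ≤ ‖q 1‖ ^ 2 := by positivity
      have h3 : (0 : ℝ) ≤ ‖q 2‖ ^ 2 := by positivity
      have h4 : ε * (‖q 0‖ ^ 2 + ‖q 1‖ ^ 2 + ‖q 2‖ ^ 2) ≤ 1 := by nlinarith
      have h5 : ‖q 0‖ ^ 2 + ‖q 1‖ ^ 2 + ‖q 2‖ ^ 2 ≤ 1 / ε := by
        rw [le_div_iff₀ he]; linarith
      have h6 : 1 ≤ 1 / ε := by rw [le_div_iff₀ he]; linarith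
      nlinarith
  · intro p hp _
    refine ⟨1, rfl, Set.univ, G1, isOpen_univ, Set.mem_univ _, ?_, ?_, ?_⟩
    · exact fun q _ => (hasFDerivAt_G1 q).differentiableAt.differentiableWithinAt
    · intro q _
      rw [hX, G1_eq_zero]
    · intro q _ hq w
      rw [(hasFDerivAt_G1 q).fderiv]
      obtain ⟨v, hv⟩ := surj_of_ne (fD' q) (fD'_ne q ((hX q).1 hq)) (w 0)
      refine ⟨v, ?_⟩
      rw [ContinuousLinearMap.smulRight_apply, hv]
      ext i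
      fin_cases i
      simp [e1]
  · intro p _ _ v _ hv
    rw [phi_eq, levi_Bw, Fin.sum_univ_three]
    have hne : ∃ i, v i ≠ 0 := by
      by_contra hcon
      push Not at hcon
      exact hv (by ext i; simpa using hcon i)
    have h0 := Complex.normSq_nonneg (v 0)
    have h1 := Complex.normSq_nonneg (v 1)
    have h2 := Complex.normSq_nonneg (v 2)
    have hw0 : wt ε 0 = 1 := rfl
    have hw1 : wt ε 1 = 1 := rfl
    have hw2 : wt ε 2 = ε := rfl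
    rw [hw0, hw1, hw2]
    obtain ⟨i, hi⟩ := hne
    have h3 := Complex.normSq_pos.2 hi
    fin_cases i
    · have h4 : 0 < Complex.normSq (v 0) := h3
      nlinarith
    · have h4 : 0 < Complex.normSq (v 1) := h3
      nlinarith
    · have h4 : 0 < Complex.normSq (v 2) := h3
      nlinarith
  · intro p hp hp1
    have hp0 : fD p = 0 := (hX p).1 hp
    have hst : HasStrictFDerivAt fD ((fD' p).restrictScalars ℝ) p :=
      (hasStrictFDerivAt_fD p).restrictScalars ℝ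
    have hsurj : Function.Surjective ((fD' p).restrictScalars ℝ) := surj_of_ne _ (fD'_ne p hp0)
    have hTan := hT _ _ fD _ {q : CN 3 | (q 2) ^ 6 = (q 1) ^ 2 - (q 0) ^ 3 - 1 / 8} p hst hsurj
      hp0 (Filter.Eventually.of_forall hX)
    have hn : ‖p 0‖ ^ 2 + ‖p 1‖ ^ 2 + ε * ‖p 2‖ ^ 2 = 1 := by
      rw [congrFun (phi_eq ε) p, Bw_wt] at hp1
      linarith
    obtain ⟨v, hv0, hv1⟩ : ∃ v, fD' p v = 0 ∧ ell ε p v ≠ 0 := by
      by_contra hcon
      push Not at hcon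
      have ha := hcon (v3 (2 * p 1) (3 * p 0 ^ 2) 0) (by
        rw [fD'_apply, v3_0, v3_1, v3_2]; ring)
      have hb := hcon (v3 (6 * p 2 ^ 5) 0 (-(3 * p 0 ^ 2))) (by
        rw [fD'_apply, v3_0, v3_1, v3_2]; ring)
      have hc := hcon (v3 0 (6 * p 2 ^ 5) (2 * p 1)) (by
        rw [fD'_apply, v3_0, v3_1, v3_2]; ring)
      simp only [ell, v3_0, v3_1, v3_2] at ha hb hc
      refine cover_key (p 0) (p 1) (p 2) ε he he1 hp hn ?_ ?_ ?_
      · linear_combination ha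
      · linear_combination hb
      · linear_combination hc
    refine ⟨(starRingEnd ℂ (ell ε p v)) • v, ?_, ?_⟩
    · rw [hTan]
      show fD' p ((starRingEnd ℂ (ell ε p v)) • v) = 0
      rw [map_smul, hv0, smul_zero]
    · rw [phi_eq, fderiv_Bw]
      show ((2 : ℝ) • Bw (wt ε) p) ((starRingEnd ℂ (ell ε p v)) • v) ≠ 0
      rw [_root_.smul_apply, ← re_ell, ell_smul, mul_comm, Complex.mul_conj]
      rw [Complex.ofReal_re]
      have := Complex.normSq_pos.2 hv1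
      simp only [smul_eq_mul]
      positivity

end

end Pool.Agent.SteinFill
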