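import Pool.Agent.SteinFill.CTriv
import Pool.Agent.SteinFill.VL

/-!
# Stein fillings of branched covers: the branched covers exist

For every complex curve in the ball and every degree `m ≥ 2` the domain
`{z^m = f(x,y), |x|² + |y|² + ε|z|² ≤ 1}` is a Stein domain for all small `ε > 0`.
-/

namespace Pool.Agent.SteinFill

open scoped ContDiff
open Complex (I)
open CTrivJob VL_

noncomputable section

namespace ExistsL

variable (C : ComplexCurve) (m : ℕ)

/-- the coefficients of the hermitian form -/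
def ca (r : CN 3 × ℝ) : Fin 3 → ℂ :=
  ![(starRingEnd ℂ) (r.1 0), (starRingEnd ℂ) (r.1 1), (r.2 : ℂ) * (starRingEnd ℂ) (r.1 2)]

/-- the cross product -/
def cr (r : CN 3 × ℝ) : ℂ × ℂ × ℂ :=
  ((starRingEnd ℂ) (r.1 0) * par C m 1 r.1 - (starRingEnd ℂ) (r.1 1) * par C m 0 r.1,
   (starRingEnd ℂ) (r.1 0) * par C m 2 r.1 - (r.2 : ℂ) * (starRingEnd ℂ) (r.1 2) * par C m 0 r.1,
   (starRingEnd ℂ) (r.1 1) * par C m 2 r.1 - (r.2 : ℂ) * (starRingEnd ℂ) (r.1 2) * par C m 1 r.1)

/-- the map whose zeros are the bad points -/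
def bad (r : CN 3 × ℝ) : (ℂ × ℂ × ℂ) × ℂ × ℝ :=
  (cr C m r, Feq C m r.1, ‖base r.1‖ ^ 2 + r.2 * ‖r.1 2‖ ^ 2 - 1)

lemma cont_base : Continuous base := baseL.continuous

lemma cont_coord (i : Fin 3) : Continuous fun q : CN 3 => q i := (coordL i).continuous

lemma base_mem {q : CN 3} (h : ‖base q‖ ≤ 1) : q ∈ Odom C :=
  C.ball_sub (by rwa [mem_closedBall_zero_iff])

/-- the region -/
def reg : Set (CN 3 × ℝ) := {r | ‖base r.1‖ ≤ 1 ∧ r.2 ∈ Set.Icc (0 : ℝ) 1}

lemma isClosed_reg : IsClosed reg := by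
  refine IsClosed.inter ?_ ?_
  · exact isClosed_le ((cont_base.comp continuous_fst).norm) continuous_const
  · exact isClosed_Icc.preimage continuous_snd

lemma cont_par (i : Fin 3) : ContinuousOn (fun r : CN 3 × ℝ => par C m i r.1) reg := by
  have h : ContinuousOn (par C m i) (Odom C) := fun p hp =>
    (contAt_fderiv_apply (isOpen_Odom C) (diff_Feq C m) _ hp).continuousWithinAt
  exact h.comp continuous_fst.continuousOn fun _ hr => base_mem C hr.1

lemma cont_Feq : ContinuousOn (fun r : CN 3 × ℝ => Feq C m r.1) reg :=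
  ((diff_Feq C m).continuousOn).comp continuous_fst.continuousOn fun _ hr => base_mem C hr.1

lemma cont_bad : ContinuousOn (bad C m) reg := by
  have hc : ∀ i : Fin 3, ContinuousOn (fun r : CN 3 × ℝ => (starRingEnd ℂ) (r.1 i)) reg := fun i =>
    (Complex.continuous_conj.comp ((cont_coord i).comp continuous_fst)).continuousOn
  have he : ContinuousOn (fun r : CN 3 × ℝ => (r.2 : ℂ)) reg :=
    (Complex.continuous_ofReal.comp continuous_snd).continuousOn
  have hp := cont_par C m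
  refine ContinuousOn.prodMk (ContinuousOn.prodMk ?_ (ContinuousOn.prodMk ?_ ?_))
    (ContinuousOn.prodMk (cont_Feq C m) ?_)
  · exact ((hc 0).mul (hp 1)).sub ((hc 1).mul (hp 0))
  · exact ((hc 0).mul (hp 2)).sub ((he.mul (hc 2)).mul (hp 0))
  · exact ((hc 1).mul (hp 2)).sub ((he.mul (hc 2)).mul (hp 1))
  · refine Continuous.continuousOn ?_
    have h1 : Continuous fun r : CN 3 × ℝ => ‖base r.1‖ ^ 2 :=
      ((cont_base.comp continuous_fst).norm).pow 2
    have h2 : Continuous fun r : CN 3 × ℝ => r.2 * ‖r.1 2‖ ^ 2 :=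
      continuous_snd.mul ((((cont_coord 2).comp continuous_fst).norm).pow 2)
    exact (h1.add h2).sub continuous_const

lemma norm_sq3 (q : CN 3) : ‖q‖ ^ 2 = ‖base q‖ ^ 2 + ‖q 2‖ ^ 2 := by
  rw [EuclideanSpace.norm_sq_eq, EuclideanSpace.norm_sq_eq, Fin.sum_univ_three, Fin.sum_univ_two]
  rfl

/-- a bound for `z` -/
lemma bound_z (hm : 2 ≤ m) : ∃ M : ℝ, 0 ≤ M ∧ ∀ q : CN 3, ‖base q‖ ≤ 1 → Feq C m q = 0 →
    ‖q 2‖ ≤ M := by
  have hc : ContinuousOn C.f (Metric.closedBall (0 : CN 2) 1) :=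
    (C.holo.mono C.ball_sub).continuousOn
  obtain ⟨M, hM⟩ := (isCompact_closedBall (0 : CN 2) 1).exists_bound_of_continuousOn hc
  refine ⟨max 1 M, by positivity, fun q hq hF => ?_⟩
  have h1 : (q 2) ^ m = C.f (base q) := sub_eq_zero.1 hF
  have h2 := hM (base q) (by rwa [mem_closedBall_zero_iff])
  rw [← h1, norm_pow] at h2
  by_contra hcon
  push Not at hcon
  have h3 : 1 < ‖q 2‖ := lt_of_le_of_lt (le_max_left _ _) hcon
  have h4 : M < ‖q 2‖ := lt_of_le_of_lt (le_max_right _ _) hcon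
  have h5 : ‖q 2‖ ≤ ‖q 2‖ ^ m := le_self_pow₀ h3.le (by omega)
  linarith

/-- the bad set -/
def badSet : Set (CN 3 × ℝ) := reg ∩ bad C m ⁻¹' {0}

lemma isCompact_badSet (hm : 2 ≤ m) : IsCompact (badSet C m) := by
  refine Metric.isCompact_of_isClosed_isBounded ?_ ?_
  · exact (cont_bad C m).preimage_isClosed_of_isClosed isClosed_reg isClosed_singleton
  · obtain ⟨M, hM0, hM⟩ := bound_z C m hm
    refine (Metric.isBounded_closedBall (x := (0 : CN 3 × ℝ)) (r := 1 + M)).subset ?_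
    rintro ⟨q, ε⟩ ⟨⟨h1, h2⟩, h3⟩
    have hF : Feq C m q = 0 := congrArg (fun x : (ℂ × ℂ × ℂ) × ℂ × ℝ => x.2.1) h3
    have hz := hM q h1 hF
    rw [mem_closedBall_zero_iff, Prod.norm_def]
    refine max_le ?_ ?_
    · refine abs_le_of_sq_le_sq' ?_ (by positivity) |>.2
      rw [norm_sq3]
      have h4 : ‖base q‖ ^ 2 ≤ 1 := by
        have : 0 ≤ ‖base q‖ := norm_nonneg _
        nlinarith
      have h5 : ‖q 2‖ ^ 2 ≤ M ^ 2 := by
        have : 0 ≤ ‖q 2‖ := norm_nonneg _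
        nlinarith
      nlinarith
    · have h4 : (0 : ℝ) ≤ ε := h2.1
      have h5 : ε ≤ 1 := h2.2
      show ‖ε‖ ≤ 1 + M
      rw [Real.norm_of_nonneg h4]
      linarith

lemma base_single2 : base (EuclideanSpace.single (2 : Fin 3) (1 : ℂ)) = 0 := by
  ext i
  fin_cases i <;> simp [base]

lemma base_single0 : base (EuclideanSpace.single (0 : Fin 3) (1 : ℂ)) =
    EuclideanSpace.single 0 1 := by
  ext i
  fin_cases i <;> simp [base]

lemma base_single1 : base (EuclideanSpace.single (1 : Fin 3) (1 : ℂ)) =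
    EuclideanSpace.single 1 1 := by
  ext i
  fin_cases i <;> simp [base]

lemma par2_eq {q : CN 3} (hq : q ∈ Odom C) : par C m 2 q = (m : ℂ) * (q 2) ^ (m - 1) := by
  unfold par
  rw [fderiv_Feq C m hq, base_single2]
  simp

lemma par0_eq {q : CN 3} (hq : q ∈ Odom C) :
    par C m 0 q = - fderiv ℂ C.f (base q) (EuclideanSpace.single 0 1) := by
  unfold par
  rw [fderiv_Feq C m hq, base_single0]
  simp

lemma par1_eq {q : CN 3} (hq : q ∈ Odom C) :
    par C m 1 q = - fderiv ℂ C.f (base q) (EuclideanSpace.single 1 1) := by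
  unfold par
  rw [fderiv_Feq C m hq, base_single1]
  simp

/-- no bad point at `ε = 0` -/
lemma not_bad_zero (hm : 2 ≤ m) (q : CN 3) (h : (q, (0 : ℝ)) ∈ badSet C m) : False := by
  obtain ⟨⟨h1, -⟩, h3⟩ := h
  have hq : q ∈ Odom C := base_mem C h1
  have hF : Feq C m q = 0 := congrArg (fun x : (ℂ × ℂ × ℂ) × ℂ × ℝ => x.2.1) h3
  have hN : ‖base q‖ ^ 2 + (0 : ℝ) * ‖q 2‖ ^ 2 - 1 = 0 :=
    congrArg (fun x : (ℂ × ℂ × ℂ) × ℂ × ℝ => x.2.2) h3
  have c1 : (starRingEnd ℂ) (q 0) * par C m 1 q - (starRingEnd ℂ) (q 1) * par C m 0 q = 0 :=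
    congrArg (fun x : (ℂ × ℂ × ℂ) × ℂ × ℝ => x.1.1) h3
  have c2 : (starRingEnd ℂ) (q 0) * par C m 2 q -
      ((0 : ℝ) : ℂ) * (starRingEnd ℂ) (q 2) * par C m 0 q = 0 :=
    congrArg (fun x : (ℂ × ℂ × ℂ) × ℂ × ℝ => x.1.2.1) h3
  have c3 : (starRingEnd ℂ) (q 1) * par C m 2 q -
      ((0 : ℝ) : ℂ) * (starRingEnd ℂ) (q 2) * par C m 1 q = 0 :=
    congrArg (fun x : (ℂ × ℂ × ℂ) × ℂ × ℝ => x.1.2.2) h3
  have hN1 : ‖base q‖ = 1 := by
    have : ‖base q‖ ^ 2 = 1 := by linarith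
    have h0 : 0 ≤ ‖base q‖ := norm_nonneg _
    nlinarith
  have hb0 : base q 0 = q 0 := rfl
  have hb1 : base q 1 = q 1 := rfl
  by_cases hz : q 2 = 0
  · have hf : C.f (base q) = 0 := by
      have : (q 2) ^ m - C.f (base q) = 0 := hF
      rw [hz, zero_pow (by omega), zero_sub, neg_eq_zero] at this
      exact this
    obtain ⟨v, hv0, hv1⟩ := C.transverse (base q) (by rwa [mem_sphere_zero_iff_norm]) hf
    have hdne := C.smooth (base q) (by rw [mem_closedBall_zero_iff]; exact h1) hf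
    set d0 := fderiv ℂ C.f (base q) (EuclideanSpace.single 0 1) with hd0
    set d1 := fderiv ℂ C.f (base q) (EuclideanSpace.single 1 1) with hd1
    have hlin : ∀ w : CN 2, fderiv ℂ C.f (base q) w = w 0 * d0 + w 1 * d1 := by
      intro w
      have hw : w = w 0 • EuclideanSpace.single (0 : Fin 2) (1 : ℂ) +
          w 1 • EuclideanSpace.single (1 : Fin 2) (1 : ℂ) := by
        ext i
        fin_cases i <;> simp
      conv_lhs => rw [hw]
      rw [map_add, map_smul, map_smul]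
      rfl
    rw [par0_eq C m hq, par1_eq C m hq, ← hd0, ← hd1] at c1
    rw [hlin] at hv0
    have hin : inner ℂ (base q) v =
        (starRingEnd ℂ) (q 0) * v 0 + (starRingEnd ℂ) (q 1) * v 1 := by
      rw [PiLp.inner_apply, Fin.sum_univ_two, hb0, hb1]
      simp [mul_comm]
    rw [hin] at hv1
    apply hv1
    have hd : d0 ≠ 0 ∨ d1 ≠ 0 := by
      by_contra hcon
      push Not at hcon
      apply hdne
      ext w
      rw [hlin, hcon.1, hcon.2]
      simp
    rcases hd with hd | hd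
    · have : d0 * ((starRingEnd ℂ) (q 0) * v 0 + (starRingEnd ℂ) (q 1) * v 1) = 0 := by
        linear_combination (starRingEnd ℂ) (q 0) * hv0 + v 1 * c1
      exact (mul_eq_zero.1 this).resolve_left hd
    · have : d1 * ((starRingEnd ℂ) (q 0) * v 0 + (starRingEnd ℂ) (q 1) * v 1) = 0 := by
        linear_combination (starRingEnd ℂ) (q 1) * hv0 - v 0 * c1
      exact (mul_eq_zero.1 this).resolve_left hd
  · have hp2 : par C m 2 q ≠ 0 := by
      rw [par2_eq C m hq]
      refine mul_ne_zero ?_ (pow_ne_zero _ hz)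
      have : m ≠ 0 := by omega
      exact_mod_cast this
    have e0 : q 0 = 0 := by
      have : (starRingEnd ℂ) (q 0) * par C m 2 q = 0 := by
        simpa using c2
      have := (mul_eq_zero.1 this).resolve_right hp2
      simpa using this
    have e1 : q 1 = 0 := by
      have : (starRingEnd ℂ) (q 1) * par C m 2 q = 0 := by
        simpa using c3
      have := (mul_eq_zero.1 this).resolve_right hp2
      simpa using this
    have hbz : base q = 0 := by
      ext i
      fin_cases i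
      · exact hb0.trans e0
      · exact hb1.trans e1
    rw [hbz, norm_zero] at hN1
    exact zero_ne_one hN1

/-- no bad point for small `ε` -/
lemma exists_eps (hm : 2 ≤ m) : ∃ ε₀ : ℝ, 0 < ε₀ ∧ ε₀ ≤ 1 ∧
    ∀ ε : ℝ, 0 < ε → ε ≤ ε₀ → ∀ q : CN 3, (q, ε) ∉ badSet C m := by
  by_cases hne : (badSet C m).Nonempty
  · obtain ⟨r, hr, hmin⟩ := (isCompact_badSet C m hm).exists_isMinOn hne
      (f := fun r : CN 3 × ℝ => r.2) continuous_snd.continuousOn
    have h0 : 0 ≤ r.2 := hr.1.2.1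
    have h1 : r.2 ≠ 0 := by
      intro h
      refine not_bad_zero C m hm r.1 ?_
      rw [← h]
      exact hr
    have h2 : 0 < r.2 := lt_of_le_of_ne h0 (Ne.symm h1)
    refine ⟨r.2 / 2, by linarith, by linarith [hr.1.2.2], fun ε hε hε' q hq => ?_⟩
    have : r.2 ≤ ε := hmin hq
    linarith
  · refine ⟨1, one_pos, le_rfl, fun ε _ _ q hq => hne ⟨_, hq⟩⟩

lemma exists_cross {a0 a1 a2 b0 b1 b2 : ℂ}
    (h : ¬ (a0 * b1 - a1 * b0 = 0 ∧ a0 * b2 - a2 * b0 = 0 ∧ a1 * b2 - a2 * b1 = 0)) :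
    ∃ v0 v1 v2 : ℂ, b0 * v0 + b1 * v1 + b2 * v2 = 0 ∧ a0 * v0 + a1 * v1 + a2 * v2 ≠ 0 := by
  by_cases h1 : a0 * b1 - a1 * b0 = 0
  · by_cases h2 : a0 * b2 - a2 * b0 = 0
    · have h3 : a1 * b2 - a2 * b1 ≠ 0 := fun h3 => h ⟨h1, h2, h3⟩
      refine ⟨0, b2, -b1, by ring, fun h4 => h3 ?_⟩
      linear_combination h4
    · refine ⟨b2, 0, -b0, by ring, fun h4 => h2 ?_⟩
      linear_combination h4
  · refine ⟨b1, -b0, 0, by ring, fun h4 => h1 ?_⟩
    linear_combination h4

end ExistsL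

open ExistsL in
/-- The branched covers `W_{m,Σ}` exist. -/
theorem exists_branchedCover (hT : TTan) (C : ComplexCurve) (m : ℕ) (hm : 2 ≤ m) :
    ∃ ε₀ : ℝ, 0 < ε₀ ∧ ∀ ε : ℝ, 0 < ε → ε ≤ ε₀ → ∃ D : SteinDomain 3, IsBranchedCover C m ε D := by
  obtain ⟨ε₀, he0, he1, hbad⟩ := exists_eps C m hm
  refine ⟨ε₀, he0, fun ε he hee => ?_⟩
  have hbase : ∀ q : CN 3, ‖base q‖ ^ 2 + ε * ‖q 2‖ ^ 2 - 1 ≤ 0 → ‖base q‖ ≤ 1 := by
    intro q hq
    have h1 : 0 ≤ ε * ‖q 2‖ ^ 2 := by positivity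
    have h2 : ‖base q‖ ^ 2 ≤ 1 := by linarith
    exact (sq_le_one_iff₀ (norm_nonneg _)).1 h2
  have hparX : ∀ q : CN 3, q ∈ {q : CN 3 | base q ∈ C.U ∧ (q 2) ^ m = C.f (base q)} →
      ‖base q‖ ^ 2 + ε * ‖q 2‖ ^ 2 - 1 ≤ 0 →
      q ∈ Odom C ∧ Feq C m q = 0 ∧ (par C m 0 q ≠ 0 ∨ par C m 1 q ≠ 0 ∨ par C m 2 q ≠ 0) := by
    intro q hq hφ
    have h1 : Feq C m q = 0 := sub_eq_zero.2 hq.2
    exact ⟨hq.1, h1, par_ne C hm hq.1 h1 (hbase q hφ)⟩
  refine ⟨{ X := {q | base q ∈ C.U ∧ (q 2) ^ m = C.f (base q)}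
            φ := fun q => ‖base q‖ ^ 2 + ε * ‖q 2‖ ^ 2 - 1
            smooth := ?_
            compact := ?_
            surface := ?_
            psh := ?_
            regular := ?_ }, rfl, rfl⟩
  · rw [phi_eq]; exact contDiff_Bw _
  · have hset : {p : CN 3 | p ∈ {q : CN 3 | base q ∈ C.U ∧ (q 2) ^ m = C.f (base q)} ∧
        ‖base p‖ ^ 2 + ε * ‖p 2‖ ^ 2 - 1 ≤ 0} =
        {p : CN 3 | ‖base p‖ ≤ 1} ∩ (fun p : CN 3 =>
          (Feq C m p, ‖base p‖ ^ 2 + ε * ‖p 2‖ ^ 2 - 1)) ⁻¹' {x : ℂ × ℝ | x.1 = 0 ∧ x.2 ≤ 0} := by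
      ext p
      constructor
      · rintro ⟨⟨h1, h2⟩, h3⟩
        exact ⟨hbase p h3, sub_eq_zero.2 h2, h3⟩
      · rintro ⟨h1, h2, h3⟩
        exact ⟨⟨base_mem C h1, sub_eq_zero.1 h2⟩, h3⟩
    rw [hset]
    refine Metric.isCompact_of_isClosed_isBounded ?_ ?_
    · refine ContinuousOn.preimage_isClosed_of_isClosed ?_ ?_ ?_
      · refine ContinuousOn.prodMk ?_ (Continuous.continuousOn ?_)
        · exact (diff_Feq C m).continuousOn.mono fun p hp => base_mem C hp
        · rw [phi_eq]; exact (contDiff_Bw _).continuous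
      · exact isClosed_le cont_base.norm continuous_const
      · exact (isClosed_eq continuous_fst continuous_const).inter
          (isClosed_le continuous_snd continuous_const)
    · obtain ⟨M, hM0, hM⟩ := bound_z C m hm
      refine (Metric.isBounded_closedBall (x := (0 : CN 3)) (r := 1 + M)).subset ?_
      rintro q ⟨h1, h2, h3⟩
      have hz := hM q h1 h2
      have h1' : ‖base q‖ ≤ 1 := h1
      rw [mem_closedBall_zero_iff]
      refine abs_le_of_sq_le_sq' ?_ (by positivity) |>.2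
      rw [norm_sq3]
      have h4 : ‖base q‖ ^ 2 ≤ 1 := by
        have : 0 ≤ ‖base q‖ := norm_nonneg _
        nlinarith
      have h5 : ‖q 2‖ ^ 2 ≤ M ^ 2 := by
        have : 0 ≤ ‖q 2‖ := norm_nonneg _
        nlinarith
      nlinarith
  · intro p hp hφ
    obtain ⟨h1, h2, h3⟩ := hparX p hp hφ
    have hcp : ∀ i, ContinuousOn (par C m i) (Odom C) := fun i q hq =>
      (contAt_fderiv_apply (isOpen_Odom C) (diff_Feq C m) _ hq).continuousWithinAt
    have hopen : IsOpen (Odom C ∩ (fun q => (par C m 0 q, par C m 1 q, par C m 2 q)) ⁻¹'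
        ({0}ᶜ : Set (ℂ × ℂ × ℂ))) :=
      ((hcp 0).prodMk ((hcp 1).prodMk (hcp 2))).isOpen_inter_preimage (isOpen_Odom C)
        isOpen_compl_singleton
    have hder : ∀ q ∈ Odom C, HasFDerivAt (fun q => Feq C m q • e1)
        ((fderiv ℂ (Feq C m) q).smulRight e1) q := fun q hq =>
      ((diff_Feq C m).differentiableAt ((isOpen_Odom C).mem_nhds hq)).hasFDerivAt.smul_const e1
    refine ⟨1, rfl, _, fun q => Feq C m q • e1, hopen, ⟨h1, ?_⟩, ?_, ?_, ?_⟩
    · intro h
      have h' : (par C m 0 p, par C m 1 p, par C m 2 p) = (0 : ℂ × ℂ × ℂ) := h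
      rw [Prod.ext_iff, Prod.ext_iff] at h'
      rcases h3 with h4 | h4 | h4
      · exact h4 h'.1
      · exact h4 h'.2.1
      · exact h4 h'.2.2
    · exact fun q hq => (hder q hq.1).differentiableAt.differentiableWithinAt
    · intro q hq
      constructor
      · intro h
        have : Feq C m q = 0 := sub_eq_zero.2 h.2
        show Feq C m q • e1 = 0
        rw [this, zero_smul]
      · intro h
        have h0 : Feq C m q = 0 := by
          have := congrArg (fun w : CN 1 => w 0) h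
          simpa [e1] using this
        exact ⟨hq.1, sub_eq_zero.1 h0⟩
    · intro q hq hqX w
      rw [(hder q hq.1).fderiv]
      have hne : ∃ v, fderiv ℂ (Feq C m) q v ≠ 0 := by
        by_contra hcon
        push Not at hcon
        apply hq.2
        show (par C m 0 q, par C m 1 q, par C m 2 q) = (0 : ℂ × ℂ × ℂ)
        unfold par
        rw [hcon, hcon, hcon]
        rfl
      obtain ⟨v, hv⟩ := surj_of_ne _ hne (w 0)
      refine ⟨v, ?_⟩
      rw [ContinuousLinearMap.smulRight_apply, hv]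
      ext i
      fin_cases i
      simp [e1]
  · intro p _ _ v _ hv
    rw [phi_eq, levi_Bw, Fin.sum_univ_three]
    have hne : ∃ i, v i ≠ 0 := by
      by_contra hcon
      push Not at hcon
      exact hv (by ext i; simpa using hcon i)
    have h0 := Complex.normSq_nonneg (v 0)
    have h1 := Complex.normSq_nonneg (v 1)
    have h2 := Complex.normSq_nonneg (v 2)
    have hw0 : wt ε 0 = 1 := rfl
    have hw1 : wt ε 1 = 1 := rfl
    have hw2 : wt ε 2 = ε := rfl
    rw [hw0, hw1, hw2]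
    obtain ⟨i, hi⟩ := hne
    have h3 := Complex.normSq_pos.2 hi
    fin_cases i
    · have h4 : 0 < Complex.normSq (v 0) := h3
      nlinarith
    · have h4 : 0 < Complex.normSq (v 1) := h3
      nlinarith
    · have h4 : 0 < Complex.normSq (v 2) := h3
      nlinarith
  · intro p hp hp1
    have hφ : ‖base p‖ ^ 2 + ε * ‖p 2‖ ^ 2 - 1 = 0 := hp1
    obtain ⟨h1, h2, h3⟩ := hparX p hp hφ.le
    have hs : HasStrictFDerivAt (Feq C m) ((fderiv ℂ (Feq C m) p).restrictScalars ℝ) p :=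
      (strict (isOpen_Odom C) (diff_Feq C m) h1).restrictScalars ℝ
    have hne : ∃ v, fderiv ℂ (Feq C m) p v ≠ 0 := by
      rcases h3 with h | h | h
      · exact ⟨_, h⟩
      · exact ⟨_, h⟩
      · exact ⟨_, h⟩
    have hsurj : Function.Surjective ((fderiv ℂ (Feq C m) p).restrictScalars ℝ) :=
      surj_of_ne _ hne
    have hTan := hT (CN 3) ℂ (Feq C m) _ {q : CN 3 | base q ∈ C.U ∧ (q 2) ^ m = C.f (base q)} p
      hs hsurj h2 (by
        filter_upwards [(isOpen_Odom C).mem_nhds h1] with q hq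
        constructor
        · rintro ⟨_, h⟩
          exact sub_eq_zero.2 h
        · intro h
          exact ⟨hq, sub_eq_zero.1 h⟩)
    have hnb : (p, ε) ∉ badSet C m := hbad ε he hee p
    have hcr : ¬ ((starRingEnd ℂ) (p 0) * par C m 1 p - (starRingEnd ℂ) (p 1) * par C m 0 p = 0 ∧
        (starRingEnd ℂ) (p 0) * par C m 2 p - (ε : ℂ) * (starRingEnd ℂ) (p 2) * par C m 0 p = 0 ∧
        (starRingEnd ℂ) (p 1) * par C m 2 p -
          (ε : ℂ) * (starRingEnd ℂ) (p 2) * par C m 1 p = 0) := by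
      rintro ⟨g1, g2, g3⟩
      apply hnb
      refine ⟨⟨hbase p hφ.le, he.le, by linarith⟩, ?_⟩
      show bad C m (p, ε) = 0
      unfold bad cr
      simp only [g1, g2, g3, h2, hφ]
      rfl
    obtain ⟨v0, v1, v2, hv1, hv2⟩ := exists_cross hcr
    set v : CN 3 := WithLp.toLp 2 ![v0, v1, v2] with hvdef
    have e0 : v 0 = v0 := rfl
    have e1' : v 1 = v1 := rfl
    have e2 : v 2 = v2 := rfl
    have hv0 : fderiv ℂ (Feq C m) p v = 0 := by
      rw [fderiv_eq_sum, e0, e1', e2]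
      exact hv1
    have hell : ell ε p v ≠ 0 := by
      unfold ell
      rw [e0, e1', e2]
      exact hv2
    refine ⟨(starRingEnd ℂ (ell ε p v)) • v, ?_, ?_⟩
    · rw [hTan]
      show fderiv ℂ (Feq C m) p ((starRingEnd ℂ (ell ε p v)) • v) = 0
      rw [map_smul, hv0, smul_zero]
    · rw [phi_eq, fderiv_Bw]
      show ((2 : ℝ) • Bw (wt ε) p) ((starRingEnd ℂ (ell ε p v)) • v) ≠ 0
      rw [_root_.smul_apply, ← re_ell, ell_smul, mul_comm, Complex.mul_conj]
      rw [Complex.ofReal_re]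
      have := Complex.normSq_pos.2 hell
      simp only [smul_eq_mul]
      positivity

end

end Pool.Agent.SteinFill
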