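import Pool.Agent.SteinFill.Spec

/-!
# Families 0 and 1 are smooth families of complex submanifolds transverse to the sphere
-/

namespace Pool.Agent.SteinFill

open scoped ContDiff
open Complex (I)

noncomputable section

namespace Fam01

lemma fderiv_line {N k : ℕ} {G : CN N → CN k} {q v : CN N} {d : CN k}
    (hG : DifferentiableAt ℂ G q)
    (h : ∀ i, HasDerivAt (fun s : ℂ => G (q + s • v) i) (d i) 0) : fderiv ℂ G q v = d := by
  have h1 : HasDerivAt (fun s : ℂ => G (q + s • v)) (fderiv ℂ G q v) 0 :=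
    hG.hasFDerivAt.hasLineDerivAt v
  ext i
  have h2 : HasDerivAt (fun s : ℂ => G (q + s • v) i) ((fderiv ℂ G q v) i) 0 :=
    (EuclideanSpace.proj (𝕜 := ℂ) i).hasFDerivAt.comp_hasDerivAt (0 : ℂ) h1
  exact h2.unique (h i)

lemma two_functionals {E : Type} [NormedAddCommGroup E] [InnerProductSpace ℂ E] (w q : E)
    (hq : ‖q‖ = 1) (h : ∀ l : ℂ, w ≠ l • q) (c a : ℂ) :
    ∃ v : E, inner ℂ w v = c ∧ inner ℂ q v = a := by
  set l : ℂ := inner ℂ q w with hl
  set u : E := w - l • q with hu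
  have hqq : inner ℂ q q = (1 : ℂ) := by
    rw [inner_self_eq_norm_sq_to_K, hq]; simp
  have hqu : inner ℂ q u = (0 : ℂ) := by
    rw [hu, inner_sub_right, inner_smul_right, hqq, ← hl]; ring
  have huq : inner ℂ u q = (0 : ℂ) := by
    rw [← inner_conj_symm, hqu]; simp
  have hu0 : u ≠ 0 := by
    intro h0
    exact h l (sub_eq_zero.1 h0)
  have huu : inner ℂ u u ≠ (0 : ℂ) := by
    rw [Ne, inner_self_eq_zero]; exact hu0
  have hw : w = l • q + u := by rw [hu]; abel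
  refine ⟨((c - (starRingEnd ℂ l) * a) / inner ℂ u u) • u + a • q, ?_, ?_⟩
  · rw [hw]
    simp only [inner_add_left, inner_add_right, inner_smul_left, inner_smul_right, hqq, hqu, huq]
    field_simp
    ring
  · simp only [inner_add_right, inner_smul_right, hqq, hqu]
    ring

lemma sphere_compact {N : ℕ} (X : Set (CN N × ℝ)) (hX : IsClosed X) :
    IsCompact {r | r ∈ X ∧ ‖r.1‖ = 1 ∧ r.2 ∈ Set.Icc (0 : ℝ) 1} := by
  have h : {r : CN N × ℝ | r ∈ X ∧ ‖r.1‖ = 1 ∧ r.2 ∈ Set.Icc (0 : ℝ) 1} =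
      (Metric.sphere (0 : CN N) 1 ×ˢ Set.Icc (0 : ℝ) 1) ∩ X := by
    ext r
    simp only [Set.mem_ofPred_eq, Set.mem_inter_iff, Set.mem_prod, mem_sphere_zero_iff_norm]
    tauto
  rw [h]
  exact ((isCompact_sphere _ _).prod isCompact_Icc).inter_right hX

lemma contDiff_coord {N : ℕ} (i : Fin N) : ContDiff ℝ ∞ (fun r : CN N × ℝ => r.1 i) :=
  ((EuclideanSpace.proj (𝕜 := ℂ) i).restrictScalars ℝ).contDiff.comp contDiff_fst

lemma contDiff_time {N : ℕ} : ContDiff ℝ ∞ (fun r : CN N × ℝ => ((r.2 : ℝ) : ℂ)) :=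
  Complex.ofRealCLM.contDiff.comp contDiff_snd

/-- The line through `q`. -/
lemma line {N : ℕ} (q v : CN N) (i : Fin N) :
    HasDerivAt (fun s : ℂ => (q + s • v) i) (v i) 0 := by
  have : (fun s : ℂ => (q + s • v) i) = fun s => q i + s * v i := by
    ext s; simp
  rw [this]
  simpa using ((hasDerivAt_id (0 : ℂ)).mul_const (v i)).const_add (q i)

end Fam01

open Fam01

/-- The equation of family 0. -/
def F0 (r : CN 2 × ℝ) : CN 1 :=
  WithLp.toLp 2 ![(r.1 1) ^ 2 - (r.1 0) ^ 3 - (r.2 : ℂ) / 8]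

lemma contDiff_F0 : ContDiff ℝ ∞ F0 := by
  unfold F0
  apply contDiff_piLp'
  intro i
  fin_cases i
  have h0 := contDiff_coord (N := 2) 0
  have h1 := contDiff_coord (N := 2) 1
  have h2 := contDiff_time (N := 2)
  exact ((h1.pow 2).sub (h0.pow 3)).sub (h2.div_const 8)

lemma diff_F0 (t : ℝ) : Differentiable ℂ (fun p => F0 (p, t)) := by
  unfold F0
  rw [differentiable_euclidean]
  intro i
  fin_cases i
  simp
  fun_prop

lemma fderiv_F0 (t : ℝ) (q v : CN 2) : fderiv ℂ (fun p => F0 (p, t)) q v =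
    WithLp.toLp 2 ![2 * q 1 * v 1 - 3 * (q 0) ^ 2 * v 0] := by
  apply fderiv_line (diff_F0 t q)
  intro i
  fin_cases i
  have h0 := line q v 0
  have h1 := line q v 1
  have := ((h1.pow 2).sub (h0.pow 3)).sub_const ((t : ℂ) / 8)
  exact this.congr_deriv (by simp)

/-- The two functionals are independent on the sphere. -/
lemma indep0 (x y : ℂ) (t : ℝ) (h0 : 0 ≤ t) (h1 : t ≤ 1) (h : y ^ 2 - x ^ 3 = t / 8)
    (hn : ‖x‖ ^ 2 + ‖y‖ ^ 2 = 1) (l : ℂ) (hx : -(3 * x ^ 2) = l * (starRingEnd ℂ) x)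
    (hy : 2 * y = l * (starRingEnd ℂ) y) : False := by
  have hE : (6 : ℂ) * (t / 8) = l * (2 * ‖x‖ ^ 2 + 3 * ‖y‖ ^ 2) := by
    rw [← h]
    have e1 : (‖x‖ : ℂ) ^ 2 = x * (starRingEnd ℂ) x := by
      rw [Complex.mul_conj']
    have e2 : (‖y‖ : ℂ) ^ 2 = y * (starRingEnd ℂ) y := by
      rw [Complex.mul_conj']
    rw [e1, e2]
    linear_combination (2 * x) * hx + (3 * y) * hy
  have hN : 6 * (t / 8) = ‖l‖ * (2 * ‖x‖ ^ 2 + 3 * ‖y‖ ^ 2) := by
    have := congrArg norm hE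
    have e3 : ((2 : ℂ) * ‖x‖ ^ 2 + 3 * ‖y‖ ^ 2) = ((2 * ‖x‖ ^ 2 + 3 * ‖y‖ ^ 2 : ℝ) : ℂ) := by
      push_cast; ring
    have e4 : (6 : ℂ) * (t / 8) = ((6 * (t / 8) : ℝ) : ℂ) := by
      push_cast; ring
    rw [e3, e4, norm_mul, Complex.norm_real, Complex.norm_real, Real.norm_of_nonneg,
      Real.norm_of_nonneg] at this
    · exact this
    · positivity
    · positivity
  have hl : ‖l‖ ≤ 3 / 8 := by
    have : ‖l‖ * 2 ≤ ‖l‖ * (2 * ‖x‖ ^ 2 + 3 * ‖y‖ ^ 2) :=
      mul_le_mul_of_nonneg_left (by nlinarith [sq_nonneg ‖y‖]) (norm_nonneg _)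
    nlinarith
  have hy' : 2 * ‖y‖ = ‖l‖ * ‖y‖ := by
    have := congrArg norm hy
    simpa using this
  have hx' : 3 * ‖x‖ ^ 2 = ‖l‖ * ‖x‖ := by
    have := congrArg norm hx
    simpa using this
  have hy0 : ‖y‖ = 0 := by
    nlinarith [norm_nonneg y]
  rw [hy0] at hn
  have hx1 : ‖x‖ = 1 := by nlinarith [norm_nonneg x]
  rw [hx1] at hx'
  nlinarith

theorem tFam0 : TFam0 := by
  have hfam : fam0 = {r | F0 r = 0} := by
    ext r
    simp only [fam0, F0, Set.mem_ofPred_eq]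
    constructor
    · intro h
      ext i
      fin_cases i
      simpa using h
    · intro h
      have := congrArg (fun g : CN 1 => g 0) h
      simpa using this
  refine ⟨sphere_compact _ ?_, ?_⟩
  · rw [hfam]
    exact isClosed_eq contDiff_F0.continuous continuous_const
  · rintro ⟨q, t⟩ hr hn ht
    refine ⟨Set.univ, F0, isOpen_univ, trivial, contDiff_F0.contDiffOn, ?_, ?_, ?_⟩
    · intro r _
      exact diff_F0 r.2 r.1
    · intro r _ _
      rw [hfam]; rfl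
    · intro c a
      have hq : (q 1) ^ 2 - (q 0) ^ 3 = (t : ℂ) / 8 := by
        have : (q 1) ^ 2 - (q 0) ^ 3 - ((t / 8 : ℝ) : ℂ) = 0 := hr
        push_cast at this
        exact sub_eq_zero.1 this
      have hnn : ‖q 0‖ ^ 2 + ‖q 1‖ ^ 2 = 1 := by
        have h2 : ‖q‖ ^ 2 = 1 := by
          have : ‖q‖ = 1 := hn
          rw [this]; norm_num
        rw [EuclideanSpace.norm_sq_eq, Fin.sum_univ_two] at h2
        exact h2
      set w : CN 2 := WithLp.toLp 2 ![(starRingEnd ℂ) (-(3 * q 0 ^ 2)),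
        (starRingEnd ℂ) (2 * q 1)] with hw
      obtain ⟨v, hv1, hv2⟩ := two_functionals w q hn (fun l hl => by
        have e0 := congrArg (fun g : CN 2 => g 0) hl
        have e1 := congrArg (fun g : CN 2 => g 1) hl
        simp only [hw, PiLp.smul_apply, smul_eq_mul] at e0 e1
        simp only [Matrix.cons_val_zero, Matrix.cons_val_one] at e0 e1
        have e0' := congrArg (starRingEnd ℂ) e0
        have e1' := congrArg (starRingEnd ℂ) e1
        rw [Complex.conj_conj, map_mul] at e0' e1'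
        exact indep0 _ _ t ht.1 ht.2 hq hnn _ e0' e1') (c 0) a
      refine ⟨v, ?_, hv2⟩
      rw [fderiv_F0]
      ext i
      fin_cases i
      rw [PiLp.inner_apply, Fin.sum_univ_two] at hv1
      simp [hw] at hv1 ⊢
      rw [← hv1]
      ring


/-! ### Family 1 -/

/-- The last equation of family 1. -/
def g1 (c : ℝ) (r : CN 7 × ℝ) : ℂ :=
  (r.1 2) ^ 6 - (((1 - r.2 : ℂ)) * c + r.2) * ((r.1 1) ^ 2 - (r.1 0) ^ 3 - (1 - r.2 : ℂ) / 8)

/-- The equation of family 1. -/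
def F1 (c : ℝ) (r : CN 7 × ℝ) : CN 5 :=
  WithLp.toLp 2 ![r.1 3, r.1 4, r.1 5, r.1 6, g1 c r]

lemma contDiff_g1 (c : ℝ) : ContDiff ℝ ∞ (g1 c) := by
  have h0 := contDiff_coord (N := 7) 0
  have h1 := contDiff_coord (N := 7) 1
  have h2 := contDiff_coord (N := 7) 2
  have ht := contDiff_time (N := 7)
  have h1t : ContDiff ℝ ∞ (fun r : CN 7 × ℝ => (1 - r.2 : ℂ)) := contDiff_const.sub ht
  exact (h2.pow 6).sub (((h1t.mul contDiff_const).add ht).mul
    (((h1.pow 2).sub (h0.pow 3)).sub (h1t.div_const 8)))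

lemma contDiff_F1 (c : ℝ) : ContDiff ℝ ∞ (F1 c) := by
  unfold F1
  apply contDiff_piLp'
  intro i
  fin_cases i
  · exact contDiff_coord (N := 7) 3
  · exact contDiff_coord (N := 7) 4
  · exact contDiff_coord (N := 7) 5
  · exact contDiff_coord (N := 7) 6
  · exact contDiff_g1 c

lemma diff_F1 (c t : ℝ) : Differentiable ℂ (fun p => F1 c (p, t)) := by
  unfold F1
  rw [differentiable_euclidean]
  intro i
  fin_cases i <;> simp [g1] <;> fun_prop

/-- The value of the derivative. -/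
def dg1 (m : ℂ) (q v : CN 7) : ℂ :=
  6 * (q 2) ^ 5 * v 2 - m * (2 * q 1 * v 1 - 3 * (q 0) ^ 2 * v 0)

lemma fderiv_F1 (c t : ℝ) (q v : CN 7) : fderiv ℂ (fun p => F1 c (p, t)) q v =
    WithLp.toLp 2 ![v 3, v 4, v 5, v 6, dg1 ((1 - t : ℂ) * c + t) q v] := by
  apply fderiv_line (diff_F1 c t q)
  intro i
  fin_cases i
  · exact line q v 3
  · exact line q v 4
  · exact line q v 5
  · exact line q v 6
  · have h0 := line q v 0
    have h1 := line q v 1
    have h2 := line q v 2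
    have := (h2.pow 6).sub ((((h1.pow 2).sub (h0.pow 3)).sub_const ((1 - t : ℂ) / 8)).const_mul
      ((1 - t : ℂ) * c + t))
    exact this.congr_deriv (by simp [dg1])

/-- The two functionals are independent on the sphere. -/
lemma indep1 (x y z : ℂ) (m del : ℝ) (hm : 0 < m) (hm1 : m ≤ 1) (h0 : 0 ≤ del) (h1 : del ≤ 1 / 8)
    (h : z ^ 6 = m * (y ^ 2 - x ^ 3 - del))
    (hn : ‖x‖ ^ 2 + ‖y‖ ^ 2 + ‖z‖ ^ 2 = 1) (l : ℂ)
    (hx : 3 * m * x ^ 2 = l * (starRingEnd ℂ) x)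
    (hy : -(2 * m * y) = l * (starRingEnd ℂ) y)
    (hz : 6 * z ^ 5 = l * (starRingEnd ℂ) z) : False := by
  have hE : (-(6 * m * del) : ℂ) = l * (2 * ‖x‖ ^ 2 + 3 * ‖y‖ ^ 2 + ‖z‖ ^ 2) := by
    have e1 : (‖x‖ : ℂ) ^ 2 = x * (starRingEnd ℂ) x := by
      rw [Complex.mul_conj']
    have e2 : (‖y‖ : ℂ) ^ 2 = y * (starRingEnd ℂ) y := by
      rw [Complex.mul_conj']
    have e3 : (‖z‖ : ℂ) ^ 2 = z * (starRingEnd ℂ) z := by
      rw [Complex.mul_conj']
    rw [e1, e2, e3]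
    linear_combination (2 * x) * hx + (3 * y) * hy + z * hz - 6 * h
  have hN : 6 * m * del = ‖l‖ * (2 * ‖x‖ ^ 2 + 3 * ‖y‖ ^ 2 + ‖z‖ ^ 2) := by
    have := congrArg norm hE
    have e3 : ((2 : ℂ) * ‖x‖ ^ 2 + 3 * ‖y‖ ^ 2 + ‖z‖ ^ 2) =
        ((2 * ‖x‖ ^ 2 + 3 * ‖y‖ ^ 2 + ‖z‖ ^ 2 : ℝ) : ℂ) := by
      push_cast; ring
    have e4 : (-(6 * m * del) : ℂ) = -((6 * m * del : ℝ) : ℂ) := by
      push_cast; ring
    rw [e3, e4, norm_neg, norm_mul, Complex.norm_real, Complex.norm_real, Real.norm_of_nonneg,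
      Real.norm_of_nonneg] at this
    · exact this
    · positivity
    · positivity
  have hl : ‖l‖ ≤ 3 / 4 * m := by
    have : ‖l‖ * 1 ≤ ‖l‖ * (2 * ‖x‖ ^ 2 + 3 * ‖y‖ ^ 2 + ‖z‖ ^ 2) :=
      mul_le_mul_of_nonneg_left (by nlinarith [sq_nonneg ‖y‖, sq_nonneg ‖x‖]) (norm_nonneg _)
    nlinarith
  have hy' : 2 * m * ‖y‖ = ‖l‖ * ‖y‖ := by
    have := congrArg norm hy
    simpa [abs_of_pos hm] using this
  have hx' : 3 * m * ‖x‖ ^ 2 = ‖l‖ * ‖x‖ := by
    have := congrArg norm hx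
    simpa [abs_of_pos hm] using this
  have hz' : 6 * ‖z‖ ^ 5 = ‖l‖ * ‖z‖ := by
    have := congrArg norm hz
    simpa using this
  have hy0 : ‖y‖ = 0 := by
    by_contra hne
    have hpos : 0 < ‖y‖ := lt_of_le_of_ne (norm_nonneg _) (Ne.symm hne)
    have : 2 * m = ‖l‖ := mul_right_cancel₀ hne hy'
    linarith
  have hx0 : ‖x‖ ≤ 1 / 4 := by
    by_contra hne
    push Not at hne
    have hne' : ‖x‖ ≠ 0 := by positivity
    have : 3 * m * ‖x‖ = ‖l‖ := mul_right_cancel₀ hne' (by rw [← hx']; ring)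
    nlinarith
  have hz0 : ‖z‖ ^ 4 ≤ 1 / 8 := by
    by_contra hne
    push Not at hne
    have hne' : ‖z‖ ≠ 0 := by
      intro h0
      rw [h0] at hne
      norm_num at hne
    have : 6 * ‖z‖ ^ 4 = ‖l‖ := mul_right_cancel₀ hne' (by rw [← hz']; ring)
    nlinarith
  have hz1 : ‖z‖ ^ 2 ≤ 1 / 2 := by
    nlinarith [sq_nonneg ‖z‖]
  rw [hy0] at hn
  nlinarith [norm_nonneg x]

theorem tFam1 : TFam1 := by
  intro c hc0 hc1
  have hfam : fam1 c = {r | F1 c r = 0} := by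
    ext r
    simp only [fam1, F1, Set.mem_ofPred_eq]
    constructor
    · rintro ⟨h3, h4, h5, h6, h⟩
      ext i
      fin_cases i
      · simpa using h3
      · simpa using h4
      · simpa using h5
      · simpa using h6
      · simp [g1, h]
    · intro h
      have h3 := congrArg (fun g : CN 5 => g 0) h
      have h4 := congrArg (fun g : CN 5 => g 1) h
      have h5 := congrArg (fun g : CN 5 => g 2) h
      have h6 := congrArg (fun g : CN 5 => g 3) h
      have h7 := congrArg (fun g : CN 5 => g 4) h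
      refine ⟨h3, h4, h5, h6, ?_⟩
      have h8 : g1 c r = 0 := h7
      unfold g1 at h8
      push_cast
      exact sub_eq_zero.1 h8
  refine ⟨sphere_compact _ ?_, ?_⟩
  · rw [hfam]
    exact isClosed_eq (contDiff_F1 c).continuous continuous_const
  · rintro ⟨q, t⟩ hr hn ht
    refine ⟨Set.univ, F1 c, isOpen_univ, trivial, (contDiff_F1 c).contDiffOn, ?_, ?_, ?_⟩
    · intro r _
      exact diff_F1 c r.2 r.1
    · intro r _ _
      rw [hfam]; rfl
    · intro d a
      obtain ⟨q3, q4, q5, q6, hq⟩ := hr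
      simp only at q3 q4 q5 q6 hq
      have ht0 : 0 ≤ t := ht.1
      have ht1 : t ≤ 1 := ht.2
      have hm : 0 < (1 - t) * c + t := by
        rcases lt_or_eq_of_le ht1 with h | h
        · have : 0 < (1 - t) * c := mul_pos (by linarith) hc0
          linarith
        · rw [h]; norm_num
      have hm1 : (1 - t) * c + t ≤ 1 := by nlinarith
      have hnn : ‖q 0‖ ^ 2 + ‖q 1‖ ^ 2 + ‖q 2‖ ^ 2 = 1 := by
        have h2 : ‖q‖ ^ 2 = 1 := by
          have : ‖q‖ = 1 := hn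
          rw [this]; norm_num
        rw [EuclideanSpace.norm_sq_eq, Fin.sum_univ_seven, q3, q4, q5, q6] at h2
        simpa using h2
      set m : ℝ := (1 - t) * c + t with hmdef
      set w : CN 7 := WithLp.toLp 2 ![(starRingEnd ℂ) (3 * m * q 0 ^ 2),
        (starRingEnd ℂ) (-(2 * m * q 1)), (starRingEnd ℂ) (6 * q 2 ^ 5), 0, 0, 0, 0] with hw
      obtain ⟨v, hv1, hv2⟩ := two_functionals w q hn (fun l hl => by
        have e0 : (starRingEnd ℂ) (3 * m * q 0 ^ 2) = l * q 0 := congrArg (fun g : CN 7 => g 0) hl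
        have e1 : (starRingEnd ℂ) (-(2 * m * q 1)) = l * q 1 := congrArg (fun g : CN 7 => g 1) hl
        have e2 : (starRingEnd ℂ) (6 * q 2 ^ 5) = l * q 2 := congrArg (fun g : CN 7 => g 2) hl
        have e0' := congrArg (starRingEnd ℂ) e0
        have e1' := congrArg (starRingEnd ℂ) e1
        have e2' := congrArg (starRingEnd ℂ) e2
        rw [Complex.conj_conj, map_mul] at e0' e1' e2'
        exact indep1 (q 0) (q 1) (q 2) m ((1 - t) / 8) hm hm1 (by linarith) (by linarith)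
          (by rw [hq]) hnn _ e0' e1' e2') (d 4) a
      refine ⟨WithLp.toLp 2 ![v 0, v 1, v 2, d 0, d 1, d 2, d 3], ?_, ?_⟩
      · rw [fderiv_F1]
        have hm' : ((1 - t : ℂ) * c + t) = m := by rw [hmdef]; push_cast; ring
        rw [hm']
        rw [PiLp.inner_apply, Fin.sum_univ_seven] at hv1
        ext i
        fin_cases i
        · rfl
        · rfl
        · rfl
        · rfl
        · simp [hw] at hv1 ⊢
          rw [← hv1]
          simp [dg1]
          ring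
      · rw [PiLp.inner_apply, Fin.sum_univ_seven] at hv2 ⊢
        simp [q3, q4, q5, q6] at hv2 ⊢
        exact hv2

end

end Pool.Agent.SteinFill
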