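import Pool.Agent.SteinFill.Spec

/-!
# Family 2
-/

namespace Pool.Agent.SteinFill

open scoped ContDiff
open Complex (I)
open Filter Topology

noncomputable section

namespace Fam2

lemma hasDerivAt_CN {N : ℕ} {γ : ℂ → CN N} {v : CN N} {s : ℂ}
    (h : ∀ i, HasDerivAt (fun s => γ s i) (v i) s) : HasDerivAt γ v s := by
  rw [hasDerivAt_iff_hasFDerivAt, ← hasFDerivWithinAt_univ, hasFDerivWithinAt_euclidean]
  intro i
  have h1 := (h i).hasFDerivAt.hasFDerivWithinAt (s := Set.univ)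
  have e : (PiLp.proj 2 (fun _ : Fin N => ℂ) i).comp (ContinuousLinearMap.toSpanSingleton ℂ v)
      = ContinuousLinearMap.toSpanSingleton ℂ (v i) := by ext; simp
  exact e ▸ h1

lemma fderiv_curve {N k : ℕ} {f : CN N → CN k} {q v : CN N} {c : CN k} {γ : ℂ → CN N}
    (hf : DifferentiableAt ℂ f q) (hγ : HasDerivAt γ v 0) (h0 : γ 0 = q)
    (hc : HasDerivAt (fun s => f (γ s)) c 0) : fderiv ℂ f q v = c := by
  have h1 : HasFDerivAt f (fderiv ℂ f q) (γ 0) := by rw [h0]; exact hf.hasFDerivAt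
  exact (h1.comp_hasDerivAt 0 hγ).unique hc

/-- a linear combination of two vectors -/
lemma surj_of {N k : ℕ} (L : CN N →L[ℂ] CN k) (q e : CN N) (he : L e = 0)
    (hqe : inner ℂ q e ≠ (0 : ℂ)) (hL : ∀ c, ∃ v, L v = c) (c : CN k) (a : ℂ) :
    ∃ v, L v = c ∧ inner ℂ q v = a := by
  obtain ⟨v, hv⟩ := hL c
  refine ⟨v + ((a - inner ℂ q v) / inner ℂ q e) • e, ?_, ?_⟩
  · simp [hv, he]
  · rw [inner_add_right, inner_smul_right]
    field_simp
    ring

/-- target of the parametrised directions -/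
def cc (x y z dx dy dz e1 e2 e3 e4 : ℂ) : CN 5 :=
  WithLp.toLp 2 ![2 * y * dy - 3 * x ^ 2 * dx - 6 * z ^ 5 * dz, e1, e2, e3, e4]

lemma exists_dir (x y z c0 : ℂ) (h : ¬ (x = 0 ∧ y = 0 ∧ z = 0)) :
    ∃ dx dy dz : ℂ, 2 * y * dy - 3 * x ^ 2 * dx - 6 * z ^ 5 * dz = c0 := by
  by_cases hy : y = 0
  · by_cases hx : x = 0
    · have hz : z ≠ 0 := fun hz => h ⟨hx, hy, hz⟩
      refine ⟨0, 0, -c0 / (6 * z ^ 5), ?_⟩
      field_simp
      ring
    · refine ⟨-c0 / (3 * x ^ 2), 0, 0, ?_⟩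
      field_simp
      ring
  · refine ⟨0, c0 / (2 * y), 0, ?_⟩
    field_simp
    ring

/-- The Euler vector. -/
def ev (q : CN 7) : CN 7 :=
  WithLp.toLp 2 ![2 * q 0, 3 * q 1, q 2, 2 * q 3, 3 * q 4, 3 * q 5, 4 * q 6]

lemma inner_ev (q : CN 7) (hq : ‖q‖ = 1) : inner ℂ q (ev q) ≠ (0 : ℂ) := by
  intro h
  have h1 : (inner ℂ q (ev q) : ℂ) = ((2 * ‖q 0‖ ^ 2 + 3 * ‖q 1‖ ^ 2 + ‖q 2‖ ^ 2 + 2 * ‖q 3‖ ^ 2
      + 3 * ‖q 4‖ ^ 2 + 3 * ‖q 5‖ ^ 2 + 4 * ‖q 6‖ ^ 2 : ℝ) : ℂ) := by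
    rw [PiLp.inner_apply]
    simp only [Fin.sum_univ_succ, ev]
    simp only [Fin.sum_univ_zero]
    push_cast
    simp only [← Complex.conj_mul']
    simp [inner]
    ring_nf!
    try rfl
  rw [h] at h1
  have h2 : (2 * ‖q 0‖ ^ 2 + 3 * ‖q 1‖ ^ 2 + ‖q 2‖ ^ 2 + 2 * ‖q 3‖ ^ 2
      + 3 * ‖q 4‖ ^ 2 + 3 * ‖q 5‖ ^ 2 + 4 * ‖q 6‖ ^ 2 : ℝ) = 0 := by exact_mod_cast h1.symm
  have h3 : ‖q‖ ^ 2 = ‖q 0‖ ^ 2 + ‖q 1‖ ^ 2 + ‖q 2‖ ^ 2 + ‖q 3‖ ^ 2
      + ‖q 4‖ ^ 2 + ‖q 5‖ ^ 2 + ‖q 6‖ ^ 2 := by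
    rw [EuclideanSpace.norm_sq_eq]
    simp only [Fin.sum_univ_succ, Fin.sum_univ_zero]
    simp
    ring_nf!
    try rfl
  rw [hq] at h3
  nlinarith [sq_nonneg ‖q 0‖, sq_nonneg ‖q 1‖, sq_nonneg ‖q 2‖, sq_nonneg ‖q 3‖,
    sq_nonneg ‖q 4‖, sq_nonneg ‖q 5‖, sq_nonneg ‖q 6‖]

/-! chart A -/

def FA (r : CN 7 × ℝ) : CN 5 :=
  WithLp.toLp 2 ![(r.1 1) ^ 2 - (r.1 0) ^ 3 - (r.1 2 / ((1 - r.2 : ℝ) : ℂ)) ^ 6,
    r.1 3 - (r.2 : ℂ) * (r.1 2 / ((1 - r.2 : ℝ) : ℂ)) ^ 2,
    r.1 4 - (r.2 : ℂ) * (r.1 2 / ((1 - r.2 : ℝ) : ℂ)) ^ 3,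
    r.1 5 - (r.2 : ℂ) * r.1 0 * (r.1 2 / ((1 - r.2 : ℝ) : ℂ)),
    r.1 6 - (r.2 : ℂ) * r.1 1 * (r.1 2 / ((1 - r.2 : ℝ) : ℂ))]

lemma contDiff_coord (i : Fin 7) : ContDiff ℝ ∞ (fun r : CN 7 × ℝ => r.1 i) := by
  have h : ContDiff ℝ ∞ (fun q : CN 7 => q i) := contDiff_piLp_apply (p := 2)
  exact h.comp contDiff_fst

lemma contDiff_t : ContDiff ℝ ∞ (fun r : CN 7 × ℝ => (r.2 : ℂ)) :=
  Complex.ofRealCLM.contDiff.comp contDiff_snd

lemma contDiff_1t : ContDiff ℝ ∞ (fun r : CN 7 × ℝ => ((1 - r.2 : ℝ) : ℂ)) :=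
  Complex.ofRealCLM.contDiff.comp (contDiff_const.sub contDiff_snd)

lemma contDiffOn_FA : ContDiffOn ℝ ∞ FA {r | r.2 < 1} := by
  have hz : ContDiffOn ℝ ∞ (fun r : CN 7 × ℝ => r.1 2 / ((1 - r.2 : ℝ) : ℂ)) {r | r.2 < 1} := by
    simp only [div_eq_mul_inv]
    refine (contDiff_coord 2).contDiffOn.mul (contDiff_1t.contDiffOn.inv ?_)
    intro r hr
    have : (1 : ℝ) - r.2 ≠ 0 := by
      have : r.2 < 1 := hr
      linarith
    exact_mod_cast this
  have hc := fun i => (contDiff_coord i).contDiffOn (s := {r : CN 7 × ℝ | r.2 < 1})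
  have ht := contDiff_t.contDiffOn (s := {r : CN 7 × ℝ | r.2 < 1})
  unfold FA
  rw [contDiffOn_piLp]
  intro i
  fin_cases i
  · exact (((hc 1).pow 2).sub ((hc 0).pow 3)).sub (hz.pow 6)
  · exact (hc 3).sub (ht.mul (hz.pow 2))
  · exact (hc 4).sub (ht.mul (hz.pow 3))
  · exact (hc 5).sub ((ht.mul (hc 0)).mul hz)
  · exact (hc 6).sub ((ht.mul (hc 1)).mul hz)

lemma diff_coord {p : CN 7} (i : Fin 7) : DifferentiableAt ℂ (fun q : CN 7 => q i) p :=
  ((contDiff_piLp_apply (p := 2) (i := i) : ContDiff ℂ 1 (fun q : CN 7 => q i)).differentiable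
    (by simp)) p

lemma diff_FA (t : ℝ) (p : CN 7) : DifferentiableAt ℂ (fun q => FA (q, t)) p := by
  have hc := fun i => diff_coord (p := p) i
  have hz : DifferentiableAt ℂ (fun q : CN 7 => q 2 / ((1 - t : ℝ) : ℂ)) p := by
    simp only [div_eq_mul_inv]
    exact (hc 2).mul_const _
  have ht : DifferentiableAt ℂ (fun _ : CN 7 => (t : ℂ)) p := differentiableAt_const _
  unfold FA
  rw [differentiableAt_piLp]
  intro i
  fin_cases i
  · exact (((hc 1).pow 2).sub ((hc 0).pow 3)).sub (hz.pow 6)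
  · exact (hc 3).sub (ht.mul (hz.pow 2))
  · exact (hc 4).sub (ht.mul (hz.pow 3))
  · exact (hc 5).sub ((ht.mul (hc 0)).mul hz)
  · exact (hc 6).sub ((ht.mul (hc 1)).mul hz)

lemma mem_fam2_iff_FA (r : CN 7 × ℝ) (hr : r.2 < 1) : r ∈ fam2 ↔ FA r = 0 := by
  have h1 : ((1 - r.2 : ℝ) : ℂ) ≠ 0 := by
    have : (1 : ℝ) - r.2 ≠ 0 := by linarith
    exact_mod_cast this
  constructor
  · rintro ⟨x, y, z, hxyz, h⟩
    have h0 : r.1 0 = x := by rw [h]; rfl
    have h1' : r.1 1 = y := by rw [h]; rfl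
    have h2 : r.1 2 = (1 - r.2) * z := by rw [h]; rfl
    have h3 : r.1 3 = r.2 * z ^ 2 := by rw [h]; rfl
    have h4 : r.1 4 = r.2 * z ^ 3 := by rw [h]; rfl
    have h5 : r.1 5 = r.2 * (x * z) := by rw [h]; rfl
    have h6 : r.1 6 = r.2 * (y * z) := by rw [h]; rfl
    have hz : r.1 2 / ((1 - r.2 : ℝ) : ℂ) = z := by
      rw [h2]
      push_cast at h1 ⊢
      field_simp
    unfold FA
    rw [hz, h0, h1', h3, h4, h5, h6]
    ext i
    fin_cases i
    · simp [hxyz]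
    · simp
    · simp
    · simp; ring
    · simp; ring
  · intro h
    have e := fun i => congrArg (fun q : CN 5 => q i) h
    have e0 := e 0
    have e1 := e 1
    have e2 := e 2
    have e3 := e 3
    have e4 := e 4
    simp [FA] at e0 e1 e2 e3 e4
    refine ⟨r.1 0, r.1 1, r.1 2 / ((1 - r.2 : ℝ) : ℂ), ?_, ?_⟩
    · push_cast
      linear_combination e0
    · push_cast at h1 ⊢
      ext i
      fin_cases i
      · simp
      · simp
      · simp
        field_simp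
      · simp
        linear_combination e1
      · simp
        linear_combination e2
      · simp
        linear_combination e3
      · simp
        linear_combination e4

lemma conv_der {f g : ℂ → ℂ} {a b : ℂ} (h : HasDerivAt f a 0) (hfg : ∀ s, g s = f s)
    (hab : b = a) : HasDerivAt g b 0 := by
  have : g = f := funext hfg
  rw [this, hab]
  exact h

/-- curve in chart A -/
lemma fderiv_FA (t : ℝ) (ht : t < 1) (x y z : ℂ) (dx dy dz e1 e2 e3 e4 : ℂ) :
    fderiv ℂ (fun q => FA (q, t)) (WithLp.toLp 2 ![x, y, (1 - t) * z, t * z ^ 2, t * z ^ 3,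
      t * (x * z), t * (y * z)])
      (WithLp.toLp 2 ![dx, dy, (1 - t) * dz, 2 * t * z * dz + e1, 3 * t * z ^ 2 * dz + e2,
        t * (x * dz + z * dx) + e3, t * (y * dz + z * dy) + e4]) =
      cc x y z dx dy dz e1 e2 e3 e4 := by
  have h1 : ((1 - t : ℝ) : ℂ) ≠ 0 := by
    have : (1 : ℝ) - t ≠ 0 := by linarith
    exact_mod_cast this
  have hl : ∀ a b : ℂ, HasDerivAt (fun s : ℂ => a + s * b) b 0 := by
    intro a b
    simpa using ((hasDerivAt_id (0 : ℂ)).mul_const b).const_add a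
  have hX := hl x dx
  have hY := hl y dy
  have hZ := hl z dz
  refine fderiv_curve (γ := fun s : ℂ => WithLp.toLp 2 ![x + s * dx, y + s * dy,
    (1 - t) * (z + s * dz), t * (z + s * dz) ^ 2 + s * e1, t * (z + s * dz) ^ 3 + s * e2,
    t * ((x + s * dx) * (z + s * dz)) + s * e3,
    t * ((y + s * dy) * (z + s * dz)) + s * e4]) (diff_FA t _) ?_ ?_ ?_
  · apply hasDerivAt_CN
    intro i
    fin_cases i
    · simpa using hX
    · simpa using hY
    · simpa using hZ.const_mul ((1 : ℂ) - t)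
    · have := ((hZ.pow 2).const_mul (t : ℂ)).add (hl 0 e1)
      refine conv_der this (fun s => ?_) ?_
      · simp
      · simp
        try ring1
    · have := ((hZ.pow 3).const_mul (t : ℂ)).add (hl 0 e2)
      refine conv_der this (fun s => ?_) ?_
      · simp
      · simp
        try ring1
    · have := ((hX.mul hZ).const_mul (t : ℂ)).add (hl 0 e3)
      refine conv_der this (fun s => ?_) ?_
      · simp
      · simp
        try (first | ring1 | (left; ring1))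
    · have := ((hY.mul hZ).const_mul (t : ℂ)).add (hl 0 e4)
      refine conv_der this (fun s => ?_) ?_
      · simp
      · simp
        try (first | ring1 | (left; ring1))
  · ext i
    fin_cases i <;> simp
  · have e : ∀ s : ℂ, FA (WithLp.toLp 2 ![x + s * dx, y + s * dy,
      (1 - t) * (z + s * dz), t * (z + s * dz) ^ 2 + s * e1, t * (z + s * dz) ^ 3 + s * e2,
      t * ((x + s * dx) * (z + s * dz)) + s * e3,
      t * ((y + s * dy) * (z + s * dz)) + s * e4], t) =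
      WithLp.toLp 2 ![(y + s * dy) ^ 2 - (x + s * dx) ^ 3 - (z + s * dz) ^ 6,
        s * e1, s * e2, s * e3, s * e4] := by
      intro s
      have hz : (1 - (t : ℂ)) * (z + s * dz) / ((1 - t : ℝ) : ℂ) = z + s * dz := by
        push_cast at h1 ⊢
        field_simp
      ext i
      unfold FA
      fin_cases i
      · simp only [Fin.zero_eta, Fin.isValue, Matrix.cons_val]
        rw [hz]
      · simp only [Fin.mk_one, Fin.isValue, Matrix.cons_val]
        rw [hz]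
        ring
      · simp only [Fin.reduceFinMk, Fin.isValue, Matrix.cons_val]
        rw [hz]
        ring
      · simp only [Fin.reduceFinMk, Fin.isValue, Matrix.cons_val]
        rw [hz]
        ring
      · simp only [Fin.reduceFinMk, Fin.isValue, Matrix.cons_val]
        rw [hz]
        ring
    simp only [e]
    apply hasDerivAt_CN
    intro i
    fin_cases i
    · have := ((hY.pow 2).sub (hX.pow 3)).sub (hZ.pow 6)
      refine conv_der this (fun s => ?_) ?_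
      · simp
      · simp [cc]
        try ring
    · simpa [cc] using hl 0 e1
    · simpa [cc] using hl 0 e2
    · simpa [cc] using hl 0 e3
    · simpa [cc] using hl 0 e4

/-! chart B -/

def FB (r : CN 7 × ℝ) : CN 5 :=
  WithLp.toLp 2 ![(r.1 1) ^ 2 - (r.1 0) ^ 3 - (r.1 5 / ((r.2 : ℂ) * r.1 0)) ^ 6,
    r.1 2 - ((1 - r.2 : ℝ) : ℂ) * (r.1 5 / ((r.2 : ℂ) * r.1 0)),
    r.1 3 - (r.2 : ℂ) * (r.1 5 / ((r.2 : ℂ) * r.1 0)) ^ 2,
    r.1 4 - (r.2 : ℂ) * (r.1 5 / ((r.2 : ℂ) * r.1 0)) ^ 3,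
    r.1 6 - (r.2 : ℂ) * r.1 1 * (r.1 5 / ((r.2 : ℂ) * r.1 0))]

def FC (r : CN 7 × ℝ) : CN 5 :=
  WithLp.toLp 2 ![(r.1 1) ^ 2 - (r.1 0) ^ 3 - (r.1 6 / ((r.2 : ℂ) * r.1 1)) ^ 6,
    r.1 2 - ((1 - r.2 : ℝ) : ℂ) * (r.1 6 / ((r.2 : ℂ) * r.1 1)),
    r.1 3 - (r.2 : ℂ) * (r.1 6 / ((r.2 : ℂ) * r.1 1)) ^ 2,
    r.1 4 - (r.2 : ℂ) * (r.1 6 / ((r.2 : ℂ) * r.1 1)) ^ 3,
    r.1 5 - (r.2 : ℂ) * r.1 0 * (r.1 6 / ((r.2 : ℂ) * r.1 1))]

def OO (i : Fin 7) : Set (CN 7 × ℝ) := {r | r.1 i ≠ 0 ∧ 0 < r.2}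

lemma isOpen_OO (i : Fin 7) : IsOpen (OO i) := by
  have h1 : Continuous (fun r : CN 7 × ℝ => r.1 i) := (contDiff_coord i).continuous
  exact (isOpen_ne.preimage h1).inter (isOpen_Ioi.preimage continuous_snd)

lemma contDiffOn_FB : ContDiffOn ℝ ∞ FB (OO 0) := by
  have hc := fun i => (contDiff_coord i).contDiffOn (s := OO 0)
  have ht := contDiff_t.contDiffOn (s := OO 0)
  have h1t := contDiff_1t.contDiffOn (s := OO 0)
  have hz : ContDiffOn ℝ ∞ (fun r : CN 7 × ℝ => r.1 5 / ((r.2 : ℂ) * r.1 0)) (OO 0) := by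
    simp only [div_eq_mul_inv]
    refine (hc 5).mul ((ht.mul (hc 0)).inv ?_)
    rintro r ⟨h1, h2⟩
    exact mul_ne_zero (by exact_mod_cast h2.ne') h1
  unfold FB
  rw [contDiffOn_piLp]
  intro i
  fin_cases i
  · exact (((hc 1).pow 2).sub ((hc 0).pow 3)).sub (hz.pow 6)
  · exact (hc 2).sub (h1t.mul hz)
  · exact (hc 3).sub (ht.mul (hz.pow 2))
  · exact (hc 4).sub (ht.mul (hz.pow 3))
  · exact (hc 6).sub ((ht.mul (hc 1)).mul hz)

lemma contDiffOn_FC : ContDiffOn ℝ ∞ FC (OO 1) := by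
  have hc := fun i => (contDiff_coord i).contDiffOn (s := OO 1)
  have ht := contDiff_t.contDiffOn (s := OO 1)
  have h1t := contDiff_1t.contDiffOn (s := OO 1)
  have hz : ContDiffOn ℝ ∞ (fun r : CN 7 × ℝ => r.1 6 / ((r.2 : ℂ) * r.1 1)) (OO 1) := by
    simp only [div_eq_mul_inv]
    refine (hc 6).mul ((ht.mul (hc 1)).inv ?_)
    rintro r ⟨h1, h2⟩
    exact mul_ne_zero (by exact_mod_cast h2.ne') h1
  unfold FC
  rw [contDiffOn_piLp]
  intro i
  fin_cases i
  · exact (((hc 1).pow 2).sub ((hc 0).pow 3)).sub (hz.pow 6)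
  · exact (hc 2).sub (h1t.mul hz)
  · exact (hc 3).sub (ht.mul (hz.pow 2))
  · exact (hc 4).sub (ht.mul (hz.pow 3))
  · exact (hc 5).sub ((ht.mul (hc 0)).mul hz)

lemma diff_FB (t : ℝ) (ht0 : 0 < t) (p : CN 7) (hp : p 0 ≠ 0) :
    DifferentiableAt ℂ (fun q => FB (q, t)) p := by
  have hc := fun i => diff_coord (p := p) i
  have ht : DifferentiableAt ℂ (fun _ : CN 7 => (t : ℂ)) p := differentiableAt_const _
  have h1t : DifferentiableAt ℂ (fun _ : CN 7 => ((1 - t : ℝ) : ℂ)) p := differentiableAt_const _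
  have hz : DifferentiableAt ℂ (fun q : CN 7 => q 5 / ((t : ℂ) * q 0)) p := by
    simp only [div_eq_mul_inv]
    exact (hc 5).mul ((ht.mul (hc 0)).inv (mul_ne_zero (show (t : ℂ) ≠ 0 by exact_mod_cast ht0.ne') hp))
  unfold FB
  rw [differentiableAt_piLp]
  intro i
  fin_cases i
  · exact (((hc 1).pow 2).sub ((hc 0).pow 3)).sub (hz.pow 6)
  · exact (hc 2).sub (h1t.mul hz)
  · exact (hc 3).sub (ht.mul (hz.pow 2))
  · exact (hc 4).sub (ht.mul (hz.pow 3))
  · exact (hc 6).sub ((ht.mul (hc 1)).mul hz)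

lemma diff_FC (t : ℝ) (ht0 : 0 < t) (p : CN 7) (hp : p 1 ≠ 0) :
    DifferentiableAt ℂ (fun q => FC (q, t)) p := by
  have hc := fun i => diff_coord (p := p) i
  have ht : DifferentiableAt ℂ (fun _ : CN 7 => (t : ℂ)) p := differentiableAt_const _
  have h1t : DifferentiableAt ℂ (fun _ : CN 7 => ((1 - t : ℝ) : ℂ)) p := differentiableAt_const _
  have hz : DifferentiableAt ℂ (fun q : CN 7 => q 6 / ((t : ℂ) * q 1)) p := by
    simp only [div_eq_mul_inv]
    exact (hc 6).mul ((ht.mul (hc 1)).inv (mul_ne_zero (show (t : ℂ) ≠ 0 by exact_mod_cast ht0.ne') hp))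
  unfold FC
  rw [differentiableAt_piLp]
  intro i
  fin_cases i
  · exact (((hc 1).pow 2).sub ((hc 0).pow 3)).sub (hz.pow 6)
  · exact (hc 2).sub (h1t.mul hz)
  · exact (hc 3).sub (ht.mul (hz.pow 2))
  · exact (hc 4).sub (ht.mul (hz.pow 3))
  · exact (hc 5).sub ((ht.mul (hc 0)).mul hz)

lemma mem_fam2_iff_FB (r : CN 7 × ℝ) (hr : r ∈ OO 0) : r ∈ fam2 ↔ FB r = 0 := by
  obtain ⟨hr0, hrt⟩ := hr
  have ht : (r.2 : ℂ) ≠ 0 := by exact_mod_cast hrt.ne'
  constructor
  · rintro ⟨x, y, z, hxyz, h⟩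
    have h0 : r.1 0 = x := by rw [h]; rfl
    have h1' : r.1 1 = y := by rw [h]; rfl
    have h2 : r.1 2 = (1 - r.2) * z := by rw [h]; rfl
    have h3 : r.1 3 = r.2 * z ^ 2 := by rw [h]; rfl
    have h4 : r.1 4 = r.2 * z ^ 3 := by rw [h]; rfl
    have h5 : r.1 5 = r.2 * (x * z) := by rw [h]; rfl
    have h6 : r.1 6 = r.2 * (y * z) := by rw [h]; rfl
    have hx : x ≠ 0 := h0 ▸ hr0
    have hz : r.1 5 / ((r.2 : ℂ) * r.1 0) = z := by
      rw [h5, h0]
      field_simp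
    unfold FB
    rw [hz, h0, h1', h2, h3, h4, h6]
    ext i
    fin_cases i
    · simp [hxyz]
    · simp
    · simp
    · simp
    · simp; ring
  · intro h
    have e := fun i => congrArg (fun q : CN 5 => q i) h
    have e0 := e 0
    have e1 := e 1
    have e2 := e 2
    have e3 := e 3
    have e4 := e 4
    simp [FB] at e0 e1 e2 e3 e4
    refine ⟨r.1 0, r.1 1, r.1 5 / ((r.2 : ℂ) * r.1 0), ?_, ?_⟩
    · linear_combination e0
    · ext i
      fin_cases i
      · simp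
      · simp
      · simp
        linear_combination e1
      · simp
        linear_combination e2
      · simp
        linear_combination e3
      · simp
        field_simp
      · simp
        linear_combination e4

lemma mem_fam2_iff_FC (r : CN 7 × ℝ) (hr : r ∈ OO 1) : r ∈ fam2 ↔ FC r = 0 := by
  obtain ⟨hr0, hrt⟩ := hr
  have ht : (r.2 : ℂ) ≠ 0 := by exact_mod_cast hrt.ne'
  constructor
  · rintro ⟨x, y, z, hxyz, h⟩
    have h0 : r.1 0 = x := by rw [h]; rfl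
    have h1' : r.1 1 = y := by rw [h]; rfl
    have h2 : r.1 2 = (1 - r.2) * z := by rw [h]; rfl
    have h3 : r.1 3 = r.2 * z ^ 2 := by rw [h]; rfl
    have h4 : r.1 4 = r.2 * z ^ 3 := by rw [h]; rfl
    have h5 : r.1 5 = r.2 * (x * z) := by rw [h]; rfl
    have h6 : r.1 6 = r.2 * (y * z) := by rw [h]; rfl
    have hx : y ≠ 0 := h1' ▸ hr0
    have hz : r.1 6 / ((r.2 : ℂ) * r.1 1) = z := by
      rw [h6, h1']
      field_simp
    unfold FC
    rw [hz, h0, h1', h2, h3, h4, h5]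
    ext i
    fin_cases i
    · simp [hxyz]
    · simp
    · simp
    · simp
    · simp; ring
  · intro h
    have e := fun i => congrArg (fun q : CN 5 => q i) h
    have e0 := e 0
    have e1 := e 1
    have e2 := e 2
    have e3 := e 3
    have e4 := e 4
    simp [FC] at e0 e1 e2 e3 e4
    refine ⟨r.1 0, r.1 1, r.1 6 / ((r.2 : ℂ) * r.1 1), ?_, ?_⟩
    · linear_combination e0
    · ext i
      fin_cases i
      · simp
      · simp
      · simp
        linear_combination e1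
      · simp
        linear_combination e2
      · simp
        linear_combination e3
      · simp
        linear_combination e4
      · simp
        field_simp

lemma hl (a b : ℂ) : HasDerivAt (fun s : ℂ => a + s * b) b 0 := by
  simpa using ((hasDerivAt_id (0 : ℂ)).mul_const b).const_add a

lemma ev_ne (x dx : ℂ) (hx : x ≠ 0) : ∀ᶠ s : ℂ in 𝓝 0, x + s * dx ≠ 0 := by
  have h : ContinuousAt (fun s : ℂ => x + s * dx) 0 := (hl x dx).continuousAt
  exact h.eventually_ne (by simpa using hx)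

lemma fderiv_FB (x y z : ℂ) (hx : x ≠ 0) (dx dy dz e1 e2 e3 e4 : ℂ) :
    fderiv ℂ (fun q => FB (q, 1)) (WithLp.toLp 2 ![x, y, 0, z ^ 2, z ^ 3, x * z, y * z])
      (WithLp.toLp 2 ![dx, dy, e1, 2 * z * dz + e2, 3 * z ^ 2 * dz + e3,
        x * dz + z * dx, y * dz + z * dy + e4]) =
      cc x y z dx dy dz e1 e2 e3 e4 := by
  have hX := hl x dx
  have hY := hl y dy
  have hZ := hl z dz
  refine fderiv_curve (γ := fun s : ℂ => WithLp.toLp 2 ![x + s * dx, y + s * dy,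
    s * e1, (z + s * dz) ^ 2 + s * e2, (z + s * dz) ^ 3 + s * e3,
    (x + s * dx) * (z + s * dz),
    (y + s * dy) * (z + s * dz) + s * e4]) (diff_FB 1 one_pos _ (by simpa using hx)) ?_ ?_ ?_
  · apply hasDerivAt_CN
    intro i
    fin_cases i
    · simpa using hX
    · simpa using hY
    · simpa using hl 0 e1
    · have := (hZ.pow 2).add (hl 0 e2)
      refine conv_der this (fun s => ?_) ?_
      · simp
      · simp
    · have := (hZ.pow 3).add (hl 0 e3)
      refine conv_der this (fun s => ?_) ?_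
      · simp
      · simp
    · have := hX.mul hZ
      refine conv_der this (fun s => ?_) ?_
      · simp
      · simp
        ring
    · have := (hY.mul hZ).add (hl 0 e4)
      refine conv_der this (fun s => ?_) ?_
      · simp
      · simp
        ring
  · ext i
    fin_cases i <;> simp
  · have e : (fun s : ℂ => FB (WithLp.toLp 2 ![x + s * dx, y + s * dy,
      s * e1, (z + s * dz) ^ 2 + s * e2, (z + s * dz) ^ 3 + s * e3,
      (x + s * dx) * (z + s * dz),
      (y + s * dy) * (z + s * dz) + s * e4], 1)) =ᶠ[𝓝 0] fun s : ℂ =>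
      (WithLp.toLp 2 ![(y + s * dy) ^ 2 - (x + s * dx) ^ 3 - (z + s * dz) ^ 6,
        s * e1, s * e2, s * e3, s * e4] : CN 5) := by
      filter_upwards [ev_ne x dx hx] with s hs
      have hz : (x + s * dx) * (z + s * dz) / (((1 : ℝ) : ℂ) * (x + s * dx)) = z + s * dz := by
        push_cast
        field_simp
      ext i
      unfold FB
      fin_cases i
      · simp only [Fin.zero_eta, Fin.isValue, Matrix.cons_val]
        rw [hz]
      · simp only [Fin.mk_one, Fin.isValue, Matrix.cons_val]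
        rw [hz]
        simp
      · simp only [Fin.reduceFinMk, Fin.isValue, Matrix.cons_val]
        rw [hz]
        simp
      · simp only [Fin.reduceFinMk, Fin.isValue, Matrix.cons_val]
        rw [hz]
        simp
      · simp only [Fin.reduceFinMk, Fin.isValue, Matrix.cons_val]
        rw [hz]
        simp
    refine HasDerivAt.congr_of_eventuallyEq ?_ e
    apply hasDerivAt_CN
    intro i
    fin_cases i
    · have := ((hY.pow 2).sub (hX.pow 3)).sub (hZ.pow 6)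
      refine conv_der this (fun s => ?_) ?_
      · simp
      · simp [cc]
    · simpa [cc] using hl 0 e1
    · simpa [cc] using hl 0 e2
    · simpa [cc] using hl 0 e3
    · simpa [cc] using hl 0 e4

lemma fderiv_FC (x y z : ℂ) (hy : y ≠ 0) (dx dy dz e1 e2 e3 e4 : ℂ) :
    fderiv ℂ (fun q => FC (q, 1)) (WithLp.toLp 2 ![x, y, 0, z ^ 2, z ^ 3, x * z, y * z])
      (WithLp.toLp 2 ![dx, dy, e1, 2 * z * dz + e2, 3 * z ^ 2 * dz + e3,
        x * dz + z * dx + e4, y * dz + z * dy]) =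
      cc x y z dx dy dz e1 e2 e3 e4 := by
  have hX := hl x dx
  have hY := hl y dy
  have hZ := hl z dz
  refine fderiv_curve (γ := fun s : ℂ => WithLp.toLp 2 ![x + s * dx, y + s * dy,
    s * e1, (z + s * dz) ^ 2 + s * e2, (z + s * dz) ^ 3 + s * e3,
    (x + s * dx) * (z + s * dz) + s * e4,
    (y + s * dy) * (z + s * dz)]) (diff_FC 1 one_pos _ (by simpa using hy)) ?_ ?_ ?_
  · apply hasDerivAt_CN
    intro i
    fin_cases i
    · simpa using hX
    · simpa using hY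
    · simpa using hl 0 e1
    · have := (hZ.pow 2).add (hl 0 e2)
      refine conv_der this (fun s => ?_) ?_
      · simp
      · simp
    · have := (hZ.pow 3).add (hl 0 e3)
      refine conv_der this (fun s => ?_) ?_
      · simp
      · simp
    · have := (hX.mul hZ).add (hl 0 e4)
      refine conv_der this (fun s => ?_) ?_
      · simp
      · simp
        ring
    · have := hY.mul hZ
      refine conv_der this (fun s => ?_) ?_
      · simp
      · simp
        ring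
  · ext i
    fin_cases i <;> simp
  · have e : (fun s : ℂ => FC (WithLp.toLp 2 ![x + s * dx, y + s * dy,
      s * e1, (z + s * dz) ^ 2 + s * e2, (z + s * dz) ^ 3 + s * e3,
      (x + s * dx) * (z + s * dz) + s * e4,
      (y + s * dy) * (z + s * dz)], 1)) =ᶠ[𝓝 0] fun s : ℂ =>
      (WithLp.toLp 2 ![(y + s * dy) ^ 2 - (x + s * dx) ^ 3 - (z + s * dz) ^ 6,
        s * e1, s * e2, s * e3, s * e4] : CN 5) := by
      filter_upwards [ev_ne y dy hy] with s hs
      have hz : (y + s * dy) * (z + s * dz) / (((1 : ℝ) : ℂ) * (y + s * dy)) = z + s * dz := by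
        push_cast
        field_simp
      ext i
      unfold FC
      fin_cases i
      · simp only [Fin.zero_eta, Fin.isValue, Matrix.cons_val]
        rw [hz]
      · simp only [Fin.mk_one, Fin.isValue, Matrix.cons_val]
        rw [hz]
        simp
      · simp only [Fin.reduceFinMk, Fin.isValue, Matrix.cons_val]
        rw [hz]
        simp
      · simp only [Fin.reduceFinMk, Fin.isValue, Matrix.cons_val]
        rw [hz]
        simp
      · simp only [Fin.reduceFinMk, Fin.isValue, Matrix.cons_val]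
        rw [hz]
        simp
    refine HasDerivAt.congr_of_eventuallyEq ?_ e
    apply hasDerivAt_CN
    intro i
    fin_cases i
    · have := ((hY.pow 2).sub (hX.pow 3)).sub (hZ.pow 6)
      refine conv_der this (fun s => ?_) ?_
      · simp
      · simp [cc]
    · simpa [cc] using hl 0 e1
    · simpa [cc] using hl 0 e2
    · simpa [cc] using hl 0 e3
    · simpa [cc] using hl 0 e4

/-! the three local presentations -/

lemma cc_ev (x y z : ℂ) (h : y ^ 2 = x ^ 3 + z ^ 6) :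
    cc x y z (2 * x) (3 * y) z 0 0 0 0 = 0 := by
  ext i
  fin_cases i
  · simp [cc]
    linear_combination 6 * h
  all_goals simp [cc]

lemma eq_cc (x y z : ℂ) (hne : ¬ (x = 0 ∧ y = 0 ∧ z = 0)) (c : CN 5) :
    ∃ dx dy dz : ℂ, c = cc x y z dx dy dz (c 1) (c 2) (c 3) (c 4) := by
  obtain ⟨dx, dy, dz, h⟩ := exists_dir x y z (c 0) hne
  refine ⟨dx, dy, dz, ?_⟩
  ext i
  fin_cases i
  · simp [cc, h]
  all_goals simp [cc]

lemma localA (r : CN 7 × ℝ) (hr : r ∈ fam2) (hn : ‖r.1‖ = 1) (ht : r.2 < 1) :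
    LocalFamily 5 (Set.Icc 0 1) fam2 r := by
  refine ⟨{r | r.2 < 1}, FA, isOpen_Iio.preimage continuous_snd, ht, contDiffOn_FA,
    fun r _ => diff_FA r.2 r.1, fun r hr _ => mem_fam2_iff_FA r hr, ?_⟩
  obtain ⟨x, y, z, hxyz, h⟩ := hr
  have hne : ¬ (x = 0 ∧ y = 0 ∧ z = 0) := by
    rintro ⟨rfl, rfl, rfl⟩
    have : r.1 = 0 := by
      rw [h]
      ext i
      fin_cases i <;> simp
    rw [this, norm_zero] at hn
    exact zero_ne_one hn
  have hev := fderiv_FA r.2 ht x y z (2 * x) (3 * y) z 0 0 0 0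
  rw [cc_ev x y z hxyz] at hev
  have hE : (WithLp.toLp 2 ![2 * x, 3 * y, (1 - (r.2 : ℂ)) * z, 2 * r.2 * z * z + 0,
      3 * r.2 * z ^ 2 * z + 0, r.2 * (x * z + z * (2 * x)) + 0,
      r.2 * (y * z + z * (3 * y)) + 0] : CN 7) = ev r.1 := by
    rw [h]
    ext i
    fin_cases i <;> simp [ev] <;> ring
  rw [hE, ← h] at hev
  refine surj_of _ r.1 (ev r.1) hev (inner_ev _ hn) (fun c => ?_)
  obtain ⟨dx, dy, dz, hc⟩ := eq_cc x y z hne c
  have hfin := fderiv_FA r.2 ht x y z dx dy dz (c 1) (c 2) (c 3) (c 4)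
  rw [← h, ← hc] at hfin
  exact ⟨_, hfin⟩

lemma localB (r : CN 7 × ℝ) (hr : r ∈ fam2) (hn : ‖r.1‖ = 1) (ht : r.2 = 1) (h0 : r.1 0 ≠ 0) :
    LocalFamily 5 (Set.Icc 0 1) fam2 r := by
  refine ⟨OO 0, FB, isOpen_OO 0, ⟨h0, by rw [ht]; exact one_pos⟩, contDiffOn_FB,
    fun r hr => diff_FB r.2 hr.2 r.1 hr.1, fun r hr _ => mem_fam2_iff_FB r hr, ?_⟩
  obtain ⟨x, y, z, hxyz, h⟩ := hr
  rw [ht] at h ⊢
  have h' : r.1 = WithLp.toLp 2 ![x, y, 0, z ^ 2, z ^ 3, x * z, y * z] := by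
    rw [h]
    ext i
    fin_cases i <;> simp
  have hx : x ≠ 0 := by
    have : r.1 0 = x := by rw [h']; rfl
    rwa [this] at h0
  have hev := fderiv_FB x y z hx (2 * x) (3 * y) z 0 0 0 0
  rw [cc_ev x y z hxyz] at hev
  have hE : (WithLp.toLp 2 ![2 * x, 3 * y, 0, 2 * z * z + 0,
      3 * z ^ 2 * z + 0, x * z + z * (2 * x),
      y * z + z * (3 * y) + 0] : CN 7) = ev r.1 := by
    rw [h']
    ext i
    fin_cases i <;> simp [ev] <;> ring
  rw [hE, ← h'] at hev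
  refine surj_of _ r.1 (ev r.1) hev (inner_ev _ hn) (fun c => ?_)
  obtain ⟨dx, dy, dz, hc⟩ := eq_cc x y z (fun h => hx h.1) c
  have hfin := fderiv_FB x y z hx dx dy dz (c 1) (c 2) (c 3) (c 4)
  rw [← h', ← hc] at hfin
  exact ⟨_, hfin⟩

lemma localC (r : CN 7 × ℝ) (hr : r ∈ fam2) (hn : ‖r.1‖ = 1) (ht : r.2 = 1) (h0 : r.1 1 ≠ 0) :
    LocalFamily 5 (Set.Icc 0 1) fam2 r := by
  refine ⟨OO 1, FC, isOpen_OO 1, ⟨h0, by rw [ht]; exact one_pos⟩, contDiffOn_FC,
    fun r hr => diff_FC r.2 hr.2 r.1 hr.1, fun r hr _ => mem_fam2_iff_FC r hr, ?_⟩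
  obtain ⟨x, y, z, hxyz, h⟩ := hr
  rw [ht] at h ⊢
  have h' : r.1 = WithLp.toLp 2 ![x, y, 0, z ^ 2, z ^ 3, x * z, y * z] := by
    rw [h]
    ext i
    fin_cases i <;> simp
  have hy : y ≠ 0 := by
    have : r.1 1 = y := by rw [h']; rfl
    rwa [this] at h0
  have hev := fderiv_FC x y z hy (2 * x) (3 * y) z 0 0 0 0
  rw [cc_ev x y z hxyz] at hev
  have hE : (WithLp.toLp 2 ![2 * x, 3 * y, 0, 2 * z * z + 0,
      3 * z ^ 2 * z + 0, x * z + z * (2 * x) + 0,
      y * z + z * (3 * y)] : CN 7) = ev r.1 := by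
    rw [h']
    ext i
    fin_cases i <;> simp [ev] <;> ring
  rw [hE, ← h'] at hev
  refine surj_of _ r.1 (ev r.1) hev (inner_ev _ hn) (fun c => ?_)
  obtain ⟨dx, dy, dz, hc⟩ := eq_cc x y z (fun h => hy h.2.1) c
  have hfin := fderiv_FC x y z hy dx dy dz (c 1) (c 2) (c 3) (c 4)
  rw [← h', ← hc] at hfin
  exact ⟨_, hfin⟩

/-! compactness -/

def par (u : (ℂ × ℂ × ℂ) × ℝ) : CN 7 × ℝ :=
  (WithLp.toLp 2 ![u.1.1, u.1.2.1, (1 - (u.2 : ℂ)) * u.1.2.2, u.2 * u.1.2.2 ^ 2,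
    u.2 * u.1.2.2 ^ 3, u.2 * (u.1.1 * u.1.2.2), u.2 * (u.1.2.1 * u.1.2.2)], u.2)

lemma continuous_par : Continuous par := by
  unfold par
  refine Continuous.prodMk ?_ continuous_snd
  refine (PiLp.continuous_toLp 2 _).comp ?_
  apply continuous_pi
  intro i
  fin_cases i <;> simp <;> fun_prop

lemma norm_coord_le (q : CN 7) (i : Fin 7) : ‖q i‖ ≤ ‖q‖ := PiLp.norm_apply_le q i

lemma compact_fam2 :
    IsCompact {r : CN 7 × ℝ | r ∈ fam2 ∧ ‖r.1‖ = 1 ∧ r.2 ∈ Set.Icc (0 : ℝ) 1} := by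
  have hK : IsCompact (((Metric.closedBall (0 : ℂ) 1) ×ˢ ((Metric.closedBall (0 : ℂ) 1) ×ˢ
      (Metric.closedBall (0 : ℂ) 2))) ×ˢ (Set.Icc (0 : ℝ) 1)) :=
    ((isCompact_closedBall _ _).prod ((isCompact_closedBall _ _).prod
      (isCompact_closedBall _ _))).prod isCompact_Icc
  have hcl : IsClosed {u : (ℂ × ℂ × ℂ) × ℝ | u.1.2.1 ^ 2 = u.1.1 ^ 3 + u.1.2.2 ^ 6 ∧
      ‖(par u).1‖ = 1} := by
    refine IsClosed.inter ?_ ?_
    · exact isClosed_eq (by fun_prop) (by fun_prop)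
    · exact isClosed_eq (continuous_fst.comp continuous_par).norm continuous_const
  have h := (hK.inter_right hcl).image continuous_par
  convert h using 1
  ext r
  constructor
  · rintro ⟨⟨x, y, z, hxyz, hr⟩, hn, ht⟩
    have hpar : par ((x, y, z), r.2) = r := by
      ext1
      · exact hr.symm
      · rfl
    have hx : ‖x‖ ≤ 1 := by
      have h1 := norm_coord_le r.1 0
      rw [hn, hr] at h1
      simpa using h1
    have hy : ‖y‖ ≤ 1 := by
      have h1 := norm_coord_le r.1 1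
      rw [hn, hr] at h1
      simpa using h1
    have hz : ‖z‖ ≤ 2 := by
      by_contra hcon
      push Not at hcon
      have h1 : z ^ 6 = y ^ 2 - x ^ 3 := by rw [hxyz]; ring
      have h2 : ‖z‖ ^ 6 ≤ 2 := by
        calc ‖z‖ ^ 6 = ‖y ^ 2 - x ^ 3‖ := by rw [← h1, norm_pow]
          _ ≤ ‖y ^ 2‖ + ‖x ^ 3‖ := norm_sub_le _ _
          _ = ‖y‖ ^ 2 + ‖x‖ ^ 3 := by rw [norm_pow, norm_pow]
          _ ≤ 1 + 1 := add_le_add (pow_le_one₀ (norm_nonneg _) hy)
              (pow_le_one₀ (norm_nonneg _) hx)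
          _ = 2 := by norm_num
      have h3 : (2 : ℝ) ^ 6 ≤ ‖z‖ ^ 6 := pow_le_pow_left₀ (by norm_num) hcon.le 6
      norm_num at h3
      linarith
    refine ⟨((x, y, z), r.2), ⟨⟨⟨?_, ?_, ?_⟩, ht⟩, hxyz, ?_⟩, hpar⟩
    · simpa using hx
    · simpa using hy
    · simpa using hz
    · rw [hpar]; exact hn
  · rintro ⟨u, ⟨⟨-, ht⟩, hu, hn⟩, rfl⟩
    exact ⟨⟨u.1.1, u.1.2.1, u.1.2.2, hu, rfl⟩, hn, ht⟩

end Fam2

open Fam2 in
theorem tFam2 : TFam2 := by
  refine ⟨compact_fam2, fun r hr hn ht => ?_⟩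
  rcases lt_or_eq_of_le ht.2 with h1 | h1
  · exact localA r hr hn h1
  by_cases h0 : r.1 0 = 0
  · by_cases h0' : r.1 1 = 0
    · exfalso
      obtain ⟨x, y, z, hxyz, h⟩ := hr
      have hx : x = 0 := by rw [h] at h0; simpa using h0
      have hy : y = 0 := by rw [h] at h0'; simpa using h0'
      have hz : z = 0 := by
        rw [hx, hy] at hxyz
        have : z ^ 6 = 0 := by linear_combination -hxyz
        exact pow_eq_zero_iff (by norm_num) |>.1 this
      have : r.1 = 0 := by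
        rw [h, hx, hy, hz]
        ext i
        fin_cases i <;> simp
      rw [this, norm_zero] at hn
      exact zero_ne_one hn
    · exact localC r hr hn h1 h0'
  · exact localB r hr hn h1 h0

end

end Pool.Agent.SteinFill
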