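import Pool.Agent.SteinFill.Spec

/-!
# Family 3: from the re-embedded cone to `A_{t₀}`
-/

namespace Pool.Agent.SteinFill

open scoped ContDiff
open Complex (I)

noncomputable section

namespace Fam3_

/-- The unscaled total family. -/
def tot : Set (CN 7 × ℝ) := {r | SymRel (r.2 : ℂ) r.1}

lemma symRel_iff (t : ℂ) (q : CN 7) : SymRel t q ↔
    q 2 = 0 ∧
    (q 4) ^ 2 = (q 3) ^ 3 - 3 * q 3 * q 0 * t ^ 2 + 2 * q 1 * t ^ 3 + 2 * t ^ 6 ∧
    (q 1) ^ 2 = (q 0) ^ 3 + (q 3) ^ 3 - 3 * q 3 * q 0 * t ^ 2 + t ^ 6 ∧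
    (q 5) ^ 2 = (q 0) ^ 2 * q 3 + 2 * q 0 * q 1 * t + (q 3) ^ 2 * t ^ 2 - 2 * q 0 * t ^ 4 ∧
    q 4 * q 5 = (q 3) ^ 2 * q 0 + q 3 * q 1 * t - 2 * (q 0) ^ 2 * t ^ 2 + q 3 * t ^ 4 ∧
    q 0 * q 4 = q 3 * q 5 - t * q 6 ∧
    q 6 * q 4 = ((q 3) ^ 2 - 2 * q 0 * t ^ 2) * q 1 + (q 0) ^ 2 * q 3 * t +
      (q 3) ^ 2 * t ^ 3 - 2 * q 0 * t ^ 5 ∧
    (q 6) ^ 2 = (q 0) ^ 3 * q 3 + (q 3) ^ 4 - 4 * (q 3) ^ 2 * q 0 * t ^ 2 +
      2 * (q 0) ^ 2 * t ^ 4 + 2 * (q 0) ^ 2 * q 1 * t ∧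
    q 1 * q 5 = q 0 * q 6 + t * q 3 * q 4 - t ^ 3 * q 5 ∧
    q 1 * q 4 = q 3 * q 6 - t * q 0 * q 5 + t ^ 3 * q 4 :=
  ⟨fun h => ⟨h.r0, h.r1, h.r2, h.r3, h.r4, h.r5, h.r7, h.r9, h.r10, h.r11⟩,
    fun ⟨h0, h1, h2, h3, h4, h5, h7, h9, h10, h11⟩ =>
      ⟨h0, h1, h2, h3, h4, h5, h7, h9, h10, h11⟩⟩

lemma continuous_coord (j : Fin 7) : Continuous fun r : CN 7 × ℝ => r.1 j :=
  (EuclideanSpace.proj j : CN 7 →L[ℂ] ℂ).continuous.comp continuous_fst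

lemma continuous_time : Continuous fun r : CN 7 × ℝ => (r.2 : ℂ) :=
  Complex.continuous_ofReal.comp continuous_snd

lemma isClosed_tot : IsClosed tot := by
  have h0 := continuous_coord 0
  have h1 := continuous_coord 1
  have h2 := continuous_coord 2
  have h3 := continuous_coord 3
  have h4 := continuous_coord 4
  have h5 := continuous_coord 5
  have h6 := continuous_coord 6
  have ht := continuous_time
  unfold tot
  simp only [symRel_iff, Set.ofPred_and]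
  refine IsClosed.inter (isClosed_eq h2 continuous_const) ?_
  refine IsClosed.inter (isClosed_eq (by fun_prop) (by fun_prop)) ?_
  refine IsClosed.inter (isClosed_eq (by fun_prop) (by fun_prop)) ?_
  refine IsClosed.inter (isClosed_eq (by fun_prop) (by fun_prop)) ?_
  refine IsClosed.inter (isClosed_eq (by fun_prop) (by fun_prop)) ?_
  refine IsClosed.inter (isClosed_eq (by fun_prop) (by fun_prop)) ?_
  refine IsClosed.inter (isClosed_eq (by fun_prop) (by fun_prop)) ?_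
  refine IsClosed.inter (isClosed_eq (by fun_prop) (by fun_prop)) ?_
  refine IsClosed.inter (isClosed_eq (by fun_prop) (by fun_prop)) ?_
  exact isClosed_eq (by fun_prop) (by fun_prop)

/-- The linear map of a matrix. -/
def ml (J : Matrix (Fin 5) (Fin 7) ℂ) : CN 7 →L[ℂ] CN 5 :=
  LinearMap.toContinuousLinearMap
    { toFun := fun v => WithLp.toLp 2 (fun i => ∑ j, J i j * v j)
      map_add' := fun v w => by
        ext i
        simp [mul_add, Finset.sum_add_distrib]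
      map_smul' := fun a v => by
        ext i
        simp only [PiLp.smul_apply, smul_eq_mul, RingHom.id_apply, Finset.mul_sum]
        exact Finset.sum_congr rfl fun j _ => by ring }

lemma ml_apply (J : Matrix (Fin 5) (Fin 7) ℂ) (v : CN 7) (i : Fin 5) :
    ml J v i = ∑ j, J i j * v j := rfl

/-- The linear functional of a row. -/
def rl (a : Fin 7 → ℂ) : CN 7 →L[ℂ] ℂ := ∑ j, a j • (EuclideanSpace.proj j : CN 7 →L[ℂ] ℂ)

lemma rl_apply (a : Fin 7 → ℂ) (v : CN 7) : rl a v = ∑ j, a j * v j := by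
  simp [rl]

lemma hasFDerivAt_ml (F : CN 7 → CN 5) (J : Matrix (Fin 5) (Fin 7) ℂ) (q : CN 7)
    (h : ∀ i, HasFDerivAt (fun p => F p i) (rl (J i)) q) : HasFDerivAt F (ml J) q := by
  rw [← hasFDerivWithinAt_univ, hasFDerivWithinAt_euclidean]
  intro i
  rw [hasFDerivWithinAt_univ]
  refine (h i).congr_fderiv ?_
  ext v
  rw [rl_apply]
  rfl

/-- Surjectivity is an open condition (by a determinant). -/
lemma surj_open (J : CN 7 × ℝ → Matrix (Fin 5) (Fin 7) ℂ) (hJ : Continuous J) (r₀ : CN 7 × ℝ)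
    (hs : ∀ (c : Fin 5 → ℂ) (a : ℂ), ∃ v : Fin 7 → ℂ, (∀ i, ∑ j, J r₀ i j * v j = c i) ∧
      ∑ j, (starRingEnd ℂ) (r₀.1 j) * v j = a) :
    ∃ U : Set (CN 7 × ℝ), IsOpen U ∧ r₀ ∈ U ∧ ∀ r ∈ U, ∀ (c : Fin 5 → ℂ) (a : ℂ),
      ∃ v : Fin 7 → ℂ, (∀ i, ∑ j, J r i j * v j = c i) ∧
        ∑ j, (starRingEnd ℂ) (r.1 j) * v j = a := by
  classical
  -- the extended matrix
  let B : CN 7 × ℝ → Matrix (Option (Fin 5)) (Fin 7) ℂ := fun r =>
    Matrix.of fun i j => Option.elim i ((starRingEnd ℂ) (r.1 j)) (fun i => J r i j)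
  have hB : Continuous B := by
    refine continuous_matrix fun i j => ?_
    cases i with
    | none => exact Complex.continuous_conj.comp (continuous_coord j)
    | some i => exact hJ.matrix_elem i j
  have hs' : ∀ k : Option (Fin 5), ∃ v : Fin 7 → ℂ, ∀ i, ∑ j, B r₀ i j * v j =
      if i = k then 1 else 0 := by
    intro k
    obtain ⟨v, h1, h2⟩ := hs (fun i => if some i = k then 1 else 0) (if none = k then 1 else 0)
    refine ⟨v, fun i => ?_⟩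
    cases i with
    | none => exact h2
    | some i => exact h1 i
  choose w hw using hs'
  let W : Matrix (Fin 7) (Option (Fin 5)) ℂ := Matrix.of fun j k => w k j
  have h0 : B r₀ * W = 1 := by
    ext i k
    rw [Matrix.mul_apply, Matrix.one_apply]
    exact hw k i
  refine ⟨{r | (B r * W).det ≠ 0}, ?_, ?_, ?_⟩
  · exact isOpen_ne.preimage (Continuous.matrix_det (hB.matrix_mul continuous_const))
  · change (B r₀ * W).det ≠ 0
    rw [h0, Matrix.det_one]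
    exact one_ne_zero
  · intro r hr c a
    have hu : IsUnit (B r * W).det := isUnit_iff_ne_zero.2 hr
    let y : Option (Fin 5) → ℂ := fun i => Option.elim i a c
    let v : Fin 7 → ℂ := W.mulVec ((B r * W)⁻¹.mulVec y)
    have hv : (B r).mulVec v = y := by
      change (B r).mulVec (W.mulVec ((B r * W)⁻¹.mulVec y)) = y
      rw [Matrix.mulVec_mulVec, Matrix.mulVec_mulVec, Matrix.mul_nonsing_inv _ hu,
        Matrix.one_mulVec]
    refine ⟨v, fun i => ?_, ?_⟩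
    · exact congrFun hv (some i)
    · exact congrFun hv none

/-- A chart gives local presentations near a point where the matrix is surjective. -/
lemma local_chart (X : Set (CN 7 × ℝ)) (O : Set (CN 7 × ℝ)) (F : CN 7 × ℝ → CN 5)
    (J : CN 7 × ℝ → Matrix (Fin 5) (Fin 7) ℂ) (hO : IsOpen O) (hF : ContDiff ℝ ∞ F)
    (hD : ∀ r, HasFDerivAt (fun p => F (p, r.2)) (ml (J r)) r.1)
    (hX : ∀ r ∈ O, r ∈ X ↔ F r = 0) (hJ : Continuous J) (r₀ : CN 7 × ℝ) (hr₀ : r₀ ∈ O)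
    (hs : ∀ (c : Fin 5 → ℂ) (a : ℂ), ∃ v : Fin 7 → ℂ, (∀ i, ∑ j, J r₀ i j * v j = c i) ∧
      ∑ j, (starRingEnd ℂ) (r₀.1 j) * v j = a) :
    ∃ U : Set (CN 7 × ℝ), IsOpen U ∧ r₀ ∈ U ∧ ∀ r ∈ U, LocalFamily 5 Set.univ X r := by
  obtain ⟨U, hU, h0, hsU⟩ := surj_open J hJ r₀ hs
  refine ⟨U ∩ O, hU.inter hO, ⟨h0, hr₀⟩, fun r hr => ?_⟩
  refine ⟨O, F, hO, hr.2, hF.contDiffOn, fun r' _ => (hD r').differentiableAt,
    fun r' hr' _ => hX r' hr', fun c a => ?_⟩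
  obtain ⟨v, h1, h2⟩ := hsU r hr.1 (fun i => c i) a
  refine ⟨WithLp.toLp 2 v, ?_, ?_⟩
  · rw [(hD r).fderiv]
    ext i
    rw [ml_apply]
    exact h1 i
  · rw [PiLp.inner_apply, ← h2]
    refine Finset.sum_congr rfl fun j _ => ?_
    simp [mul_comm]

/-! ### Chart P -/

/-- The equations of chart P. -/
def FP (r : CN 7 × ℝ) : CN 5 := WithLp.toLp 2 ![r.1 2,
  (r.1 1) ^ 2 - ((r.1 0) ^ 3 + (r.1 3) ^ 3 - 3 * r.1 3 * r.1 0 * (r.2 : ℂ) ^ 2 + (r.2 : ℂ) ^ 6),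
  (r.1 5) ^ 2 - ((r.1 0) ^ 2 * r.1 3 + 2 * r.1 0 * r.1 1 * (r.2 : ℂ) +
    (r.1 3) ^ 2 * (r.2 : ℂ) ^ 2 - 2 * r.1 0 * (r.2 : ℂ) ^ 4),
  r.1 0 * r.1 4 - (r.1 3 * r.1 5 - (r.2 : ℂ) * r.1 6),
  r.1 1 * r.1 5 - (r.1 0 * r.1 6 + (r.2 : ℂ) * r.1 3 * r.1 4 - (r.2 : ℂ) ^ 3 * r.1 5)]

/-- Its Jacobian. -/
def JP (r : CN 7 × ℝ) : Matrix (Fin 5) (Fin 7) ℂ := Matrix.of ![
  ![0, 0, 1, 0, 0, 0, 0],
  ![-3 * (r.1 0) ^ 2 + 3 * (r.2 : ℂ) ^ 2 * r.1 3, 2 * r.1 1, 0,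
    -3 * (r.1 3) ^ 2 + 3 * (r.2 : ℂ) ^ 2 * r.1 0, 0, 0, 0],
  ![-2 * r.1 0 * r.1 3 - 2 * (r.2 : ℂ) * r.1 1 + 2 * (r.2 : ℂ) ^ 4, -2 * (r.2 : ℂ) * r.1 0, 0,
    -(r.1 0) ^ 2 - 2 * (r.2 : ℂ) ^ 2 * r.1 3, 0, 2 * r.1 5, 0],
  ![r.1 4, 0, 0, -r.1 5, r.1 0, -r.1 3, (r.2 : ℂ)],
  ![-r.1 6, r.1 5, 0, -(r.2 : ℂ) * r.1 4, -(r.2 : ℂ) * r.1 3, r.1 1 + (r.2 : ℂ) ^ 3, -r.1 0]]

/-! ### Chart I -/

/-- The equations of chart I. -/
def FI (r : CN 7 × ℝ) : CN 5 := WithLp.toLp 2 ![r.1 2,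
  (r.1 4) ^ 2 - ((r.1 3) ^ 3 - 3 * r.1 3 * r.1 0 * (r.2 : ℂ) ^ 2 + 2 * r.1 1 * (r.2 : ℂ) ^ 3 +
    2 * (r.2 : ℂ) ^ 6),
  (r.1 1) ^ 2 - ((r.1 0) ^ 3 + (r.1 3) ^ 3 - 3 * r.1 3 * r.1 0 * (r.2 : ℂ) ^ 2 + (r.2 : ℂ) ^ 6),
  r.1 4 * r.1 5 - ((r.1 3) ^ 2 * r.1 0 + r.1 3 * r.1 1 * (r.2 : ℂ) -
    2 * (r.1 0) ^ 2 * (r.2 : ℂ) ^ 2 + r.1 3 * (r.2 : ℂ) ^ 4),
  r.1 6 * r.1 4 - (((r.1 3) ^ 2 - 2 * r.1 0 * (r.2 : ℂ) ^ 2) * r.1 1 +
    (r.1 0) ^ 2 * r.1 3 * (r.2 : ℂ) + (r.1 3) ^ 2 * (r.2 : ℂ) ^ 3 -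
    2 * r.1 0 * (r.2 : ℂ) ^ 5)]

/-- Its Jacobian. -/
def JI (r : CN 7 × ℝ) : Matrix (Fin 5) (Fin 7) ℂ := Matrix.of ![
  ![0, 0, 1, 0, 0, 0, 0],
  ![3 * (r.2 : ℂ) ^ 2 * r.1 3, -2 * (r.2 : ℂ) ^ 3, 0,
    -3 * (r.1 3) ^ 2 + 3 * (r.2 : ℂ) ^ 2 * r.1 0, 2 * r.1 4, 0, 0],
  ![-3 * (r.1 0) ^ 2 + 3 * (r.2 : ℂ) ^ 2 * r.1 3, 2 * r.1 1, 0,
    -3 * (r.1 3) ^ 2 + 3 * (r.2 : ℂ) ^ 2 * r.1 0, 0, 0, 0],
  ![-(r.1 3) ^ 2 + 4 * (r.2 : ℂ) ^ 2 * r.1 0, -(r.2 : ℂ) * r.1 3, 0,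
    -2 * r.1 3 * r.1 0 - (r.2 : ℂ) * r.1 1 - (r.2 : ℂ) ^ 4, r.1 5, r.1 4, 0],
  ![2 * (r.2 : ℂ) ^ 2 * r.1 1 - 2 * (r.2 : ℂ) * r.1 0 * r.1 3 + 2 * (r.2 : ℂ) ^ 5,
    -((r.1 3) ^ 2 - 2 * r.1 0 * (r.2 : ℂ) ^ 2), 0,
    -2 * r.1 3 * r.1 1 - (r.2 : ℂ) * (r.1 0) ^ 2 - 2 * (r.2 : ℂ) ^ 3 * r.1 3, r.1 6, 0,
    r.1 4]]

lemma contDiff_coord (j : Fin 7) : ContDiff ℝ ∞ fun r : CN 7 × ℝ => r.1 j := by
  have h : ContDiff ℝ ∞ (fun q : CN 7 => q j) :=
    ((EuclideanSpace.proj j : CN 7 →L[ℂ] ℂ).restrictScalars ℝ).contDiff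
  exact h.comp contDiff_fst

lemma contDiff_time : ContDiff ℝ ∞ fun r : CN 7 × ℝ => (r.2 : ℂ) :=
  Complex.ofRealCLM.contDiff.comp contDiff_snd

lemma contDiff_FP : ContDiff ℝ ∞ FP := by
  have h0 := contDiff_coord 0
  have h1 := contDiff_coord 1
  have h2 := contDiff_coord 2
  have h3 := contDiff_coord 3
  have h4 := contDiff_coord 4
  have h5 := contDiff_coord 5
  have h6 := contDiff_coord 6
  have ht := contDiff_time
  refine contDiff_piLp' 2 fun i => ?_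
  fin_cases i
  · exact h2
  · change ContDiff ℝ ∞ fun r : CN 7 × ℝ => (r.1 1) ^ 2 - ((r.1 0) ^ 3 + (r.1 3) ^ 3 -
      3 * r.1 3 * r.1 0 * (r.2 : ℂ) ^ 2 + (r.2 : ℂ) ^ 6)
    fun_prop
  · change ContDiff ℝ ∞ fun r : CN 7 × ℝ => (r.1 5) ^ 2 - ((r.1 0) ^ 2 * r.1 3 +
      2 * r.1 0 * r.1 1 * (r.2 : ℂ) + (r.1 3) ^ 2 * (r.2 : ℂ) ^ 2 - 2 * r.1 0 * (r.2 : ℂ) ^ 4)
    fun_prop
  · change ContDiff ℝ ∞ fun r : CN 7 × ℝ => r.1 0 * r.1 4 -
      (r.1 3 * r.1 5 - (r.2 : ℂ) * r.1 6)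
    fun_prop
  · change ContDiff ℝ ∞ fun r : CN 7 × ℝ => r.1 1 * r.1 5 -
      (r.1 0 * r.1 6 + (r.2 : ℂ) * r.1 3 * r.1 4 - (r.2 : ℂ) ^ 3 * r.1 5)
    fun_prop

lemma continuous_JP : Continuous JP := by
  have h0 := continuous_coord 0
  have h1 := continuous_coord 1
  have h2 := continuous_coord 2
  have h3 := continuous_coord 3
  have h4 := continuous_coord 4
  have h5 := continuous_coord 5
  have h6 := continuous_coord 6
  have ht := continuous_time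
  refine continuous_matrix fun i j => ?_
  fin_cases i <;> fin_cases j <;> simp [JP] <;> fun_prop

lemma hasFDerivAt_coord (q : CN 7) (j : Fin 7) :
    HasFDerivAt (fun p : CN 7 => p j) (EuclideanSpace.proj j : CN 7 →L[ℂ] ℂ) q :=
  (EuclideanSpace.proj j : CN 7 →L[ℂ] ℂ).hasFDerivAt

lemma hasFDerivAt_FP (r : CN 7 × ℝ) : HasFDerivAt (fun p => FP (p, r.2)) (ml (JP r)) r.1 := by
  apply hasFDerivAt_ml
  obtain ⟨q, t⟩ := r
  have hx := hasFDerivAt_coord q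
  intro i
  fin_cases i
  · refine (hx 2).congr_fderiv ?_
    ext v
    simp [rl_apply, JP, Fin.sum_univ_succ]
  · have h := ((hx 1).pow 2).sub (((((hx 0).pow 3).add ((hx 3).pow 3)).sub
      ((((hx 3).const_mul 3).mul (hx 0)).mul_const ((t : ℂ) ^ 2))).add_const ((t : ℂ) ^ 6))
    refine h.congr_fderiv ?_
    ext v
    simp [rl_apply, JP, Fin.sum_univ_succ]
    ring
  · have h := ((hx 5).pow 2).sub ((((((hx 0).pow 2).mul (hx 3)).add
      ((((hx 0).const_mul 2).mul (hx 1)).mul_const (t : ℂ))).add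
      (((hx 3).pow 2).mul_const ((t : ℂ) ^ 2))).sub (((hx 0).const_mul 2).mul_const ((t : ℂ) ^ 4)))
    refine h.congr_fderiv ?_
    ext v
    simp [rl_apply, JP, Fin.sum_univ_succ]
    ring
  · have h := ((hx 0).mul (hx 4)).sub (((hx 3).mul (hx 5)).sub ((hx 6).const_mul (t : ℂ)))
    refine h.congr_fderiv ?_
    ext v
    simp [rl_apply, JP, Fin.sum_univ_succ]
    ring
  · have h := ((hx 1).mul (hx 5)).sub ((((hx 0).mul (hx 6)).add
      (((hx 3).const_mul (t : ℂ)).mul (hx 4))).sub ((hx 5).const_mul ((t : ℂ) ^ 3)))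
    refine h.congr_fderiv ?_
    ext v
    simp [rl_apply, JP, Fin.sum_univ_succ]
    ring

lemma contDiff_FI : ContDiff ℝ ∞ FI := by
  have h0 := contDiff_coord 0
  have h1 := contDiff_coord 1
  have h2 := contDiff_coord 2
  have h3 := contDiff_coord 3
  have h4 := contDiff_coord 4
  have h5 := contDiff_coord 5
  have h6 := contDiff_coord 6
  have ht := contDiff_time
  refine contDiff_piLp' 2 fun i => ?_
  fin_cases i
  · exact h2
  · change ContDiff ℝ ∞ fun r : CN 7 × ℝ => (r.1 4) ^ 2 - ((r.1 3) ^ 3 -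
      3 * r.1 3 * r.1 0 * (r.2 : ℂ) ^ 2 + 2 * r.1 1 * (r.2 : ℂ) ^ 3 + 2 * (r.2 : ℂ) ^ 6)
    fun_prop
  · change ContDiff ℝ ∞ fun r : CN 7 × ℝ => (r.1 1) ^ 2 - ((r.1 0) ^ 3 + (r.1 3) ^ 3 -
      3 * r.1 3 * r.1 0 * (r.2 : ℂ) ^ 2 + (r.2 : ℂ) ^ 6)
    fun_prop
  · change ContDiff ℝ ∞ fun r : CN 7 × ℝ => r.1 4 * r.1 5 - ((r.1 3) ^ 2 * r.1 0 +
      r.1 3 * r.1 1 * (r.2 : ℂ) - 2 * (r.1 0) ^ 2 * (r.2 : ℂ) ^ 2 + r.1 3 * (r.2 : ℂ) ^ 4)
    fun_prop
  · change ContDiff ℝ ∞ fun r : CN 7 × ℝ => r.1 6 * r.1 4 -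
      (((r.1 3) ^ 2 - 2 * r.1 0 * (r.2 : ℂ) ^ 2) * r.1 1 + (r.1 0) ^ 2 * r.1 3 * (r.2 : ℂ) +
      (r.1 3) ^ 2 * (r.2 : ℂ) ^ 3 - 2 * r.1 0 * (r.2 : ℂ) ^ 5)
    fun_prop

lemma continuous_JI : Continuous JI := by
  have h0 := continuous_coord 0
  have h1 := continuous_coord 1
  have h2 := continuous_coord 2
  have h3 := continuous_coord 3
  have h4 := continuous_coord 4
  have h5 := continuous_coord 5
  have h6 := continuous_coord 6
  have ht := continuous_time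
  refine continuous_matrix fun i j => ?_
  fin_cases i <;> fin_cases j <;> simp [JI] <;> fun_prop

lemma hasFDerivAt_FI (r : CN 7 × ℝ) : HasFDerivAt (fun p => FI (p, r.2)) (ml (JI r)) r.1 := by
  apply hasFDerivAt_ml
  obtain ⟨q, t⟩ := r
  have hx := hasFDerivAt_coord q
  intro i
  fin_cases i
  · refine (hx 2).congr_fderiv ?_
    ext v
    simp [rl_apply, JI, Fin.sum_univ_succ]
  · have h := ((hx 4).pow 2).sub (((((hx 3).pow 3).sub
      ((((hx 3).const_mul 3).mul (hx 0)).mul_const ((t : ℂ) ^ 2))).add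
      (((hx 1).const_mul 2).mul_const ((t : ℂ) ^ 3))).add_const (2 * (t : ℂ) ^ 6))
    refine h.congr_fderiv ?_
    ext v
    simp [rl_apply, JI, Fin.sum_univ_succ]
    ring
  · have h := ((hx 1).pow 2).sub (((((hx 0).pow 3).add ((hx 3).pow 3)).sub
      ((((hx 3).const_mul 3).mul (hx 0)).mul_const ((t : ℂ) ^ 2))).add_const ((t : ℂ) ^ 6))
    refine h.congr_fderiv ?_
    ext v
    simp [rl_apply, JI, Fin.sum_univ_succ]
    ring
  · have h := ((hx 4).mul (hx 5)).sub ((((((hx 3).pow 2).mul (hx 0)).add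
      (((hx 3).mul (hx 1)).mul_const (t : ℂ))).sub
      ((((hx 0).pow 2).const_mul 2).mul_const ((t : ℂ) ^ 2))).add
      ((hx 3).mul_const ((t : ℂ) ^ 4)))
    refine h.congr_fderiv ?_
    ext v
    simp [rl_apply, JI, Fin.sum_univ_succ]
    ring
  · have h := ((hx 6).mul (hx 4)).sub ((((((((hx 3).pow 2).sub
      (((hx 0).const_mul 2).mul_const ((t : ℂ) ^ 2)))).mul (hx 1)).add
      ((((hx 0).pow 2).mul (hx 3)).mul_const (t : ℂ))).add
      (((hx 3).pow 2).mul_const ((t : ℂ) ^ 3))).sub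
      (((hx 0).const_mul 2).mul_const ((t : ℂ) ^ 5)))
    refine h.congr_fderiv ?_
    ext v
    simp [rl_apply, JI, Fin.sum_univ_succ]
    ring

/-! ### Surjectivity at time zero -/

/-- The Euler vector. -/
def eul (q : CN 7) : Fin 7 → ℂ := ![2 * q 0, 3 * q 1, 0, 2 * q 3, 3 * q 4, 3 * q 5, 4 * q 6]

lemma eul_pos (q : CN 7) (h2 : q 2 = 0) (hq : q ≠ 0) :
    ∑ j, (starRingEnd ℂ) (q j) * eul q j ≠ 0 := by
  have key : ∑ j, (starRingEnd ℂ) (q j) * eul q j =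
      ((2 * ‖q 0‖ ^ 2 + 3 * ‖q 1‖ ^ 2 + 2 * ‖q 3‖ ^ 2 + 3 * ‖q 4‖ ^ 2 + 3 * ‖q 5‖ ^ 2 +
        4 * ‖q 6‖ ^ 2 : ℝ) : ℂ) := by
    have hc : ∀ j, (starRingEnd ℂ) (q j) * q j = ((‖q j‖ ^ 2 : ℝ) : ℂ) := fun j => by
      rw [mul_comm, Complex.mul_conj, Complex.normSq_eq_norm_sq]
    push_cast
    have hc' : ∀ j, (‖q j‖ : ℂ) ^ 2 = (starRingEnd ℂ) (q j) * q j := fun j => by
      rw [hc]
      push_cast
      rfl
    simp only [hc', eul, Fin.sum_univ_succ]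
    simp
    ring
  rw [key]
  norm_cast
  intro h0
  apply hq
  have n0 := sq_nonneg ‖q 0‖
  have n1 := sq_nonneg ‖q 1‖
  have n3 := sq_nonneg ‖q 3‖
  have n4 := sq_nonneg ‖q 4‖
  have n5 := sq_nonneg ‖q 5‖
  have n6 := sq_nonneg ‖q 6‖
  have z0 : q 0 = 0 := norm_eq_zero.1 (pow_eq_zero_iff two_ne_zero |>.1 (by linarith))
  have z1 : q 1 = 0 := norm_eq_zero.1 (pow_eq_zero_iff two_ne_zero |>.1 (by linarith))
  have z3 : q 3 = 0 := norm_eq_zero.1 (pow_eq_zero_iff two_ne_zero |>.1 (by linarith))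
  have z4 : q 4 = 0 := norm_eq_zero.1 (pow_eq_zero_iff two_ne_zero |>.1 (by linarith))
  have z5 : q 5 = 0 := norm_eq_zero.1 (pow_eq_zero_iff two_ne_zero |>.1 (by linarith))
  have z6 : q 6 = 0 := norm_eq_zero.1 (pow_eq_zero_iff two_ne_zero |>.1 (by linarith))
  have hz : ∀ j, q j = 0 := by
    intro j
    fin_cases j
    exacts [z0, z1, h2, z3, z4, z5, z6]
  ext j
  exact hz j

/-- It suffices to solve the first equations. -/
lemma surj_of (q : CN 7) (J : Matrix (Fin 5) (Fin 7) ℂ) (h2 : q 2 = 0) (hq : q ≠ 0)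
    (he : ∀ i, ∑ j, J i j * eul q j = 0)
    (hs : ∀ c : Fin 5 → ℂ, ∃ v : Fin 7 → ℂ, ∀ i, ∑ j, J i j * v j = c i) :
    ∀ (c : Fin 5 → ℂ) (a : ℂ), ∃ v : Fin 7 → ℂ, (∀ i, ∑ j, J i j * v j = c i) ∧
      ∑ j, (starRingEnd ℂ) (q j) * v j = a := by
  intro c a
  obtain ⟨v, hv⟩ := hs c
  have hE := eul_pos q h2 hq
  set e := ∑ j, (starRingEnd ℂ) (q j) * eul q j with he'
  set b := ∑ j, (starRingEnd ℂ) (q j) * v j with hb
  refine ⟨fun j => v j + (a - b) / e * eul q j, fun i => ?_, ?_⟩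
  · have : ∀ j, J i j * (v j + (a - b) / e * eul q j) =
        J i j * v j + (a - b) / e * (J i j * eul q j) := fun j => by ring
    simp only [this, Finset.sum_add_distrib, ← Finset.mul_sum, hv, he, mul_zero, add_zero]
  · have : ∀ j, (starRingEnd ℂ) (q j) * (v j + (a - b) / e * eul q j) =
        (starRingEnd ℂ) (q j) * v j + (a - b) / e * ((starRingEnd ℂ) (q j) * eul q j) :=
      fun j => by ring
    simp only [this, Finset.sum_add_distrib, ← Finset.mul_sum]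
    rw [← he', ← hb]
    field_simp
    ring

lemma surj_P (q : CN 7) (h : SymRel 0 q) (h0 : q 0 ≠ 0) (hq : q ≠ 0) (c : Fin 5 → ℂ) (a : ℂ) :
    ∃ v : Fin 7 → ℂ, (∀ i, ∑ j, JP (q, 0) i j * v j = c i) ∧
      ∑ j, (starRingEnd ℂ) (q j) * v j = a := by
  have r2 := h.r2
  have r3 := h.r3
  have r5 := h.r5
  have r10 := h.r10
  refine surj_of q (JP (q, 0)) h.r0 hq ?_ ?_ c a
  · intro i
    fin_cases i
    · simp [JP, eul, Fin.sum_univ_succ]
    · simp [JP, eul, Fin.sum_univ_succ]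
      linear_combination 6 * r2
    · simp [JP, eul, Fin.sum_univ_succ]
      linear_combination 6 * r3
    · simp [JP, eul, Fin.sum_univ_succ]
      linear_combination 5 * r5
    · simp [JP, eul, Fin.sum_univ_succ]
      linear_combination 6 * r10
  · intro c
    by_cases h5 : q 5 = 0
    · have h3 : q 3 = 0 := by
        have : (q 0) ^ 2 * q 3 = 0 := by
          rw [h5] at r3
          linear_combination -r3
        rcases mul_eq_zero.1 this with h' | h'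
        · exact absurd (pow_eq_zero_iff two_ne_zero |>.1 h') h0
        · exact h'
      refine ⟨![-(c 1) / (3 * (q 0) ^ 2), 0, c 0, -(c 2) / (q 0) ^ 2,
        (c 3 + q 4 * (c 1) / (3 * (q 0) ^ 2)) / q 0, 0,
        (q 6 * (c 1) / (3 * (q 0) ^ 2) - c 4) / q 0], fun i => ?_⟩
      fin_cases i
      · simp [JP, Fin.sum_univ_succ]
      · simp [JP, Fin.sum_univ_succ, h3]
        field_simp
      · simp [JP, Fin.sum_univ_succ, h3, h5]
        field_simp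
      · simp [JP, Fin.sum_univ_succ, h3, h5]
        field_simp
        ring
      · simp [JP, Fin.sum_univ_succ, h3, h5]
        field_simp
        ring
    · set x : ℂ := -(c 1) / (3 * (q 0) ^ 2) with hx
      set y : ℂ := (c 2 + 2 * q 0 * q 3 * x) / (2 * q 5) with hy
      have hx' : -3 * (q 0) ^ 2 * x = c 1 := by
        rw [hx]
        field_simp
      have hy' : 2 * q 5 * y = c 2 + 2 * q 0 * q 3 * x := by
        rw [hy]
        field_simp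
      refine ⟨![x, 0, c 0, 0, (c 3 - q 4 * x + q 3 * y) / q 0, y,
        (q 1 * y - q 6 * x - c 4) / q 0], fun i => ?_⟩
      fin_cases i
      · simp [JP, Fin.sum_univ_succ]
      · simp [JP, Fin.sum_univ_succ]
        linear_combination hx'
      · simp [JP, Fin.sum_univ_succ]
        linear_combination hy'
      · simp [JP, Fin.sum_univ_succ]
        field_simp
        ring
      · simp [JP, Fin.sum_univ_succ]
        field_simp
        ring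

lemma surj_I (q : CN 7) (h : SymRel 0 q) (h1 : q 1 ≠ 0) (h4 : q 4 ≠ 0) (hq : q ≠ 0)
    (c : Fin 5 → ℂ) (a : ℂ) :
    ∃ v : Fin 7 → ℂ, (∀ i, ∑ j, JI (q, 0) i j * v j = c i) ∧
      ∑ j, (starRingEnd ℂ) (q j) * v j = a := by
  have r1 := h.r1
  have r2 := h.r2
  have r4 := h.r4
  have r7 := h.r7
  refine surj_of q (JI (q, 0)) h.r0 hq ?_ ?_ c a
  · intro i
    fin_cases i
    · simp [JI, eul, Fin.sum_univ_succ]
    · simp [JI, eul, Fin.sum_univ_succ]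
      linear_combination 6 * r1
    · simp [JI, eul, Fin.sum_univ_succ]
      linear_combination 6 * r2
    · simp [JI, eul, Fin.sum_univ_succ]
      linear_combination 6 * r4
    · simp [JI, eul, Fin.sum_univ_succ]
      linear_combination 7 * r7
  · intro c
    refine ⟨![0, c 2 / (2 * q 1), c 0, 0, c 1 / (2 * q 4),
      (c 3 - q 5 * (c 1 / (2 * q 4))) / q 4,
      (c 4 - q 6 * (c 1 / (2 * q 4)) + (q 3) ^ 2 * (c 2 / (2 * q 1))) / q 4], fun i => ?_⟩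
    fin_cases i
    · simp [JI, Fin.sum_univ_succ]
    · simp [JI, Fin.sum_univ_succ]
      field_simp
    · simp [JI, Fin.sum_univ_succ]
      field_simp
    · simp [JI, Fin.sum_univ_succ]
      field_simp
      ring
    · simp [JI, Fin.sum_univ_succ]
      field_simp
      ring

lemma isOpen_P : IsOpen {r : CN 7 × ℝ | (r.1 0) ^ 2 - (r.2 : ℂ) ^ 2 * r.1 3 ≠ 0} := by
  have h0 := continuous_coord 0
  have h3 := continuous_coord 3
  have ht := continuous_time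
  exact isOpen_ne_fun (by fun_prop) continuous_const

lemma isOpen_I : IsOpen {r : CN 7 × ℝ | r.1 4 ≠ 0} :=
  isOpen_ne_fun (continuous_coord 4) continuous_const

lemma mem_P (hP : TChartP) (r : CN 7 × ℝ) (hr : (r.1 0) ^ 2 - (r.2 : ℂ) ^ 2 * r.1 3 ≠ 0) :
    r ∈ tot ↔ FP r = 0 := by
  constructor
  · intro h
    have h' : SymRel (r.2 : ℂ) r.1 := h
    ext i
    fin_cases i
    · exact h'.r0
    · exact sub_eq_zero.2 h'.r2
    · exact sub_eq_zero.2 h'.r3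
    · exact sub_eq_zero.2 h'.r5
    · exact sub_eq_zero.2 h'.r10
  · intro h
    have hi : ∀ i, FP r i = 0 := fun i => by rw [h]; rfl
    exact hP _ _ hr (hi 0) (sub_eq_zero.1 (hi 1)) (sub_eq_zero.1 (hi 2)) (sub_eq_zero.1 (hi 3))
      (sub_eq_zero.1 (hi 4))

lemma mem_I (hI : TChartI) (r : CN 7 × ℝ) (hr : r.1 4 ≠ 0) : r ∈ tot ↔ FI r = 0 := by
  constructor
  · intro h
    have h' : SymRel (r.2 : ℂ) r.1 := h
    ext i
    fin_cases i
    · exact h'.r0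
    · exact sub_eq_zero.2 h'.r1
    · exact sub_eq_zero.2 h'.r2
    · exact sub_eq_zero.2 h'.r4
    · exact sub_eq_zero.2 h'.r7
  · intro h
    have hi : ∀ i, FI r i = 0 := fun i => by rw [h]; rfl
    exact hI _ _ hr (hi 0) (sub_eq_zero.1 (hi 1)) (sub_eq_zero.1 (hi 2)) (sub_eq_zero.1 (hi 3))
      (sub_eq_zero.1 (hi 4))

/-- Good points of the total family. -/
def good : Set (CN 7 × ℝ) :=
  {r | ∃ U : Set (CN 7 × ℝ), IsOpen U ∧ r ∈ U ∧ ∀ r' ∈ U, LocalFamily 5 Set.univ tot r'}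

lemma isOpen_good : IsOpen good := by
  rw [isOpen_iff_forall_mem_open]
  rintro r ⟨U, hU, hr, h⟩
  exact ⟨U, fun r' hr' => ⟨U, hU, hr', h⟩, hU, hr⟩

lemma good_zero (hI : TChartI) (hP : TChartP) (q : CN 7) (h : SymRel 0 q) (hq : q ≠ 0) :
    ((q, 0) : CN 7 × ℝ) ∈ good := by
  by_cases h0 : q 0 = 0
  · have r1 := h.r1
    have r2 := h.r2
    have r3 := h.r3
    have r9 := h.r9
    have h4 : q 4 ≠ 0 := by
      intro h4
      apply hq
      have z3 : q 3 = 0 := by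
        have : (q 3) ^ 3 = 0 := by
          rw [h4] at r1
          linear_combination -r1
        exact pow_eq_zero_iff (by norm_num) |>.1 this
      have z1 : q 1 = 0 := by
        have : (q 1) ^ 2 = 0 := by
          rw [h0, z3] at r2
          linear_combination r2
        exact pow_eq_zero_iff (by norm_num) |>.1 this
      have z5 : q 5 = 0 := by
        have : (q 5) ^ 2 = 0 := by
          rw [h0, z3] at r3
          linear_combination r3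
        exact pow_eq_zero_iff (by norm_num) |>.1 this
      have z6 : q 6 = 0 := by
        have : (q 6) ^ 2 = 0 := by
          rw [h0, z3] at r9
          linear_combination r9
        exact pow_eq_zero_iff (by norm_num) |>.1 this
      ext j
      fin_cases j
      exacts [h0, z1, h.r0, z3, h4, z5, z6]
    have h1 : q 1 ≠ 0 := by
      intro h1
      apply h4
      have : (q 4) ^ 2 = 0 := by
        rw [h0] at r1 r2
        rw [h1] at r2
        linear_combination r1 - r2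
      exact pow_eq_zero_iff (by norm_num) |>.1 this
    exact local_chart tot _ FI JI isOpen_I contDiff_FI hasFDerivAt_FI (mem_I hI)
      continuous_JI (q, 0) h4 (surj_I q h h1 h4 hq)
  · refine local_chart tot _ FP JP isOpen_P contDiff_FP hasFDerivAt_FP (mem_P hP)
      continuous_JP (q, 0) ?_ (surj_P q h h0 hq)
    change (q 0) ^ 2 - ((0 : ℝ) : ℂ) ^ 2 * q 3 ≠ 0
    simpa using h0

/-- Rescaling of time. -/
def scal (t₀ : ℝ) (r : CN 7 × ℝ) : CN 7 × ℝ := (r.1, r.2 * t₀)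

lemma contDiff_scal (t₀ : ℝ) : ContDiff ℝ ∞ (scal t₀) :=
  contDiff_fst.prodMk (contDiff_snd.mul contDiff_const)

lemma local_scal (t₀ : ℝ) (r : CN 7 × ℝ) (h : LocalFamily 5 Set.univ tot (scal t₀ r)) :
    LocalFamily 5 (Set.Icc 0 1) (fam3 t₀) r := by
  obtain ⟨O, F, hO, hr, hF, hd, hX, hs⟩ := h
  refine ⟨scal t₀ ⁻¹' O, F ∘ scal t₀, hO.preimage (contDiff_scal t₀).continuous, hr,
    hF.comp (contDiff_scal t₀).contDiffOn (fun r hr => hr), fun r' hr' => hd _ hr',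
    fun r' hr' _ => hX _ hr' (Set.mem_univ _), hs⟩

lemma compact_aux (t₀ a : ℝ) :
    IsCompact {r : CN 7 × ℝ | scal t₀ r ∈ tot ∧ ‖r.1‖ = 1 ∧ r.2 ∈ Set.Icc (0 : ℝ) a} := by
  refine IsCompact.of_isClosed_subset ((isCompact_sphere (0 : CN 7) 1).prod
    (isCompact_Icc : IsCompact (Set.Icc (0 : ℝ) a))) ?_ ?_
  · refine IsClosed.inter (isClosed_tot.preimage (contDiff_scal t₀).continuous) ?_
    refine IsClosed.inter (isClosed_eq (by fun_prop) continuous_const) ?_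
    exact isClosed_Icc.preimage continuous_snd
  · rintro r ⟨_, h1, h2⟩
    exact ⟨by simpa using h1, h2⟩

end Fam3_

open Fam3_ in
/-- Family 3 is a sphere family for small `t₀`. -/
theorem tFam3 (hI : TChartI) (hP : TChartP) : TFam3 := by
  have hK : IsCompact ({r : CN 7 × ℝ | scal 1 r ∈ tot ∧ ‖r.1‖ = 1 ∧
      r.2 ∈ Set.Icc (0 : ℝ) (1 / 2)} \ good) := (compact_aux 1 (1 / 2)).diff isOpen_good
  have key : ∃ t₀ : ℝ, 0 < t₀ ∧ t₀ ≤ 1 / 2 ∧ ∀ (q : CN 7) (t : ℝ), SymRel (t : ℂ) q → ‖q‖ = 1 →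
      0 ≤ t → t ≤ t₀ → ((q, t) : CN 7 × ℝ) ∈ good := by
    rcases Set.eq_empty_or_nonempty ({r : CN 7 × ℝ | scal 1 r ∈ tot ∧ ‖r.1‖ = 1 ∧
      r.2 ∈ Set.Icc (0 : ℝ) (1 / 2)} \ good) with he | hne
    · refine ⟨1 / 2, by norm_num, le_refl _, fun q t h hq h0 h1 => ?_⟩
      by_contra hg
      have : ((q, t) : CN 7 × ℝ) ∈ ({r : CN 7 × ℝ | scal 1 r ∈ tot ∧ ‖r.1‖ = 1 ∧
          r.2 ∈ Set.Icc (0 : ℝ) (1 / 2)} \ good) := by
        refine ⟨⟨?_, hq, h0, h1⟩, hg⟩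
        change SymRel ((t * 1 : ℝ) : ℂ) q
        rwa [mul_one]
      rw [he] at this
      exact this
    · obtain ⟨m, hm, hmin⟩ := hK.exists_isMinOn hne continuous_snd.continuousOn
      have hm0 : 0 < m.2 := by
        rcases hm.1.2.2.1.lt_or_eq with h | h
        · exact h
        · exfalso
          apply hm.2
          have h1 : SymRel ((m.2 * 1 : ℝ) : ℂ) m.1 := hm.1.1
          rw [← h] at h1
          have h2 : m.1 ≠ 0 := by
            intro h2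
            have := hm.1.2.1
            rw [h2, norm_zero] at this
            exact zero_ne_one this
          have h3 := good_zero hI hP m.1 (by simpa using h1) h2
          have h4 : m = (m.1, (0 : ℝ)) := Prod.ext rfl h.symm
          rw [h4]
          exact h3
      have hm1 : m.2 ≤ 1 / 2 := hm.1.2.2.2
      refine ⟨m.2 / 2, by linarith, by linarith, fun q t h hq h0 h1 => ?_⟩
      by_contra hg
      have : ((q, t) : CN 7 × ℝ) ∈ ({r : CN 7 × ℝ | scal 1 r ∈ tot ∧ ‖r.1‖ = 1 ∧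
          r.2 ∈ Set.Icc (0 : ℝ) (1 / 2)} \ good) := by
        refine ⟨⟨?_, hq, h0, by change t ≤ 1 / 2; linarith⟩, hg⟩
        change SymRel ((t * 1 : ℝ) : ℂ) q
        rwa [mul_one]
      have h2 : m.2 ≤ t := hmin this
      linarith
  obtain ⟨t₀, h0, h1, hg⟩ := key
  refine ⟨t₀, h0, h1, ⟨compact_aux t₀ 1, fun r hr hn ht => ?_⟩⟩
  apply local_scal
  have hr' : SymRel ((r.2 * t₀ : ℝ) : ℂ) r.1 := hr
  obtain ⟨U, _, hU, h⟩ := hg r.1 (r.2 * t₀) hr' hn (mul_nonneg ht.1 h0.le)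
    (by nlinarith [ht.2])
  exact h _ hU

end

end Pool.Agent.SteinFill
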