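import Pool.Agent.SteinFill.Spec

/-!
# The contact isotopy field of a family (`TField`)
-/

namespace Pool.Agent.SteinFill

open scoped ContDiff Manifold Topology ComplexConjugate

noncomputable section

namespace FieldL

variable {N k : ℕ}

/-- Partial real derivative in `p`. -/
def Dp (F : CN N × ℝ → CN k) (r : CN N × ℝ) : CN N →L[ℝ] CN k :=
  (fderiv ℝ F r).comp (ContinuousLinearMap.inl ℝ (CN N) ℝ)

lemma Dp_apply (F : CN N × ℝ → CN k) (r : CN N × ℝ) (v : CN N) :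
    Dp F r v = fderiv ℝ F r (v, 0) := rfl

/-- `v ↦ v - ⟨p,v⟩ p`. -/
def Pr (r : CN N × ℝ) : CN N →L[ℝ] CN N :=
  LinearMap.toContinuousLinearMap
    { toFun := fun v => v - (inner ℂ r.1 v : ℂ) • r.1
      map_add' := by
        intro v w
        rw [inner_add_right, add_smul]; abel
      map_smul' := by
        intro a v
        have h : (inner ℂ r.1 (a • v) : ℂ) = (a : ℂ) * inner ℂ r.1 v := by
          have : (a • v : CN N) = (a : ℂ) • v := by
            ext i; simp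
          rw [this, inner_smul_right]
        rw [h]
        have h2 : (((a : ℂ) * inner ℂ r.1 v) • r.1 : CN N) = a • ((inner ℂ r.1 v : ℂ) • r.1) := by
          ext i; simp [mul_assoc]
        rw [h2]; simp [smul_sub] }

lemma Pr_apply (r : CN N × ℝ) (v : CN N) : Pr r v = v - (inner ℂ r.1 v : ℂ) • r.1 := rfl

/-- The adjoint of the derivative in `p`. -/
def Ad (F : CN N × ℝ → CN k) (r : CN N × ℝ) : CN k →L[ℝ] CN N :=
  LinearMap.toContinuousLinearMap
    { toFun := fun c => ∑ j, (inner ℂ (Dp F r (EuclideanSpace.single j 1)) c : ℂ) •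
        (EuclideanSpace.single j 1 : CN N)
      map_add' := by
        intro v w
        rw [← Finset.sum_add_distrib]
        refine Finset.sum_congr rfl fun j _ => ?_
        rw [inner_add_right, add_smul]
      map_smul' := by
        intro a v
        rw [RingHom.id_apply, Finset.smul_sum]
        refine Finset.sum_congr rfl fun j _ => ?_
        have h : (inner ℂ (Dp F r (EuclideanSpace.single j 1)) (a • v) : ℂ) =
            (a : ℂ) * inner ℂ (Dp F r (EuclideanSpace.single j 1)) v := by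
          have : (a • v : CN k) = (a : ℂ) • v := by
            ext i; simp
          rw [this, inner_smul_right]
        rw [h]
        ext i; simp }

lemma Ad_apply (F : CN N × ℝ → CN k) (r : CN N × ℝ) (c : CN k) :
    Ad F r c = ∑ j, (inner ℂ (Dp F r (EuclideanSpace.single j 1)) c : ℂ) •
        (EuclideanSpace.single j 1 : CN N) := rfl

lemma sum_single (u : CN N) : u = ∑ j, (u j) • (EuclideanSpace.single j 1 : CN N) := by
  ext i
  simp [Finset.sum_apply, Pi.single_apply]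

lemma inner_Ad (F : CN N × ℝ → CN k) (r : CN N × ℝ)
    (hD : ∀ (a : ℂ) (v : CN N), Dp F r (a • v) = a • Dp F r v) (u : CN N) (c : CN k) :
    (inner ℂ u (Ad F r c) : ℂ) = inner ℂ (Dp F r u) c := by
  rw [Ad_apply, inner_sum]
  conv_rhs => rw [sum_single u, map_sum, sum_inner]
  refine Finset.sum_congr rfl fun j _ => ?_
  rw [inner_smul_right, hD, inner_smul_left, EuclideanSpace.inner_single_right]
  simp [mul_comm]

/-- The operator `D P D^*`. -/
def Mop (F : CN N × ℝ → CN k) (r : CN N × ℝ) : CN k →L[ℝ] CN k :=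
  (Dp F r).comp ((Pr r).comp (Ad F r))

/-- The local solution. -/
def Vsol (F : CN N × ℝ → CN k) (r : CN N × ℝ) : CN N :=
  Pr r (Ad F r (Ring.inverse (Mop F r) (-(fderiv ℝ F r (0, 1)))))

lemma smooth_Dp {F : CN N × ℝ → CN k} {O : Set (CN N × ℝ)} (hO : IsOpen O)
    (hF : ContDiffOn ℝ ∞ F O) : ContDiffOn ℝ ∞ (Dp F) O := by
  have h1 : ContDiffOn ℝ ∞ (fderiv ℝ F) O := hF.fderiv_of_isOpen hO (by simp)
  exact h1.clm_comp contDiffOn_const

lemma smooth_Pr {O : Set (CN N × ℝ)} : ContDiffOn ℝ ∞ (Pr (N := N)) O := by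
  rw [contDiffOn_clm_apply]
  intro v
  have h1 : ContDiffOn ℝ ∞ (fun r : CN N × ℝ => (inner ℂ r.1 v : ℂ)) O :=
    (ContDiff.inner ℂ contDiff_fst contDiff_const).contDiffOn
  exact contDiffOn_const.sub (h1.smul contDiff_fst.contDiffOn)

lemma smooth_Ad {F : CN N × ℝ → CN k} {O : Set (CN N × ℝ)} (hO : IsOpen O)
    (hF : ContDiffOn ℝ ∞ F O) : ContDiffOn ℝ ∞ (Ad F) O := by
  rw [contDiffOn_clm_apply]
  intro c
  have : (fun r => Ad F r c) = fun r => ∑ j,
      (inner ℂ (Dp F r (EuclideanSpace.single j 1)) c : ℂ) •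
        (EuclideanSpace.single j 1 : CN N) := by
    funext r; exact Ad_apply F r c
  rw [this]
  refine ContDiffOn.sum fun j _ => ?_
  have h0 : ContDiffOn ℝ ∞ (fun r => Dp F r (EuclideanSpace.single j 1)) O :=
    (smooth_Dp hO hF).clm_apply contDiffOn_const
  have h1 : ContDiffOn ℝ ∞ (fun r => (inner ℂ (Dp F r (EuclideanSpace.single j 1)) c : ℂ)) O :=
    ContDiffOn.inner ℂ h0 contDiffOn_const
  exact h1.smul contDiffOn_const

lemma smooth_Mop {F : CN N × ℝ → CN k} {O : Set (CN N × ℝ)} (hO : IsOpen O)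
    (hF : ContDiffOn ℝ ∞ F O) : ContDiffOn ℝ ∞ (Mop F) O :=
  (smooth_Dp hO hF).clm_comp (smooth_Pr.clm_comp (smooth_Ad hO hF))

lemma smooth_Vsol {F : CN N × ℝ → CN k} {O : Set (CN N × ℝ)} (hO : IsOpen O)
    (hF : ContDiffOn ℝ ∞ F O) :
    ContDiffOn ℝ ∞ (Vsol F) (O ∩ {r | IsUnit (Mop F r)}) := by
  have hsub : O ∩ {r | IsUnit (Mop F r)} ⊆ O := Set.inter_subset_left
  have hinv : ContDiffOn ℝ ∞ (fun r => Ring.inverse (Mop F r)) (O ∩ {r | IsUnit (Mop F r)}) := by
    intro r hr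
    obtain ⟨u, hu⟩ := hr.2
    have h1 : ContDiffAt ℝ ∞ (Ring.inverse : (CN k →L[ℝ] CN k) → (CN k →L[ℝ] CN k)) (Mop F r) := by
      have := contDiffAt_ringInverse ℝ (n := ∞) u
      rw [hu] at this
      exact this
    exact h1.comp_contDiffWithinAt r (((smooth_Mop hO hF) r hr.1).mono hsub)
  have hFt : ContDiffOn ℝ ∞ (fun r => -(fderiv ℝ F r ((0 : CN N), (1 : ℝ)))) O := by
    have h1 : ContDiffOn ℝ ∞ (fderiv ℝ F) O := hF.fderiv_of_isOpen hO (by simp)
    exact (h1.clm_apply contDiffOn_const).neg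
  exact (smooth_Pr).clm_apply (((smooth_Ad hO hF).mono hsub).clm_apply
    (hinv.clm_apply (hFt.mono hsub)))


/-- The partial real derivative is the complex derivative. -/
lemma Dp_eq {F : CN N × ℝ → CN k} {O : Set (CN N × ℝ)} (hO : IsOpen O)
    (hF : ContDiffOn ℝ ∞ F O) {r : CN N × ℝ} (hr : r ∈ O)
    (hd : DifferentiableAt ℂ (fun p => F (p, r.2)) r.1) (v : CN N) :
    Dp F r v = fderiv ℂ (fun p => F (p, r.2)) r.1 v := by
  have h1 : HasFDerivAt F (fderiv ℝ F r) r :=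
    ((hF.differentiableOn (by simp)).differentiableAt (hO.mem_nhds hr)).hasFDerivAt
  have h2 : HasFDerivAt (fun p : CN N => (p, r.2)) (ContinuousLinearMap.inl ℝ (CN N) ℝ) r.1 := by
    simpa using (hasFDerivAt_prodMk_left (𝕜 := ℝ) r.1 r.2)
  have h3 : HasFDerivAt (fun p : CN N => F (p, r.2)) (Dp F r) r.1 := by
    have := HasFDerivAt.comp (g := F) r.1 (by simpa using h1) h2
    exact this
  have h4 : HasFDerivAt (fun p : CN N => F (p, r.2))
      ((fderiv ℂ (fun p => F (p, r.2)) r.1).restrictScalars ℝ) r.1 :=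
    hd.hasFDerivAt.restrictScalars ℝ
  have h5 := h3.unique h4
  rw [h5]; rfl

lemma inner_Pr_left {r : CN N × ℝ} (hr : ‖r.1‖ = 1) (v : CN N) :
    (inner ℂ r.1 (Pr r v) : ℂ) = 0 := by
  rw [Pr_apply, inner_sub_right, inner_smul_right, inner_self_eq_norm_sq_to_K, hr]
  simp

lemma Mop_isUnit {F : CN N × ℝ → CN k} {r : CN N × ℝ} (hr : ‖r.1‖ = 1)
    (hD : ∀ (a : ℂ) (v : CN N), Dp F r (a • v) = a • Dp F r v)
    (hs : ∀ (c : CN k) (a : ℂ), ∃ v, Dp F r v = c ∧ inner ℂ r.1 v = a) :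
    IsUnit (Mop F r) := by
  rw [ContinuousLinearMap.isUnit_iff_bijective]
  have hinj : Function.Injective (Mop F r) := by
    rw [injective_iff_map_eq_zero]
    intro c hc
    set x := Ad F r c with hx
    have h1 : (inner ℂ (Pr r x) x : ℂ) = 0 := by
      rw [hx, inner_Ad F r hD]
      have : Dp F r (Pr r (Ad F r c)) = 0 := hc
      rw [this, inner_zero_left]
    have h2 : (inner ℂ (Pr r x) (Pr r x) : ℂ) = 0 := by
      have h3 : (inner ℂ (Pr r x) (Pr r x) : ℂ) =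
          inner ℂ (x - (inner ℂ r.1 x : ℂ) • r.1) (Pr r x) := rfl
      rw [h3, inner_sub_left, inner_smul_left, inner_Pr_left hr, mul_zero, sub_zero]
      rw [← inner_conj_symm, h1, map_zero]
    have h3 : Pr r x = 0 := by
      rwa [inner_self_eq_zero] at h2
    have h4 : x = (inner ℂ r.1 x : ℂ) • r.1 := by
      rw [Pr_apply, sub_eq_zero] at h3
      exact h3
    obtain ⟨v, hv1, hv2⟩ := hs c 0
    have h5 : (inner ℂ c c : ℂ) = 0 := by
      have : (inner ℂ c c : ℂ) = inner ℂ (Dp F r v) c := by rw [hv1]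
      rw [this, ← inner_Ad F r hD, ← hx, h4, inner_smul_right, ← inner_conj_symm v, hv2]
      simp
    rwa [inner_self_eq_zero] at h5
  refine ⟨hinj, ?_⟩
  exact (LinearMap.injective_iff_surjective (f := (Mop F r : CN k →ₗ[ℝ] CN k))).1 hinj

lemma Vsol_spec {F : CN N × ℝ → CN k} {r : CN N × ℝ} (hr : ‖r.1‖ = 1)
    (hD : ∀ (a : ℂ) (v : CN N), Dp F r (a • v) = a • Dp F r v)
    (hu : IsUnit (Mop F r)) :
    fderiv ℝ F r (Vsol F r, 1) = 0 ∧ (inner ℂ r.1 (Vsol F r) : ℂ) = 0 ∧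
    ∀ w, Dp F r w = 0 → (inner ℂ r.1 w : ℂ) = 0 → (inner ℂ w (Vsol F r) : ℂ) = 0 := by
  refine ⟨?_, inner_Pr_left hr _, ?_⟩
  · have h1 : Dp F r (Vsol F r) = -(fderiv ℝ F r (0, 1)) := by
      have h2 : Dp F r (Vsol F r) =
          (Mop F r * Ring.inverse (Mop F r)) (-(fderiv ℝ F r (0, 1))) := rfl
      rw [h2, Ring.mul_inverse_cancel _ hu]
      rfl
    have h2 : ((Vsol F r, (1 : ℝ)) : CN N × ℝ) = (Vsol F r, 0) + (0, 1) := by simp
    rw [h2, map_add, ← Dp_apply, h1]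
    simp
  · intro w hw1 hw2
    unfold Vsol
    rw [Pr_apply, inner_sub_right, inner_smul_right, inner_Ad F r hD, hw1, inner_zero_left,
      ← inner_conj_symm w, hw2]
    simp

/-- The constraint set. -/
def Cset (X : Set (CN N × ℝ)) (r : CN N × ℝ) : Set (CN N) :=
  {V | ((V, (1 : ℝ)) : CN N × ℝ) ∈ Tan X r ∧ inner ℂ r.1 V = 0 ∧
        ∀ w ∈ Tan (slice X r.2) r.1, inner ℂ r.1 w = 0 → inner ℂ w V = 0}

/-- The relevant compact part. -/
def Mset (X : Set (CN N × ℝ)) : Set (CN N × ℝ) :=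
  {r | r ∈ X ∧ ‖r.1‖ = 1 ∧ r.2 ∈ Set.Icc (-1 : ℝ) 2}

open Classical in
/-- The family of convex sets. -/
def tset (X : Set (CN N × ℝ)) (r : CN N × ℝ) : Set (CN N) :=
  if r ∈ Mset X then Cset X r else Set.univ

lemma inner_real_smul (w v : CN N) (a : ℝ) : (inner ℂ w (a • v) : ℂ) = (a : ℂ) * inner ℂ w v := by
  have : (a • v : CN N) = (a : ℂ) • v := by
    ext i; simp
  rw [this, inner_smul_right]

lemma convex_Cset (hL : TLocal) {X : Set (CN N × ℝ)} (hX : SphereFamilyR k X)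
    {r : CN N × ℝ} (hr : r ∈ Mset X) : Convex ℝ (Cset X r) := by
  obtain ⟨O, F, hO, hrO, hF, hhol, hXF, hsurj, hT⟩ :=
    hL N k X r hr.1 hr.2.1 (hX.loc r hr.1 hr.2.1 hr.2.2)
  have hT1 := (hT r hrO hr.1).1
  intro V hV W hW a b ha hb hab
  refine ⟨?_, ?_, ?_⟩
  · have h1 := hV.1
    have h2 := hW.1
    rw [hT1] at h1 h2 ⊢
    have h3 : ((a • V + b • W, (1 : ℝ)) : CN N × ℝ) = a • (V, (1 : ℝ)) + b • (W, (1 : ℝ)) := by
      ext1
      · simp
      · simp [hab]
    change fderiv ℝ F r _ = 0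
    rw [h3, map_add, map_smul, map_smul]
    change fderiv ℝ F r (V, 1) = 0 at h1
    change fderiv ℝ F r (W, 1) = 0 at h2
    rw [h1, h2]; simp
  · have h1 := hV.2.1
    have h2 := hW.2.1
    rw [inner_add_right, inner_real_smul, inner_real_smul, h1, h2]; simp
  · intro w hw1 hw2
    have h1 := hV.2.2 w hw1 hw2
    have h2 := hW.2.2 w hw1 hw2
    rw [inner_add_right, inner_real_smul, inner_real_smul, h1, h2]; simp

lemma convex_tset (hL : TLocal) {X : Set (CN N × ℝ)} (hX : SphereFamilyR k X)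
    (r : CN N × ℝ) : Convex ℝ (tset X r) := by
  unfold tset
  split_ifs with h
  · exact convex_Cset hL hX h
  · exact convex_univ

lemma local_tset (hL : TLocal) {X : Set (CN N × ℝ)} (hX : SphereFamilyR k X)
    (r₀ : CN N × ℝ) : ∃ U ∈ 𝓝 r₀, ∃ g : CN N × ℝ → CN N, ContDiffOn ℝ ∞ g U ∧
      ∀ y ∈ U, g y ∈ tset X y := by
  by_cases h : r₀ ∈ Mset X
  · obtain ⟨O, F, hO, hrO, hF, hhol, hXF, hsurj, hT⟩ :=
      hL N k X r₀ h.1 h.2.1 (hX.loc r₀ h.1 h.2.1 h.2.2)
    have hDp : ∀ r ∈ O, ∀ v, Dp F r v = fderiv ℂ (fun p => F (p, r.2)) r.1 v :=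
      fun r hr v => Dp_eq hO hF hr (hhol r hr) v
    have hlin : ∀ r ∈ O, ∀ (a : ℂ) (v : CN N), Dp F r (a • v) = a • Dp F r v := by
      intro r hr a v
      rw [hDp r hr, hDp r hr, map_smul]
    have hU0 : IsUnit (Mop F r₀) := by
      refine Mop_isUnit h.2.1 (hlin r₀ hrO) ?_
      intro c a
      obtain ⟨v, hv1, hv2⟩ := hsurj r₀ hrO c a
      exact ⟨v, by rw [hDp r₀ hrO]; exact hv1, hv2⟩
    have hopen : IsOpen (O ∩ {r | IsUnit (Mop F r)}) :=
      (smooth_Mop hO hF).continuousOn.isOpen_inter_preimage hO Units.isOpen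
    refine ⟨O ∩ {r | IsUnit (Mop F r)}, hopen.mem_nhds ⟨hrO, hU0⟩, Vsol F,
      smooth_Vsol hO hF, ?_⟩
    intro y hy
    unfold tset
    split_ifs with h'
    · obtain ⟨h1, h2, h3⟩ := Vsol_spec h'.2.1 (hlin y hy.1) hy.2
      obtain ⟨hT1, hT2, -⟩ := hT y hy.1 h'.1
      refine ⟨?_, h2, ?_⟩
      · rw [hT1]; exact h1
      · intro w hw1 hw2
        rw [hT2] at hw1
        refine h3 w ?_ hw2
        rw [hDp y hy.1]; exact hw1
    · trivial
  · refine ⟨(Mset X)ᶜ, hX.compact.isClosed.isOpen_compl.mem_nhds h, fun _ => 0,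
      contDiffOn_const, ?_⟩
    intro y hy
    unfold tset
    rw [if_neg hy]
    trivial

end FieldL

theorem tField (hL : TLocal) : TField := by
  intro N k X hX
  obtain ⟨g, hg⟩ := exists_contMDiffMap_forall_mem_convex_of_local (n := (⊤ : ℕ∞))
    (𝓘(ℝ, CN N × ℝ)) (t := FieldL.tset X) (FieldL.convex_tset hL hX) (by
      intro x
      obtain ⟨U, hU, g, hg1, hg2⟩ := FieldL.local_tset hL hX x
      exact ⟨U, hU, g, contMDiffOn_iff_contDiffOn.2 hg1, hg2⟩)
  refine ⟨g, contMDiff_iff_contDiff.1 g.contMDiff, ?_⟩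
  intro r hr1 hr2 hr3
  have := hg r
  unfold FieldL.tset at this
  rw [if_pos (show r ∈ FieldL.Mset X from ⟨hr1, hr2, hr3⟩)] at this
  exact this

end

end Pool.Agent.SteinFill
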