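import Pool.Agent.SteinFill.Spec

/-!
# Gray stability for families of complex submanifolds cut by round spheres
-/

namespace Pool.Agent.SteinFill

open scoped ContDiff
open Complex (I)
open Set Filter Topology

noncomputable section

namespace Gray

/-- Scalar Gronwall: `|b'| ≤ K |b|` on `[0,1]` preserves the sign. -/
lemma sign_of_gronwall {b b' : ℝ → ℝ} {K : ℝ} (_hK : 0 ≤ K)
    (hb : ∀ s ∈ Icc (0 : ℝ) 1, HasDerivAt b (b' s) s)
    (hle : ∀ s ∈ Icc (0 : ℝ) 1, |b' s| ≤ K * |b s|) :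
    (0 < b 0 ↔ 0 < b 1) ∧ (b 0 = 0 ↔ b 1 = 0) := by
  have hbc : ContinuousOn b (Icc 0 1) := fun s hs => (hb s hs).continuousAt.continuousWithinAt
  -- B = b^2
  have hB : ∀ s ∈ Icc (0 : ℝ) 1, HasDerivAt (fun s => b s ^ 2) (2 * b s * b' s) s := by
    intro s hs
    have := (hb s hs).fun_pow 2
    simpa using this
  have hBle : ∀ s ∈ Icc (0 : ℝ) 1, |2 * b s * b' s| ≤ 2 * K * b s ^ 2 := by
    intro s hs
    rw [abs_mul, abs_mul, abs_two]
    have h1 := hle s hs
    have h2 : |b s| * |b' s| ≤ |b s| * (K * |b s|) :=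
      mul_le_mul_of_nonneg_left h1 (abs_nonneg _)
    have h3 : |b s| * (K * |b s|) = K * b s ^ 2 := by rw [← sq_abs]; ring
    nlinarith [h2, h3]
  -- upper function is monotone, lower is antitone
  have hexp : ∀ (c s : ℝ), HasDerivAt (fun s => Real.exp (c * s)) (c * Real.exp (c * s)) s := by
    intro c s
    have h1 : HasDerivAt (fun s : ℝ => c * s) c s := by
      simpa using (hasDerivAt_id s).const_mul c
    have := h1.exp
    simpa [mul_comm] using this
  have hmono : MonotoneOn (fun s => Real.exp (2 * K * s) * b s ^ 2) (Icc 0 1) := by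
    refine monotoneOn_of_deriv_nonneg (convex_Icc 0 1) ?_ ?_ ?_
    · exact (by fun_prop : Continuous fun s : ℝ => Real.exp (2 * K * s)).continuousOn.mul (hbc.pow 2)
    · rw [interior_Icc]
      intro s hs
      have hs' : s ∈ Icc (0 : ℝ) 1 := Ioo_subset_Icc_self hs
      exact ((hexp (2 * K) s).fun_mul (hB s hs')).differentiableAt.differentiableWithinAt
    · rw [interior_Icc]
      intro s hs
      have hs' : s ∈ Icc (0 : ℝ) 1 := Ioo_subset_Icc_self hs
      have h := (hexp (2 * K) s).fun_mul (hB s hs')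
      rw [h.deriv]
      have h1 := hBle s hs'
      rw [abs_le] at h1
      have : 0 < Real.exp (2 * K * s) := Real.exp_pos _
      nlinarith [this, h1.1]
  have hanti : AntitoneOn (fun s => Real.exp (-(2 * K) * s) * b s ^ 2) (Icc 0 1) := by
    refine antitoneOn_of_deriv_nonpos (convex_Icc 0 1) ?_ ?_ ?_
    · exact (by fun_prop : Continuous fun s : ℝ => Real.exp (-(2 * K) * s)).continuousOn.mul
        (hbc.pow 2)
    · rw [interior_Icc]
      intro s hs
      have hs' : s ∈ Icc (0 : ℝ) 1 := Ioo_subset_Icc_self hs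
      exact ((hexp (-(2 * K)) s).fun_mul (hB s hs')).differentiableAt.differentiableWithinAt
    · rw [interior_Icc]
      intro s hs
      have hs' : s ∈ Icc (0 : ℝ) 1 := Ioo_subset_Icc_self hs
      have h := (hexp (-(2 * K)) s).fun_mul (hB s hs')
      rw [h.deriv]
      have h1 := hBle s hs'
      rw [abs_le] at h1
      have : 0 < Real.exp (-(2 * K) * s) := Real.exp_pos _
      nlinarith [this, h1.2]
  have h0m : (0 : ℝ) ∈ Icc (0 : ℝ) 1 := ⟨le_rfl, zero_le_one⟩
  have h1m : (1 : ℝ) ∈ Icc (0 : ℝ) 1 := ⟨zero_le_one, le_rfl⟩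
  -- if b s ≠ 0 at some point, nowhere zero
  have key : ∀ s ∈ Icc (0 : ℝ) 1, b 0 ≠ 0 → b s ≠ 0 := by
    intro s hs h0 hs0
    have h := hmono h0m hs hs.1
    simp only [mul_zero, Real.exp_zero, one_mul, hs0] at h
    have : 0 < b 0 ^ 2 := by positivity
    have h2 : Real.exp (2 * K * s) * (0 : ℝ) ^ 2 = 0 := by ring
    rw [h2] at h
    linarith
  have key1 : b 1 ≠ 0 → b 0 ≠ 0 := by
    intro h1 h0
    have h := hanti h0m h1m zero_le_one
    simp only [mul_zero, Real.exp_zero, one_mul, h0] at h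
    have h2 : 0 < Real.exp (-(2 * K) * 1) * b 1 ^ 2 := by positivity
    simp only [mul_one, ne_eq, OfNat.ofNat_ne_zero, not_false_eq_true, zero_pow] at h
    rw [mul_one] at h2
    linarith
  have hzero : b 0 = 0 ↔ b 1 = 0 :=
    ⟨fun h => by_contra fun h1 => key1 h1 h, fun h => by_contra fun h0 => key 1 h1m h0 h⟩
  refine ⟨?_, hzero⟩
  constructor
  · intro h
    by_contra hn
    rw [not_lt] at hn
    -- IVT
    have hsub := intermediate_value_Icc' (zero_le_one' ℝ) hbc
    obtain ⟨s, hs, hs0⟩ := hsub ⟨hn, h.le⟩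
    exact key s hs h.ne' hs0
  · intro h
    by_contra hn
    rw [not_lt] at hn
    have h0 : b 0 ≠ 0 := key1 h.ne'
    have hsub := intermediate_value_Icc (zero_le_one' ℝ) hbc
    obtain ⟨s, hs, hs0⟩ := hsub ⟨hn, h.le⟩
    exact key s hs h0 hs0

/-- Uniqueness for the time component. -/
lemma time_comp {β : ℝ → ℝ} {K : NNReal} (hβ : LipschitzWith K β)
    (h1 : ∀ s ∈ Icc (0 : ℝ) 1, β s = 1) (c a : ℝ) (hc : c = 1 ∨ c = -1) (y : ℝ → ℝ)
    (hy : ∀ s, HasDerivAt y (c * β (y s)) s) (hy0 : y 0 = a) (T : ℝ) (_hT : 0 ≤ T)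
    (hr : ∀ s ∈ Icc (0 : ℝ) T, a + c * s ∈ Icc (0 : ℝ) 1) :
    ∀ s ∈ Icc (0 : ℝ) T, y s = a + c * s := by
  have hcL : LipschitzWith K (fun y => c * β y) := by
    refine LipschitzWith.of_dist_le_mul fun u v => ?_
    have h := hβ.dist_le_mul u v
    rw [Real.dist_eq] at h ⊢
    rw [← mul_sub, abs_mul]
    have hc1 : |c| = 1 := by rcases hc with rfl | rfl <;> simp
    rw [hc1, one_mul]
    exact h
  have := ODE_solution_unique (v := fun _ y => c * β y) (K := K) (f := y)
    (g := fun s => a + c * s) (a := 0) (b := T) (fun _ => hcL)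
    (fun s _ => (hy s).continuousAt.continuousWithinAt)
    (fun s _ => (hy s).hasDerivWithinAt)
    (by fun_prop)
    (fun s hs => by
      have h : HasDerivAt (fun s : ℝ => a + c * s) c s := by
        simpa using ((hasDerivAt_id s).const_mul c).const_add a
      have h2 : c * β (a + c * s) = c := by
        rw [h1 _ (hr s (Ico_subset_Icc_self hs)), mul_one]
      show HasDerivWithinAt _ (c * β (a + c * s)) _ _
      rw [h2]
      exact h.hasDerivWithinAt)
    (by simp [hy0])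
  exact fun s hs => this hs

end Gray

open Gray in
/-- The core: a family over `[-1,2]`. -/
theorem gray_core (hF : TFlow) (hN : TNagumo) (hL : TLocal) (hV : TField) (hU : TUnif)
    (N k : ℕ) (X : Set (CN N × ℝ)) (hX : SphereFamilyR k X) :
    LinkIso (link (slice X 0)) (link (slice X 1)) := by
  classical
  obtain ⟨V, hVs, hVp⟩ := hV N k X hX
  obtain ⟨C, hC0, hCp⟩ := hU N k X hX
  set M : Set (CN N × ℝ) := {r | r ∈ X ∧ ‖r.1‖ = 1 ∧ r.2 ∈ Icc (-1 : ℝ) 2} with hM
  have hMc : IsCompact M := hX.compact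
  -- cutoffs
  let ρ : ContDiffBump (0 : CN N × ℝ) := ⟨3, 4, by norm_num, by norm_num⟩
  let β : ContDiffBump (1 / 2 : ℝ) := ⟨1 / 2, 3 / 2, by norm_num, by norm_num⟩
  have hρM : ∀ r : CN N × ℝ, ‖r‖ ≤ 3 → ρ r = 1 := by
    intro r hr
    exact ρ.one_of_mem_closedBall (by simpa using hr)
  have hnorm : ∀ r ∈ M, ‖r‖ ≤ 2 := by
    intro r hr
    rw [Prod.norm_def]
    refine max_le (by rw [hr.2.1]; norm_num) ?_
    rw [Real.norm_eq_abs, abs_le]
    exact ⟨by linarith [hr.2.2.1], hr.2.2.2⟩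
  have hρ1 : ∀ r ∈ M, ρ r = 1 := fun r hr => hρM r ((hnorm r hr).trans (by norm_num))
  have hβ1 : ∀ s ∈ Icc (0 : ℝ) 1, β s = 1 := by
    intro s hs
    refine β.one_of_mem_closedBall ?_
    rw [Metric.mem_closedBall, Real.dist_eq, abs_le]
    constructor <;> simp only [β] <;> linarith [hs.1, hs.2]
  have hβ0 : ∀ s, s = -1 ∨ s = 2 → β s = 0 := by
    intro s hs
    refine β.zero_of_le_dist ?_
    rw [Real.dist_eq]
    rcases hs with rfl | rfl
    · show (3 / 2 : ℝ) ≤ |(-1 : ℝ) - 1 / 2|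
      rw [abs_of_neg (by norm_num)]; norm_num
    · show (3 / 2 : ℝ) ≤ |(2 : ℝ) - 1 / 2|
      rw [abs_of_pos (by norm_num)]; norm_num
  have hβs : ContDiff ℝ ∞ (fun s => β s) := β.contDiff
  have hρs : ContDiff ℝ ∞ (fun r => ρ r) := ρ.contDiff
  -- the field
  set Z : CN N × ℝ → CN N × ℝ := fun r => (ρ r * β r.2) • (V r, (1 : ℝ)) with hZ
  have hZs : ContDiff ℝ ∞ Z := by
    refine (hρs.mul (hβs.comp contDiff_snd)).smul ?_
    exact hVs.prodMk contDiff_const
  have hZc : HasCompactSupport Z := by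
    have h1 : HasCompactSupport (fun r => ρ r * β r.2) := ρ.hasCompactSupport.mul_right
    exact h1.smul_right
  obtain ⟨Φ, hΦ0, hΦadd, hΦd, hΦs, hΦv⟩ := hF (CN N × ℝ) Z hZs hZc
  obtain ⟨K, hK⟩ := ContDiff.lipschitzWith_of_hasCompactSupport hZc hZs (by simp)
  obtain ⟨Kβ, hKβ⟩ := ContDiff.lipschitzWith_of_hasCompactSupport β.hasCompactSupport hβs (by simp)
  -- invariance
  have htan : ∀ m ∈ M, Z m ∈ Tan M m := by
    intro m hm
    by_cases hend : m.2 = -1 ∨ m.2 = 2
    · have hZ0 : Z m = 0 := by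
        rw [hZ]
        simp only [hβ0 _ hend, mul_zero, zero_smul]
      rw [hZ0]
      exact ⟨fun _ => m, rfl, Eventually.of_forall fun _ => hm, hasDerivAt_const _ _⟩
    · rw [not_or] at hend
      obtain ⟨O, F, hO, hmO, -, -, -, -, hT⟩ := hL N k X m hm.1 hm.2.1 (hX.loc m hm.1 hm.2.1 hm.2.2)
      obtain ⟨h1, -, h3⟩ := hT m hmO hm.1
      obtain ⟨hv1, hv2, -⟩ := hVp m hm.1 hm.2.1 hm.2.2
      have hmem : Z m ∈ Tan {r' | r' ∈ X ∧ ‖r'.1‖ = 1} m := by
        rw [(h3 hm.2.1).1]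
        rw [h1] at hv1
        have hZm : Z m = (β m.2) • (V m, (1 : ℝ)) := by
          rw [hZ]
          simp only [hρ1 m hm, one_mul]
        refine ⟨?_, ?_⟩
        · rw [hZm, map_smul]
          rw [show fderiv ℝ F m (V m, (1 : ℝ)) = 0 from hv1, smul_zero]
        · rw [hZm]
          show (inner ℂ m.1 ((β m.2) • V m) : ℂ).re = 0
          rw [inner_smul_right_eq_smul, hv2, smul_zero]
          rfl
      obtain ⟨c, hc0, hcm, hcd⟩ := hmem
      refine ⟨c, hc0, ?_, hcd⟩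
      have hcont : ContinuousAt (fun s => (c s).2) 0 :=
        (continuous_snd.continuousAt).comp hcd.continuousAt
      have hnear : ∀ᶠ s in 𝓝 (0 : ℝ), (c s).2 ∈ Ioo (-1 : ℝ) 2 := by
        refine hcont.eventually_mem (isOpen_Ioo.mem_nhds ?_)
        rw [hc0]
        exact ⟨lt_of_le_of_ne hm.2.2.1 (Ne.symm hend.1), lt_of_le_of_ne hm.2.2.2 hend.2⟩
      filter_upwards [hcm, hnear] with s hs1 hs2
      exact ⟨hs1.1, hs1.2, Ioo_subset_Icc_self hs2⟩
  have hinv : ∀ m ∈ M, ∀ s, Φ s m ∈ M := by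
    intro m hm s
    exact hN (CN N × ℝ) Z K M hK hMc htan (fun s => Φ s m) (fun t => hΦd t m)
      (by show Φ 0 m ∈ M; rw [hΦ0]; exact hm) s
  -- time component
  have htime' : ∀ m ∈ M, ∀ t, HasDerivAt (fun s => (Φ s m).2) (β (Φ t m).2) t := by
    intro m hm t
    have h := (hasFDerivAt_snd (𝕜 := ℝ) (E := CN N) (F := ℝ) (p := Φ t m)).comp_hasDerivAt t
      (hΦd t m)
    have h2 : (ContinuousLinearMap.snd ℝ (CN N) ℝ) (Z (Φ t m)) = β (Φ t m).2 := by
      rw [hZ]
      simp [hρ1 _ (hinv m hm t)]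
    rw [h2] at h
    exact h
  have htime : ∀ m ∈ M, m.2 = 0 → ∀ s ∈ Icc (0 : ℝ) 1, (Φ s m).2 = s := by
    intro m hm hm0 s hs
    have := time_comp hKβ hβ1 1 0 (Or.inl rfl) (fun s => (Φ s m).2)
      (fun t => by simpa using htime' m hm t) (by simp [hΦ0, hm0]) 1 zero_le_one
      (fun s hs => by simpa using hs) s hs
    simpa using this
  have htimeb : ∀ m ∈ M, m.2 = 1 → ∀ s ∈ Icc (0 : ℝ) 1, (Φ (-s) m).2 = 1 - s := by
    intro m hm hm0 s hs
    have := time_comp hKβ hβ1 (-1) 1 (Or.inr rfl) (fun s => (Φ (-s) m).2)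
      (fun t => by
        have h := (htime' m hm (-t)).scomp t (hasDerivAt_neg t)
        simpa [Function.comp_def] using h) (by simp [hΦ0, hm0]) 1 zero_le_one
      (fun s hs => by constructor <;> linarith [hs.1, hs.2]) s hs
    rw [this]
    ring
  -- the diffeomorphism
  set g : CN N → CN N := fun p => (Φ 1 (p, 0)).1 with hg
  set g' : CN N → CN N := fun q => (Φ (-1) (q, 1)).1 with hg'
  have hgs : ContDiff ℝ ∞ g := contDiff_fst.comp ((hΦs 1).comp (contDiff_id.prodMk contDiff_const))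
  have hgs' : ContDiff ℝ ∞ g' :=
    contDiff_fst.comp ((hΦs (-1)).comp (contDiff_id.prodMk contDiff_const))
  have hM0 : ∀ p ∈ link (slice X 0), ((p, 0) : CN N × ℝ) ∈ M := fun p hp =>
    ⟨hp.1, hp.2, by norm_num, by norm_num⟩
  have hM1 : ∀ p ∈ link (slice X 1), ((p, 1) : CN N × ℝ) ∈ M := fun p hp =>
    ⟨hp.1, hp.2, by norm_num, by norm_num⟩
  have hslice : ∀ p ∈ link (slice X 0), ∀ s ∈ Icc (0 : ℝ) 1, Φ s (p, 0) = ((Φ s (p, 0)).1, s) := by
    intro p hp s hs
    exact Prod.ext rfl (htime _ (hM0 p hp) rfl s hs)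
  have hslicem : ∀ p ∈ link (slice X 0), ∀ s ∈ Icc (0 : ℝ) 1,
      (Φ s (p, 0)).1 ∈ link (slice X s) := by
    intro p hp s hs
    have h := hinv _ (hM0 p hp) s
    refine ⟨?_, h.2.1⟩
    show ((Φ s (p, 0)).1, s) ∈ X
    rw [← hslice p hp s hs]
    exact h.1
  have h1mem : (1 : ℝ) ∈ Icc (0 : ℝ) 1 := ⟨zero_le_one, le_rfl⟩
  have h0mem : (0 : ℝ) ∈ Icc (0 : ℝ) 1 := ⟨le_rfl, zero_le_one⟩
  have hslice' : ∀ q ∈ link (slice X 1), Φ (-1) (q, 1) = ((Φ (-1) (q, 1)).1, 0) := by
    intro q hq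
    refine Prod.ext rfl ?_
    have := htimeb _ (hM1 q hq) rfl 1 h1mem
    simpa using this
  refine ⟨g, g', hgs, hgs', ?_, ?_, ?_, ?_, ?_⟩
  · intro p hp
    exact hslicem p hp 1 h1mem
  · intro q hq
    have h := hinv _ (hM1 q hq) (-1)
    refine ⟨?_, h.2.1⟩
    show ((Φ (-1) (q, 1)).1, (0 : ℝ)) ∈ X
    rw [← hslice' q hq]
    exact h.1
  · intro p hp
    show (Φ (-1) ((Φ 1 (p, 0)).1, 1)).1 = p
    rw [← hslice p hp 1 h1mem, hΦadd]
    simp [hΦ0]
  · intro q hq
    show (Φ 1 ((Φ (-1) (q, 1)).1, 0)).1 = q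
    rw [← hslice' q hq, hΦadd]
    simp [hΦ0]
  · intro p hp v hv
    obtain ⟨c, hc0, hcm, hcd⟩ := hv
    obtain ⟨S, hS⟩ := hMc.exists_bound_of_continuousOn hVs.continuous.continuousOn
    set W : ℝ → CN N × ℝ := fun s => fderiv ℝ (Φ s) (p, 0) (v, 0) with hW
    set γ : ℝ → CN N := fun s => (Φ s (p, 0)).1 with hγ
    set w : ℝ → CN N := fun s => (W s).1 with hw
    set D : ℝ → CN N := fun s => (fderiv ℝ Z (Φ s (p, 0)) (W s)).1 with hD
    have hfst : ∀ (f : ℝ → CN N × ℝ) (f' : CN N × ℝ) (x : ℝ), HasDerivAt f f' x →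
        HasDerivAt (fun u => (f u).1) f'.1 x := fun f f' x hf =>
      (hasFDerivAt_fst (𝕜 := ℝ) (E := CN N) (F := ℝ) (p := f x)).comp_hasDerivAt x hf
    have hsnd : ∀ (f : ℝ → CN N × ℝ) (f' : CN N × ℝ) (x : ℝ), HasDerivAt f f' x →
        HasDerivAt (fun u => (f u).2) f'.2 x := fun f f' x hf =>
      (hasFDerivAt_snd (𝕜 := ℝ) (E := CN N) (F := ℝ) (p := f x)).comp_hasDerivAt x hf
    have hcurve : ∀ s, HasDerivAt (fun u => Φ s (c u, 0)) (W s) 0 := by
      intro s
      have h1 : HasDerivAt (fun u => ((c u, 0) : CN N × ℝ)) (v, 0) 0 :=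
        hcd.prodMk (hasDerivAt_const _ _)
      have h2 : HasFDerivAt (Φ s) (fderiv ℝ (Φ s) (c 0, 0)) (c 0, 0) :=
        ((hΦs s).differentiable (by simp) _).hasFDerivAt
      have h3 := h2.comp_hasDerivAt_of_eq 0 h1 rfl
      rw [hc0] at h3
      exact h3
    have hC0' : ∀ s, Φ s (c 0, 0) = Φ s (p, 0) := by
      intro s; rw [hc0]
    have hcM : ∀ s, ∀ᶠ u in 𝓝 (0 : ℝ), Φ s (c u, 0) ∈ M := by
      intro s
      filter_upwards [hcm] with u hu
      exact hinv _ (hM0 _ hu) s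
    have hcs : ∀ s ∈ Icc (0 : ℝ) 1, ∀ᶠ u in 𝓝 (0 : ℝ),
        (Φ s (c u, 0)).1 ∈ link (slice X s) ∧ (Φ s (c u, 0)).2 = s := by
      intro s hs
      filter_upwards [hcm] with u hu
      exact ⟨hslicem _ hu s hs, htime _ (hM0 _ hu) rfl s hs⟩
    have hγM : ∀ s ∈ Icc (0 : ℝ) 1, (γ s, s) ∈ M := by
      intro s hs
      have := hinv _ (hM0 p hp) s
      rw [hslice p hp s hs] at this
      exact this
    -- derivative of V along the curve
    have hVc : ∀ s ∈ Icc (0 : ℝ) 1, HasDerivAt (fun u => V (Φ s (c u, 0))) (D s) 0 := by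
      intro s hs
      have h2 : HasFDerivAt Z (fderiv ℝ Z (Φ s (c 0, 0))) (Φ s (c 0, 0)) :=
        (hZs.differentiable (by simp) _).hasFDerivAt
      have h3 := hfst _ _ _ (h2.comp_hasDerivAt 0 (hcurve s))
      rw [hC0'] at h3
      refine h3.congr_of_eventuallyEq ?_
      filter_upwards [hcM s, hcs s hs] with u hu1 hu2
      show V (Φ s (c u, 0)) = (Z (Φ s (c u, 0))).1
      rw [hZ]
      simp only [hρ1 _ hu1, hu2.2, hβ1 s hs, one_mul, one_smul]
    have hw1 : ∀ s, HasDerivAt (fun u => (Φ s (c u, 0)).1) (w s) 0 := fun s =>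
      hfst _ _ _ (hcurve s)
    have hident : ∀ s ∈ Icc (0 : ℝ) 1,
        (inner ℂ (γ s) (D s) : ℂ) + inner ℂ (w s) (V (γ s, s)) = 0 := by
      intro s hs
      have h1 := (hw1 s).inner ℂ (hVc s hs)
      have h2 : HasDerivAt (fun u => (inner ℂ (Φ s (c u, 0)).1 (V (Φ s (c u, 0))) : ℂ)) 0 0 := by
        refine (hasDerivAt_const (0 : ℝ) (0 : ℂ)).congr_of_eventuallyEq ?_
        filter_upwards [hcM s] with u hu
        exact (hVp _ hu.1 hu.2.1 hu.2.2).2.1
      have h3 := h1.unique h2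
      rw [hC0', hslice p hp s hs] at h3
      exact h3
    have hVγ : ∀ s ∈ Icc (0 : ℝ) 1, (Z (Φ s (p, 0))).1 = V (γ s, s) := by
      intro s hs
      rw [hslice p hp s hs, hZ]
      have h1 := hρ1 _ (hγM s hs)
      simp only [hγ] at h1
      simp only [h1, hβ1 s hs, one_mul, one_smul, hγ]
    -- derivative of a
    set a : ℝ → ℂ := fun s => inner ℂ (γ s) (w s) with ha
    have ha' : ∀ s ∈ Icc (0 : ℝ) 1, HasDerivAt a
        (inner ℂ (γ s) (D s) + inner ℂ (V (γ s, s)) (w s)) s := by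
      intro s hs
      have h1 : HasDerivAt γ (V (γ s, s)) s := by
        have := hfst _ _ _ (hΦd s (p, 0))
        rw [hVγ s hs] at this
        exact this
      have h2 : HasDerivAt w (D s) s := hfst _ _ _ (hΦv s (p, 0) (v, 0))
      exact h1.inner ℂ h2
    -- real part vanishes
    have hre : ∀ s ∈ Icc (0 : ℝ) 1, (a s).re = 0 := by
      intro s hs
      have h1 := (hw1 s).inner ℂ (hw1 s)
      have h2 : HasDerivAt (fun u => (inner ℂ (Φ s (c u, 0)).1 (Φ s (c u, 0)).1 : ℂ)) 0 0 := by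
        refine (hasDerivAt_const (0 : ℝ) (1 : ℂ)).congr_of_eventuallyEq ?_
        filter_upwards [hcM s] with u hu
        rw [inner_self_eq_norm_sq_to_K, hu.2.1]
        simp
      have h3 := h1.unique h2
      rw [hC0'] at h3
      have h4 : (inner ℂ (w s) (γ s) : ℂ) = (starRingEnd ℂ) (a s) := (inner_conj_symm _ _).symm
      have h5 : a s + (starRingEnd ℂ) (a s) = 0 := by
        rw [← h4]; exact h3
      have h6 := congrArg Complex.re h5
      simp at h6
      linarith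
    have hnorm_a : ∀ s ∈ Icc (0 : ℝ) 1, ‖a s‖ = |(a s).im| := by
      intro s hs
      have : a s = ((a s).im : ℂ) * I := by
        apply Complex.ext <;> simp [hre s hs]
      rw [this]
      simp
    -- bound
    have hbound : ∀ s ∈ Icc (0 : ℝ) 1,
        ‖(inner ℂ (w s) (V (γ s, s)) : ℂ)‖ ≤ C * max S 0 * |(a s).im| := by
      intro s hs
      have hm := hγM s hs
      obtain ⟨u, hu, hu1, hu2⟩ := hCp (γ s, s) hm.1 hm.2.1 hm.2.2
      obtain ⟨-, -, hv3⟩ := hVp (γ s, s) hm.1 hm.2.1 hm.2.2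
      obtain ⟨O, F, hO, hmO, -, -, -, -, hT⟩ := hL N k X (γ s, s) hm.1 hm.2.1
        (hX.loc _ hm.1 hm.2.1 hm.2.2)
      obtain ⟨-, h2, -⟩ := hT _ hmO hm.1
      have hwT : w s ∈ Tan (slice X s) (γ s) := by
        refine ⟨fun u => (Φ s (c u, 0)).1, by simp only [hc0, hγ], ?_, hw1 s⟩
        filter_upwards [hcs s hs] with u hu
        exact hu.1.1
      have hcomb : w s - a s • u ∈ Tan (slice X s) (γ s) := by
        rw [show Tan (slice X s) (γ s) = _ from h2] at hwT hu ⊢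
        simp only [mem_ofPred_eq] at hwT hu ⊢
        rw [map_sub, map_smul, hwT, hu, smul_zero, sub_zero]
      have horth : (inner ℂ (γ s) (w s - a s • u) : ℂ) = 0 := by
        rw [inner_sub_right, inner_smul_right]
        rw [show (inner ℂ (γ s) u : ℂ) = 1 from hu1, mul_one]
        exact sub_self _
      have h3 := hv3 _ hcomb horth
      rw [inner_sub_left, inner_smul_left, sub_eq_zero] at h3
      rw [h3, norm_mul, RCLike.norm_conj, hnorm_a s hs, mul_comm]
      refine mul_le_mul_of_nonneg_right ?_ (abs_nonneg _)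
      refine (norm_inner_le_norm _ _).trans ?_
      exact mul_le_mul hu2 ((hS _ hm).trans (le_max_left _ _)) (norm_nonneg _) hC0
    have hfin := sign_of_gronwall (b := fun s => (a s).im)
      (b' := fun s => ((inner ℂ (γ s) (D s) : ℂ) + inner ℂ (V (γ s, s)) (w s)).im)
      (K := 2 * (C * max S 0)) (by positivity)
      (fun s hs => by
        have h := ha' s hs
        have h2 := (Complex.imCLM.hasFDerivAt (x := a s)).comp_hasDerivAt s h
        exact h2)
      (fun s hs => by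
        have h1 := hident s hs
        have h2 : (inner ℂ (γ s) (D s) : ℂ) = - inner ℂ (w s) (V (γ s, s)) :=
          eq_neg_of_add_eq_zero_left h1
        have h3 : (inner ℂ (V (γ s, s)) (w s) : ℂ) =
            (starRingEnd ℂ) (inner ℂ (w s) (V (γ s, s))) := (inner_conj_symm _ _).symm
        rw [h2, h3]
        have h4 : (-(inner ℂ (w s) (V (γ s, s)) : ℂ) +
            (starRingEnd ℂ) (inner ℂ (w s) (V (γ s, s)))).im =
            -2 * (inner ℂ (w s) (V (γ s, s)) : ℂ).im := by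
          simp only [Complex.add_im, Complex.neg_im, Complex.conj_im]
          ring
        rw [h4, abs_mul, abs_neg, abs_two, mul_assoc]
        refine mul_le_mul_of_nonneg_left ?_ (by norm_num)
        exact (Complex.abs_im_le_norm _).trans (hbound s hs))
    have hw0 : w 0 = v := by
      have h0 : Φ 0 = id := funext hΦ0
      simp only [hw, hW, h0, fderiv_id]
      rfl
    have hγ0 : γ 0 = p := by
      simp only [hγ, hΦ0]
    have hg1 : fderiv ℝ g p v = w 1 := by
      have h1 : HasDerivAt (fun u => g (c u)) (fderiv ℝ g (c 0) v) 0 :=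
        ((hgs.differentiable (by simp) _).hasFDerivAt).comp_hasDerivAt 0 hcd
      rw [hc0] at h1
      exact h1.unique (hw1 1)
    have e0 : a 0 = inner ℂ p v := by
      simp only [ha, hw0, hγ0]
    have e1 : a 1 = inner ℂ (g p) (fderiv ℝ g p v) := by
      rw [hg1]
    simp only [e0, e1] at hfin
    exact hfin

/-- SF-GRAY. -/
theorem tGray (hF : TFlow) (hN : TNagumo) (hR : TReparam) (hL : TLocal) (hV : TField)
    (hU : TUnif) : TGray := by
  intro N k X hX
  obtain ⟨X', hX', h0, h1⟩ := hR N k X hX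
  rw [← h0, ← h1]
  exact gray_core hF hN hL hV hU N k X' hX'

end

end Pool.Agent.SteinFill
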