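import Pool.Agent.SteinFill.Spec

/-!
# Invariance of the triviality of the canonical bundle under Stein deformation equivalence
-/

namespace Pool.Agent.SteinFill

open Filter Topology
open scoped ContDiff
open Complex (I)

namespace InvL

/-- A map which is differentiable and maps `X ∩ U` into `X'` maps tangent vectors to tangent
vectors. -/
lemma tan_map {E E' : Type} [NormedAddCommGroup E] [NormedSpace ℝ E] [NormedAddCommGroup E']
    [NormedSpace ℝ E'] {X U : Set E} {X' : Set E'} {g : E → E'} {p : E} (hU : IsOpen U)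
    (hp : p ∈ U) (hg : DifferentiableAt ℝ g p) (h : ∀ q ∈ X ∩ U, g q ∈ X') {v : E}
    (hv : v ∈ Tan X p) : fderiv ℝ g p v ∈ Tan X' (g p) := by
  obtain ⟨γ, h0, hX, hd⟩ := hv
  refine ⟨fun s => g (γ s), by simp only [h0], ?_, ?_⟩
  · have h1 : Tendsto γ (𝓝 0) (𝓝 p) := by
      have := hd.continuousAt.tendsto
      rwa [h0] at this
    filter_upwards [hX, h1.eventually (hU.mem_nhds hp)] with s hs1 hs2
    exact h _ ⟨hs1, hs2⟩
  · have h1 : HasFDerivAt g (fderiv ℝ g p) (γ 0) := by rw [h0]; exact hg.hasFDerivAt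
    exact h1.comp_hasDerivAt 0 hd

/-- If `g' ∘ g = id` on `X ∩ U` then the derivatives are inverse to each other on the tangent
space. -/
lemma tan_inv {E E' : Type} [NormedAddCommGroup E] [NormedSpace ℝ E] [NormedAddCommGroup E']
    [NormedSpace ℝ E'] {X U : Set E} {g : E → E'} {g' : E' → E} {p : E} (hU : IsOpen U)
    (hp : p ∈ U) (hg : DifferentiableAt ℝ g p) (hg' : DifferentiableAt ℝ g' (g p))
    (h : ∀ q ∈ X ∩ U, g' (g q) = q) {v : E} (hv : v ∈ Tan X p) :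
    fderiv ℝ g' (g p) (fderiv ℝ g p v) = v := by
  obtain ⟨γ, h0, hX, hd⟩ := hv
  have h1 : Tendsto γ (𝓝 0) (𝓝 p) := by
    have := hd.continuousAt.tendsto
    rwa [h0] at this
  have h2 : HasFDerivAt g (fderiv ℝ g p) (γ 0) := by rw [h0]; exact hg.hasFDerivAt
  have h3 : HasFDerivAt g' (fderiv ℝ g' (g p)) (g (γ 0)) := by rw [h0]; exact hg'.hasFDerivAt
  have h4 : HasDerivAt (fun s => g' (g (γ s))) (fderiv ℝ g' (g p) (fderiv ℝ g p v)) 0 :=
    h3.comp_hasDerivAt (f := fun s => g (γ s)) 0 (h2.comp_hasDerivAt 0 hd)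
  have h5 : (fun s => g' (g (γ s))) =ᶠ[𝓝 0] γ := by
    filter_upwards [hX, h1.eventually (hU.mem_nhds hp)] with s hs1 hs2
    exact h _ ⟨hs1, hs2⟩
  exact h4.unique (hd.congr_of_eventuallyEq h5)

lemma triv_congr {N : ℕ} {X W : Set (CN N)} {J J' : CN N → CN N → CN N}
    (h : ∀ p ∈ W, ∀ v ∈ Tan X p, J' p v = J p v) (hJ : TrivCan X W J) : TrivCan X W J' := by
  obtain ⟨Ω, hΩ⟩ := hJ
  refine ⟨Ω, hΩ.cont, hΩ.add, hΩ.smul, hΩ.alt, ?_, ?_⟩
  · intro p hp v hv w hw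
    rw [h p hp v hv]
    exact hΩ.jlin p hp v hv w hw
  · intro p hp v hv w hw h0
    rw [h p hp v hv, h p hp w hw]
    exact hΩ.nondeg p hp v hv w hw h0

end InvL

open InvL in
theorem tInv' (hP : TPath) : TInv := by
  intro N N' D D' ⟨S⟩ h0
  have hcompact : IsCompact D.W := D.compact
  have hWX : D.W ⊆ D.X := fun p hp => hp.1
  have hJ1 : TrivCan D.X D.W (fun p v => S.J 1 p v) := by
    refine hP N (N - 2) D.X D.W S.U S.J hcompact hWX S.W_sub ?_ S.smooth_J.continuousOn ?_ ?_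
    · intro p hp
      obtain ⟨k, hk, h⟩ := D.surface p hp.1 hp.2
      have : N - 2 = k := by omega
      rw [this]
      exact h
    · intro s hs p hp v hv
      exact S.J_tan s hs p ⟨hWX hp, S.W_sub hp⟩ v hv
    · exact triv_congr (fun p hp v hv => S.J_zero p ⟨hWX hp, S.W_sub hp⟩ v hv) h0
  obtain ⟨Ω, hΩ⟩ := hJ1
  -- the inverse diffeomorphism
  have hW' : ∀ q ∈ D'.W, S.g' q ∈ D.W ∧ S.g (S.g' q) = q := by
    intro q hq
    have hq' := hq
    rw [← S.image] at hq'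
    obtain ⟨p, hp, rfl⟩ := hq'
    have h1 := (S.mapsTo p ⟨hWX hp, S.W_sub hp⟩).2
    rw [h1]
    exact ⟨hp, rfl⟩
  have dg' : ∀ q ∈ D'.W, DifferentiableAt ℝ S.g' q := fun q hq =>
    (S.smooth_g'.contDiffAt (S.open_U'.mem_nhds (S.W_sub' hq))).differentiableAt (by simp)
  have dg : ∀ p ∈ D.W, DifferentiableAt ℝ S.g p := fun p hp =>
    (S.smooth_g.contDiffAt (S.open_U.mem_nhds (S.W_sub hp))).differentiableAt (by simp)
  have t1 : ∀ q ∈ D'.W, ∀ v ∈ Tan D'.X q, fderiv ℝ S.g' q v ∈ Tan D.X (S.g' q) :=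
    fun q hq v hv => tan_map S.open_U' (S.W_sub' hq) (dg' q hq)
      (fun q hq => (S.mapsTo' q hq).1.1) hv
  have t2 : ∀ q ∈ D'.W, ∀ v ∈ Tan D'.X q, fderiv ℝ S.g (S.g' q) (fderiv ℝ S.g' q v) = v :=
    fun q hq v hv => tan_inv S.open_U' (S.W_sub' hq) (dg' q hq) (dg _ (hW' q hq).1)
      (fun q hq => (S.mapsTo' q hq).2) hv
  have t3 : ∀ q ∈ D'.W, ∀ u ∈ Tan D.X (S.g' q), fderiv ℝ S.g' q (fderiv ℝ S.g (S.g' q) u) = u := by
    intro q hq u hu
    have h1 := tan_inv (g' := S.g') S.open_U (S.W_sub (hW' q hq).1) (dg _ (hW' q hq).1)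
      (by rw [(hW' q hq).2]; exact dg' q hq) (fun p hp => (S.mapsTo p hp).2) hu
    rwa [(hW' q hq).2] at h1
  have t4 : ∀ q ∈ D'.W, ∀ v ∈ Tan D'.X q,
      fderiv ℝ S.g' q (I • v) = S.J 1 (S.g' q) (fderiv ℝ S.g' q v) := by
    intro q hq v hv
    have hp := (hW' q hq).1
    have hpU : S.g' q ∈ D.X ∩ S.U := ⟨hWX hp, S.W_sub hp⟩
    have h1 := S.J_one _ hpU _ (t1 q hq v hv)
    rw [t2 q hq v hv] at h1
    rw [← h1]
    exact t3 q hq _ (S.J_tan 1 ⟨by norm_num, le_rfl⟩ _ hpU _ (t1 q hq v hv)).1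
  refine ⟨fun q v w => Ω (S.g' q) (fderiv ℝ S.g' q v) (fderiv ℝ S.g' q w), ?_, ?_, ?_, ?_, ?_, ?_⟩
  · -- continuity
    have hd : ContinuousOn (fderiv ℝ S.g') S.U' :=
      S.smooth_g'.continuousOn_fderiv_of_isOpen S.open_U' (by simp)
    have hU' : ∀ x ∈ {x : CN N' × CN N' × CN N' | x.1 ∈ D'.W ∧ x.2.1 ∈ Tan D'.X x.1 ∧
        x.2.2 ∈ Tan D'.X x.1}, x.1 ∈ S.U' := fun x hx => S.W_sub' hx.1
    have c1 : ContinuousOn (fun x : CN N' × CN N' × CN N' => S.g' x.1)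
        {x | x.1 ∈ D'.W ∧ x.2.1 ∈ Tan D'.X x.1 ∧ x.2.2 ∈ Tan D'.X x.1} :=
      S.smooth_g'.continuousOn.comp continuousOn_fst hU'
    have c2 : ContinuousOn (fun x : CN N' × CN N' × CN N' => fderiv ℝ S.g' x.1)
        {x | x.1 ∈ D'.W ∧ x.2.1 ∈ Tan D'.X x.1 ∧ x.2.2 ∈ Tan D'.X x.1} :=
      hd.comp continuousOn_fst hU'
    have c3 : ContinuousOn (fun x : CN N' × CN N' × CN N' =>
        (S.g' x.1, fderiv ℝ S.g' x.1 x.2.1, fderiv ℝ S.g' x.1 x.2.2))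
        {x | x.1 ∈ D'.W ∧ x.2.1 ∈ Tan D'.X x.1 ∧ x.2.2 ∈ Tan D'.X x.1} :=
      c1.prodMk ((c2.clm_apply (continuous_fst.comp continuous_snd).continuousOn).prodMk
        (c2.clm_apply (continuous_snd.comp continuous_snd).continuousOn))
    exact hΩ.cont.comp c3 fun x hx =>
      ⟨(hW' _ hx.1).1, t1 _ hx.1 _ hx.2.1, t1 _ hx.1 _ hx.2.2⟩
  · intro q hq u hu v hv w hw
    simp only [map_add]
    exact hΩ.add _ (hW' q hq).1 _ (t1 q hq u hu) _ (t1 q hq v hv) _ (t1 q hq w hw)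
  · intro q hq v hv w hw a
    simp only [map_smul]
    exact hΩ.smul _ (hW' q hq).1 _ (t1 q hq v hv) _ (t1 q hq w hw) a
  · intro q hq v hv
    exact hΩ.alt _ (hW' q hq).1 _ (t1 q hq v hv)
  · intro q hq v hv w hw
    simp only [mulI]
    rw [t4 q hq v hv]
    exact hΩ.jlin _ (hW' q hq).1 _ (t1 q hq v hv) _ (t1 q hq w hw)
  · intro q hq v hv w hw h1
    obtain ⟨a, b, c, d, hne, h2⟩ :=
      hΩ.nondeg _ (hW' q hq).1 _ (t1 q hq v hv) _ (t1 q hq w hw) h1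
    refine ⟨a, b, c, d, hne, ?_⟩
    have hp := (hW' q hq).1
    have hpU : S.g' q ∈ D.X ∩ S.U := ⟨hWX hp, S.W_sub hp⟩
    have h3 := congrArg (fderiv ℝ S.g (S.g' q)) h2
    simp only [map_add, map_smul, map_zero] at h3
    rw [S.J_one _ hpU _ (t1 q hq v hv), S.J_one _ hpU _ (t1 q hq w hw), t2 q hq v hv,
      t2 q hq w hw] at h3
    exact h3

theorem tInv (_hT : TTan) (hP : TPath) : TInv := tInv' hP

end Pool.Agent.SteinFill
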