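import Pool.Agent.SteinFill.Spec

/-!
# The boundary of the curve `y² = x³ + 1/8` is a knot
-/

namespace Pool.Agent.SteinFill

open scoped ContDiff
open Complex (I)

namespace KnotL

/-- `exp (2 π i s)` -/
noncomputable def e (s : ℝ) : ℂ := Complex.exp ((2 * Real.pi * s : ℝ) * I)

theorem norm_e (s : ℝ) : ‖e s‖ = 1 := Complex.norm_exp_ofReal_mul_I _

theorem e_ne (s : ℝ) : e s ≠ 0 := Complex.exp_ne_zero _

theorem e_add_one (s : ℝ) : e (s + 1) = e s := by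
  unfold e
  have : ((2 * Real.pi * (s + 1) : ℝ) : ℂ) * I = ((2 * Real.pi * s : ℝ) : ℂ) * I +
      2 * Real.pi * I := by push_cast; ring
  rw [this, Complex.exp_add, Complex.exp_two_pi_mul_I, mul_one]

theorem hasDerivAt_e (s : ℝ) : HasDerivAt e ((2 * Real.pi * I) * e s) s := by
  unfold e
  have h1 : HasDerivAt (fun s : ℝ => ((2 * Real.pi * s : ℝ) : ℂ) * I) ((2 * Real.pi : ℝ) * I) s := by
    have h2 : HasDerivAt (fun s : ℝ => (2 * Real.pi * s : ℝ)) (2 * Real.pi) s := by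
      simpa using (hasDerivAt_id s).const_mul (2 * Real.pi)
    exact (h2.ofReal_comp).mul_const I
  have h3 := h1.cexp
  convert h3 using 1
  push_cast
  ring

theorem contDiff_e : ContDiff ℝ ∞ e := by
  unfold e
  refine ContDiff.cexp ?_
  refine ContDiff.mul ?_ contDiff_const
  refine (Complex.ofRealCLM.contDiff).comp ?_
  exact contDiff_const.mul contDiff_id

theorem e_inj {s t : ℝ} (h : e s = e t) : ∃ n : ℤ, s = t + n := by
  unfold e at h
  rw [Complex.exp_eq_exp_iff_exists_int] at h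
  obtain ⟨n, hn⟩ := h
  refine ⟨n, ?_⟩
  have hI : ((2 * Real.pi * s : ℝ) : ℂ) = ((2 * Real.pi * t : ℝ) : ℂ) + n * (2 * Real.pi) := by
    have h1 : (((2 * Real.pi * s : ℝ) : ℂ) - (((2 * Real.pi * t : ℝ) : ℂ) + n * (2 * Real.pi))) * I
        = 0 := by linear_combination hn
    rcases mul_eq_zero.mp h1 with h2 | h2
    · linear_combination h2
    · exact absurd h2 Complex.I_ne_zero
  have h3 : 2 * Real.pi * s = 2 * Real.pi * t + n * (2 * Real.pi) := by exact_mod_cast hI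
  have hpi : (2 * Real.pi) ≠ 0 := by positivity
  have h4 : (2 * Real.pi) * s = (2 * Real.pi) * (t + n) := by linarith
  exact mul_left_cancel₀ hpi h4

theorem e_surj (u : ℂ) (hu : ‖u‖ = 1) : ∃ s : ℝ, e s = u := by
  refine ⟨Complex.arg u / (2 * Real.pi), ?_⟩
  unfold e
  have : (2 * Real.pi * (Complex.arg u / (2 * Real.pi)) : ℝ) = Complex.arg u := by
    field_simp
  rw [this]
  have h := Complex.norm_mul_exp_arg_mul_I u
  rw [hu] at h
  simpa using h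

/-- the radius -/
theorem exists_r : ∃ r : ℝ, 0 < r ∧ r ^ 4 + r ^ 6 = 1 := by
  have h : Set.Icc ((0 : ℝ) ^ 4 + 0 ^ 6) ((1 : ℝ) ^ 4 + 1 ^ 6) ⊆
      (fun r : ℝ => r ^ 4 + r ^ 6) '' Set.Icc 0 1 := by
    exact intermediate_value_Icc (f := fun r : ℝ => r ^ 4 + r ^ 6) zero_le_one
      (by fun_prop)
  obtain ⟨r, hr, hr1⟩ := h (show (1 : ℝ) ∈ _ by norm_num)
  simp only at hr1
  refine ⟨r, lt_of_le_of_ne hr.1 ?_, hr1⟩
  intro h0
  rw [← h0] at hr1
  norm_num at hr1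

/-- the cuspidal knot -/
noncomputable def g0 (r s : ℝ) : CN 2 :=
  WithLp.toLp 2 ![(r : ℂ) ^ 2 * e s ^ 2, (r : ℂ) ^ 3 * e s ^ 3]

theorem g0_zero (r s : ℝ) : g0 r s 0 = (r : ℂ) ^ 2 * e s ^ 2 := rfl
theorem g0_one (r s : ℝ) : g0 r s 1 = (r : ℂ) ^ 3 * e s ^ 3 := rfl

theorem norm_sq (p : CN 2) : ‖p‖ ^ 2 = ‖p 0‖ ^ 2 + ‖p 1‖ ^ 2 := by
  rw [EuclideanSpace.norm_sq_eq]
  simp [Fin.sum_univ_two]

theorem g0_mem (r : ℝ) (hr0 : 0 < r) (hr : r ^ 4 + r ^ 6 = 1) (s : ℝ) :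
    g0 r s ∈ link (slice fam0 0) := by
  refine ⟨?_, ?_⟩
  · show (g0 r s 1) ^ 2 - (g0 r s 0) ^ 3 - (((0 : ℝ) / 8 : ℝ) : ℂ) = 0
    rw [g0_zero, g0_one]
    simp
    ring
  · have h1 : ‖g0 r s‖ ^ 2 = 1 := by
      rw [norm_sq, g0_zero, g0_one]
      rw [norm_mul, norm_mul, norm_pow, norm_pow, norm_pow, norm_pow, norm_e,
        Complex.norm_real, Real.norm_of_nonneg hr0.le]
      have : (r ^ 2 * 1 ^ 2) ^ 2 + (r ^ 3 * 1 ^ 3) ^ 2 = r ^ 4 + r ^ 6 := by ring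
      rw [this, hr]
    have h2 : 0 ≤ ‖g0 r s‖ := norm_nonneg _
    nlinarith

theorem mem_g0 (r : ℝ) (hr0 : 0 < r) (hr : r ^ 4 + r ^ 6 = 1) (p : CN 2)
    (hp : p ∈ link (slice fam0 0)) : ∃ s, g0 r s = p := by
  obtain ⟨h1, h2⟩ := hp
  have h3 : (p 1) ^ 2 = (p 0) ^ 3 := by
    have : (p 1) ^ 2 - (p 0) ^ 3 - (((0 : ℝ) / 8 : ℝ) : ℂ) = 0 := h1
    simp at this
    linear_combination this
  have h4 : ‖p 0‖ ^ 2 + ‖p 1‖ ^ 2 = 1 := by
    rw [← norm_sq, h2]; norm_num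
  have h5 : ‖p 1‖ ^ 2 = ‖p 0‖ ^ 3 := by
    have := congrArg norm h3
    rwa [norm_pow, norm_pow] at this
  have h6 : ‖p 0‖ = r ^ 2 := by
    have h7 : ‖p 0‖ ^ 2 + ‖p 0‖ ^ 3 = (r ^ 2) ^ 2 + (r ^ 2) ^ 3 := by
      rw [← h5, h4]
      rw [← hr]; ring
    have h0 : 0 ≤ ‖p 0‖ := norm_nonneg _
    by_contra hne
    rcases lt_or_gt_of_ne hne with hlt | hgt
    · have a1 : ‖p 0‖ ^ 2 < (r ^ 2) ^ 2 := by gcongr
      have a2 : ‖p 0‖ ^ 3 < (r ^ 2) ^ 3 := by gcongr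
      linarith
    · have a1 : (r ^ 2) ^ 2 < ‖p 0‖ ^ 2 := by gcongr
      have a2 : (r ^ 2) ^ 3 < ‖p 0‖ ^ 3 := by gcongr
      linarith
  have hx0 : p 0 ≠ 0 := by
    intro h
    rw [h, norm_zero] at h6
    have : 0 < r ^ 2 := by positivity
    linarith
  have hrC : (r : ℂ) ≠ 0 := by exact_mod_cast hr0.ne'
  have h8 : ‖p 1‖ = r ^ 3 := by
    have h9 : ‖p 1‖ ^ 2 = (r ^ 3) ^ 2 := by rw [h5, h6]; ring
    exact (sq_eq_sq₀ (norm_nonneg _) (by positivity)).mp h9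
  obtain ⟨s, hs⟩ := e_surj (p 1 / (p 0 * r)) (by
    rw [norm_div, norm_mul, Complex.norm_real, Real.norm_of_nonneg hr0.le, h6, h8]
    field_simp)
  refine ⟨s, ?_⟩
  have hx : (r : ℂ) ^ 2 * e s ^ 2 = p 0 := by
    rw [hs]
    field_simp
    linear_combination h3
  have hy : (r : ℂ) ^ 3 * e s ^ 3 = p 1 := by
    have : (r : ℂ) ^ 3 * e s ^ 3 = ((r : ℂ) ^ 2 * e s ^ 2) * (r * e s) := by ring
    rw [this, hx, hs]
    field_simp
  ext i
  fin_cases i
  · exact hx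
  · exact hy

theorem contDiff_g0 (r : ℝ) : ContDiff ℝ ∞ (g0 r) := by
  have h : ∀ i : Fin 2, ContDiff ℝ ∞ (fun s => g0 r s i) := by
    intro i
    fin_cases i
    · exact contDiff_const.mul (contDiff_e.pow 2)
    · exact contDiff_const.mul (contDiff_e.pow 3)
  exact (contDiff_piLp (p := 2)).mpr h

theorem g0_inj (r : ℝ) (hr0 : 0 < r) {s t : ℝ} (h : g0 r s = g0 r t) : e s = e t := by
  have hrC : (r : ℂ) ≠ 0 := by exact_mod_cast hr0.ne'
  have h0 : (r : ℂ) ^ 2 * e s ^ 2 = (r : ℂ) ^ 2 * e t ^ 2 := by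
    rw [← g0_zero, ← g0_zero, h]
  have h1 : (r : ℂ) ^ 3 * e s ^ 3 = (r : ℂ) ^ 3 * e t ^ 3 := by
    rw [← g0_one, ← g0_one, h]
  have h2 : e s ^ 2 = e t ^ 2 := mul_left_cancel₀ (pow_ne_zero 2 hrC) h0
  have h3 : e s ^ 3 = e t ^ 3 := mul_left_cancel₀ (pow_ne_zero 3 hrC) h1
  have h4 : e t ^ 2 * e s = e t ^ 2 * e t := by
    calc e t ^ 2 * e s = e s ^ 2 * e s := by rw [h2]
      _ = e s ^ 3 := by ring
      _ = e t ^ 3 := h3
      _ = e t ^ 2 * e t := by ring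
  exact mul_left_cancel₀ (pow_ne_zero 2 (e_ne t)) h4

theorem deriv_g0 (r : ℝ) (hr0 : 0 < r) (s : ℝ) : deriv (g0 r) s ≠ 0 := by
  intro h
  have hd : HasDerivAt (g0 r) (deriv (g0 r) s) s :=
    ((contDiff_g0 r).differentiable (by simp)).differentiableAt.hasDerivAt
  rw [h] at hd
  have h1 : HasDerivAt (fun s => g0 r s 0) ((0 : CN 2) 0) s := by
    have := (PiLp.proj (𝕜 := ℝ) 2 (fun _ : Fin 2 => ℂ) 0).hasFDerivAt.comp_hasDerivAt s hd
    exact this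
  have h2 : HasDerivAt (fun s => g0 r s 0) ((r : ℂ) ^ 2 * (2 * e s ^ 1 * ((2 * Real.pi * I) * e s)))
      s := by
    exact ((hasDerivAt_e s).pow 2).const_mul ((r : ℂ) ^ 2)
  have h3 := h1.unique h2
  have hrC : (r : ℂ) ≠ 0 := by exact_mod_cast hr0.ne'
  have hpi : (Real.pi : ℂ) ≠ 0 := by exact_mod_cast Real.pi_ne_zero
  have : (r : ℂ) ^ 2 * (2 * e s ^ 1 * ((2 * Real.pi * I) * e s)) ≠ 0 := by
    simp [hrC, hpi, e_ne, Complex.I_ne_zero]
  exact this (by rw [← h3]; rfl)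

end KnotL

open KnotL

theorem tKnot (hG : TGray) (h0 : TFam0) : TKnot := by
  intro C hC
  obtain ⟨g, g', hg, hg', hm, hm', h1, h2, -⟩ := hG 2 1 fam0 h0
  obtain ⟨r, hr0, hr⟩ := exists_r
  have hbd : C.bd = link (slice fam0 1) := by
    ext p
    have e1 : (((1 : ℝ) / 8 : ℝ) : ℂ) = 1 / 8 := by push_cast; ring
    constructor
    · rintro ⟨a, b⟩
      rw [hC] at b
      refine ⟨?_, by simpa using a⟩
      show (p 1) ^ 2 - (p 0) ^ 3 - (((1 : ℝ) / 8 : ℝ) : ℂ) = 0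
      rw [e1]
      exact b
    · rintro ⟨a, b⟩
      refine ⟨by simpa using b, ?_⟩
      rw [hC]
      have a' : (p 1) ^ 2 - (p 0) ^ 3 - (((1 : ℝ) / 8 : ℝ) : ℂ) = 0 := a
      rw [e1] at a'
      exact a'
  have hmem : ∀ s, g0 r s ∈ link (slice fam0 0) := g0_mem r hr0 hr
  refine ⟨fun s => g (g0 r s), hg.comp (contDiff_g0 r), ?_, ?_, ?_, ?_⟩
  · intro s
    have : g0 r (s + 1) = g0 r s := by
      unfold g0
      rw [e_add_one]
    simp only [this]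
  · intro s h
    have hd0 : HasDerivAt (g0 r) (deriv (g0 r) s) s :=
      ((contDiff_g0 r).differentiable (by simp)).differentiableAt.hasDerivAt
    have hd1 : HasDerivAt (fun s => g (g0 r s)) 0 s := by
      have h3 : DifferentiableAt ℝ (fun s => g (g0 r s)) s :=
        ((hg.comp (contDiff_g0 r)).differentiable (by simp)).differentiableAt
      rw [← h]
      exact h3.hasDerivAt
    have hd2 : HasDerivAt (fun s => g' (g (g0 r s))) (fderiv ℝ g' (g (g0 r s)) 0) s := by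
      have h4 : HasFDerivAt g' (fderiv ℝ g' (g (g0 r s))) (g (g0 r s)) :=
        ((hg'.differentiable (by simp)) _).hasFDerivAt
      exact h4.comp_hasDerivAt s hd1
    have h5 : (fun s => g' (g (g0 r s))) = g0 r := by
      funext s
      exact h1 _ (hmem s)
    rw [h5, map_zero] at hd2
    exact deriv_g0 r hr0 s hd2.deriv
  · intro s hs t ht hst
    have h3 : g0 r s = g0 r t := by
      rw [← h1 _ (hmem s), ← h1 _ (hmem t)]
      exact congrArg g' hst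
    obtain ⟨n, hn⟩ := e_inj (g0_inj r hr0 h3)
    have hs1 := hs.1
    have hs2 := hs.2
    have ht1 := ht.1
    have ht2 := ht.2
    have hn0 : n = 0 := by
      have a1 : (n : ℝ) < 1 := by linarith
      have a2 : (-1 : ℝ) < n := by linarith
      have b1 : n < 1 := by exact_mod_cast a1
      have b2 : -1 < n := by exact_mod_cast a2
      omega
    rw [hn, hn0]
    simp
  · rw [hbd]
    ext q
    constructor
    · rintro ⟨s, rfl⟩
      exact hm (hmem s)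
    · intro hq
      obtain ⟨s, hs⟩ := mem_g0 r hr0 hr (g' q) (hm' hq)
      refine ⟨s, ?_⟩
      simp only [hs]
      exact h2 q hq

end Pool.Agent.SteinFill
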