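import Pool.Agent.SteinFill.Spec

/-!
# Transitivity of link isomorphism and reparametrisation of families
-/

namespace Pool.Agent.SteinFill

open scoped ContDiff

/-- The derivative of a map `M → M'` maps velocities of curves to velocities of curves. -/
theorem tan_map {E E' : Type} [NormedAddCommGroup E] [NormedSpace ℝ E]
    [NormedAddCommGroup E'] [NormedSpace ℝ E'] {M : Set E} {M' : Set E'} {g : E → E'} {p v : E}
    (hg : DifferentiableAt ℝ g p) (hm : Set.MapsTo g M M') (hv : v ∈ Tan M p) :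
    fderiv ℝ g p v ∈ Tan M' (g p) := by
  obtain ⟨γ, h0, hM, hd⟩ := hv
  refine ⟨fun s => g (γ s), by simp only [h0], ?_, ?_⟩
  · filter_upwards [hM] with s hs using hm hs
  · have hg' : HasFDerivAt g (fderiv ℝ g p) (γ 0) := by rw [h0]; exact hg.hasFDerivAt
    exact hg'.comp_hasDerivAt 0 hd

theorem tLinkTrans : TLinkTrans := by
  rintro N₁ N₂ N₃ M₁ M₂ M₃ ⟨g, g', hg, hg', hm, hm', hl, hr, hc⟩
    ⟨f, f', hf, hf', fm, fm', fl, fr, fc⟩
  refine ⟨f ∘ g, g' ∘ f', hf.comp hg, hg'.comp hf', fm.comp hm, hm'.comp fm', ?_, ?_, ?_⟩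
  · intro p hp
    simp only [Function.comp_apply]
    rw [fl _ (hm hp), hl p hp]
  · intro q hq
    simp only [Function.comp_apply]
    rw [hr _ (fm' hq), fr q hq]
  · intro p hp v hv
    have hgd : DifferentiableAt ℝ g p := (hg.differentiable (by simp)) p
    have hfd : DifferentiableAt ℝ f (g p) := (hf.differentiable (by simp)) (g p)
    have h1 : fderiv ℝ (f ∘ g) p v = fderiv ℝ f (g p) (fderiv ℝ g p v) := by
      rw [fderiv_comp p hfd hgd]; rfl
    have h2 := hc p hp v hv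
    have h3 := fc (g p) (hm hp) (fderiv ℝ g p v) (tan_map hgd hm hv)
    rw [h1]
    exact ⟨h2.1.trans h3.1, h2.2.trans h3.2⟩

theorem tReparam : TReparam := by
  intro N k X hX
  have hs01 : ∀ t : ℝ, Real.smoothTransition t ∈ Set.Icc (0 : ℝ) 1 := fun t =>
    ⟨Real.smoothTransition.nonneg t, Real.smoothTransition.le_one t⟩
  set h : CN N × ℝ → CN N × ℝ := fun r => (r.1, Real.smoothTransition r.2) with hh
  have hcd : ContDiff ℝ ∞ h := by
    refine contDiff_fst.prodMk ?_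
    exact Real.smoothTransition.contDiff.comp contDiff_snd
  refine ⟨h ⁻¹' X, ⟨?_, ?_⟩, ?_, ?_⟩
  · set K := {r : CN N × ℝ | r ∈ X ∧ ‖r.1‖ = 1 ∧ r.2 ∈ Set.Icc (0 : ℝ) 1} with hK
    have hKc : IsCompact K := hX.compact
    have h1 : IsCompact ((Prod.fst '' K) ×ˢ Set.Icc (-1 : ℝ) 2) :=
      (hKc.image continuous_fst).prod isCompact_Icc
    refine h1.of_isClosed_subset ?_ ?_
    · have h2 : IsClosed (h ⁻¹' K ∩ Prod.snd ⁻¹' (Set.Icc (-1 : ℝ) 2)) :=
        (hKc.isClosed.preimage hcd.continuous).inter (isClosed_Icc.preimage continuous_snd)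
      have h3 : {r : CN N × ℝ | r ∈ h ⁻¹' X ∧ ‖r.1‖ = 1 ∧ r.2 ∈ Set.Icc (-1 : ℝ) 2} =
          h ⁻¹' K ∩ Prod.snd ⁻¹' (Set.Icc (-1 : ℝ) 2) := by
        ext r
        constructor
        · rintro ⟨ha, hb, hc⟩
          exact ⟨⟨ha, hb, hs01 r.2⟩, hc⟩
        · rintro ⟨⟨ha, hb, _⟩, hc⟩
          exact ⟨ha, hb, hc⟩
      rw [h3]; exact h2
    · rintro r ⟨ha, hb, hc⟩
      exact ⟨⟨h r, ⟨ha, hb, hs01 r.2⟩, rfl⟩, hc⟩
  · intro r hr hr1 _
    obtain ⟨O, F, hO, hrO, hF, hd, hz, hsurj⟩ := hX.loc (h r) hr hr1 (hs01 r.2)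
    refine ⟨h ⁻¹' O, F ∘ h, hO.preimage hcd.continuous, hrO, ?_, ?_, ?_, ?_⟩
    · exact hF.comp hcd.contDiffOn (fun x hx => hx)
    · intro x hx
      exact hd (h x) hx
    · intro x hx _
      exact hz (h x) hx (hs01 x.2)
    · exact hsurj
  · ext p
    simp [slice, hh]
  · ext p
    simp [slice, hh]

end Pool.Agent.SteinFill
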