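import Pool.Agent.SteinFill.TanL

/-!
# Local presentations and tangent spaces
-/

namespace Pool.Agent.SteinFill

open Filter Topology
open scoped ContDiff

/-- the derivative of `‖p‖² - 1` -/
noncomputable def dsph {N : ℕ} (p : CN N) : CN N →L[ℝ] ℝ :=
  (2 : ℝ) • (Complex.reCLM ∘L (innerSL ℂ p).restrictScalars ℝ)

lemma dsph_apply {N : ℕ} (p v : CN N) : dsph p v = 2 * (inner ℂ p v : ℂ).re := by
  simp [dsph]

lemma strict_sph {N : ℕ} (p : CN N) :
    HasStrictFDerivAt (fun q : CN N => ‖q‖ ^ 2 - 1) (dsph p) p := by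
  have h := (hasStrictFDerivAt_norm_sq (F := CN N) p).sub_const 1
  have e : dsph p = 2 • innerSL ℝ p := by
    ext v
    rw [dsph_apply]
    have h1 : (inner ℂ p v : ℂ).re = inner ℝ p v := by
      rw [PiLp.inner_apply, PiLp.inner_apply, Complex.re_sum]
      refine Finset.sum_congr rfl fun i _ => ?_
      rw [Complex.inner]
      simp
    rw [h1]
    simp
  rw [e]
  exact h


/-- surjectivity is an open condition -/
lemma surj_open {T E G : Type} [TopologicalSpace T] [NormedAddCommGroup E] [NormedSpace ℝ E]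
    [NormedAddCommGroup G] [NormedSpace ℝ G]
    [FiniteDimensional ℝ G] (B : T → E →L[ℝ] G) (x : T) (hB : ContinuousAt B x)
    (hs : Function.Surjective (B x)) : ∀ᶠ y in 𝓝 x, Function.Surjective (B y) := by
  have hc : CompleteSpace G := FiniteDimensional.complete ℝ G
  obtain ⟨R, hR⟩ := (B x : E →ₗ[ℝ] G).exists_rightInverse_of_surjective
    (LinearMap.range_eq_top.2 hs)
  let R' : G →L[ℝ] E := LinearMap.toContinuousLinearMap R
  have hR' : (B x) ∘L R' = ContinuousLinearMap.id ℝ G := by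
    ext v
    exact LinearMap.congr_fun hR v
  have hcont : ContinuousAt (fun y => (B y) ∘L R') x := by
    exact hB.clm_comp continuousAt_const
  have hu : IsOpen {f : G →L[ℝ] G | IsUnit f} := Units.isOpen
  have hx : IsUnit ((B x) ∘L R') := by
    rw [hR']; exact isUnit_one
  filter_upwards [hcont.eventually (hu.mem_nhds hx)] with y hy
  have hy' : IsUnit ((B y) ∘L R') := hy
  obtain ⟨u, hu'⟩ := hy'
  intro c
  refine ⟨R' ((u⁻¹ : (G →L[ℝ] G)ˣ).1 c), ?_⟩
  have h2 : (u.1 * (u⁻¹ : (G →L[ℝ] G)ˣ).1) c = c := by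
    rw [Units.mul_inv]; rfl
  rw [hu'] at h2
  exact h2


theorem tLocal (hT : TTan) : TLocal := by
  intro N k X r₀ hr₀ hn hL
  obtain ⟨O, F, hO, hrO, hF, hd, hX, hsurj⟩ := hL
  have hFat : ∀ r ∈ O, ContDiffAt ℝ ∞ F r := fun r hr => (hF r hr).contDiffAt (hO.mem_nhds hr)
  have hstr : ∀ r ∈ O, HasStrictFDerivAt F (fderiv ℝ F r) r :=
    fun r hr => (hFat r hr).hasStrictFDerivAt (by simp)
  have hpair : ∀ r : CN N × ℝ, HasStrictFDerivAt (fun p : CN N => (p, r.2))
      (ContinuousLinearMap.inl ℝ (CN N) ℝ) r.1 := fun r =>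
    (hasStrictFDerivAt_id r.1).prodMk (hasStrictFDerivAt_const r.2 r.1)
  have hslice : ∀ r ∈ O, HasStrictFDerivAt (fun p => F (p, r.2))
      ((fderiv ℝ F r) ∘L (ContinuousLinearMap.inl ℝ (CN N) ℝ)) r.1 := by
    intro r hr
    exact (hstr r hr).comp r.1 (hpair r)
  have hD : ∀ r ∈ O, ∀ v, fderiv ℂ (fun p => F (p, r.2)) r.1 v = fderiv ℝ F r (v, 0) := by
    intro r hr v
    have h1 := (hd r hr).hasFDerivAt.restrictScalars ℝ
    have h2 := h1.unique (hslice r hr).hasFDerivAt
    have h3 := congrArg (fun L : CN N →L[ℝ] CN k => L v) h2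
    exact h3
  set B : CN N × ℝ → (CN N →L[ℝ] (CN k × ℂ)) := fun r =>
    ((fderiv ℝ F r) ∘L (ContinuousLinearMap.inl ℝ (CN N) ℝ)).prod
      ((innerSL ℂ r.1).restrictScalars ℝ) with hB
  have hBapp : ∀ r v, B r v = (fderiv ℝ F r (v, 0), inner ℂ r.1 v) := fun r v => rfl
  have hBc : ContinuousAt B r₀ := by
    have h1 : ContinuousAt (fderiv ℝ F) r₀ :=
      ((hFat r₀ hrO).fderiv_right (m := 0) (by simp)).continuousAt
    have h2 : ContinuousAt (fun r => (fderiv ℝ F r) ∘L (ContinuousLinearMap.inl ℝ (CN N) ℝ)) r₀ :=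
      h1.clm_comp continuousAt_const
    have h3 : Continuous (fun r : CN N × ℝ => (innerSL ℂ r.1).restrictScalars ℝ) := by
      fun_prop
    have h4 : ∀ r, B r = ContinuousLinearMap.prodₗᵢ ℝ ((fderiv ℝ F r) ∘L
      (ContinuousLinearMap.inl ℝ (CN N) ℝ), (innerSL ℂ r.1).restrictScalars ℝ) := fun r => rfl
    have h5 : B = fun r => ContinuousLinearMap.prodₗᵢ ℝ ((fderiv ℝ F r) ∘L
      (ContinuousLinearMap.inl ℝ (CN N) ℝ), (innerSL ℂ r.1).restrictScalars ℝ) := funext h4
    rw [h5]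
    exact (LinearIsometryEquiv.continuous _).continuousAt.comp (h2.prodMk h3.continuousAt)
  have hBs : Function.Surjective (B r₀) := by
    rintro ⟨c, a⟩
    obtain ⟨v, hv1, hv2⟩ := hsurj c a
    refine ⟨v, ?_⟩
    rw [hBapp, ← hD r₀ hrO, hv1, hv2]
  have hev := surj_open B r₀ hBc hBs
  obtain ⟨O', hO'sub, hO'open, hrO'⟩ := mem_nhds_iff.1 hev
  have hBs' : ∀ r ∈ O ∩ O', Function.Surjective (B r) := fun r hr => hO'sub hr.2
  refine ⟨O ∩ O', F, hO.inter hO'open, ⟨hrO, hrO'⟩, hF.mono Set.inter_subset_left,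
    fun r hr => hd r hr.1, fun r hr => hX r hr.1 (Set.mem_univ _), ?_, ?_⟩
  · intro r hr c a
    obtain ⟨v, hv⟩ := hBs' r hr (c, a)
    rw [hBapp] at hv
    exact ⟨v, by rw [hD r hr.1]; exact congrArg Prod.fst hv, congrArg Prod.snd hv⟩
  · intro r hr hrX
    have hFr : F r = 0 := (hX r hr.1 (Set.mem_univ _)).1 hrX
    have hOn : ∀ᶠ q in 𝓝 r, q ∈ O := hO.mem_nhds hr.1
    have hXn : ∀ᶠ q in 𝓝 r, q ∈ X ↔ F q = 0 := by
      filter_upwards [hOn] with q hq
      exact hX q hq (Set.mem_univ _)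
    have hcp : Tendsto (fun p : CN N => (p, r.2)) (𝓝 r.1) (𝓝 r) := (hpair r).continuousAt
    have hXs : ∀ᶠ q in 𝓝 r.1, q ∈ slice X r.2 ↔ F (q, r.2) = 0 := hcp.eventually hXn
    have hs := hstr r hr.1
    have hsl := hslice r hr.1
    refine ⟨?_, ?_, fun hr1 => ⟨?_, ?_⟩⟩
    · refine hT _ _ F (fderiv ℝ F r) X r hs ?_ hFr hXn
      intro c
      obtain ⟨v, hv⟩ := hBs' r hr (c, 0)
      exact ⟨(v, 0), congrArg Prod.fst hv⟩
    · have := hT _ _ (fun p => F (p, r.2)) _ (slice X r.2) r.1 hsl ?_ hFr hXs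
      · rw [this]
        ext v
        simp only [Set.mem_ofPred_eq]
        rw [hD r hr.1]
        rfl
      · intro c
        obtain ⟨v, hv⟩ := hBs' r hr (c, 0)
        exact ⟨v, congrArg Prod.fst hv⟩
    · have h1 : HasStrictFDerivAt (fun q : CN N × ℝ => (F q, ‖q.1‖ ^ 2 - 1))
          ((fderiv ℝ F r).prod (dsph r.1 ∘L ContinuousLinearMap.fst ℝ (CN N) ℝ)) r :=
        hs.prodMk ((strict_sph r.1).comp r hasStrictFDerivAt_fst)
      have := hT _ _ _ _ {r' | r' ∈ X ∧ ‖r'.1‖ = 1} r h1 ?_ ?_ ?_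
      · rw [this]
        ext w
        simp only [Set.mem_ofPred_eq, ContinuousLinearMap.prod_apply, Prod.mk_eq_zero,
          ContinuousLinearMap.comp_apply, ContinuousLinearMap.coe_fst', dsph_apply]
        constructor
        · rintro ⟨h2, h3⟩
          exact ⟨h2, by linarith⟩
        · rintro ⟨h2, h3⟩
          exact ⟨h2, by rw [h3, mul_zero]⟩
      · rintro ⟨c, a⟩
        obtain ⟨v, hv⟩ := hBs' r hr (c, ((a / 2 : ℝ) : ℂ))
        rw [hBapp] at hv
        refine ⟨(v, 0), ?_⟩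
        have h2 := congrArg Prod.fst hv
        have h3 := congrArg Prod.snd hv
        simp only at h2 h3
        simp only [ContinuousLinearMap.prod_apply, ContinuousLinearMap.comp_apply,
          ContinuousLinearMap.coe_fst', dsph_apply]
        rw [h2, h3, Complex.ofReal_re]
        congr 1
        ring
      · simp [hFr, hr1]
      · filter_upwards [hXn] with q hq
        simp only [Prod.mk_eq_zero, ← hq]
        refine and_congr_right fun _ => ?_
        rw [sub_eq_zero, pow_eq_one_iff_of_nonneg (norm_nonneg _) two_ne_zero]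
    · have h1 : HasStrictFDerivAt (fun q : CN N => (F (q, r.2), ‖q‖ ^ 2 - 1))
          (((fderiv ℝ F r) ∘L (ContinuousLinearMap.inl ℝ (CN N) ℝ)).prod (dsph r.1)) r.1 :=
        hsl.prodMk (strict_sph r.1)
      have := hT _ _ _ _ (link (slice X r.2)) r.1 h1 ?_ ?_ ?_
      · rw [this]
        ext w
        simp only [Set.mem_ofPred_eq, ContinuousLinearMap.prod_apply, Prod.mk_eq_zero,
          ContinuousLinearMap.comp_apply, ContinuousLinearMap.inl_apply, dsph_apply, hD r hr.1]
        constructor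
        · rintro ⟨h2, h3⟩
          exact ⟨h2, by linarith⟩
        · rintro ⟨h2, h3⟩
          exact ⟨h2, by rw [h3, mul_zero]⟩
      · rintro ⟨c, a⟩
        obtain ⟨v, hv⟩ := hBs' r hr (c, ((a / 2 : ℝ) : ℂ))
        rw [hBapp] at hv
        refine ⟨v, ?_⟩
        have h2 := congrArg Prod.fst hv
        have h3 := congrArg Prod.snd hv
        simp only at h2 h3
        simp only [ContinuousLinearMap.prod_apply, ContinuousLinearMap.comp_apply,
          ContinuousLinearMap.inl_apply, dsph_apply]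
        rw [h2, h3, Complex.ofReal_re]
        congr 1
        ring
      · simp [hFr, hr1]
      · filter_upwards [hXs] with q hq
        simp only [link, Set.mem_ofPred_eq, Prod.mk_eq_zero, hq]
        refine and_congr_right fun _ => ?_
        rw [sub_eq_zero, pow_eq_one_iff_of_nonneg (norm_nonneg _) two_ne_zero]

end Pool.Agent.SteinFill
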