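import Pool.Agent.SteinFill.Spec

/-!
# Stein fillings of branched covers: two loops on `y² = x³ + 1`
-/

namespace Pool.Agent.SteinFill

open Complex (I)
open Filter Topology

noncomputable section

namespace Loops_

/-- `√3 / 2`. -/
def h3 : ℝ := Real.sqrt 3 / 2

theorem h3_pos : 0 < h3 := by unfold h3; positivity

theorem h3_sq : h3 ^ 2 = 3 / 4 := by
  unfold h3
  rw [div_pow, Real.sq_sqrt (by norm_num)]
  norm_num

/-- The first coordinate `-1 + (w₁ + 1) sin² (π t)`. -/
def xa (t : ℝ) : ℂ := ⟨-1 + 3 / 2 * Real.sin (Real.pi * t) ^ 2, h3 * Real.sin (Real.pi * t) ^ 2⟩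

/-- `w₂ - x_a`. -/
def ra (t : ℝ) : ℂ :=
  ⟨3 / 2 * (1 - Real.sin (Real.pi * t) ^ 2), -(h3 * (1 + Real.sin (Real.pi * t) ^ 2))⟩

/-- The root of `ra`. -/
def Ra (t : ℝ) : ℂ := (ra t) ^ ((2 : ℂ)⁻¹)

/-- `w₁ + 1`. -/
def W : ℂ := ⟨3 / 2, h3⟩

/-- The second coordinate. -/
def ya (t : ℝ) : ℂ := W / 2 * (Real.sin (2 * (Real.pi * t)) : ℂ) * Ra t

theorem Ra_sq (t : ℝ) : Ra t ^ 2 = ra t := by
  unfold Ra
  rw [← Complex.cpow_nat_mul]
  norm_num

theorem ra_slit (t : ℝ) : ra t ∈ Complex.slitPlane := by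
  rw [Complex.mem_slitPlane_iff]
  right
  have h1 := h3_pos
  have : 0 < h3 * (1 + Real.sin (Real.pi * t) ^ 2) := by positivity
  simp only [ra]
  exact ne_of_lt (by linarith)

theorem ra_cont : Continuous ra := by
  unfold ra
  simp_rw [Complex.mk_eq_add_mul_I]
  fun_prop

theorem xa_cont : Continuous xa := by
  unfold xa
  simp_rw [Complex.mk_eq_add_mul_I]
  fun_prop

theorem Ra_cont : Continuous Ra := by
  rw [continuous_iff_continuousAt]
  intro t
  exact (continuousAt_cpow_const (ra_slit t)).comp ra_cont.continuousAt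

theorem ya_cont : Continuous ya := by
  unfold ya
  exact (continuous_const.mul (by fun_prop)).mul Ra_cont

theorem sin_sq_period (t : ℝ) :
    Real.sin (Real.pi * (t + 1)) ^ 2 = Real.sin (Real.pi * t) ^ 2 := by
  rw [mul_add, mul_one, Real.sin_add_pi, neg_sq]

theorem xa_period (t : ℝ) : xa (t + 1) = xa t := by
  unfold xa; rw [sin_sq_period]

theorem ra_period (t : ℝ) : ra (t + 1) = ra t := by
  unfold ra; rw [sin_sq_period]

theorem ya_period (t : ℝ) : ya (t + 1) = ya t := by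
  unfold ya Ra
  rw [ra_period]
  have : Real.sin (2 * (Real.pi * (t + 1))) = Real.sin (2 * (Real.pi * t)) := by
    rw [show 2 * (Real.pi * (t + 1)) = 2 * (Real.pi * t) + 2 * Real.pi by ring,
      Real.sin_add_two_pi]
  rw [this]

theorem ya_sq (t : ℝ) : ya t ^ 2 = xa t ^ 3 + 1 := by
  unfold ya
  rw [mul_pow, Ra_sq, Real.sin_two_mul]
  have hc : Real.cos (Real.pi * t) ^ 2 = 1 - Real.sin (Real.pi * t) ^ 2 := Real.cos_sq' _
  unfold xa ra W
  generalize Real.sin (Real.pi * t) = s at *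
  generalize Real.cos (Real.pi * t) = c at *
  have e : ((⟨3 / 2, h3⟩ : ℂ) / 2 * ((2 * s * c : ℝ) : ℂ)) ^ 2 =
      (⟨3 / 2, h3⟩ : ℂ) ^ 2 * ((s ^ 2 * (1 - s ^ 2) : ℝ) : ℂ) := by
    rw [← hc]; push_cast; ring
  rw [e]
  have h := h3_sq
  have hh : ((h3 : ℝ) : ℂ) ^ 2 = 3 / 4 := by
    rw [← Complex.ofReal_pow, h]; push_cast; ring
  simp only [Complex.mk_eq_add_mul_I]
  push_cast
  have hI : I ^ 2 = -1 := Complex.I_sq
  generalize (h3 : ℂ) = k at hh ⊢
  generalize (s : ℂ) = z
  have hkI : (k * I) ^ 2 = -(3 / 4) := by rw [mul_pow, hh, hI]; ring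
  generalize hm : k * I = m at hkI
  have e1 : k * z ^ 2 * I = m * z ^ 2 := by rw [← hm]; ring
  have e2 : -(k * (1 + z ^ 2)) * I = -(m * (1 + z ^ 2)) := by rw [← hm]; ring
  rw [e1, e2]
  have hm3 : m ^ 3 = -(3 / 4) * m := by rw [pow_succ, hkI]
  ring_nf
  simp only [hm3, hkI]
  ring

theorem xa_norm (t : ℝ) : ‖xa t‖ ≤ 1 := by
  have h1 : ‖xa t‖ ^ 2 ≤ 1 := by
    rw [← Complex.normSq_eq_norm_sq, Complex.normSq_apply]
    simp only [xa]
    have hs0 : 0 ≤ Real.sin (Real.pi * t) ^ 2 := sq_nonneg _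
    have hs1 : Real.sin (Real.pi * t) ^ 2 ≤ 1 := Real.sin_sq_le_one _
    have h := h3_sq
    generalize Real.sin (Real.pi * t) ^ 2 = u at *
    have : (-1 + 3 / 2 * u) * (-1 + 3 / 2 * u) + h3 * u * (h3 * u) = 1 - 3 * u * (1 - u) := by
      have : h3 * u * (h3 * u) = h3 ^ 2 * u ^ 2 := by ring
      rw [this, h]; ring
    rw [this]
    have := mul_nonneg hs0 (sub_nonneg.2 hs1)
    linarith
  nlinarith [norm_nonneg (xa t)]

theorem sin_int {t : ℝ} (h : Real.sin (Real.pi * t) ^ 2 = 0) : ∃ m : ℤ, t = m := by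
  have h1 : Real.sin (Real.pi * t) = 0 := by simpa using h
  rw [Real.sin_eq_zero_iff] at h1
  obtain ⟨n, hn⟩ := h1
  refine ⟨n, ?_⟩
  have := Real.pi_pos
  have h2 : Real.pi * t = Real.pi * n := by linarith
  exact mul_left_cancel₀ this.ne' h2

theorem ya_deriv : HasDerivAt ya (Real.pi * W * Ra 0) 0 := by
  have hcoe : HasDerivAt (fun t : ℝ => ((Real.sin (2 * (Real.pi * t)) : ℝ) : ℂ))
      ((2 * Real.pi : ℝ) : ℂ) 0 := by
    have h1 : HasDerivAt (fun t : ℝ => 2 * (Real.pi * t)) (2 * Real.pi) 0 := by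
      have := ((hasDerivAt_id (0 : ℝ)).const_mul Real.pi).const_mul 2
      simpa using this
    have h2 : HasDerivAt (fun t : ℝ => Real.sin (2 * (Real.pi * t))) (2 * Real.pi) 0 := by
      have := h1.sin
      simpa using this
    exact h2.ofReal_comp
  rw [hasDerivAt_iff_tendsto_slope_zero] at hcoe ⊢
  have hR : Tendsto (fun t : ℝ => Ra (0 + t)) (𝓝[≠] 0) (𝓝 (Ra 0)) := by
    have h1 : Continuous (fun t : ℝ => Ra (0 + t)) := Ra_cont.comp (by fun_prop)
    have h2 := h1.tendsto 0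
    simp only [add_zero] at h2
    exact h2.mono_left nhdsWithin_le_nhds
  have h3 := (hcoe.const_mul (W / 2)).mul hR
  have e : W / 2 * ((2 * Real.pi : ℝ) : ℂ) * Ra 0 = Real.pi * W * Ra 0 := by
    push_cast; ring
  rw [e] at h3
  refine h3.congr ?_
  intro t
  simp only [ya, mul_zero, Real.sin_zero, Complex.ofReal_zero, sub_zero, zero_mul,
    Complex.real_smul]
  ring

end Loops_

open Loops_ in
/-- `TLoops`. -/
theorem tLoops : TLoops := by
  refine ⟨fun t => (xa t, ya t), fun t => (starRingEnd ℂ (xa t), starRingEnd ℂ (ya t)),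
    Real.pi * W * Ra 0, starRingEnd ℂ (Real.pi * W * Ra 0), ?_, ?_, ?_, ?_, ?_, ?_, ?_, ?_, ?_,
    ?_, ?_, ?_⟩
  · exact xa_cont.prodMk ya_cont
  · exact (Complex.continuous_conj.comp xa_cont).prodMk (Complex.continuous_conj.comp ya_cont)
  · intro x; simp only [xa_period, ya_period]
  · intro x; simp only [xa_period, ya_period]
  · intro x; exact ⟨ya_sq x, xa_norm x⟩
  · intro x
    refine ⟨?_, ?_⟩
    · have := congrArg (starRingEnd ℂ) (ya_sq x)
      simpa using this
    · simpa using xa_norm x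
  · intro x y hxy
    have h1 : xa x = starRingEnd ℂ (xa y) := congrArg Prod.fst hxy
    have hre := congrArg Complex.re h1
    have him := congrArg Complex.im h1
    simp only [xa, Complex.conj_re, Complex.conj_im] at hre him
    have hp := h3_pos
    have e1 : Real.sin (Real.pi * x) ^ 2 = Real.sin (Real.pi * y) ^ 2 := by linarith
    have e2 : Real.sin (Real.pi * x) ^ 2 = -Real.sin (Real.pi * y) ^ 2 := by
      apply mul_left_cancel₀ hp.ne'
      linarith
    exact ⟨sin_int (by linarith), sin_int (by linarith)⟩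
  · apply Prod.ext
    · apply Complex.ext <;> simp [xa]
    · simp [ya]
  · apply Prod.ext
    · apply Complex.ext <;> simp [xa]
    · simp [ya]
  · exact ya_deriv
  · exact ya_deriv.star
  · have h0 : Ra 0 ^ 2 = ra 0 := Ra_sq 0
    have e : (starRingEnd ℂ (Real.pi * W * Ra 0) * starRingEnd ℂ (Real.pi * W * Ra 0)) =
        starRingEnd ℂ ((Real.pi * W) ^ 2 * Ra 0 ^ 2) := by
      rw [← map_mul]; congr 1; ring
    rw [e, h0, Complex.conj_im]
    have e2 : ((Real.pi : ℂ) * W) ^ 2 * ra 0 = ((3 * Real.pi ^ 2 : ℝ) : ℂ) * W := by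
      have : W * ra 0 = 3 := by
        apply Complex.ext
        · simp only [W, ra, Complex.mul_re, mul_zero, Real.sin_zero]
          have := h3_sq
          simp
          nlinarith
        · simp only [W, ra, Complex.mul_im, mul_zero, Real.sin_zero]
          simp
          ring
      calc ((Real.pi : ℂ) * W) ^ 2 * ra 0 = (Real.pi : ℂ) ^ 2 * W * (W * ra 0) := by ring
        _ = _ := by rw [this]; push_cast; ring
    rw [e2, Complex.im_ofReal_mul]
    have hp := h3_pos
    have hpi := Real.pi_pos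
    have hW : W.im = h3 := rfl
    rw [hW]
    have : 0 < 3 * Real.pi ^ 2 * h3 := by positivity
    exact neg_ne_zero.2 this.ne'

end

end Pool.Agent.SteinFill
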