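import Pool.Agent.SteinFill.Spec

/-!
# Stein fillings of branched covers: invariance of a compact set under a tangent field
-/

namespace Pool.Agent.SteinFill

open scoped Topology
open Set Filter

noncomputable section

/-- Forward invariance. -/
theorem nagumo_forward (E : Type) [NormedAddCommGroup E] [NormedSpace ℝ E]
    (Z : E → E) (K : NNReal) (M : Set E) (hZ : LipschitzWith K Z) (hM : IsCompact M)
    (hT : ∀ m ∈ M, Z m ∈ Tan M m) (γ : ℝ → E) (hγ : ∀ t, HasDerivAt γ (Z (γ t)) t)
    (h0 : γ 0 ∈ M) (t : ℝ) (ht : 0 ≤ t) : γ t ∈ M := by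
  have hne : M.Nonempty := ⟨_, h0⟩
  have hcont : Continuous γ := continuous_iff_continuousAt.2 fun t => (hγ t).continuousAt
  have key : ∀ x ∈ Icc (0 : ℝ) t, Metric.infDist (γ x) M ≤ gronwallBound 0 K 0 (x - 0) := by
    refine le_gronwallBound_of_liminf_deriv_right_le
      (f' := fun x => (K : ℝ) * Metric.infDist (γ x) M) ?_ ?_ ?_ ?_
    · exact ((Metric.continuous_infDist_pt M).comp hcont).continuousOn
    · intro x _ r hr
      obtain ⟨m, hm, hmd⟩ := hM.exists_infDist_eq_dist hne (γ x)
      obtain ⟨c, hc0, hcM, hcd⟩ := hT m hm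
      have hsub : HasDerivAt (fun z => c (z - x)) (Z m) x := by
        have h1 : HasDerivAt (fun z : ℝ => z - x) 1 x := (hasDerivAt_id x).sub_const x
        have h2 : HasDerivAt c (Z m) (x - x) := by rw [sub_self]; exact hcd
        have h3 := HasDerivAt.scomp (h := fun z : ℝ => z - x) x h2 h1
        simpa [Function.comp_def] using h3
      have hh : HasDerivAt (fun z => γ z - c (z - x)) (Z (γ x) - Z m) x := (hγ x).sub hsub
      have hnorm : ‖Z (γ x) - Z m‖ < r := by
        refine lt_of_le_of_lt ?_ hr
        have := hZ.dist_le_mul (γ x) m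
        rw [dist_eq_norm] at this
        rw [hmd]
        exact this
      have hev := (hh.hasDerivWithinAt (s := Ioi x)).limsup_slope_norm_le hnorm
      have hcM' : ∀ᶠ z in 𝓝 x, c (z - x) ∈ M := by
        have h1 : Tendsto (fun z : ℝ => z - x) (𝓝 x) (𝓝 0) := by
          have : Continuous (fun z : ℝ => z - x) := by fun_prop
          have h2 := this.tendsto x
          simpa using h2
        exact h1.eventually hcM
      have hcM'' : ∀ᶠ z in 𝓝[>] x, c (z - x) ∈ M := hcM'.filter_mono nhdsWithin_le_nhds
      have hpos : ∀ᶠ z in 𝓝[>] x, x < z := self_mem_nhdsWithin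
      have hall : ∀ᶠ z in 𝓝[>] x,
          (z - x)⁻¹ * (Metric.infDist (γ z) M - Metric.infDist (γ x) M) < r := by
        filter_upwards [hev, hcM'', hpos] with z hz1 hz2 hz3
        refine lt_of_le_of_lt ?_ hz1
        have hzx : 0 < z - x := sub_pos.2 hz3
        rw [Real.norm_of_nonneg hzx.le]
        refine mul_le_mul_of_nonneg_left ?_ (inv_nonneg.2 hzx.le)
        have e1 : Metric.infDist (γ z) M ≤ ‖γ z - c (z - x)‖ := by
          rw [← dist_eq_norm]
          exact Metric.infDist_le_dist_of_mem hz2
        have e2 : Metric.infDist (γ x) M = ‖γ x - c (x - x)‖ := by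
          rw [sub_self, hc0, hmd, dist_eq_norm]
        rw [e2]
        exact sub_le_sub_right e1 _
      exact hall.frequently
    · rw [Metric.infDist_zero_of_mem h0]
    · intro x _
      simp
  have h1 := key t ⟨ht, le_rfl⟩
  have h2 : gronwallBound 0 (K : ℝ) 0 (t - 0) = 0 := by
    rw [gronwallBound_ε0]
    simp
  rw [h2] at h1
  have h3 : Metric.infDist (γ t) M = 0 := le_antisymm h1 Metric.infDist_nonneg
  exact (hM.isClosed.mem_iff_infDist_zero hne).2 h3

/-- `TNagumo`. -/
theorem tNagumo : TNagumo := by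
  intro E _ _ _ Z K M hZ hM hT γ hγ h0 t
  rcases le_total 0 t with ht | ht
  · exact nagumo_forward E Z K M hZ hM hT γ hγ h0 t ht
  · have hZ' : LipschitzWith K (fun x => -Z x) := hZ.neg
    have hT' : ∀ m ∈ M, (fun x => -Z x) m ∈ Tan M m := by
      intro m hm
      obtain ⟨c, hc0, hcM, hcd⟩ := hT m hm
      refine ⟨fun s => c (-s), by simpa using hc0, ?_, ?_⟩
      · have h1 : Tendsto (fun z : ℝ => -z) (𝓝 0) (𝓝 0) := by
          have : Continuous (fun z : ℝ => -z) := by fun_prop
          have h2 := this.tendsto 0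
          simpa using h2
        exact h1.eventually hcM
      · have h1 : HasDerivAt (fun z : ℝ => -z) (-1) 0 := hasDerivAt_neg 0
        have h2 : HasDerivAt c (Z m) (-0) := by rw [neg_zero]; exact hcd
        have h3 := HasDerivAt.scomp (h := fun z : ℝ => -z) (0 : ℝ) h2 h1
        simpa [Function.comp_def] using h3
    have hγ' : ∀ s, HasDerivAt (fun s => γ (-s)) ((fun x => -Z x) (γ (-s))) s := by
      intro s
      have h1 : HasDerivAt (fun z : ℝ => -z) (-1) s := hasDerivAt_neg s
      have h3 := HasDerivAt.scomp (h := fun z : ℝ => -z) s (hγ (-s)) h1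
      simpa [Function.comp_def] using h3
    have := nagumo_forward E (fun x => -Z x) K M hZ' hM hT' (fun s => γ (-s)) hγ'
      (by simpa using h0) (-t) (by linarith)
    simpa using this

end

end Pool.Agent.SteinFill
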