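import Pool.Agent.SteinFill.Spec
import Pool.Agent.Sqz.HolDeriv

/-!
# Job SF-OBS: the canonical bundle of the symmetric square is not trivial
-/

set_option autoImplicit false

namespace Pool.Agent.SteinFill

open scoped ContDiff Topology
open Complex (I)
open Filter Set

noncomputable section

namespace Obs

/-! ### Tangent spaces -/

/-- The tangent space of a complex submanifold at a point is a complex subspace. -/
lemma tan_ker (hT : TTan) {N k : ℕ} {X : Set (CN N)} {q : CN N}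
    (hX : IsComplexSubmanifoldAt k X q) (hq : q ∈ X) :
    ∃ L : CN N →L[ℂ] CN k, Tan X q = {v | L v = 0} := by
  obtain ⟨O, F, hO, hqO, hF, hXF, hsurj⟩ := hX
  refine ⟨fderiv ℂ F q, ?_⟩
  have h1 : ContDiffAt ℂ 1 F q := by
    exact_mod_cast Sqz.Hol.contDiffAt hO hF hqO 1
  have h2 : HasStrictFDerivAt F (fderiv ℂ F q) q :=
    h1.hasStrictFDerivAt (by norm_num)
  have h3 : HasStrictFDerivAt F ((fderiv ℂ F q).restrictScalars ℝ) q := h2.restrictScalars ℝ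
  have h4 := hT (CN N) (CN k) F ((fderiv ℂ F q).restrictScalars ℝ) X q h3
    (hsurj q hqO hq) ((hXF q hqO).1 hq)
    (Filter.eventually_of_mem (hO.mem_nhds hqO) (fun p hp => hXF p hp))
  rw [h4]
  rfl

/-- The structure of the tangent spaces of `A_t`. -/
lemma tan_sym (hT : TTan) (hS : TSmooth) {t : ℝ} (ht : t ≠ 0) {q : CN 7} (hq : q ∈ symSurf t) :
    ∃ L : CN 7 →L[ℂ] CN 5, Tan (symSurf t) q = {v | L v = 0} :=
  tan_ker hT (hS t ht q hq) hq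

lemma tan_smul (hT : TTan) (hS : TSmooth) {t : ℝ} (ht : t ≠ 0) {q : CN 7} (hq : q ∈ symSurf t)
    {v : CN 7} (hv : v ∈ Tan (symSurf t) q) (c : ℂ) : c • v ∈ Tan (symSurf t) q := by
  obtain ⟨L, hL⟩ := tan_sym hT hS ht hq
  rw [hL] at hv ⊢
  simp only [mem_ofPred_eq] at hv ⊢
  rw [map_smul, hv, smul_zero]

lemma tan_sub (hT : TTan) (hS : TSmooth) {t : ℝ} (ht : t ≠ 0) {q : CN 7} (hq : q ∈ symSurf t)
    {v w : CN 7} (hv : v ∈ Tan (symSurf t) q) (hw : w ∈ Tan (symSurf t) q) :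
    v - w ∈ Tan (symSurf t) q := by
  obtain ⟨L, hL⟩ := tan_sym hT hS ht hq
  rw [hL] at hv hw ⊢
  simp only [mem_ofPred_eq] at hv hw ⊢
  rw [map_sub, hv, hw, sub_zero]

/-! ### The curve and its symmetric square -/

/-- The affine elliptic curve. -/
def Ell : Set (ℂ × ℂ) := {z | z.2 ^ 2 = z.1 ^ 3 + 1}

/-- The parametrisation of `A_t`. -/
def psi (t : ℂ) (P Q : ℂ × ℂ) : CN 7 :=
  WithLp.toLp 2 ![t ^ 2 * (P.1 * Q.1), t ^ 3 * (P.2 * Q.2), 0, t ^ 2 * (P.1 + Q.1),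
    t ^ 3 * (P.2 + Q.2), t ^ 3 * (P.1 * Q.2 + Q.1 * P.2),
    t ^ 4 * (P.1 ^ 2 * Q.2 + Q.1 ^ 2 * P.2)]

/-- Its derivative in the first variable in the direction `(2y, 3x²)`. -/
def dpsi (t : ℂ) (P Q : ℂ × ℂ) : CN 7 :=
  WithLp.toLp 2 ![t ^ 2 * (2 * P.2 * Q.1), t ^ 3 * (3 * P.1 ^ 2 * Q.2), 0, t ^ 2 * (2 * P.2),
    t ^ 3 * (3 * P.1 ^ 2), t ^ 3 * (2 * P.2 * Q.2 + 3 * P.1 ^ 2 * Q.1),
    t ^ 4 * (4 * P.1 * P.2 * Q.2 + 3 * Q.1 ^ 2 * P.1 ^ 2)]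

lemma psi_symm (t : ℂ) (P Q : ℂ × ℂ) : psi t P Q = psi t Q P := by
  unfold psi
  congr 2
  · ring
  congr 1
  · ring
  congr 2
  · ring
  congr 1
  · ring
  congr 1
  · ring
  congr 1
  ring

lemma psi_mem {t : ℝ} {P Q : ℂ × ℂ} (hP : P ∈ Ell) (hQ : Q ∈ Ell) :
    psi t P Q ∈ symSurf t := by
  simp only [Ell, mem_ofPred_eq] at hP hQ
  have e0 : (psi t P Q) 0 = (t : ℂ) ^ 2 * (P.1 * Q.1) := rfl
  have e1 : (psi t P Q) 1 = (t : ℂ) ^ 3 * (P.2 * Q.2) := rfl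
  have e2 : (psi t P Q) 2 = 0 := rfl
  have e3 : (psi t P Q) 3 = (t : ℂ) ^ 2 * (P.1 + Q.1) := rfl
  have e4 : (psi t P Q) 4 = (t : ℂ) ^ 3 * (P.2 + Q.2) := rfl
  have e5 : (psi t P Q) 5 = (t : ℂ) ^ 3 * (P.1 * Q.2 + Q.1 * P.2) := rfl
  have e6 : (psi t P Q) 6 = (t : ℂ) ^ 4 * (P.1 ^ 2 * Q.2 + Q.1 ^ 2 * P.2) := rfl
  refine ⟨?_, ?_, ?_, ?_, ?_, ?_, ?_, ?_, ?_, ?_⟩ <;>
    simp only [e0, e1, e2, e3, e4, e5, e6]
  · linear_combination (t : ℂ) ^ 6 * (hP + hQ)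
  · linear_combination (t : ℂ) ^ 6 * (Q.2 ^ 2 * hP + (P.1 ^ 3 + 1) * hQ)
  · linear_combination (t : ℂ) ^ 6 * (P.1 ^ 2 * hQ + Q.1 ^ 2 * hP)
  · linear_combination (t : ℂ) ^ 6 * (Q.1 * hP + P.1 * hQ)
  · ring
  · linear_combination (t : ℂ) ^ 7 * (P.1 ^ 2 * hQ + Q.1 ^ 2 * hP)
  · linear_combination (t : ℂ) ^ 8 * (P.1 ^ 4 * hQ + Q.1 ^ 4 * hP)
  · linear_combination (t : ℂ) ^ 6 * (P.1 * P.2 * hQ + Q.1 * Q.2 * hP)
  · linear_combination (t : ℂ) ^ 6 * (Q.2 * hP + P.2 * hQ)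

lemma psi_norm {t : ℝ} (ht : 0 < t) (ht2 : t ≤ 1 / 2) {P Q : ℂ × ℂ} (hP : P ∈ Ell)
    (hQ : Q ∈ Ell) (hP1 : ‖P.1‖ ≤ 1) (hQ1 : ‖Q.1‖ ≤ 1) : ‖psi t P Q‖ ^ 2 - 1 ≤ 0 := by
  simp only [Ell, mem_ofPred_eq] at hP hQ
  have hy : ∀ z : ℂ × ℂ, z.2 ^ 2 = z.1 ^ 3 + 1 → ‖z.1‖ ≤ 1 → ‖z.2‖ ^ 2 ≤ 2 := by
    intro z hz hz1
    rw [← norm_pow, hz]
    calc ‖z.1 ^ 3 + 1‖ ≤ ‖z.1 ^ 3‖ + ‖(1 : ℂ)‖ := norm_add_le _ _
      _ = ‖z.1‖ ^ 3 + 1 := by rw [norm_pow, norm_one]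
      _ ≤ 1 + 1 := by
        have := pow_le_one₀ (norm_nonneg z.1) hz1 (n := 3)
        linarith
      _ = 2 := by norm_num
  have hyP := hy P hP hP1
  have hyQ := hy Q hQ hQ1
  set x1 := ‖P.1‖ with hx1
  set x2 := ‖Q.1‖ with hx2
  set y1 := ‖P.2‖ with hy1
  set y2 := ‖Q.2‖ with hy2
  have x1n : 0 ≤ x1 := norm_nonneg _
  have x2n : 0 ≤ x2 := norm_nonneg _
  have y1n : 0 ≤ y1 := norm_nonneg _
  have y2n : 0 ≤ y2 := norm_nonneg _
  have htn : ‖(t : ℂ)‖ = t := by rw [Complex.norm_real, Real.norm_of_nonneg ht.le]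
  have b0 : ‖(psi t P Q) 0‖ ^ 2 ≤ (1 / 2) ^ 4 * 1 := by
    have : (psi t P Q) 0 = (t : ℂ) ^ 2 * (P.1 * Q.1) := rfl
    rw [this, norm_mul, norm_mul, norm_pow, htn]
    calc (t ^ 2 * (x1 * x2)) ^ 2 = t ^ 4 * (x1 * x2) ^ 2 := by ring
      _ ≤ (1 / 2) ^ 4 * 1 := by
        gcongr
        have : x1 * x2 ≤ 1 := by nlinarith
        nlinarith [mul_nonneg x1n x2n]
  have b1 : ‖(psi t P Q) 1‖ ^ 2 ≤ (1 / 2) ^ 6 * 4 := by
    have : (psi t P Q) 1 = (t : ℂ) ^ 3 * (P.2 * Q.2) := rfl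
    rw [this, norm_mul, norm_mul, norm_pow, htn]
    calc (t ^ 3 * (y1 * y2)) ^ 2 = t ^ 6 * (y1 ^ 2 * y2 ^ 2) := by ring
      _ ≤ (1 / 2) ^ 6 * (2 * 2) := by gcongr
      _ = (1 / 2) ^ 6 * 4 := by norm_num
  have b2 : ‖(psi t P Q) 2‖ ^ 2 = 0 := by
    have : (psi t P Q) 2 = 0 := rfl
    rw [this, norm_zero]; norm_num
  have b3 : ‖(psi t P Q) 3‖ ^ 2 ≤ (1 / 2) ^ 4 * 4 := by
    have : (psi t P Q) 3 = (t : ℂ) ^ 2 * (P.1 + Q.1) := rfl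
    rw [this, norm_mul, norm_pow, htn]
    have h : ‖P.1 + Q.1‖ ≤ 2 := (norm_add_le _ _).trans (by linarith)
    calc (t ^ 2 * ‖P.1 + Q.1‖) ^ 2 = t ^ 4 * ‖P.1 + Q.1‖ ^ 2 := by ring
      _ ≤ (1 / 2) ^ 4 * 2 ^ 2 := by gcongr
      _ = (1 / 2) ^ 4 * 4 := by norm_num
  have b4 : ‖(psi t P Q) 4‖ ^ 2 ≤ (1 / 2) ^ 6 * 8 := by
    have : (psi t P Q) 4 = (t : ℂ) ^ 3 * (P.2 + Q.2) := rfl
    rw [this, norm_mul, norm_pow, htn]
    have h : ‖P.2 + Q.2‖ ≤ y1 + y2 := norm_add_le _ _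
    calc (t ^ 3 * ‖P.2 + Q.2‖) ^ 2 = t ^ 6 * ‖P.2 + Q.2‖ ^ 2 := by ring
      _ ≤ (1 / 2) ^ 6 * (y1 + y2) ^ 2 := by gcongr
      _ ≤ (1 / 2) ^ 6 * 8 := by
        gcongr
        nlinarith [sq_nonneg (y1 - y2)]
  have b5 : ‖(psi t P Q) 5‖ ^ 2 ≤ (1 / 2) ^ 6 * 8 := by
    have : (psi t P Q) 5 = (t : ℂ) ^ 3 * (P.1 * Q.2 + Q.1 * P.2) := rfl
    rw [this, norm_mul, norm_pow, htn]
    have h : ‖P.1 * Q.2 + Q.1 * P.2‖ ≤ y1 + y2 := by
      refine (norm_add_le _ _).trans ?_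
      rw [norm_mul, norm_mul]
      nlinarith
    calc (t ^ 3 * ‖P.1 * Q.2 + Q.1 * P.2‖) ^ 2 = t ^ 6 * ‖P.1 * Q.2 + Q.1 * P.2‖ ^ 2 := by ring
      _ ≤ (1 / 2) ^ 6 * (y1 + y2) ^ 2 := by gcongr
      _ ≤ (1 / 2) ^ 6 * 8 := by
        gcongr
        nlinarith [sq_nonneg (y1 - y2)]
  have b6 : ‖(psi t P Q) 6‖ ^ 2 ≤ (1 / 2) ^ 8 * 8 := by
    have : (psi t P Q) 6 = (t : ℂ) ^ 4 * (P.1 ^ 2 * Q.2 + Q.1 ^ 2 * P.2) := rfl
    rw [this, norm_mul, norm_pow, htn]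
    have h : ‖P.1 ^ 2 * Q.2 + Q.1 ^ 2 * P.2‖ ≤ y1 + y2 := by
      refine (norm_add_le _ _).trans ?_
      rw [norm_mul, norm_mul, norm_pow, norm_pow]
      have h1 : x1 ^ 2 ≤ 1 := pow_le_one₀ x1n hP1
      have h2 : x2 ^ 2 ≤ 1 := pow_le_one₀ x2n hQ1
      nlinarith
    calc (t ^ 4 * ‖P.1 ^ 2 * Q.2 + Q.1 ^ 2 * P.2‖) ^ 2 =
        t ^ 8 * ‖P.1 ^ 2 * Q.2 + Q.1 ^ 2 * P.2‖ ^ 2 := by ring
      _ ≤ (1 / 2) ^ 8 * (y1 + y2) ^ 2 := by gcongr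
      _ ≤ (1 / 2) ^ 8 * 8 := by
        gcongr
        nlinarith [sq_nonneg (y1 - y2)]
  rw [EuclideanSpace.norm_sq_eq, Fin.sum_univ_seven]
  norm_num at b0 b1 b2 b3 b4 b5 b6 ⊢
  rw [b2]
  norm_num
  linarith


lemma hasDerivAt_toLp7 {f : ℝ → Fin 7 → ℂ} {f' : Fin 7 → ℂ} {s : ℝ}
    (h : ∀ i, HasDerivAt (fun x => f x i) (f' i) s) :
    HasDerivAt (fun x => (WithLp.toLp 2 (f x) : CN 7)) (WithLp.toLp 2 f') s := by
  have h1 : HasDerivAt f f' s := hasDerivAt_pi.2 h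
  exact ((PiLp.continuousLinearEquiv 2 ℝ
    (fun _ : Fin 7 => ℂ)).symm.toContinuousLinearMap.hasFDerivAt (x := f s)).comp_hasDerivAt s h1

lemma hasDerivAt_vec7 {a0 a1 a2 a3 a4 a5 a6 : ℝ → ℂ} {b0 b1 b2 b3 b4 b5 b6 : ℂ} {s : ℝ}
    (h0 : HasDerivAt a0 b0 s) (h1 : HasDerivAt a1 b1 s) (h2 : HasDerivAt a2 b2 s)
    (h3 : HasDerivAt a3 b3 s) (h4 : HasDerivAt a4 b4 s) (h5 : HasDerivAt a5 b5 s)
    (h6 : HasDerivAt a6 b6 s) :
    HasDerivAt (fun x => (WithLp.toLp 2 ![a0 x, a1 x, a2 x, a3 x, a4 x, a5 x, a6 x] : CN 7))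
      (WithLp.toLp 2 ![b0, b1, b2, b3, b4, b5, b6]) s := by
  refine hasDerivAt_toLp7 fun i => ?_
  fin_cases i
  · exact h0
  · exact h1
  · exact h2
  · exact h3
  · exact h4
  · exact h5
  · exact h6

lemma tan_E (hT : TTan) {P : ℂ × ℂ} (hP : P ∈ Ell) :
    ((2 * P.2, 3 * P.1 ^ 2) : ℂ × ℂ) ∈ Tan Ell P := by
  have hP' : P.2 ^ 2 = P.1 ^ 3 + 1 := hP
  have h1 : HasStrictFDerivAt (fun z : ℂ × ℂ => z.2 ^ 2 - z.1 ^ 3 - 1)
      ((2 • P.2 ^ (2 - 1)) • ContinuousLinearMap.snd ℝ ℂ ℂ -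
        (3 • P.1 ^ (3 - 1)) • ContinuousLinearMap.fst ℝ ℂ ℂ) P :=
    ((hasStrictFDerivAt_snd.pow 2).sub (hasStrictFDerivAt_fst.pow 3)).sub_const 1
  have h2 := hT (ℂ × ℂ) ℂ _ _ Ell P h1 ?_ ?_ ?_
  · rw [h2]
    simp only [mem_ofPred_eq]
    simp
    ring
  · intro c
    by_cases hy : P.2 = 0
    · have hx : P.1 ≠ 0 := by
        intro hx
        rw [hx, hy] at hP'
        norm_num at hP'
      refine ⟨(-c / (3 * P.1 ^ 2), 0), ?_⟩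
      simp [hy]
      field_simp
    · refine ⟨(0, c / (2 * P.2)), ?_⟩
      simp
      field_simp
  · rw [hP']; ring
  · refine Eventually.of_forall fun q => ?_
    simp only [Ell, mem_ofPred_eq]
    constructor
    · intro h; rw [h]; ring
    · intro h; linear_combination h

lemma dpsi_mem (hT : TTan) {t : ℝ} {P Q : ℂ × ℂ} (hP : P ∈ Ell) (hQ : Q ∈ Ell) :
    dpsi t P Q ∈ Tan (symSurf t) (psi t P Q) := by
  obtain ⟨γ, h0, hγ, hd⟩ := tan_E hT hP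
  refine ⟨fun s => psi t (γ s) Q, by simp [h0], hγ.mono fun s hs => psi_mem hs hQ, ?_⟩
  have hd1 : HasDerivAt (fun s => (γ s).1) (2 * P.2) 0 :=
    (ContinuousLinearMap.fst ℝ ℂ ℂ).hasFDerivAt.comp_hasDerivAt 0 hd
  have hd2 : HasDerivAt (fun s => (γ s).2) (3 * P.1 ^ 2) 0 :=
    (ContinuousLinearMap.snd ℝ ℂ ℂ).hasFDerivAt.comp_hasDerivAt 0 hd
  unfold psi dpsi
  refine hasDerivAt_vec7 ?_ ?_ ?_ ?_ ?_ ?_ ?_
  · exact (hd1.mul_const Q.1).const_mul _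
  · exact (hd2.mul_const Q.2).const_mul _
  · exact hasDerivAt_const _ _
  · exact (hd1.add_const Q.1).const_mul _
  · exact (hd2.add_const Q.2).const_mul _
  · refine (((hd1.mul_const Q.2).add (hd2.const_mul Q.1)).const_mul ((t : ℂ) ^ 3)).congr_deriv ?_
    ring
  · refine ((((hd1.pow 2).mul_const Q.2).add (hd2.const_mul (Q.1 ^ 2))).const_mul
      ((t : ℂ) ^ 4)).congr_deriv ?_
    rw [h0]
    push_cast
    ring

/-! ### Independence -/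

lemma indep {t : ℝ} (ht : 0 < t) {P Q : ℂ × ℂ} (hP : P ∈ Ell) (hQ : Q ∈ Ell) {α β : ℂ}
    (hαβ : (α, β) ≠ (0, 0)) (h : α • dpsi t P Q + β • dpsi t Q P = 0) : P = Q := by
  have hP' : P.2 ^ 2 = P.1 ^ 3 + 1 := hP
  have hQ' : Q.2 ^ 2 = Q.1 ^ 3 + 1 := hQ
  have htc : (t : ℂ) ≠ 0 := by exact_mod_cast ht.ne'
  have e : ∀ i, α * (dpsi t P Q) i + β * (dpsi t Q P) i = 0 := by
    intro i
    have := congrFun (congrArg WithLp.ofLp h) i
    simpa using this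
  have e0 : α * (P.2 * Q.1) + β * (Q.2 * P.1) = 0 := by
    have h0 : α * ((t : ℂ) ^ 2 * (2 * P.2 * Q.1)) + β * ((t : ℂ) ^ 2 * (2 * Q.2 * P.1)) = 0 := e 0
    have : ((t : ℂ) ^ 2 * 2) * (α * (P.2 * Q.1) + β * (Q.2 * P.1)) = 0 := by
      linear_combination h0
    exact (mul_eq_zero.1 this).resolve_left (mul_ne_zero (pow_ne_zero _ htc) (by norm_num))
  have e1 : α * (P.1 ^ 2 * Q.2) + β * (Q.1 ^ 2 * P.2) = 0 := by
    have h0 : α * ((t : ℂ) ^ 3 * (3 * P.1 ^ 2 * Q.2)) +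
      β * ((t : ℂ) ^ 3 * (3 * Q.1 ^ 2 * P.2)) = 0 := e 1
    have : ((t : ℂ) ^ 3 * 3) * (α * (P.1 ^ 2 * Q.2) + β * (Q.1 ^ 2 * P.2)) = 0 := by
      linear_combination h0
    exact (mul_eq_zero.1 this).resolve_left (mul_ne_zero (pow_ne_zero _ htc) (by norm_num))
  have e3 : α * P.2 + β * Q.2 = 0 := by
    have h0 : α * ((t : ℂ) ^ 2 * (2 * P.2)) + β * ((t : ℂ) ^ 2 * (2 * Q.2)) = 0 := e 3
    have : ((t : ℂ) ^ 2 * 2) * (α * P.2 + β * Q.2) = 0 := by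
      linear_combination h0
    exact (mul_eq_zero.1 this).resolve_left (mul_ne_zero (pow_ne_zero _ htc) (by norm_num))
  have e4 : α * P.1 ^ 2 + β * Q.1 ^ 2 = 0 := by
    have h0 : α * ((t : ℂ) ^ 3 * (3 * P.1 ^ 2)) + β * ((t : ℂ) ^ 3 * (3 * Q.1 ^ 2)) = 0 := e 4
    have : ((t : ℂ) ^ 3 * 3) * (α * P.1 ^ 2 + β * Q.1 ^ 2) = 0 := by
      linear_combination h0
    exact (mul_eq_zero.1 this).resolve_left (mul_ne_zero (pow_ne_zero _ htc) (by norm_num))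
  have e5 : α * (2 * P.2 * Q.2 + 3 * P.1 ^ 2 * Q.1) +
      β * (2 * Q.2 * P.2 + 3 * Q.1 ^ 2 * P.1) = 0 := by
    have h0 : α * ((t : ℂ) ^ 3 * (2 * P.2 * Q.2 + 3 * P.1 ^ 2 * Q.1)) +
      β * ((t : ℂ) ^ 3 * (2 * Q.2 * P.2 + 3 * Q.1 ^ 2 * P.1)) = 0 := e 5
    have : ((t : ℂ) ^ 3) * (α * (2 * P.2 * Q.2 + 3 * P.1 ^ 2 * Q.1) +
      β * (2 * Q.2 * P.2 + 3 * Q.1 ^ 2 * P.1)) = 0 := by
      linear_combination h0
    exact (mul_eq_zero.1 this).resolve_left (by positivity)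
  -- consequences
  have f1 : (α * P.2) * (P.1 - Q.1) = 0 := by linear_combination -e0 + P.1 * e3
  have f2 : (β * Q.2) * (P.1 - Q.1) = 0 := by linear_combination e0 - Q.1 * e3
  have g1 : (α * P.1 ^ 2) * (P.2 - Q.2) = 0 := by linear_combination -e1 + P.2 * e4
  have g2 : (β * Q.1 ^ 2) * (P.2 - Q.2) = 0 := by linear_combination e1 - Q.2 * e4
  have nz : ∀ z : ℂ × ℂ, z.2 ^ 2 = z.1 ^ 3 + 1 → ∀ c : ℂ, c * z.2 = 0 → c * z.1 ^ 2 = 0 →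
      c = 0 := by
    intro z hz c h1 h2
    by_contra hc
    have h3 : z.2 = 0 := (mul_eq_zero.1 h1).resolve_left hc
    have h4 : z.1 = 0 := by
      have := (mul_eq_zero.1 h2).resolve_left hc
      exact pow_eq_zero_iff (by norm_num) |>.1 this
    rw [h3, h4] at hz
    norm_num at hz
  have hne : ¬ (α = 0 ∧ β = 0) := fun h => hαβ (by rw [h.1, h.2])
  by_cases hx : P.1 = Q.1
  · by_cases hy : P.2 = Q.2
    · exact Prod.ext hx hy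
    · exfalso
      have hy' : P.2 - Q.2 ≠ 0 := sub_ne_zero.2 hy
      have a1 : α * P.1 ^ 2 = 0 := (mul_eq_zero.1 g1).resolve_right hy'
      have a2 : β * Q.1 ^ 2 = 0 := (mul_eq_zero.1 g2).resolve_right hy'
      have hneg : P.2 + Q.2 = 0 := by
        have : (P.2 - Q.2) * (P.2 + Q.2) = 0 := by
          rw [hx] at hP'
          linear_combination hP' - hQ'
        exact (mul_eq_zero.1 this).resolve_left hy'
      have hQ2 : Q.2 ≠ 0 := by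
        intro h0
        apply hy
        rw [h0] at hneg ⊢
        simpa using hneg
      have hab : α = β := by
        have : (α - β) * Q.2 = 0 := by linear_combination α * hneg - e3
        exact sub_eq_zero.1 ((mul_eq_zero.1 this).resolve_right hQ2)
      have h5 : α * (Q.2 * Q.2) = 0 := by
        have : α * (P.2 * Q.2) = 0 := by
          rw [← hab] at e5 a2
          linear_combination (1 / 4 : ℂ) * e5 - (3 / 4) * Q.1 * a1 - (3 / 4) * P.1 * a2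
        linear_combination α * Q.2 * hneg - this
      have h6 : α = 0 := (mul_eq_zero.1 h5).resolve_right (mul_ne_zero hQ2 hQ2)
      exact hne ⟨h6, hab ▸ h6⟩
  · exfalso
    have hx' : P.1 - Q.1 ≠ 0 := sub_ne_zero.2 hx
    have a1 : α * P.2 = 0 := (mul_eq_zero.1 f1).resolve_right hx'
    have a2 : β * Q.2 = 0 := (mul_eq_zero.1 f2).resolve_right hx'
    by_cases hy : P.2 = Q.2
    · have a3 : (α * P.1 ^ 2) * (P.1 - Q.1) = 0 := by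
        linear_combination P.1 * e4 - (1 / 3 : ℂ) * e5 + (2 / 3) * Q.2 * a1 + (2 / 3) * P.2 * a2
      have a4 : α * P.1 ^ 2 = 0 := (mul_eq_zero.1 a3).resolve_right hx'
      have a5 : β * Q.1 ^ 2 = 0 := by linear_combination e4 - a4
      exact hne ⟨nz P hP' α a1 a4, nz Q hQ' β a2 a5⟩
    · have hy' : P.2 - Q.2 ≠ 0 := sub_ne_zero.2 hy
      have a3 : α * P.1 ^ 2 = 0 := (mul_eq_zero.1 g1).resolve_right hy'
      have a4 : β * Q.1 ^ 2 = 0 := (mul_eq_zero.1 g2).resolve_right hy'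
      exact hne ⟨nz P hP' α a1 a3, nz Q hQ' β a2 a4⟩


/-! ### The tangent direction transverse to the diagonal -/

/-- The point `(-1, 0)` of the curve. -/
def P0 : ℂ × ℂ := (-1, 0)

/-- The limit direction. -/
def G0 (t : ℂ) : CN 7 :=
  WithLp.toLp 2 ![-2 * t ^ 2, -3 * t ^ 3, 0, 2 * t ^ 2, 0, 0, 0]

lemma P0_mem : P0 ∈ Ell := by
  simp only [P0, Ell, mem_ofPred_eq]
  norm_num

lemma G0_mem {t : ℝ} : G0 t ∈ Tan (symSurf t) (psi t P0 P0) := by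
  set x : ℝ → ℝ := fun s => -((1 - 3 * s) ^ ((1 : ℝ) / 3)) with hx
  have hx0 : x 0 = -1 := by simp [hx]
  have hxd : HasDerivAt x 1 0 := by
    have h1 : HasDerivAt (fun s : ℝ => 1 - 3 * s) (-3) 0 := by
      simpa using ((hasDerivAt_id (0 : ℝ)).const_mul 3).const_sub 1
    have h2 := (h1.rpow_const (p := 1 / 3) (Or.inl (by norm_num))).neg
    refine h2.congr_deriv ?_
    norm_num
  have hx3 : ∀ᶠ s in 𝓝 (0 : ℝ), x s ^ 3 = 3 * s - 1 := by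
    have h0 : ∀ᶠ s in 𝓝 (0 : ℝ), s < 1 / 3 := Iio_mem_nhds (by norm_num)
    filter_upwards [h0] with s hs
    have h1 : (0 : ℝ) ≤ 1 - 3 * s := by linarith
    have h2 : ((1 - 3 * s) ^ ((1 : ℝ) / 3)) ^ 3 = 1 - 3 * s := by
      rw [← Real.rpow_natCast, ← Real.rpow_mul h1]
      norm_num
    simp only [hx]
    linear_combination -h2
  have hxc : HasDerivAt (fun s => (x s : ℂ)) ((1 : ℝ) : ℂ) 0 := hxd.ofReal_comp
  have hic : HasDerivAt (fun s : ℝ => (s : ℂ)) ((1 : ℝ) : ℂ) 0 := (hasDerivAt_id (0 : ℝ)).ofReal_comp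
  refine ⟨fun s => WithLp.toLp 2 ![(t : ℂ) ^ 2 * (x s : ℂ) ^ 2, -3 * (t : ℂ) ^ 3 * (s : ℂ), 0,
    2 * (t : ℂ) ^ 2 * (x s : ℂ), 0, 0, 0], ?_, ?_, ?_⟩
  · simp only [hx0, psi, P0]
    congr 2
    · norm_num
    congr 1
    · norm_num
    congr 2
    · push_cast; ring
    congr 1
    · norm_num
    congr 1
    · norm_num
    congr 1
    norm_num
  · filter_upwards [hx3] with s hs
    have hX : (x s : ℂ) ^ 3 = 3 * (s : ℂ) - 1 := by exact_mod_cast hs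
    set X : ℂ := (x s : ℂ) with hXdef
    refine ⟨?_, ?_, ?_, ?_, ?_, ?_, ?_, ?_, ?_, ?_⟩ <;>
      simp
    · linear_combination (-2 * (t : ℂ) ^ 6) * hX
    · linear_combination (-(t : ℂ) ^ 6 * (X ^ 3 + 1 + 3 * s)) * hX
    · linear_combination (-2 * (t : ℂ) ^ 6 * X ^ 2) * hX
    · linear_combination (-2 * (t : ℂ) ^ 6 * X) * hX
    · linear_combination (-2 * (t : ℂ) ^ 7 * X ^ 2) * hX
    · linear_combination (-2 * (t : ℂ) ^ 8 * X ^ 4) * hX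
  · unfold G0
    refine hasDerivAt_vec7 ?_ ?_ ?_ ?_ ?_ ?_ ?_
    · refine ((hxc.pow 2).const_mul _).congr_deriv ?_
      rw [hx0]; push_cast; ring
    · refine (hic.const_mul _).congr_deriv ?_
      push_cast; ring
    · exact hasDerivAt_const _ _
    · refine (hxc.const_mul _).congr_deriv ?_
      push_cast; ring
    · exact hasDerivAt_const _ _
    · exact hasDerivAt_const _ _
    · exact hasDerivAt_const _ _

/-! ### The divided difference -/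

/-- `(x₁-x₂)/(y₁-y₂)`. -/
def mm (P Q : ℂ × ℂ) : ℂ := (P.2 + Q.2) / (P.1 ^ 2 + P.1 * Q.1 + Q.1 ^ 2)

/-- The divided difference. -/
def GG (t : ℂ) (P Q : ℂ × ℂ) : CN 7 :=
  WithLp.toLp 2 ![t ^ 2 * (2 * (Q.1 - Q.2 * mm P Q)),
    t ^ 3 * (3 * (mm P Q * (P.1 + Q.1) * Q.2 - Q.1 ^ 2)), 0, t ^ 2 * 2,
    t ^ 3 * (3 * mm P Q * (P.1 + Q.1)), t ^ 3 * (3 * P.1 * Q.1 * mm P Q),
    t ^ 4 * (4 * P.2 * Q.2 * mm P Q)]

lemma mm_eq {P Q : ℂ × ℂ} (hP : P ∈ Ell) (hQ : Q ∈ Ell)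
    (hD : P.1 ^ 2 + P.1 * Q.1 + Q.1 ^ 2 ≠ 0) : P.1 - Q.1 = (P.2 - Q.2) * mm P Q := by
  have hP' : P.2 ^ 2 = P.1 ^ 3 + 1 := hP
  have hQ' : Q.2 ^ 2 = Q.1 ^ 3 + 1 := hQ
  unfold mm
  rw [mul_div_assoc', eq_div_iff hD]
  linear_combination hQ' - hP'

lemma GG_eq (t : ℂ) {P Q : ℂ × ℂ} (hP : P ∈ Ell) (hQ : Q ∈ Ell)
    (hD : P.1 ^ 2 + P.1 * Q.1 + Q.1 ^ 2 ≠ 0) :
    dpsi t P Q - dpsi t Q P = (P.2 - Q.2) • GG t P Q := by
  have hm := mm_eq hP hQ hD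
  ext i
  simp only [PiLp.sub_apply, PiLp.smul_apply, smul_eq_mul]
  unfold dpsi GG
  fin_cases i
  · simp
    linear_combination (-2 * t ^ 2 * Q.2) * hm
  · simp
    linear_combination (3 * t ^ 3 * Q.2 * (P.1 + Q.1)) * hm
  · simp
  · simp
    ring
  · simp
    linear_combination (3 * t ^ 3 * (P.1 + Q.1)) * hm
  · simp
    linear_combination (3 * t ^ 3 * P.1 * Q.1) * hm
  · simp
    linear_combination (4 * t ^ 4 * P.2 * Q.2) * hm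

lemma continuous_vec7 {Z : Type} [TopologicalSpace Z] {a0 a1 a2 a3 a4 a5 a6 : Z → ℂ}
    {z : Z} (h0 : ContinuousAt a0 z) (h1 : ContinuousAt a1 z) (h2 : ContinuousAt a2 z)
    (h3 : ContinuousAt a3 z) (h4 : ContinuousAt a4 z) (h5 : ContinuousAt a5 z)
    (h6 : ContinuousAt a6 z) :
    ContinuousAt (fun x => (WithLp.toLp 2 ![a0 x, a1 x, a2 x, a3 x, a4 x, a5 x, a6 x] : CN 7))
      z := by
  refine (PiLp.continuous_toLp 2 (fun _ : Fin 7 => ℂ)).continuousAt.comp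
    (continuousAt_pi.2 fun i => ?_)
  fin_cases i
  · exact h0
  · exact h1
  · exact h2
  · exact h3
  · exact h4
  · exact h5
  · exact h6

lemma psi_cont (t : ℂ) : Continuous (fun z : (ℂ × ℂ) × (ℂ × ℂ) => psi t z.1 z.2) := by
  refine continuous_iff_continuousAt.2 fun z => ?_
  unfold psi
  refine continuous_vec7 ?_ ?_ ?_ ?_ ?_ ?_ ?_ <;> fun_prop

lemma dpsi_cont (t : ℂ) : Continuous (fun z : (ℂ × ℂ) × (ℂ × ℂ) => dpsi t z.1 z.2) := by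
  refine continuous_iff_continuousAt.2 fun z => ?_
  unfold dpsi
  refine continuous_vec7 ?_ ?_ ?_ ?_ ?_ ?_ ?_ <;> fun_prop

lemma mm_cont : ContinuousAt (fun z : (ℂ × ℂ) × (ℂ × ℂ) => mm z.1 z.2) (P0, P0) := by
  unfold mm
  refine ContinuousAt.div (by fun_prop) (by fun_prop) ?_
  simp only [P0]
  norm_num

lemma GG_cont (t : ℂ) :
    ContinuousAt (fun z : (ℂ × ℂ) × (ℂ × ℂ) => GG t z.1 z.2) (P0, P0) := by
  have := mm_cont
  unfold GG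
  refine continuous_vec7 ?_ ?_ ?_ ?_ ?_ ?_ ?_ <;> fun_prop

lemma GG_P0 (t : ℂ) : GG t P0 P0 = G0 t := by
  have hm : mm P0 P0 = 0 := by simp [mm, P0]
  unfold GG G0
  rw [hm]
  simp only [P0]
  congr 2
  · ring
  congr 1
  · ring
  congr 2
  · ring
  congr 1
  · ring
  congr 1
  · ring
  congr 1
  ring

/-! ### Sections of the canonical bundle -/

lemma triv_csmul {X W : Set (CN 7)} {Ω : CN 7 → CN 7 → CN 7 → ℂ} (h : IsTriv X W mulI Ω)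
    {p : CN 7} (hp : p ∈ W) (hsm : ∀ v ∈ Tan X p, ∀ c : ℂ, c • v ∈ Tan X p) {v w : CN 7}
    (hv : v ∈ Tan X p) (hw : w ∈ Tan X p) (c : ℂ) : Ω p (c • v) w = c * Ω p v w := by
  have h1 : c • v = (c.re : ℝ) • v + (c.im : ℝ) • (I • v) := by
    have hr : (c.re : ℝ) • v = (c.re : ℂ) • v := by
      ext i; simp
    have hi : (c.im : ℝ) • (I • v) = ((c.im : ℂ) * I) • v := by
      ext i; simp [mul_assoc]
    rw [hr, hi, ← add_smul, Complex.re_add_im]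
  have hIv : I • v ∈ Tan X p := hsm v hv I
  have hrv : (c.re : ℝ) • v ∈ Tan X p := by
    have : (c.re : ℝ) • v = (c.re : ℂ) • v := by ext i; simp
    rw [this]; exact hsm v hv _
  have hiv : (c.im : ℝ) • (I • v) ∈ Tan X p := by
    have : (c.im : ℝ) • (I • v) = (c.im : ℂ) • (I • v) := by ext i; simp
    rw [this]; exact hsm _ hIv _
  rw [h1, h.add p hp _ hrv _ hiv _ hw, h.smul p hp _ hv _ hw, h.smul p hp _ hIv _ hw]
  have h2 : Ω p (I • v) w = I * Ω p v w := h.jlin p hp v hv w hw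
  rw [h2]
  conv_rhs => rw [← Complex.re_add_im c]
  ring

lemma triv_dep {X W : Set (CN 7)} {Ω : CN 7 → CN 7 → CN 7 → ℂ} (h : IsTriv X W mulI Ω)
    {p : CN 7} (hp : p ∈ W) {v w : CN 7} (hv : v ∈ Tan X p) (hw : w ∈ Tan X p)
    (h0 : Ω p v w = 0) : ∃ α β : ℂ, (α, β) ≠ (0, 0) ∧ α • v + β • w = 0 := by
  obtain ⟨a, b, c, d, hne, he⟩ := h.nondeg p hp v hv w hw h0
  refine ⟨a + b * I, c + d * I, ?_, ?_⟩
  · intro h1
    apply hne
    rw [Prod.mk.injEq] at h1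
    have e1 := congrArg Complex.re h1.1
    have e2 := congrArg Complex.im h1.1
    have e3 := congrArg Complex.re h1.2
    have e4 := congrArg Complex.im h1.2
    simp at e1 e2 e3 e4
    simp [e1, e2, e3, e4]
  · rw [← he]
    ext i
    simp [mulI]
    ring

lemma k_ne {t : ℝ} (ht : 0 < t) {α β : ℂ} (hαβ : (α, β) ≠ (0, 0))
    (h : α • G0 t + β • dpsi t P0 P0 = 0) : False := by
  have htc : (t : ℂ) ≠ 0 := by exact_mod_cast ht.ne'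
  have e : ∀ i, α * (G0 t) i + β * (dpsi t P0 P0) i = 0 := by
    intro i
    have := congrFun (congrArg WithLp.ofLp h) i
    simpa using this
  have e3 : α * (2 * (t : ℂ) ^ 2) + β * ((t : ℂ) ^ 2 * (2 * 0)) = 0 := e 3
  have e4 : α * 0 + β * ((t : ℂ) ^ 3 * (3 * (-1) ^ 2)) = 0 := e 4
  apply hαβ
  have h1 : α * (2 * (t : ℂ) ^ 2) = 0 := by linear_combination e3
  have h2 : β * (3 * (t : ℂ) ^ 3) = 0 := by linear_combination e4
  have h3 : α = 0 := (mul_eq_zero.1 h1).resolve_right (mul_ne_zero (by norm_num) (pow_ne_zero _ htc))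
  have h4 : β = 0 := (mul_eq_zero.1 h2).resolve_right (mul_ne_zero (by norm_num) (pow_ne_zero _ htc))
  rw [h3, h4]

end Obs

open Obs in
/-- The canonical bundle of `A_t ∩ B` is not trivial. -/
theorem tObs (hT : TTan) (hZ : TZero) (hLo : TLoops) (hS : TSmooth) : TObs := by
  rintro t ht ht2 ⟨Ω, hΩ⟩
  obtain ⟨a, b, A, B, ha, hb, hap, hbp, haE, hbE, hab, ha0, hb0, hA, hB, hAB⟩ := hLo
  have ht0 : t ≠ 0 := ht.ne'
  have haE' : ∀ x, a x ∈ Ell := fun x => (haE x).1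
  have hbE' : ∀ x, b x ∈ Ell := fun x => (hbE x).1
  set W : Set (CN 7) := {q | q ∈ symSurf t ∧ ‖q‖ ^ 2 - 1 ≤ 0} with hW
  have hpW : ∀ x y, psi t (a x) (b y) ∈ W := fun x y =>
    ⟨psi_mem (haE' x) (hbE' y), psi_norm ht ht2 (haE' x) (hbE' y) (haE x).2 (hbE y).2⟩
  have hpX : ∀ x y, psi t (a x) (b y) ∈ symSurf t := fun x y => (hpW x y).1
  have hv1 : ∀ x y, dpsi t (a x) (b y) ∈ Tan (symSurf t) (psi t (a x) (b y)) := fun x y =>
    dpsi_mem hT (haE' x) (hbE' y)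
  have hv2 : ∀ x y, dpsi t (b y) (a x) ∈ Tan (symSurf t) (psi t (a x) (b y)) := fun x y => by
    rw [psi_symm]
    exact dpsi_mem hT (hbE' y) (haE' x)
  have hsm : ∀ q ∈ symSurf t, ∀ v ∈ Tan (symSurf t) q, ∀ c : ℂ, c • v ∈ Tan (symSurf t) q :=
    fun q hq v hv c => tan_smul hT hS ht0 hq hv c
  set T : Set (CN 7 × CN 7 × CN 7) :=
    {x | x.1 ∈ W ∧ x.2.1 ∈ Tan (symSurf t) x.1 ∧ x.2.2 ∈ Tan (symSurf t) x.1} with hTdef
  set h : ℝ × ℝ → ℂ := fun z =>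
    Ω (psi t (a z.1) (b z.2)) (dpsi t (a z.1) (b z.2)) (dpsi t (b z.2) (a z.1)) with hh
  have hcab : Continuous (fun z : ℝ × ℝ => ((a z.1, b z.2) : (ℂ × ℂ) × (ℂ × ℂ))) := by fun_prop
  have hcba : Continuous (fun z : ℝ × ℝ => ((b z.2, a z.1) : (ℂ × ℂ) × (ℂ × ℂ))) := by fun_prop
  have c1 : Continuous (fun z : ℝ × ℝ => psi t (a z.1) (b z.2)) :=
    Continuous.comp (g := fun z : (ℂ × ℂ) × (ℂ × ℂ) => psi t z.1 z.2)
      (f := fun z : ℝ × ℝ => ((a z.1, b z.2) : (ℂ × ℂ) × (ℂ × ℂ))) (psi_cont t) hcab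
  have c2 : Continuous (fun z : ℝ × ℝ => dpsi t (a z.1) (b z.2)) :=
    Continuous.comp (g := fun z : (ℂ × ℂ) × (ℂ × ℂ) => dpsi t z.1 z.2)
      (f := fun z : ℝ × ℝ => ((a z.1, b z.2) : (ℂ × ℂ) × (ℂ × ℂ))) (dpsi_cont t) hcab
  have c3 : Continuous (fun z : ℝ × ℝ => dpsi t (b z.2) (a z.1)) :=
    Continuous.comp (g := fun z : (ℂ × ℂ) × (ℂ × ℂ) => dpsi t z.1 z.2)
      (f := fun z : ℝ × ℝ => ((b z.2, a z.1) : (ℂ × ℂ) × (ℂ × ℂ))) (dpsi_cont t) hcba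
  have hcont : Continuous h := by
    have hf : Continuous (fun z : ℝ × ℝ => ((psi t (a z.1) (b z.2), dpsi t (a z.1) (b z.2),
        dpsi t (b z.2) (a z.1)) : CN 7 × CN 7 × CN 7)) := c1.prodMk (c2.prodMk c3)
    exact hΩ.cont.comp_continuous hf
      (fun z => ⟨hpW z.1 z.2, hv1 z.1 z.2, hv2 z.1 z.2⟩)
  -- the limit value
  have hP0a : a 0 = P0 := ha0
  have hP0b : b 0 = P0 := hb0
  have hq0 : psi t P0 P0 ∈ symSurf t := psi_mem P0_mem P0_mem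
  have hq0W : psi t P0 P0 ∈ W := by
    have := hpW 0 0
    rwa [hP0a, hP0b] at this
  have hG0 : G0 t ∈ Tan (symSurf t) (psi t P0 P0) := G0_mem
  have hw0 : dpsi t P0 P0 ∈ Tan (symSurf t) (psi t P0 P0) := dpsi_mem hT P0_mem P0_mem
  set k : ℂ := Ω (psi t P0 P0) (G0 t) (dpsi t P0 P0) with hk
  have hk0 : k ≠ 0 := by
    intro h0
    obtain ⟨α, β, hne, he⟩ := triv_dep hΩ hq0W hG0 hw0 h0
    exact k_ne ht hne he
  -- the difference of the second coordinates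
  set Y : ℝ × ℝ → ℂ := fun z => (a z.1).2 - (b z.2).2 with hY
  set S : Set (ℝ × ℝ) := {z | Y z ≠ 0 ∧
    (a z.1).1 ^ 2 + (a z.1).1 * (b z.2).1 + (b z.2).1 ^ 2 ≠ 0} with hSdef
  have hD : ∀ᶠ z : ℝ × ℝ in 𝓝 0,
      (a z.1).1 ^ 2 + (a z.1).1 * (b z.2).1 + (b z.2).1 ^ 2 ≠ 0 := by
    have hc : ContinuousAt (fun z : ℝ × ℝ =>
        (a z.1).1 ^ 2 + (a z.1).1 * (b z.2).1 + (b z.2).1 ^ 2) 0 := by fun_prop
    refine hc.eventually_ne ?_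
    simp only [Prod.fst_zero, Prod.snd_zero, ha0, hb0]
    norm_num
  have hGmem : ∀ z ∈ S, GG t (a z.1) (b z.2) ∈ Tan (symSurf t) (psi t (a z.1) (b z.2)) := by
    rintro z ⟨hz1, hz2⟩
    have h1 := tan_sub hT hS ht0 (hpX z.1 z.2) (hv1 z.1 z.2) (hv2 z.1 z.2)
    rw [GG_eq t (haE' z.1) (hbE' z.2) hz2] at h1
    have h2 := hsm _ (hpX z.1 z.2) _ h1 (Y z)⁻¹
    rwa [smul_smul, inv_mul_cancel₀ hz1, one_smul] at h2
  have hlim : Tendsto (fun z : ℝ × ℝ => Ω (psi t (a z.1) (b z.2)) (GG t (a z.1) (b z.2))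
      (dpsi t (b z.2) (a z.1))) (𝓝[S] 0) (𝓝 k) := by
    have h1 : ContinuousWithinAt (fun x : CN 7 × CN 7 × CN 7 => Ω x.1 x.2.1 x.2.2) T
        (psi t P0 P0, G0 t, dpsi t P0 P0) := hΩ.cont _ ⟨hq0W, hG0, hw0⟩
    have hca : ContinuousAt (fun z : ℝ × ℝ => ((a z.1, b z.2) : (ℂ × ℂ) × (ℂ × ℂ))) 0 :=
      hcab.continuousAt
    have h2 : ContinuousAt (fun z : ℝ × ℝ => ((psi t (a z.1) (b z.2), GG t (a z.1) (b z.2),
        dpsi t (b z.2) (a z.1)) : CN 7 × CN 7 × CN 7)) 0 := by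
      refine c1.continuousAt.prodMk (ContinuousAt.prodMk ?_ c3.continuousAt)
      refine ContinuousAt.comp (f := fun z : ℝ × ℝ => ((a z.1, b z.2) : (ℂ × ℂ) × (ℂ × ℂ)))
        (g := fun z : (ℂ × ℂ) × (ℂ × ℂ) => GG t z.1 z.2) ?_ hca
      change ContinuousAt (fun z : (ℂ × ℂ) × (ℂ × ℂ) => GG t z.1 z.2) (a 0, b 0)
      rw [hP0a, hP0b]
      exact GG_cont t
    have h3 : Tendsto (fun z : ℝ × ℝ => ((psi t (a z.1) (b z.2), GG t (a z.1) (b z.2),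
        dpsi t (b z.2) (a z.1)) : CN 7 × CN 7 × CN 7)) (𝓝[S] 0)
        (𝓝[T] (psi t P0 P0, G0 t, dpsi t P0 P0)) := by
      refine tendsto_nhdsWithin_iff.2 ⟨?_, ?_⟩
      · have h4 := h2.tendsto
        simp only [Prod.fst_zero, Prod.snd_zero, hP0a, hP0b, GG_P0] at h4
        exact h4.mono_left nhdsWithin_le_nhds
      · filter_upwards [self_mem_nhdsWithin] with z hz
        exact ⟨hpW z.1 z.2, hGmem z hz, hv2 z.1 z.2⟩
    exact h1.tendsto.comp h3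
  classical
  set κ : ℝ × ℝ → ℂ := fun z => if z ∈ S then Ω (psi t (a z.1) (b z.2)) (GG t (a z.1) (b z.2))
      (dpsi t (b z.2) (a z.1)) else k with hκ
  have hκlim : Tendsto κ (𝓝 0) (𝓝 k) := by
    have h1 : Tendsto κ (𝓝[S] 0) (𝓝 k) := by
      refine hlim.congr' ?_
      filter_upwards [self_mem_nhdsWithin] with z hz
      simp only [hκ, if_pos hz]
    have h2 : Tendsto κ (𝓝[Sᶜ] 0) (𝓝 k) := by
      refine (tendsto_const_nhds (x := k)).congr' ?_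
      filter_upwards [self_mem_nhdsWithin] with z hz
      have : z ∉ S := hz
      simp only [hκ, if_neg this]
    have h3 : 𝓝 (0 : ℝ × ℝ) = 𝓝[S] 0 ⊔ 𝓝[Sᶜ] 0 := by
      rw [← nhdsWithin_union, union_compl_self, nhdsWithin_univ]
    rw [h3]
    exact h1.sup h2
  have hfac : ∀ᶠ z : ℝ × ℝ in 𝓝 0, h z = Y z * κ z := by
    filter_upwards [hD] with z hz
    by_cases hy : Y z = 0
    · have hx : (a z.1).1 - (b z.2).1 = 0 := by
        rw [mm_eq (haE' z.1) (hbE' z.2) hz]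
        have : (a z.1).2 - (b z.2).2 = 0 := hy
        rw [this, zero_mul]
      have heq : a z.1 = b z.2 := Prod.ext (sub_eq_zero.1 hx) (sub_eq_zero.1 hy)
      rw [hy, zero_mul]
      have h2 := hv2 z.1 z.2
      have h3 : dpsi t (a z.1) (b z.2) = dpsi t (b z.2) (a z.1) := by rw [heq]
      simp only [hh]
      rw [h3]
      exact hΩ.alt _ (hpW z.1 z.2) _ h2
    · have hzS : z ∈ S := ⟨hy, hz⟩
      simp only [hκ, if_pos hzS]
      have hg := hGmem z hzS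
      have h2 := hv2 z.1 z.2
      have h3 : dpsi t (a z.1) (b z.2) = dpsi t (b z.2) (a z.1) +
          Y z • GG t (a z.1) (b z.2) := by
        rw [← GG_eq t (haE' z.1) (hbE' z.2) hz]
        abel
      have hg' : Y z • GG t (a z.1) (b z.2) ∈ Tan (symSurf t) (psi t (a z.1) (b z.2)) :=
        hsm _ (hpX z.1 z.2) _ hg _
      simp only [hh]
      rw [h3, hΩ.add _ (hpW z.1 z.2) _ h2 _ hg' _ h2, hΩ.alt _ (hpW z.1 z.2) _ h2, zero_add,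
        triv_csmul hΩ (hpW z.1 z.2) (hsm _ (hpX z.1 z.2)) hg h2]
  -- the linear part
  have hYlin : (fun z : ℝ × ℝ => Y z - (A * z.1 - B * z.2)) =o[𝓝 0] (fun z : ℝ × ℝ => z) := by
    have h1 : HasFDerivAt (fun z : ℝ × ℝ => (a z.1).2)
        (((ContinuousLinearMap.smulRight (1 : ℝ →L[ℝ] ℝ) A)).comp
          (ContinuousLinearMap.fst ℝ ℝ ℝ)) (0 : ℝ × ℝ) := by
      have := hA.hasFDerivAt
      exact HasFDerivAt.comp (g := fun x => (a x).2) (f := fun z : ℝ × ℝ => z.1) (0 : ℝ × ℝ) this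
        hasFDerivAt_fst
    have h2 : HasFDerivAt (fun z : ℝ × ℝ => (b z.2).2)
        (((ContinuousLinearMap.smulRight (1 : ℝ →L[ℝ] ℝ) B)).comp
          (ContinuousLinearMap.snd ℝ ℝ ℝ)) (0 : ℝ × ℝ) := by
      have := hB.hasFDerivAt
      exact HasFDerivAt.comp (g := fun x => (b x).2) (f := fun z : ℝ × ℝ => z.2) (0 : ℝ × ℝ) this
        hasFDerivAt_snd
    have h3 := (h1.sub h2).isLittleO
    refine (h3.congr_left fun z => ?_).congr_right fun z => ?_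
    · simp [hY, ha0, hb0]
      ring
    · simp
  -- conclusion
  refine hZ h A B k hcont ?_ ?_ ?_ hk0 hAB ?_
  · intro x y
    simp only [hh, hap]
  · intro x y
    simp only [hh, hbp]
  · intro x y h0
    obtain ⟨α, β, hne, he⟩ := triv_dep hΩ (hpW x y) (hv1 x y) (hv2 x y) h0
    exact hab x y (indep ht (haE' x) (hbE' y) hne he)
  · intro δ hδ
    set C : ℝ := ‖A‖ + ‖B‖ with hC
    have hCn : 0 ≤ C := by positivity
    set ε : ℝ := δ / (‖k‖ + 1 + C) with hε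
    have hden : 0 < ‖k‖ + 1 + C := by positivity
    have hε0 : 0 < ε := by positivity
    have e1 : ∀ᶠ z : ℝ × ℝ in 𝓝 0, ‖κ z - k‖ < ε := by
      have := (tendsto_iff_norm_sub_tendsto_zero.1 hκlim).eventually (Iio_mem_nhds hε0)
      exact this
    have e2 : ∀ᶠ z : ℝ × ℝ in 𝓝 0, ‖κ z - k‖ < 1 :=
      (tendsto_iff_norm_sub_tendsto_zero.1 hκlim).eventually (Iio_mem_nhds one_pos)
    have e3 := hYlin.def hε0
    filter_upwards [e1, e2, e3, hfac] with z h1 h2 h3 h4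
    have hκn : ‖κ z‖ ≤ ‖k‖ + 1 := by
      calc ‖κ z‖ = ‖k + (κ z - k)‖ := by congr 1; ring
        _ ≤ ‖k‖ + ‖κ z - k‖ := norm_add_le _ _
        _ ≤ ‖k‖ + 1 := by linarith
    have hL : ‖A * z.1 - B * z.2‖ ≤ C * ‖z‖ := by
      calc ‖A * (z.1 : ℂ) - B * z.2‖ ≤ ‖A * (z.1 : ℂ)‖ + ‖B * (z.2 : ℂ)‖ := norm_sub_le _ _
        _ = ‖A‖ * ‖z.1‖ + ‖B‖ * ‖z.2‖ := by
          rw [norm_mul, norm_mul, Complex.norm_real, Complex.norm_real]
        _ ≤ ‖A‖ * ‖z‖ + ‖B‖ * ‖z‖ := by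
          gcongr
          · exact norm_fst_le z
          · exact norm_snd_le z
        _ = C * ‖z‖ := by rw [hC]; ring
    have hexp : h z - k * (A * z.1 - B * z.2) =
        κ z * (Y z - (A * z.1 - B * z.2)) + (κ z - k) * (A * z.1 - B * z.2) := by
      rw [h4]; ring
    rw [hexp]
    calc ‖κ z * (Y z - (A * z.1 - B * z.2)) + (κ z - k) * (A * z.1 - B * z.2)‖
        ≤ ‖κ z‖ * ‖Y z - (A * z.1 - B * z.2)‖ + ‖κ z - k‖ * ‖A * z.1 - B * z.2‖ := by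
          refine (norm_add_le _ _).trans ?_
          rw [norm_mul, norm_mul]
      _ ≤ (‖k‖ + 1) * (ε * ‖z‖) + ε * (C * ‖z‖) := by
          gcongr
      _ = ε * (‖k‖ + 1 + C) * ‖z‖ := by ring
      _ = δ * ‖z‖ := by
          rw [hε, div_mul_cancel₀ _ hden.ne']

end

end Pool.Agent.SteinFill
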