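import Pool.Agent.SteinFill.Spec
import Pool.Agent.Sqz.HolDeriv

/-!
# Stein fillings of branched covers: triviality along a path of almost complex structures
-/

namespace Pool.Agent.SteinFill

open scoped ContDiff
open Complex (I)

noncomputable section

namespace PathL

/-- The tangent space at a point of a complex submanifold is a real subspace. -/
theorem tan_submodule (hT : TTan) {N k : ℕ} {X : Set (CN N)} {p : CN N} (hp : p ∈ X)
    (h : IsComplexSubmanifoldAt k X p) : ∃ T : Submodule ℝ (CN N), Tan X p = T := by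
  obtain ⟨O, F, hO, hpO, hF, hX, hs⟩ := h
  have hFp : F p = 0 := (hX p hpO).1 hp
  have han : ContDiffAt ℂ ((1 : ℕ) : WithTop ℕ∞) F p := Sqz.Hol.contDiffAt hO hF hpO 1
  have hst : HasStrictFDerivAt F (fderiv ℂ F p) p := han.hasStrictFDerivAt (by simp)
  have hst' : HasStrictFDerivAt F ((fderiv ℂ F p).restrictScalars ℝ) p := hst.restrictScalars ℝ
  have key := hT (CN N) (CN k) F ((fderiv ℂ F p).restrictScalars ℝ) X p hst' (hs p hpO hp) hFp
    (by filter_upwards [hO.mem_nhds hpO] with q hq using hX q hq)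
  refine ⟨LinearMap.ker ((fderiv ℂ F p).restrictScalars ℝ : CN N →ₗ[ℝ] CN k), ?_⟩
  rw [key]
  ext v
  simp

/-- one step: if `J'` is close to `J` then triviality for `J` gives triviality for `J'` -/
theorem step {N : ℕ} {X W : Set (CN N)} (hTan : ∀ p ∈ W, ∃ T : Submodule ℝ (CN N), Tan X p = T)
    {J J' : CN N → CN N →L[ℝ] CN N} (hJc : ContinuousOn J W) (hJc' : ContinuousOn J' W)
    (hJ : ∀ p ∈ W, ∀ v ∈ Tan X p, J p v ∈ Tan X p ∧ J p (J p v) = -v)
    (hJ' : ∀ p ∈ W, ∀ v ∈ Tan X p, J' p v ∈ Tan X p ∧ J' p (J' p v) = -v)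
    (hclose : ∀ p ∈ W, ‖J p‖ * ‖J' p - J p‖ < 1)
    (h : TrivCan X W (fun p v => J p v)) : TrivCan X W (fun p v => J' p v) := by
  obtain ⟨Ω, hΩ⟩ := h
  set B : CN N → CN N →L[ℝ] CN N := fun p =>
    (1 / 2 : ℝ) • (ContinuousLinearMap.id ℝ (CN N) - (J p).comp (J' p)) with hB
  have hBv : ∀ p v, B p v = (1 / 2 : ℝ) • (v - J p (J' p v)) := fun p v => by simp [hB]
  have hBc : ContinuousOn B W := by
    have h1 : ContinuousOn (fun p => ContinuousLinearMap.id ℝ (CN N) - (J p).comp (J' p)) W :=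
      continuousOn_const.sub (hJc.clm_comp hJc')
    exact h1.const_smul (1 / 2 : ℝ)
  have hBT : ∀ p ∈ W, ∀ v ∈ Tan X p, B p v ∈ Tan X p := by
    intro p hp v hv
    obtain ⟨T, hT⟩ := hTan p hp
    have h1 := (hJ p hp _ (hJ' p hp v hv).1).1
    rw [hT] at hv h1 ⊢
    rw [hBv]
    exact T.smul_mem _ (T.sub_mem hv h1)
  have hBJ : ∀ p ∈ W, ∀ v ∈ Tan X p, B p (J' p v) = J p (B p v) := by
    intro p hp v hv
    have h1 := (hJ' p hp v hv).2
    have h2 := (hJ p hp _ (hJ' p hp v hv).1).2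
    rw [hBv, hBv, h1, map_smul, map_sub, h2, map_neg]
    congr 1
    abel
  have hinj : ∀ p ∈ W, ∀ v ∈ Tan X p, B p v = 0 → v = 0 := by
    intro p hp v hv h0
    have h1 := (hJ p hp v hv).2
    have h2 : v - J p (J' p v) = 0 := by
      rw [hBv] at h0
      have := (smul_eq_zero.1 h0).resolve_left (by norm_num)
      exact this
    have h3 : (2 : ℝ) • v = J p ((J' p - J p) v) := by
      have : J p (J' p v) = v := (sub_eq_zero.1 h2).symm
      have h4 : (J' p - J p) v = J' p v - J p v := rfl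
      rw [h4, map_sub, this, h1, two_smul]
      abel
    by_contra hne
    have hpos : 0 < ‖v‖ := norm_pos_iff.2 hne
    have h4 : ‖(2 : ℝ) • v‖ ≤ ‖J p‖ * ‖J' p - J p‖ * ‖v‖ := by
      rw [h3]
      calc ‖J p ((J' p - J p) v)‖ ≤ ‖J p‖ * ‖(J' p - J p) v‖ := (J p).le_opNorm _
        _ ≤ ‖J p‖ * (‖J' p - J p‖ * ‖v‖) :=
            mul_le_mul_of_nonneg_left ((J' p - J p).le_opNorm _) (norm_nonneg _)
        _ = ‖J p‖ * ‖J' p - J p‖ * ‖v‖ := by ring
    rw [norm_smul, Real.norm_eq_abs, abs_of_pos (by norm_num : (0 : ℝ) < 2)] at h4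
    have h5 := hclose p hp
    nlinarith
  refine ⟨fun p v w => Ω p (B p v) (B p w), ?_, ?_, ?_, ?_, ?_, ?_⟩
  · have h1 : ContinuousOn (fun x : CN N × CN N × CN N => (x.1, B x.1 x.2.1, B x.1 x.2.2))
        {x | x.1 ∈ W ∧ x.2.1 ∈ Tan X x.1 ∧ x.2.2 ∈ Tan X x.1} := by
      have hb : ContinuousOn (fun x : CN N × CN N × CN N => B x.1)
          {x | x.1 ∈ W ∧ x.2.1 ∈ Tan X x.1 ∧ x.2.2 ∈ Tan X x.1} :=
        hBc.comp continuousOn_fst (fun x hx => hx.1)
      refine continuousOn_fst.prodMk (ContinuousOn.prodMk ?_ ?_)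
      · exact hb.clm_apply (continuousOn_fst.comp continuousOn_snd (fun x _ => Set.mem_univ _))
      · exact hb.clm_apply (continuousOn_snd.comp continuousOn_snd (fun x _ => Set.mem_univ _))
    exact hΩ.cont.comp h1 (fun x hx => ⟨hx.1, hBT _ hx.1 _ hx.2.1, hBT _ hx.1 _ hx.2.2⟩)
  · intro p hp u hu v hv w hw
    simp only [map_add]
    exact hΩ.add p hp _ (hBT p hp u hu) _ (hBT p hp v hv) _ (hBT p hp w hw)
  · intro p hp v hv w hw a
    simp only [map_smul]
    exact hΩ.smul p hp _ (hBT p hp v hv) _ (hBT p hp w hw) a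
  · intro p hp v hv
    exact hΩ.alt p hp _ (hBT p hp v hv)
  · intro p hp v hv w hw
    rw [hBJ p hp v hv]
    exact hΩ.jlin p hp _ (hBT p hp v hv) _ (hBT p hp w hw)
  · intro p hp v hv w hw h0
    obtain ⟨a, b, c, d, hne, h1⟩ := hΩ.nondeg p hp _ (hBT p hp v hv) _ (hBT p hp w hw) h0
    refine ⟨a, b, c, d, hne, ?_⟩
    apply hinj p hp
    · obtain ⟨T, hT⟩ := hTan p hp
      have h2 := (hJ' p hp v hv).1
      have h3 := (hJ' p hp w hw).1
      rw [hT] at hv hw h2 h3 ⊢
      exact T.add_mem (T.add_mem (T.add_mem (T.smul_mem _ hv) (T.smul_mem _ h2))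
        (T.smul_mem _ hw)) (T.smul_mem _ h3)
    · simp only [map_add, map_smul]
      rw [hBJ p hp v hv, hBJ p hp w hw]
      exact h1

end PathL

open PathL in
theorem tPath (hT : TTan) : TPath := by
  intro N k X W U J hW hWX hWU hsub hJc hJ h0
  have hTan : ∀ p ∈ W, ∃ T : Submodule ℝ (CN N), Tan X p = T := fun p hp =>
    tan_submodule hT (hWX hp) (hsub p hp)
  -- uniform continuity on the compact set
  set K : Set (ℝ × CN N) := Set.Icc (0 : ℝ) 1 ×ˢ W with hK
  have hKc : IsCompact K := isCompact_Icc.prod hW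
  have hKcont : ContinuousOn (fun x : ℝ × CN N => J x.1 x.2) K :=
    hJc.mono (Set.prod_mono le_rfl hWU)
  obtain ⟨M, hM⟩ : ∃ M : ℝ, ∀ x ∈ K, ‖J x.1 x.2‖ ≤ M := hKc.exists_bound_of_continuousOn hKcont
  have huc := hKc.uniformContinuousOn_of_continuous hKcont
  rw [Metric.uniformContinuousOn_iff] at huc
  obtain ⟨η, hη, hη'⟩ := huc (1 / (|M| + 1)) (by positivity)
  obtain ⟨n, hn⟩ := exists_nat_one_div_lt hη
  have hslice : ∀ s ∈ Set.Icc (0 : ℝ) 1, ContinuousOn (fun p => J s p) W := by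
    intro s hs
    have : ContinuousOn (fun p : CN N => (s, p)) W := by fun_prop
    exact hKcont.comp this (fun p hp => ⟨hs, hp⟩)
  have hmem : ∀ i : ℕ, i ≤ n + 1 → ((i : ℝ) / (n + 1)) ∈ Set.Icc (0 : ℝ) 1 := by
    intro i hi
    constructor
    · positivity
    · rw [div_le_one (by positivity)]
      exact_mod_cast hi
  have key : ∀ i : ℕ, i ≤ n + 1 → TrivCan X W (fun p v => J ((i : ℝ) / (n + 1)) p v) := by
    intro i
    induction i with
    | zero => intro _; simpa using h0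
    | succ i ih =>
      intro hi
      have hi' : i ≤ n + 1 := by omega
      have hm := hmem i hi'
      have hm' := hmem (i + 1) hi
      refine step hTan (hslice _ hm) (hslice _ hm') (hJ _ hm) (hJ _ hm') ?_ (ih hi')
      intro p hp
      have h1 := hη' ((((i + 1 : ℕ) : ℝ) / (n + 1)), p) ⟨hm', hp⟩ ((i : ℝ) / (n + 1), p) ⟨hm, hp⟩ (by
        rw [Prod.dist_eq]
        simp only [dist_self]
        rw [max_eq_left dist_nonneg, Real.dist_eq]
        have : ((i + 1 : ℕ) : ℝ) / (n + 1) - (i : ℝ) / (n + 1) = 1 / (n + 1) := by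
          push_cast
          ring
        rw [this, abs_of_pos (by positivity)]
        exact hn)
      rw [dist_eq_norm] at h1
      have h2 := hM ((i : ℝ) / (n + 1), p) ⟨hm, hp⟩
      simp only at h1 h2
      have h3 : 0 < |M| + 1 := by positivity
      have h4 : ‖J ((i : ℝ) / (n + 1)) p‖ ≤ |M| + 1 := by
        linarith [le_abs_self M]
      calc ‖J ((i : ℝ) / (n + 1)) p‖ * ‖J (((i + 1 : ℕ) : ℝ) / (n + 1)) p - J ((i : ℝ) / (n + 1)) p‖
          ≤ (|M| + 1) * ‖J (((i + 1 : ℕ) : ℝ) / (n + 1)) p - J ((i : ℝ) / (n + 1)) p‖ :=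
            mul_le_mul_of_nonneg_right h4 (norm_nonneg _)
        _ < (|M| + 1) * (1 / (|M| + 1)) := mul_lt_mul_of_pos_left h1 h3
        _ = 1 := by field_simp
  have := key (n + 1) le_rfl
  have h1 : (((n + 1 : ℕ) : ℝ) / (n + 1)) = 1 := by
    push_cast
    field_simp
  rw [h1] at this
  exact this

end

end Pool.Agent.SteinFill
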