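import Pool.Agent.SteinFill.St

/-!
# Stein fillings of branched covers: the two sets of definitions agree
-/

namespace Pool.Agent.SteinFill.StConv

open scoped ContDiff
open Complex (I)

noncomputable section

variable {N N' : ℕ}

lemma sub_iff (k : ℕ) (X : Set (CN N)) (p : CN N) :
    St.IsComplexSubmanifoldAt k X p ↔ IsComplexSubmanifoldAt k X p := Iff.rfl

/-- from the new to the old structure -/
def old (D : St.SteinDomain N) : SteinDomain N where
  X := D.X
  φ := D.φ
  smooth := D.smooth
  compact := D.compact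
  surface := D.surface
  psh := D.psh
  regular := D.regular

/-- from the old to the new structure -/
def new (D : SteinDomain N) : St.SteinDomain N where
  X := D.X
  φ := D.φ
  smooth := D.smooth
  compact := D.compact
  surface := D.surface
  psh := D.psh
  regular := D.regular

@[simp] lemma old_new (D : SteinDomain N) : old (new D) = D := rfl

@[simp] lemma new_old (D : St.SteinDomain N) : new (old D) = D := rfl

lemma herm_eq (p v : CN N) : St.herm p v = inner ℂ p v := by
  rw [PiLp.inner_apply]
  unfold St.herm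
  refine Finset.sum_congr rfl fun j _ => ?_
  simp [mul_comm]

/-- curves -/
def oldC (C : St.ComplexCurve) : ComplexCurve where
  f := C.f
  U := C.U
  open_U := C.open_U
  ball_sub := fun p hp => C.ball_sub p (mem_closedBall_zero_iff.1 hp)
  holo := C.holo
  smooth := by
    intro p hp hf h0
    obtain ⟨v, hv⟩ := C.smooth p (mem_closedBall_zero_iff.1 hp) hf
    apply hv
    show fderiv ℂ C.f p v = 0
    rw [h0]
    rfl
  transverse := by
    intro p hp hf
    obtain ⟨v, hv, hv'⟩ := C.transverse p (mem_sphere_zero_iff_norm.1 hp) hf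
    rw [herm_eq] at hv'
    exact ⟨v, hv, hv'⟩

/-- curves -/
def newC (C : ComplexCurve) : St.ComplexCurve where
  f := C.f
  U := C.U
  open_U := C.open_U
  ball_sub := fun p hp => C.ball_sub (mem_closedBall_zero_iff.2 hp)
  holo := C.holo
  smooth := by
    intro p hp hf
    by_contra hcon
    push Not at hcon
    refine C.smooth p (mem_closedBall_zero_iff.2 hp) hf ?_
    ext v
    exact hcon v
  transverse := by
    intro p hp hf
    obtain ⟨v, hv, hv'⟩ := C.transverse p (mem_sphere_zero_iff_norm.2 hp) hf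
    refine ⟨v, hv, ?_⟩
    rw [herm_eq]
    exact hv'

@[simp] lemma oldC_newC (C : ComplexCurve) : oldC (newC C) = C := rfl

@[simp] lemma newC_oldC (C : St.ComplexCurve) : newC (oldC C) = C := rfl

lemma bd_newC (C : ComplexCurve) : (newC C).bd = C.bd := by
  ext p
  show (‖p‖ = 1 ∧ C.f p = 0) ↔ (p ∈ Metric.sphere (0 : CN 2) 1 ∧ C.f p = 0)
  rw [mem_sphere_zero_iff_norm]

lemma isKnot_iff (K : Set (CN 2)) : St.IsKnot K ↔ IsKnot K := Iff.rfl

lemma isBranchedCover_iff (C : St.ComplexCurve) (n : ℕ) (ε : ℝ) (D : St.SteinDomain 3) :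
    St.IsBranchedCover C n ε D ↔ IsBranchedCover (oldC C) n ε (old D) := Iff.rfl

lemma contactomorphic_of (D : SteinDomain N) (D' : SteinDomain N') (h : Contactomorphic D D') :
    St.Contactomorphic (new D) (new D') := by
  obtain ⟨g, g', U, U', h1, h2, h3, h4, h5, h6, h7, h8, h9, h10, h11⟩ := h
  exact ⟨g, g', U, U', ⟨h1, h2, h3, h4, h5, h6, fun p hp => ⟨h7 hp, h9 p hp⟩,
    fun q hq => ⟨h8 hq, h10 q hq⟩⟩, h11⟩

lemma contactomorphic_to (D : St.SteinDomain N) (D' : St.SteinDomain N')
    (h : St.Contactomorphic D D') : Contactomorphic (old D) (old D') := by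
  obtain ⟨g, g', U, U', h1, h2⟩ := h
  exact ⟨g, g', U, U', h1.open_U, h1.open_U', h1.sub, h1.sub', h1.smooth, h1.smooth',
    fun p hp => (h1.maps p hp).1, fun q hq => (h1.maps' q hq).1, fun p hp => (h1.maps p hp).2,
    fun q hq => (h1.maps' q hq).2, h2⟩

lemma filling_of (C : ComplexCurve) (n : ℕ) (V : SteinDomain N)
    (h : IsSteinFillingOfCover C n V) : St.IsSteinFillingOfCover (newC C) n (new V) := by
  obtain ⟨ε₀, h0, h1⟩ := h
  refine ⟨ε₀, h0, fun ε he hee => ?_⟩
  obtain ⟨D, hD, hc⟩ := h1 ε he hee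
  exact ⟨new D, hD, contactomorphic_of D V hc⟩

lemma mi_mi (v : CN N) : St.mi (St.mi v) = -v := by
  show I • I • v = -v
  rw [smul_smul, Complex.I_mul_I, neg_one_smul]

lemma deformation_to (D : St.SteinDomain N) (D' : St.SteinDomain N')
    (h : St.SteinDeformationEquivalent D D') :
    SteinDeformationEquivalent (old D) (old D') := by
  obtain ⟨g, g', U, U', J, Φ, h1, h2, h3⟩ := h
  exact ⟨{
    g := g
    g' := g'
    U := U
    U' := U'
    J := J
    Φ := Φ
    open_U := h1.open_U
    open_U' := h1.open_U'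
    W_sub := h1.W_sub
    W_sub' := h1.W_sub'
    smooth_g := h1.smooth_g
    smooth_g' := h1.smooth_g'
    mapsTo := h1.mapsTo
    mapsTo' := h1.mapsTo'
    image := h1.image
    smooth_J := h2.smooth_J
    smooth_Φ := h2.smooth_Φ
    J_tan := fun s hs p hp v hv => ⟨(h2.J_tan s hs p hp v hv).1,
      (h2.J_tan s hs p hp v hv).2.trans (mi_mi v)⟩
    J_zero := h3.J_zero
    J_one := h3.J_one
    Φ_zero := h3.Φ_zero
    Φ_one := h3.Φ_one
    sublevel := h2.sublevel
    regular := h2.regular
    stein := h2.stein }⟩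

end

end Pool.Agent.SteinFill.StConv
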