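import Pool.Agent.SteinFill.Spec

/-!
# The tangent space of a level set
-/

namespace Pool.Agent.SteinFill

open Filter Topology

theorem tTan : TTan := by
  intro E G _ _ _ _ _ _ F F' S p hF hsurj hp hS
  have hcE : CompleteSpace E := FiniteDimensional.complete ℝ E
  have hcG : CompleteSpace G := FiniteDimensional.complete ℝ G
  ext v
  constructor
  · rintro ⟨γ, hγ0, hγS, hγ⟩
    have h1 : HasDerivAt (fun s => F (γ s)) (F' v) 0 := by
      have hF' : HasFDerivAt F F' (γ 0) := by rw [hγ0]; exact hF.hasFDerivAt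
      exact hF'.comp_hasDerivAt 0 hγ
    have h2 : (fun s => F (γ s)) =ᶠ[𝓝 0] fun _ => (0 : G) := by
      have h3 : Tendsto γ (𝓝 0) (𝓝 p) := by
        have := hγ.continuousAt.tendsto
        rwa [hγ0] at this
      filter_upwards [hγS, h3.eventually hS] with s hs1 hs2
      exact hs2.1 hs1
    have h3 : HasDerivAt (fun s => F (γ s)) 0 0 :=
      (hasDerivAt_const (0 : ℝ) (0 : G)).congr_of_eventuallyEq h2
    exact h1.unique h3
  · intro hv
    have hv' : F' v = 0 := hv
    have hr : F'.range = ⊤ := LinearMap.range_eq_top.2 hsurj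
    have hv0 : v ∈ F'.ker := hv'
    set φ := hF.implicitFunction F F' hr with hφ
    have h1 : HasStrictFDerivAt (φ (F p)) F'.ker.subtypeL 0 := hF.to_implicitFunction hr
    have h2 := hF.map_implicitFunction_eq hr
    have h3 : φ (F p) 0 = p := hF.implicitFunction_apply_image hr
    have hlin : HasDerivAt (fun s : ℝ => s • (⟨v, hv0⟩ : F'.ker)) ⟨v, hv0⟩ 0 := by
      have := (hasDerivAt_id (0 : ℝ)).smul_const (⟨v, hv0⟩ : F'.ker)
      simpa using this
    have h0 : (0 : ℝ) • (⟨v, hv0⟩ : F'.ker) = 0 := zero_smul _ _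
    refine ⟨fun s => φ (F p) (s • ⟨v, hv0⟩), by simp only [h0, h3], ?_, ?_⟩
    · have ht : Tendsto (fun s : ℝ => (F p, s • (⟨v, hv0⟩ : F'.ker))) (𝓝 0) (𝓝 (F p, 0)) := by
        refine Tendsto.prodMk_nhds tendsto_const_nhds ?_
        have := hlin.continuousAt.tendsto
        rwa [h0] at this
      have ht2 : Tendsto (fun s : ℝ => φ (F p) (s • (⟨v, hv0⟩ : F'.ker))) (𝓝 0) (𝓝 p) := by
        have h4 := h1.hasFDerivAt.continuousAt.tendsto
        rw [h3] at h4
        refine h4.comp ?_
        have := hlin.continuousAt.tendsto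
        rwa [h0] at this
      filter_upwards [ht.eventually h2, ht2.eventually hS] with s hs1 hs2
      refine hs2.2 ?_
      have : F (φ (F p) (s • ⟨v, hv0⟩)) = F p := hs1
      rw [this, hp]
    · have h5 : HasFDerivAt (φ (F p)) F'.ker.subtypeL ((0 : ℝ) • (⟨v, hv0⟩ : F'.ker)) := by
        rw [h0]; exact h1.hasFDerivAt
      exact h5.comp_hasDerivAt 0 hlin

end Pool.Agent.SteinFill
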