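import Pool.Agent.SteinFill.Spec

/-!
# Uniform transversality of a family (TUnif)
-/

set_option autoImplicit false

namespace Pool.Agent.SteinFill

open scoped ContDiff Topology
open Filter

noncomputable section

namespace UnifL

/-- the complex derivative in the direction of the fibre is the real derivative of `F` -/
theorem fderiv_fib {N k : ℕ} {O : Set (CN N × ℝ)} {F : CN N × ℝ → CN k} (hO : IsOpen O)
    (hF : ContDiffOn ℝ ∞ F O) {r : CN N × ℝ} (hr : r ∈ O)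
    (hC : DifferentiableAt ℂ (fun p => F (p, r.2)) r.1) (v : CN N) :
    fderiv ℂ (fun p => F (p, r.2)) r.1 v = fderiv ℝ F r (v, 0) := by
  have h1 : HasFDerivAt F (fderiv ℝ F r) r :=
    ((hF.contDiffAt (hO.mem_nhds hr)).differentiableAt (by simp)).hasFDerivAt
  have h2 : HasFDerivAt (fun p : CN N => ((p, r.2) : CN N × ℝ))
      (ContinuousLinearMap.inl ℝ (CN N) ℝ) r.1 := by
    exact (hasFDerivAt_id r.1).prodMk (hasFDerivAt_const r.2 r.1)
  have h3 : HasFDerivAt (fun p => F (p, r.2))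
      ((fderiv ℝ F r).comp (ContinuousLinearMap.inl ℝ (CN N) ℝ)) r.1 := by
    exact HasFDerivAt.comp r.1 (by simpa using h1) h2
  have h4 : HasFDerivAt (fun p => F (p, r.2))
      ((fderiv ℂ (fun p => F (p, r.2)) r.1).restrictScalars ℝ) r.1 :=
    hC.hasFDerivAt.restrictScalars ℝ
  have h5 := h4.unique h3
  have h6 := congrArg (fun L : CN N →L[ℝ] CN k => L v) h5
  simpa using h6

/-- the map `(D_pF(r), ⟨r.1, ·⟩)` -/
def BB {N k : ℕ} (F : CN N × ℝ → CN k) (r : CN N × ℝ) : CN N →ₗ[ℂ] CN k × ℂ :=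
  LinearMap.prod (fderiv ℂ (fun p => F (p, r.2)) r.1).toLinearMap (innerₛₗ ℂ r.1)

theorem BB_apply {N k : ℕ} (F : CN N × ℝ → CN k) (r : CN N × ℝ) (v : CN N) :
    BB F r v = (fderiv ℂ (fun p => F (p, r.2)) r.1 v, inner ℂ r.1 v) := rfl

theorem local_bound {N k : ℕ} {O : Set (CN N × ℝ)} {F : CN N × ℝ → CN k} (hO : IsOpen O)
    (hF : ContDiffOn ℝ ∞ F O) (hC : ∀ r ∈ O, DifferentiableAt ℂ (fun p => F (p, r.2)) r.1)
    {r₀ : CN N × ℝ} (hr₀ : r₀ ∈ O)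
    (hs : ∀ (c : CN k) (a : ℂ), ∃ v, fderiv ℂ (fun p => F (p, r₀.2)) r₀.1 v = c ∧
      inner ℂ r₀.1 v = a) :
    ∃ C : ℝ, 0 ≤ C ∧ ∀ᶠ r in 𝓝 r₀, r ∈ O ∧ ∃ u, fderiv ℂ (fun p => F (p, r.2)) r.1 u = 0 ∧
      inner ℂ r.1 u = 1 ∧ ‖u‖ ≤ C := by
  have hsurj : Function.Surjective (BB F r₀) := by
    rintro ⟨c, a⟩
    obtain ⟨v, hv1, hv2⟩ := hs c a
    exact ⟨v, by rw [BB_apply, hv1, hv2]⟩
  obtain ⟨R, hR⟩ := LinearMap.exists_rightInverse_of_surjective (BB F r₀)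
    (LinearMap.range_eq_top.2 hsurj)
  set K : ℝ := ‖LinearMap.toContinuousLinearMap R‖ with hK
  have hK0 : 0 ≤ K := norm_nonneg _
  have hRb : ∀ x, ‖R x‖ ≤ K * ‖x‖ := fun x => (LinearMap.toContinuousLinearMap R).le_opNorm x
  refine ⟨2 * K, by positivity, ?_⟩
  have hcont : ContinuousAt (fun r => fderiv ℝ F r) r₀ :=
    (hF.continuousOn_fderiv_of_isOpen hO (by simp)).continuousAt (hO.mem_nhds hr₀)
  set η : ℝ := 1 / (2 * (K + 1)) with hη
  have hη0 : 0 < η := by positivity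
  have e1 : ∀ᶠ r in 𝓝 r₀, ‖fderiv ℝ F r - fderiv ℝ F r₀‖ < η := by
    have := Metric.continuousAt_iff'.1 hcont η hη0
    filter_upwards [this] with r hr
    rwa [dist_eq_norm] at hr
  have e2 : ∀ᶠ r in 𝓝 r₀, ‖r.1 - r₀.1‖ < η := by
    have := Metric.continuousAt_iff'.1 (continuous_fst.continuousAt (x := r₀)) η hη0
    filter_upwards [this] with r hr
    rwa [dist_eq_norm] at hr
  filter_upwards [e1, e2, hO.mem_nhds hr₀] with r h1 h2 h3
  refine ⟨h3, ?_⟩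
  -- the two maps are close
  have hclose : ∀ v, ‖BB F r₀ v - BB F r v‖ ≤ η * ‖v‖ := by
    intro v
    rw [BB_apply, BB_apply, Prod.mk_sub_mk, Prod.norm_mk, fderiv_fib hO hF h3 (hC r h3),
      fderiv_fib hO hF hr₀ (hC r₀ hr₀)]
    apply max_le
    · have h4 : fderiv ℝ F r₀ (v, 0) - fderiv ℝ F r (v, 0) =
          (fderiv ℝ F r₀ - fderiv ℝ F r) (v, 0) := rfl
      rw [h4]
      refine ((fderiv ℝ F r₀ - fderiv ℝ F r).le_opNorm _).trans ?_
      have h5 : ‖((v, 0) : CN N × ℝ)‖ = ‖v‖ := by simp [Prod.norm_mk]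
      rw [h5, ← norm_neg, neg_sub]
      exact mul_le_mul_of_nonneg_right h1.le (norm_nonneg _)
    · rw [← inner_sub_left]
      refine (norm_inner_le_norm _ _).trans ?_
      rw [← norm_neg, neg_sub]
      exact mul_le_mul_of_nonneg_right h2.le (norm_nonneg _)
  set T : (CN k × ℂ) →ₗ[ℂ] (CN k × ℂ) := (BB F r).comp R with hT
  have hTx : ∀ x, ‖x‖ ≤ 2 * ‖T x‖ := by
    intro x
    have h4 : BB F r₀ (R x) = x := by
      have := congrArg (fun L : (CN k × ℂ) →ₗ[ℂ] (CN k × ℂ) => L x) hR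
      simpa using this
    have h5 := hclose (R x)
    rw [h4] at h5
    have h6 : ‖x‖ ≤ ‖x - T x‖ + ‖T x‖ := by
      have := norm_add_le (x - T x) (T x)
      simpa using this
    have h7 : ‖x - T x‖ ≤ η * (K * ‖x‖) :=
      h5.trans (mul_le_mul_of_nonneg_left (hRb x) hη0.le)
    have h8 : η * (K * ‖x‖) ≤ ‖x‖ / 2 := by
      have h9 : η * K ≤ 1 / 2 := by
        rw [hη, div_mul_eq_mul_div, one_mul, div_le_iff₀ (by positivity)]
        linarith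
      have := mul_le_mul_of_nonneg_right h9 (norm_nonneg x)
      linarith
    linarith
  have hinj : Function.Injective T := by
    rw [← LinearMap.ker_eq_bot, LinearMap.ker_eq_bot']
    intro x hx
    have := hTx x
    rw [hx, norm_zero, mul_zero] at this
    exact norm_le_zero_iff.1 this
  have hsur : Function.Surjective T := LinearMap.injective_iff_surjective.1 hinj
  obtain ⟨x, hx⟩ := hsur (0, 1)
  have hx2 : BB F r (R x) = (0, 1) := hx
  rw [BB_apply] at hx2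
  refine ⟨R x, congrArg Prod.fst hx2, congrArg Prod.snd hx2, ?_⟩
  have h4 := hTx x
  rw [hx] at h4
  have h5 : ‖((0, 1) : CN k × ℂ)‖ = 1 := by simp [Prod.norm_mk]
  rw [h5] at h4
  have h6 := hRb x
  nlinarith

end UnifL

/-- TUnif -/
theorem tUnif (hL : TLocal) : TUnif := by
  intro N k X hX
  have hcpt := hX.compact
  set P : Set (CN N × ℝ) → Prop := fun s => ∃ C : ℝ, 0 ≤ C ∧ ∀ r ∈ s, r ∈ X → ‖r.1‖ = 1 →
    r.2 ∈ Set.Icc (-1 : ℝ) 2 → ∃ u ∈ Tan (slice X r.2) r.1, inner ℂ r.1 u = 1 ∧ ‖u‖ ≤ C with hP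
  have h : P {r | r ∈ X ∧ ‖r.1‖ = 1 ∧ r.2 ∈ Set.Icc (-1 : ℝ) 2} := by
    refine hcpt.induction_on (p := P) ?_ ?_ ?_ ?_
    · exact ⟨0, le_rfl, fun r hr => absurd hr (Set.notMem_empty r)⟩
    · rintro s t hst ⟨C, hC0, hC⟩
      exact ⟨C, hC0, fun r hr => hC r (hst hr)⟩
    · rintro s t ⟨C, hC0, hC⟩ ⟨D, hD0, hD⟩
      refine ⟨max C D, le_max_of_le_left hC0, ?_⟩
      rintro r (hr | hr) h1 h2 h3
      · obtain ⟨u, hu, hu1, hu2⟩ := hC r hr h1 h2 h3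
        exact ⟨u, hu, hu1, hu2.trans (le_max_left _ _)⟩
      · obtain ⟨u, hu, hu1, hu2⟩ := hD r hr h1 h2 h3
        exact ⟨u, hu, hu1, hu2.trans (le_max_right _ _)⟩
    · rintro r₀ ⟨h1, h2, h3⟩
      obtain ⟨O, F, hO, hr₀, hF, hC, hXO, hs, hT⟩ :=
        hL N k X r₀ h1 h2 (hX.loc r₀ h1 h2 h3)
      obtain ⟨C, hC0, hC'⟩ := UnifL.local_bound hO hF hC hr₀ (hs r₀ hr₀)
      refine ⟨{r | r ∈ O ∧ ∃ u, fderiv ℂ (fun p => F (p, r.2)) r.1 u = 0 ∧
        inner ℂ r.1 u = 1 ∧ ‖u‖ ≤ C}, mem_nhdsWithin_of_mem_nhds hC', C, hC0, ?_⟩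
      rintro r ⟨hrO, u, hu, hu1, hu2⟩ hrX _ _
      refine ⟨u, ?_, hu1, hu2⟩
      rw [(hT r hrO hrX).2.1]
      exact hu
  obtain ⟨C, hC0, hC⟩ := h
  exact ⟨C, hC0, fun r hr h1 h2 => hC r ⟨hr, h1, h2⟩ hr h1 h2⟩

end

end Pool.Agent.SteinFill
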