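import Pool.Agent.SteinFill.Spec

/-!
# A function on the torus cannot have exactly one zero, of index one
-/

namespace Pool.Agent.SteinFill

open Set Complex

/-- Continuous logarithm on an open convex set of the plane. -/
theorem zeroLogOn {U : Set (ℝ × ℝ)} (hU : Convex ℝ U) (hUn : U.Nonempty) (hUo : IsOpen U)
    {g : ℝ × ℝ → ℂ} (hg : Continuous g) (h0 : ∀ p ∈ U, g p ≠ 0) :
    ∃ f : ℝ × ℝ → ℂ, ContinuousOn f U ∧ ∀ p ∈ U, exp (f p) = g p := by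
  have : ContractibleSpace U := hU.contractibleSpace hUn
  have hs : IsSimplyConnected U := SimplyConnectedSpace.ofContractible U
  obtain ⟨f, hf, hf'⟩ := exists_continuousOn_eqOn_exp_comp hs hUo (g := g) hg.continuousOn
    (by rintro ⟨p, hp, hp0⟩; exact h0 p hp hp0)
  exact ⟨f, hf, fun p hp => hf' hp⟩

/-- Two continuous logarithms on a preconnected set differ by a constant in `2πi ℤ`. -/
theorem zeroLogConst {X : Type*} [TopologicalSpace X] {U : Set X} (hU : IsPreconnected U)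
    (hUn : U.Nonempty) {f g : X → ℂ} (hf : ContinuousOn f U) (hg : ContinuousOn g U)
    (h : ∀ p ∈ U, exp (f p) = exp (g p)) :
    ∃ n : ℤ, ∀ p ∈ U, f p = g p + n * (2 * Real.pi * I) := by
  obtain ⟨p₀, hp₀⟩ := hUn
  obtain ⟨n, hn⟩ := exp_eq_exp_iff_exists_int.1 (h p₀ hp₀)
  refine ⟨n, ?_⟩
  have key : EqOn f (fun p => g p + n * (2 * Real.pi * I)) U := by
    refine isCoveringMap_exp.eqOn_of_comp_eqOn hU hf (by fun_prop) ?_ hp₀ hn
    intro p hp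
    simp only [Function.comp_apply, Subtype.mk.injEq]
    rw [h p hp, exp_add, exp_int_mul_two_pi_mul_I, mul_one]
  exact key


/-- A doubly periodic function whose zeros are lattice points has a continuous logarithm on the
punctured square. -/
theorem zeroGlobalLog (h : ℝ × ℝ → ℂ) (hc : Continuous h)
    (hx : ∀ x y, h (x + 1, y) = h (x, y)) (hy : ∀ x y, h (x, y + 1) = h (x, y))
    (hz : ∀ x y : ℝ, h (x, y) = 0 → (∃ m : ℤ, x = m) ∧ (∃ n : ℤ, y = n)) :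
    ∃ Λ : ℝ × ℝ → ℂ, ContinuousOn Λ ((Ioo (-1) 1 ×ˢ Ioo (-1) 1) \ {0}) ∧
      ∀ p ∈ (Ioo (-1 : ℝ) 1 ×ˢ Ioo (-1 : ℝ) 1) \ {(0 : ℝ × ℝ)}, exp (Λ p) = h p := by
  have noint : ∀ t : ℝ, 0 < t → t < 1 → ¬ ∃ m : ℤ, t = m := by
    rintro t h0 h1 ⟨m, rfl⟩
    have h2 : (0 : ℤ) < m := by exact_mod_cast h0
    have h3 : m < 1 := by exact_mod_cast h1
    omega
  -- logarithm on the horizontal strip
  obtain ⟨L, hLc, hL⟩ := zeroLogOn (U := (univ : Set ℝ) ×ˢ Ioo (0 : ℝ) 1)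
    (convex_univ.prod (convex_Ioo 0 1)) ⟨(0, 1 / 2), by norm_num⟩ (isOpen_univ.prod isOpen_Ioo) hc
    (by
      rintro ⟨x, y⟩ ⟨-, hy0, hy1⟩ h0
      exact noint y hy0 hy1 (hz x y h0).2)
  obtain ⟨M, hMc, hM⟩ := zeroLogOn (U := Ioo (0 : ℝ) 1 ×ˢ (univ : Set ℝ))
    ((convex_Ioo 0 1).prod convex_univ) ⟨(1 / 2, 0), by norm_num⟩ (isOpen_Ioo.prod isOpen_univ) hc
    (by
      rintro ⟨x, y⟩ ⟨⟨hx0, hx1⟩, -⟩ h0
      exact noint x hx0 hx1 (hz x y h0).1)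
  -- the three constants
  obtain ⟨n, hn⟩ := zeroLogConst (U := (univ : Set ℝ) ×ˢ Ioo (0 : ℝ) 1)
    (f := fun p => L (p.1 + 1, p.2)) (g := L)
    (convex_univ.prod (convex_Ioo 0 1)).isPreconnected ⟨(0, 1 / 2), by norm_num⟩
    (hLc.comp (by fun_prop) (by rintro ⟨x, y⟩ ⟨-, h1⟩; exact ⟨mem_univ _, h1⟩)) hLc
    (by
      rintro ⟨x, y⟩ ⟨-, h1⟩
      rw [hL (x + 1, y) ⟨mem_univ _, h1⟩, hL (x, y) ⟨mem_univ _, h1⟩, hx])
  obtain ⟨a, ha⟩ := zeroLogConst (U := Ioo (0 : ℝ) 1 ×ˢ Ioo (0 : ℝ) 1)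
    (f := L) (g := M)
    ((convex_Ioo 0 1).prod (convex_Ioo 0 1)).isPreconnected ⟨(1 / 2, 1 / 2), by norm_num⟩
    (hLc.mono (by rintro ⟨x, y⟩ ⟨-, h1⟩; exact ⟨mem_univ _, h1⟩))
    (hMc.mono (by rintro ⟨x, y⟩ ⟨h1, -⟩; exact ⟨h1, mem_univ _⟩))
    (by
      rintro ⟨x, y⟩ ⟨h1, h2⟩
      rw [hL (x, y) ⟨mem_univ _, h2⟩, hM (x, y) ⟨h1, mem_univ _⟩])
  obtain ⟨b, hb⟩ := zeroLogConst (U := Ioo (0 : ℝ) 1 ×ˢ Ioo (-1 : ℝ) 0)
    (f := fun p => L (p.1, p.2 + 1)) (g := M)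
    ((convex_Ioo 0 1).prod (convex_Ioo (-1) 0)).isPreconnected ⟨(1 / 2, -1 / 2), by norm_num⟩
    (hLc.comp (by fun_prop) (by
      rintro ⟨x, y⟩ ⟨-, h1, h2⟩
      exact ⟨mem_univ _, by dsimp at *; linarith, by dsimp at *; linarith⟩))
    (hMc.mono (by rintro ⟨x, y⟩ ⟨h1, -⟩; exact ⟨h1, mem_univ _⟩))
    (by
      rintro ⟨x, y⟩ ⟨h1, h2, h3⟩
      dsimp at h2 h3
      rw [hL (x, y + 1) ⟨mem_univ _, by constructor <;> dsimp <;> linarith⟩,
        hM (x, y) ⟨h1, mem_univ _⟩, hy])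
  set T : ℂ := 2 * Real.pi * I with hT
  have expT : ∀ (w : ℂ) (m : ℤ), exp (w + m * T) = exp w := by
    intro w m
    rw [exp_add, hT, exp_int_mul_two_pi_mul_I, mul_one]
  let Λ : ℝ × ℝ → ℂ := fun p =>
    if 0 < p.2 then L p else if p.2 < 0 then L (p.1, p.2 + 1) + ((a - b : ℤ) : ℂ) * T
    else if 0 < p.1 then M p + (a : ℂ) * T else M (p.1 + 1, p.2) + ((a - n : ℤ) : ℂ) * T
  have E1 : ∀ p : ℝ × ℝ, 0 < p.2 → Λ p = L p := fun p hp => by simp [Λ, hp]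
  have E2 : ∀ p : ℝ × ℝ, p.2 < 0 → Λ p = L (p.1, p.2 + 1) + ((a - b : ℤ) : ℂ) * T :=
    fun p hp => by simp only [Λ]; rw [if_neg (by linarith), if_pos hp]
  have E3 : ∀ p : ℝ × ℝ, 0 < p.1 → p.1 < 1 → -1 < p.2 → p.2 < 1 → Λ p = M p + (a : ℂ) * T := by
    rintro ⟨x, y⟩ h1 h2 h3 h4
    dsimp only at h1 h2 h3 h4
    rcases lt_trichotomy y 0 with h | h | h
    · rw [E2 (x, y) h]
      have := hb (x, y) ⟨⟨h1, h2⟩, h3, h⟩
      dsimp only at this ⊢
      rw [this]; push_cast; ring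
    · simp only [Λ]
      rw [if_neg (by linarith), if_neg (by linarith), if_pos h1]
    · rw [E1 (x, y) h]
      exact ha (x, y) ⟨⟨h1, h2⟩, h, h4⟩
  have E4 : ∀ p : ℝ × ℝ, -1 < p.1 → p.1 < 0 → -1 < p.2 → p.2 < 1 →
      Λ p = M (p.1 + 1, p.2) + ((a - n : ℤ) : ℂ) * T := by
    rintro ⟨x, y⟩ h1 h2 h3 h4
    dsimp only at h1 h2 h3 h4
    rcases lt_trichotomy y 0 with h | h | h
    · rw [E2 (x, y) h]
      have e1 := hb (x + 1, y) ⟨⟨by dsimp; linarith, by dsimp; linarith⟩, h3, h⟩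
      have e2 := hn (x, y + 1) ⟨mem_univ _, by dsimp; linarith, by dsimp; linarith⟩
      dsimp only at e1 e2 ⊢
      rw [e1] at e2
      have e3 : L (x, y + 1) = M (x + 1, y) + (b : ℂ) * T - (n : ℂ) * T := by
        rw [e2]; ring
      rw [e3]; push_cast; ring
    · simp only [Λ]
      rw [if_neg (by linarith), if_neg (by linarith), if_neg (by linarith)]
    · rw [E1 (x, y) h]
      have e1 := ha (x + 1, y) ⟨⟨by dsimp; linarith, by dsimp; linarith⟩, h, h4⟩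
      have e2 := hn (x, y) ⟨mem_univ _, h, h4⟩
      dsimp only at e1 e2 ⊢
      rw [e1] at e2
      have e3 : L (x, y) = M (x + 1, y) + (a : ℂ) * T - (n : ℂ) * T := by
        rw [e2]; ring
      rw [e3]; push_cast; ring
  refine ⟨Λ, ?_, ?_⟩
  · rintro ⟨x, y⟩ ⟨⟨⟨h1, h2⟩, h3, h4⟩, h5⟩
    dsimp only at h1 h2 h3 h4
    apply ContinuousAt.continuousWithinAt
    rcases lt_trichotomy y 0 with h | h | h
    · have hU : IsOpen ((univ : Set ℝ) ×ˢ Ioo (-1 : ℝ) 0) := isOpen_univ.prod isOpen_Ioo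
      have hmem : (x, y) ∈ (univ : Set ℝ) ×ˢ Ioo (-1 : ℝ) 0 := ⟨mem_univ _, h3, h⟩
      have hcont : ContinuousOn (fun p : ℝ × ℝ => L (p.1, p.2 + 1) + ((a - b : ℤ) : ℂ) * T)
          ((univ : Set ℝ) ×ˢ Ioo (-1 : ℝ) 0) := by
        refine ContinuousOn.add (hLc.comp (by fun_prop) ?_) continuousOn_const
        rintro ⟨x, y⟩ ⟨-, h1, h2⟩
        exact ⟨mem_univ _, by dsimp at *; linarith, by dsimp at *; linarith⟩
      exact (hcont.congr fun p hp => E2 p hp.2.2).continuousAt (hU.mem_nhds hmem)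
    · subst h
      rcases lt_trichotomy x 0 with h | h | h
      · have hU : IsOpen (Ioo (-1 : ℝ) 0 ×ˢ Ioo (-1 : ℝ) 1) := isOpen_Ioo.prod isOpen_Ioo
        have hmem : (x, (0 : ℝ)) ∈ Ioo (-1 : ℝ) 0 ×ˢ Ioo (-1 : ℝ) 1 := ⟨⟨h1, h⟩, h3, h4⟩
        have hcont : ContinuousOn (fun p : ℝ × ℝ => M (p.1 + 1, p.2) + ((a - n : ℤ) : ℂ) * T)
            (Ioo (-1 : ℝ) 0 ×ˢ Ioo (-1 : ℝ) 1) := by
          refine ContinuousOn.add (hMc.comp (by fun_prop) ?_) continuousOn_const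
          rintro ⟨x, y⟩ ⟨⟨h1, h2⟩, -⟩
          exact ⟨⟨by dsimp at *; linarith, by dsimp at *; linarith⟩, mem_univ _⟩
        exact (hcont.congr fun p hp => E4 p hp.1.1 hp.1.2 hp.2.1 hp.2.2).continuousAt
          (hU.mem_nhds hmem)
      · subst h
        exact absurd rfl h5
      · have hU : IsOpen (Ioo (0 : ℝ) 1 ×ˢ Ioo (-1 : ℝ) 1) := isOpen_Ioo.prod isOpen_Ioo
        have hmem : (x, (0 : ℝ)) ∈ Ioo (0 : ℝ) 1 ×ˢ Ioo (-1 : ℝ) 1 := ⟨⟨h, h2⟩, h3, h4⟩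
        have hcont : ContinuousOn (fun p : ℝ × ℝ => M p + (a : ℂ) * T)
            (Ioo (0 : ℝ) 1 ×ˢ Ioo (-1 : ℝ) 1) := by
          refine ContinuousOn.add (hMc.mono ?_) continuousOn_const
          rintro ⟨x, y⟩ ⟨h1, -⟩
          exact ⟨h1, mem_univ _⟩
        exact (hcont.congr fun p hp => E3 p hp.1.1 hp.1.2 hp.2.1 hp.2.2).continuousAt
          (hU.mem_nhds hmem)
    · have hU : IsOpen ((univ : Set ℝ) ×ˢ Ioo (0 : ℝ) 1) := isOpen_univ.prod isOpen_Ioo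
      have hmem : (x, y) ∈ (univ : Set ℝ) ×ˢ Ioo (0 : ℝ) 1 := ⟨mem_univ _, h, h4⟩
      exact (hLc.congr fun p hp => E1 p hp.2.1).continuousAt (hU.mem_nhds hmem)
  · rintro ⟨x, y⟩ ⟨⟨⟨h1, h2⟩, h3, h4⟩, h5⟩
    dsimp only at h1 h2 h3 h4
    rcases lt_trichotomy y 0 with h | h | h
    · rw [E2 (x, y) h, expT, hL _ ⟨mem_univ _, by dsimp; linarith, by dsimp; linarith⟩, hy]
    · subst h
      rcases lt_trichotomy x 0 with h | h | h
      · rw [E4 (x, 0) h1 h h3 h4, expT, hM _ ⟨⟨by dsimp; linarith, by dsimp; linarith⟩, mem_univ _⟩,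
          hx]
      · subst h
        exact absurd rfl h5
      · rw [E3 (x, 0) h h2 h3 h4, expT, hM _ ⟨⟨h, h2⟩, mem_univ _⟩]
    · rw [E1 (x, y) h, hL _ ⟨mem_univ _, h, h4⟩]

/-- TZero. -/
theorem tZero : TZero := by
  intro h A B k hc hx hy hz hk hAB hloc
  obtain ⟨Λ, hΛc, hΛ⟩ := zeroGlobalLog h hc hx hy hz
  set d : ℝ := (starRingEnd ℂ A * B).im with hd
  -- the inverse of `(x, y) ↦ A x - B y`
  let Ψ : ℂ → ℝ × ℝ := fun w =>
    (-(starRingEnd ℂ B * w).im / d, -(starRingEnd ℂ A * w).im / d)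
  have hΨc : Continuous Ψ := by
    simp only [Ψ]
    fun_prop
  have hd' : d = A.re * B.im - A.im * B.re := by
    rw [hd]; simp only [mul_im, conj_re, conj_im]; ring
  have hΨ : ∀ w : ℂ, A * ((Ψ w).1 : ℂ) - B * ((Ψ w).2 : ℂ) = w := by
    intro w
    apply Complex.ext
    · simp only [Ψ, sub_re, mul_re, ofReal_re, ofReal_im, mul_im, conj_re, conj_im]
      field_simp
      rw [hd']; ring
    · simp only [Ψ, sub_im, ofReal_re, ofReal_im, mul_im, conj_re, conj_im]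
      field_simp
      rw [hd']; ring
  set C : ℝ := (‖A‖ + ‖B‖ + 1) / |d| with hC
  have hdpos : 0 < |d| := abs_pos.2 hAB
  have hCpos : 0 < C := by positivity
  have hΨn : ∀ w : ℂ, ‖Ψ w‖ ≤ C * ‖w‖ := by
    intro w
    have h1 : ‖(Ψ w).1‖ ≤ C * ‖w‖ := by
      simp only [Ψ, Real.norm_eq_abs, abs_div, abs_neg]
      rw [hC, div_mul_eq_mul_div]
      refine div_le_div_of_nonneg_right ?_ hdpos.le
      refine (Complex.abs_im_le_norm _).trans ?_
      rw [norm_mul, RCLike.norm_conj]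
      have := norm_nonneg A; have := norm_nonneg w
      nlinarith [norm_nonneg B]
    have h2 : ‖(Ψ w).2‖ ≤ C * ‖w‖ := by
      simp only [Ψ, Real.norm_eq_abs, abs_div, abs_neg]
      rw [hC, div_mul_eq_mul_div]
      refine div_le_div_of_nonneg_right ?_ hdpos.le
      refine (Complex.abs_im_le_norm _).trans ?_
      rw [norm_mul, RCLike.norm_conj]
      have := norm_nonneg B; have := norm_nonneg w
      nlinarith [norm_nonneg A]
    rw [Prod.norm_def]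
    exact max_le h1 h2
  have hkn : 0 < ‖k‖ := norm_pos_iff.2 hk
  obtain ⟨r, hr, hball⟩ := Metric.eventually_nhds_iff.1 (hloc (‖k‖ / (2 * C)) (by positivity))
  -- choose the radius of the circle
  set e : ℝ := min (r / (2 * C)) (1 / (2 * C)) with he
  have hepos : 0 < e := by positivity
  have he1 : C * e < r := by
    have : e ≤ r / (2 * C) := min_le_left _ _
    calc C * e ≤ C * (r / (2 * C)) := by gcongr
      _ = r / 2 := by field_simp
      _ < r := by linarith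
  have he2 : C * e < 1 := by
    have : e ≤ 1 / (2 * C) := min_le_right _ _
    calc C * e ≤ C * (1 / (2 * C)) := by gcongr
      _ = 1 / 2 := by field_simp
      _ < 1 := by norm_num
  let w : ℝ → ℂ := fun θ => (e : ℂ) * exp (θ * I)
  have hwc : Continuous w := by simp only [w]; fun_prop
  have hwn : ∀ θ, ‖w θ‖ = e := by
    intro θ
    simp only [w, norm_mul, norm_real, Real.norm_eq_abs, abs_of_pos hepos,
      Complex.norm_exp_ofReal_mul_I, mul_one]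
  have hw0 : ∀ θ, w θ ≠ 0 := fun θ h0 => by
    have := hwn θ; rw [h0, norm_zero] at this; linarith
  have hmem : ∀ θ, Ψ (w θ) ∈ (Ioo (-1 : ℝ) 1 ×ˢ Ioo (-1 : ℝ) 1) \ {(0 : ℝ × ℝ)} := by
    intro θ
    have h1 : ‖Ψ (w θ)‖ < 1 := ((hΨn _).trans_eq (by rw [hwn])).trans_lt he2
    have h2 : |(Ψ (w θ)).1| < 1 := (norm_fst_le (Ψ (w θ))).trans_lt h1
    have h3 : |(Ψ (w θ)).2| < 1 := (norm_snd_le (Ψ (w θ))).trans_lt h1
    refine ⟨⟨abs_lt.1 h2, abs_lt.1 h3⟩, ?_⟩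
    intro h4
    rw [mem_singleton_iff] at h4
    have h5 := hΨ (w θ)
    rw [h4] at h5
    simp only [Prod.fst_zero, Prod.snd_zero, ofReal_zero, mul_zero, sub_zero] at h5
    exact hw0 θ h5.symm
  have hclose : ∀ θ, ‖h (Ψ (w θ)) / (k * w θ) - 1‖ ≤ 1 / 2 := by
    intro θ
    have h1 : dist (Ψ (w θ)) 0 < r := by
      rw [dist_zero_right]
      exact ((hΨn _).trans_eq (by rw [hwn])).trans_lt he1
    have h2 := hball h1
    rw [hΨ] at h2
    have hkw : k * w θ ≠ 0 := mul_ne_zero hk (hw0 θ)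
    rw [div_sub_one hkw, norm_div, div_le_iff₀ (norm_pos_iff.2 hkw), norm_mul]
    calc ‖h (Ψ (w θ)) - k * w θ‖ ≤ ‖k‖ / (2 * C) * ‖Ψ (w θ)‖ := h2
      _ ≤ ‖k‖ / (2 * C) * (C * ‖w θ‖) := by gcongr; exact hΨn _
      _ = 1 / 2 * (‖k‖ * ‖w θ‖) := by field_simp
  have hslit : ∀ θ, h (Ψ (w θ)) / (k * w θ) ∈ slitPlane := by
    intro θ
    left
    have h1 := (Complex.abs_re_le_norm (h (Ψ (w θ)) / (k * w θ) - 1)).trans (hclose θ)
    rw [sub_re, one_re, abs_le] at h1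
    linarith [h1.1]
  let G : ℝ → ℂ := fun θ => Λ (Ψ (w θ)) - log (h (Ψ (w θ)) / (k * w θ))
  have hGc : Continuous G := by
    have h1 : Continuous fun θ => Λ (Ψ (w θ)) := by
      rw [continuous_iff_continuousAt]
      intro θ
      have hopen : IsOpen ((Ioo (-1 : ℝ) 1 ×ˢ Ioo (-1 : ℝ) 1) \ {(0 : ℝ × ℝ)}) :=
        (isOpen_Ioo.prod isOpen_Ioo).sdiff isClosed_singleton
      have h2 := hΛc.continuousAt (hopen.mem_nhds (hmem θ))
      exact ContinuousAt.comp (f := fun θ => Ψ (w θ)) h2 (hΨc.comp hwc).continuousAt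
    refine h1.sub ?_
    refine Continuous.clog ?_ hslit
    exact (hc.comp (hΨc.comp hwc)).div (continuous_const.mul hwc)
      fun θ => mul_ne_zero hk (hw0 θ)
  obtain ⟨n, hn⟩ := zeroLogConst (U := (univ : Set ℝ)) (f := G)
    (g := fun θ : ℝ => log (k * e) + θ * I) isPreconnected_univ ⟨0, mem_univ _⟩
    hGc.continuousOn (by fun_prop) (by
      intro θ _
      have hkw : k * w θ ≠ 0 := mul_ne_zero hk (hw0 θ)
      have hhn : h (Ψ (w θ)) ≠ 0 := by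
        rw [← hΛ _ (hmem θ)]; exact exp_ne_zero _
      have hke : k * (e : ℂ) ≠ 0 := mul_ne_zero hk (ofReal_ne_zero.2 hepos.ne')
      simp only [G]
      rw [exp_sub, hΛ _ (hmem θ), exp_log (div_ne_zero hhn hkw), exp_add, exp_log hke]
      simp only [w] at hkw hhn ⊢
      field_simp)
  have hper : w (2 * Real.pi) = w 0 := by
    simp only [w]
    push_cast
    rw [exp_two_pi_mul_I, zero_mul, exp_zero]
  have e1 := hn (2 * Real.pi) (mem_univ _)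
  have e2 := hn 0 (mem_univ _)
  have e3 : G (2 * Real.pi) = G 0 := by simp only [G, hper]
  rw [e3, e2] at e1
  have e4 : (2 * Real.pi : ℂ) * I = 0 := by
    push_cast at e1
    linear_combination -e1
  exact two_pi_I_ne_zero e4

end Pool.Agent.SteinFill
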