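import Mathlib

/-!
# Stein fillings of cyclic branched covers along quasipositive knots (MP_be6ab7_gt): definitions

All objects live in `ℂ^N`.  A *Stein domain* is a compact sublevel set `{φ ≤ 0}` of a strictly
plurisubharmonic function on a complex surface embedded in `ℂ^N`; its boundary `{φ = 0}` carries
the contact structure of complex tangencies.
-/

namespace Pool.Agent.SteinFill

open scoped ContDiff
open Complex (I)

noncomputable section

/-- `ℂ^N` with its standard Hermitian structure. -/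
abbrev CN (N : ℕ) : Type := EuclideanSpace ℂ (Fin N)

/-- Velocities at `p` of curves contained in `S` (near time `0`).  If `S` is a submanifold this
is the tangent space `T_p S`. -/
def Tan {E : Type} [NormedAddCommGroup E] [NormedSpace ℝ E] (S : Set E) (p : E) : Set E :=
  {v | ∃ γ : ℝ → E, γ 0 = p ∧ (∀ᶠ s in nhds (0 : ℝ), γ s ∈ S) ∧ HasDerivAt γ v 0}

/-- `X ⊂ ℂ^N` is, near its point `p`, a complex submanifold of codimension `k`:  on an
open set `O` around `p`, `X` is the zero set of a holomorphic map to `ℂ^k` whose complex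
derivative is surjective at the points of `X ∩ O`. -/
def IsComplexSubmanifoldAt {N : ℕ} (k : ℕ) (X : Set (CN N)) (p : CN N) : Prop :=
  ∃ (O : Set (CN N)) (F : CN N → CN k), IsOpen O ∧ p ∈ O ∧ DifferentiableOn ℂ F O ∧
    (∀ q ∈ O, q ∈ X ↔ F q = 0) ∧ ∀ q ∈ O, q ∈ X → Function.Surjective (fderiv ℂ F q)

/-- The Levi form `D²φ(v,v) + D²φ(iv,iv)` (`= 4 ∂∂̄φ(v, v̄)`) of a smooth function. -/
def levi {N : ℕ} (φ : CN N → ℝ) (p v : CN N) : ℝ :=
  fderiv ℝ (fderiv ℝ φ) p v v + fderiv ℝ (fderiv ℝ φ) p (I • v) (I • v)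

/-- A Stein domain of complex dimension two: `W = {p ∈ X | φ p ≤ 0}` where `X` is a complex
surface in `ℂ^N` and `φ` is strictly plurisubharmonic on `X` near `W`, with `0` a regular value
on `X`. -/
structure SteinDomain (N : ℕ) where
  /-- The complex surface. -/
  X : Set (CN N)
  /-- The defining function. -/
  φ : CN N → ℝ
  smooth : ContDiff ℝ ∞ φ
  compact : IsCompact {p | p ∈ X ∧ φ p ≤ 0}
  surface : ∀ p ∈ X, φ p ≤ 0 → ∃ k, k + 2 = N ∧ IsComplexSubmanifoldAt k X p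
  psh : ∀ p ∈ X, φ p ≤ 0 → ∀ v ∈ Tan X p, v ≠ 0 → 0 < levi φ p v
  regular : ∀ p ∈ X, φ p = 0 → ∃ v ∈ Tan X p, fderiv ℝ φ p v ≠ 0

/-- The compact domain itself. -/
def SteinDomain.W {N : ℕ} (D : SteinDomain N) : Set (CN N) := {p | p ∈ D.X ∧ D.φ p ≤ 0}

/-- The boundary. -/
def SteinDomain.bd {N : ℕ} (D : SteinDomain N) : Set (CN N) := {p | p ∈ D.X ∧ D.φ p = 0}

/-- The contact plane at a boundary point: the complex tangencies
`T_p ∂W ∩ i T_p ∂W`. -/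
def SteinDomain.ξ {N : ℕ} (D : SteinDomain N) (p : CN N) : Set (CN N) :=
  {v | v ∈ Tan D.bd p ∧ I • v ∈ Tan D.bd p}

/-- The boundaries of the two Stein domains are contactomorphic: there is a diffeomorphism
`g : ∂W → ∂W'` (with inverse `g'`; both extend smoothly to open neighbourhoods in the
ambient spaces) which maps the contact planes to the contact planes and preserves their
coorientation by `v ↦ -dφ(iv)`. -/
def Contactomorphic {N N' : ℕ} (D : SteinDomain N) (D' : SteinDomain N') : Prop :=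
  ∃ (g : CN N → CN N') (g' : CN N' → CN N) (U : Set (CN N)) (U' : Set (CN N')),
    IsOpen U ∧ IsOpen U' ∧ D.bd ⊆ U ∧ D'.bd ⊆ U' ∧
    ContDiffOn ℝ ∞ g U ∧ ContDiffOn ℝ ∞ g' U' ∧
    Set.MapsTo g D.bd D'.bd ∧ Set.MapsTo g' D'.bd D.bd ∧
    (∀ p ∈ D.bd, g' (g p) = p) ∧ (∀ q ∈ D'.bd, g (g' q) = q) ∧
    ∀ p ∈ D.bd, ∀ v ∈ Tan D.bd p,
      (v ∈ D.ξ p ↔ fderiv ℝ g p v ∈ D'.ξ (g p)) ∧
      (fderiv ℝ D.φ p (I • v) < 0 ↔ fderiv ℝ D'.φ (g p) (I • fderiv ℝ g p v) < 0)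

/-- `(J, Φ)` is a Stein structure on the (real four-dimensional) manifold `X` near `p`:
there are local `J`-holomorphic coordinates `ψ` on `X` around `p` in which `Φ` is a strictly
plurisubharmonic function `h`. -/
def IsSteinStructureAt {N : ℕ} (X : Set (CN N)) (J : CN N → CN N →L[ℝ] CN N) (Φ : CN N → ℝ)
    (p : CN N) : Prop :=
  ∃ (O : Set (CN N)) (ψ : CN N → CN 2) (h : CN 2 → ℝ), IsOpen O ∧ p ∈ O ∧
    ContDiffOn ℝ ∞ ψ O ∧ ContDiff ℝ ∞ h ∧
    (∀ q ∈ X ∩ O, ∀ v ∈ Tan X q,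
      fderiv ℝ ψ q (J q v) = I • fderiv ℝ ψ q v ∧ (fderiv ℝ ψ q v = 0 → v = 0)) ∧
    (∀ q ∈ X ∩ O, Φ q = h (ψ q)) ∧ ∀ v : CN 2, v ≠ 0 → 0 < levi h (ψ p) v

/-- Stein deformation equivalence of two Stein domains: a diffeomorphism `g : W → W'`
(of open neighbourhoods in `X`, `X'`) and a smooth path `(J s, Φ s)`, `0 ≤ s ≤ 1`, of
Stein structures on `W` from `(i, φ)` to the pull-back of `(i, φ')`. -/
structure SteinDeformation {N N' : ℕ} (D : SteinDomain N) (D' : SteinDomain N') where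
  /-- The diffeomorphism. -/
  g : CN N → CN N'
  /-- Its inverse. -/
  g' : CN N' → CN N
  /-- Open neighbourhood of `W`. -/
  U : Set (CN N)
  /-- Open neighbourhood of `W'`. -/
  U' : Set (CN N')
  /-- The path of complex structures. -/
  J : ℝ → CN N → CN N →L[ℝ] CN N
  /-- The path of plurisubharmonic functions. -/
  Φ : ℝ → CN N → ℝ
  open_U : IsOpen U
  open_U' : IsOpen U'
  W_sub : D.W ⊆ U
  W_sub' : D'.W ⊆ U'
  smooth_g : ContDiffOn ℝ ∞ g U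
  smooth_g' : ContDiffOn ℝ ∞ g' U'
  mapsTo : ∀ p ∈ D.X ∩ U, g p ∈ D'.X ∩ U' ∧ g' (g p) = p
  mapsTo' : ∀ q ∈ D'.X ∩ U', g' q ∈ D.X ∩ U ∧ g (g' q) = q
  image : g '' D.W = D'.W
  smooth_J : ContDiffOn ℝ ∞ (fun x : ℝ × CN N => J x.1 x.2) (Set.Icc 0 1 ×ˢ U)
  smooth_Φ : ContDiffOn ℝ ∞ (fun x : ℝ × CN N => Φ x.1 x.2) (Set.Icc 0 1 ×ˢ U)
  J_tan : ∀ s ∈ Set.Icc (0 : ℝ) 1, ∀ p ∈ D.X ∩ U, ∀ v ∈ Tan D.X p,
    J s p v ∈ Tan D.X p ∧ J s p (J s p v) = -v
  J_zero : ∀ p ∈ D.X ∩ U, ∀ v ∈ Tan D.X p, J 0 p v = I • v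
  J_one : ∀ p ∈ D.X ∩ U, ∀ v ∈ Tan D.X p, fderiv ℝ g p (J 1 p v) = I • fderiv ℝ g p v
  Φ_zero : ∀ p ∈ D.X ∩ U, Φ 0 p = D.φ p
  Φ_one : ∀ p ∈ D.X ∩ U, Φ 1 p = D'.φ (g p)
  sublevel : ∀ s ∈ Set.Icc (0 : ℝ) 1, {p | p ∈ D.X ∩ U ∧ Φ s p ≤ 0} = D.W
  regular : ∀ s ∈ Set.Icc (0 : ℝ) 1, ∀ p ∈ D.X ∩ U, Φ s p = 0 →
    ∃ v ∈ Tan D.X p, fderiv ℝ (Φ s) p v ≠ 0
  stein : ∀ s ∈ Set.Icc (0 : ℝ) 1, ∀ p ∈ D.W, IsSteinStructureAt D.X (J s) (Φ s) p

/-- Stein deformation equivalence. -/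
def SteinDeformationEquivalent {N N' : ℕ} (D : SteinDomain N) (D' : SteinDomain N') : Prop :=
  Nonempty (SteinDeformation D D')

/-! ### Complex curves in the ball and their branched covers -/

/-- A complex curve `Σ = {f = 0}` in the unit ball `B⁴ ⊂ ℂ²`: `f` is holomorphic near the
closed ball, `Σ` is smooth and transverse to `S³`.  (Every smooth complex analytic curve defined
on a neighbourhood of the closed ball has such a global equation near the closed ball.) -/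
structure ComplexCurve where
  /-- The equation. -/
  f : CN 2 → ℂ
  /-- Its domain. -/
  U : Set (CN 2)
  open_U : IsOpen U
  ball_sub : Metric.closedBall (0 : CN 2) 1 ⊆ U
  holo : DifferentiableOn ℂ f U
  smooth : ∀ p ∈ Metric.closedBall (0 : CN 2) 1, f p = 0 → fderiv ℂ f p ≠ 0
  transverse : ∀ p ∈ Metric.sphere (0 : CN 2) 1, f p = 0 →
    ∃ v, fderiv ℂ f p v = 0 ∧ inner ℂ p v ≠ 0

/-- The boundary link `Σ ∩ S³`. -/
def ComplexCurve.bd (C : ComplexCurve) : Set (CN 2) :=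
  {p | p ∈ Metric.sphere (0 : CN 2) 1 ∧ C.f p = 0}

/-- `K ⊂ ℂ²` is a smoothly embedded circle. -/
def IsKnot (K : Set (CN 2)) : Prop :=
  ∃ γ : ℝ → CN 2, ContDiff ℝ ∞ γ ∧ (∀ s, γ (s + 1) = γ s) ∧ (∀ s, deriv γ s ≠ 0) ∧
    Set.InjOn γ (Set.Ico 0 1) ∧ Set.range γ = K

/-- The base point `(x,y)` of `(x,y,z)`. -/
def base (q : CN 3) : CN 2 := WithLp.toLp 2 ![q 0, q 1]

/-- `D` is the `n`-fold cyclic branched cover `W_{n,Σ} = {z^n = f(x,y)}` of `B⁴` along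
`Σ = {f = 0}`, with the Stein structure given by the complex structure and the function
`|x|² + |y|² + ε|z|² - 1`. -/
def IsBranchedCover (C : ComplexCurve) (n : ℕ) (ε : ℝ) (D : SteinDomain 3) : Prop :=
  D.X = {q | base q ∈ C.U ∧ (q 2) ^ n = C.f (base q)} ∧
  D.φ = fun q => ‖base q‖ ^ 2 + ε * ‖q 2‖ ^ 2 - 1

/-- `V` is a Stein filling of `(Y, ξ)`, the `n`-fold cyclic cover of `(S³, ξ_st)` branched
along the transverse link `∂Σ`: for all small `ε` the domain `W_{n,Σ}` exists and its contact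
boundary is contactomorphic to that of `V`. -/
def IsSteinFillingOfCover {N : ℕ} (C : ComplexCurve) (n : ℕ) (V : SteinDomain N) : Prop :=
  ∃ ε₀ : ℝ, 0 < ε₀ ∧ ∀ ε : ℝ, 0 < ε → ε ≤ ε₀ →
    ∃ D : SteinDomain 3, IsBranchedCover C n ε D ∧ Contactomorphic D V

end

end Pool.Agent.SteinFill
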