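import Pool.Agent.SteinFill.Spec

/-!
# Final assembly
-/

namespace Pool.Agent.SteinFill

open scoped ContDiff
open Complex (I)
open Set Filter Topology

noncomputable section

/-- Assembly. -/
theorem tFinal (hLT : TLinkTrans) (hG : TGray) (h1 : TFam1) (h2 : TFam2) (h3 : TFam3)
    (hE : TEnds) (hV : TV) (hC : TCurve) (hK : TKnot) (hD : TCover) (hB : TBridge)
    (hInv : TInv) (hCT : TCoverTriv) (hO : TObs) : TFinal := by
  obtain ⟨C, hCU, hCf⟩ := hC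
  obtain ⟨t₀, ht0, ht1, hfam3⟩ := h3
  obtain ⟨V, hVX, hVφ⟩ := hV t₀ ht0 hfam3
  refine ⟨C, V, hCU, hCf, hK C hCf, ⟨1, one_pos, fun ε hε hε1 => ?_⟩, ?_⟩
  · obtain ⟨D, hDX, hDφ⟩ := hD ε hε hε1
    refine ⟨D, ⟨?_, hDφ⟩, ?_⟩
    · rw [hDX, hCU, hCf]
      ext q
      simp [base]
    · refine hB ε hε hε1 D V hDX hDφ hVφ ?_
      have e1 : LinkIso (link (slice (fam1 (ε ^ 3)) 0)) (link (slice (fam1 (ε ^ 3)) 1)) :=
        hG 7 5 _ (h1 (ε ^ 3) (by positivity) (pow_le_one₀ hε.le hε1))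
      have e2 : LinkIso (link (slice fam2 0)) (link (slice fam2 1)) := hG 7 5 _ h2
      have e3 : LinkIso (link (slice (fam3 t₀) 0)) (link (slice (fam3 t₀) 1)) := hG 7 5 _ hfam3
      rw [hE.1 (ε ^ 3)] at e1
      rw [hE.2 t₀] at e2
      have e4 : slice (fam3 t₀) 1 = V.X := by
        rw [hVX]
        ext q
        simp [slice, fam3, symSurf]
      rw [e4] at e3
      exact hLT _ _ _ _ _ _ e1 (hLT _ _ _ _ _ _ e2 e3)
  · intro C' m ε D hm hε hD' hdef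
    have ht := hInv _ _ D V hdef (hCT C' m ε D hm hε hD')
    have hW : V.W = {q | q ∈ symSurf t₀ ∧ ‖q‖ ^ 2 - 1 ≤ 0} := by
      unfold SteinDomain.W
      rw [hVX, hVφ]
    rw [hW, hVX] at ht
    exact hO t₀ ht0 ht1 ht

end

end Pool.Agent.SteinFill
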