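import Pool.Agent.SteinFill.Spec

/-!
# Stein fillings: charts of the surfaces `A_t`, general lemmas and derivatives
-/

namespace Pool.Agent.SteinFill.Sm

open scoped ContDiff

/-- Surjectivity of a continuous family of linear maps is an open condition. -/
lemma eventually_surj {E G : Type*} [NormedAddCommGroup E] [NormedSpace ℂ E]
    [NormedAddCommGroup G] [NormedSpace ℂ G] [FiniteDimensional ℂ G]
    {A : E → (E →L[ℂ] G)} {p : E} (hA : ContinuousAt A p)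
    (hs : Function.Surjective (A p)) : ∀ᶠ q in nhds p, Function.Surjective (A q) := by
  have : CompleteSpace G := FiniteDimensional.complete ℂ G
  obtain ⟨R, hR⟩ := ContinuousLinearMap.exists_rightInverse_of_surjective (A p)
    (LinearMap.range_eq_top.2 hs)
  have h1 : ContinuousAt (fun q => (A q).comp R) p := hA.clm_comp continuousAt_const
  have h2 : ∀ᶠ q in nhds p, IsUnit ((A q).comp R) := by
    apply h1.eventually
    apply Units.isOpen.mem_nhds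
    show IsUnit ((A p).comp R)
    rw [hR]
    exact isUnit_one
  filter_upwards [h2] with q hq y
  obtain ⟨u, hu⟩ := hq
  refine ⟨R ((↑u⁻¹ : G →L[ℂ] G) y), ?_⟩
  have h3 : (A q).comp R ((↑u⁻¹ : G →L[ℂ] G) y) = y := by
    rw [← hu]
    have h4 : ((u : G →L[ℂ] G) * (↑u⁻¹ : G →L[ℂ] G)) y = y := by
      rw [Units.mul_inv]
      rfl
    exact h4
  exact h3

/-- A chart given by five scalar equations. -/
lemma submanifold_of_chart {X : Set (CN 7)} {q₀ : CN 7} (f : Fin 5 → CN 7 → ℂ)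
    (hf : ∀ i, ContDiff ℂ ω (f i)) (D : Fin 5 → CN 7 → ℂ)
    (hD : ∀ i v, HasDerivAt (fun s : ℂ => f i (q₀ + s • v)) (D i v) 0)
    {U : Set (CN 7)} (hU : IsOpen U) (hq : q₀ ∈ U)
    (hX : ∀ q ∈ U, q ∈ X ↔ ∀ i, f i q = 0)
    (hs : ∀ c : Fin 5 → ℂ, ∃ v, ∀ i, D i v = c i) : IsComplexSubmanifoldAt 5 X q₀ := by
  set F : CN 7 → CN 5 := fun q => WithLp.toLp 2 (fun i => f i q) with hF
  have hFc : ContDiff ℂ ω F := by
    rw [contDiff_euclidean]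
    exact hf
  have hFd : Differentiable ℂ F := hFc.differentiable (by simp)
  have hder : ∀ v i, (fderiv ℂ F q₀ v) i = D i v := by
    intro v i
    have h1 : HasFDerivAt F (fderiv ℂ F q₀) (q₀ + (0 : ℂ) • v) := by
      rw [zero_smul, add_zero]
      exact (hFd q₀).hasFDerivAt
    have h2 : HasDerivAt (fun s : ℂ => q₀ + s • v) v 0 := by
      have := ((hasDerivAt_id (0 : ℂ)).smul_const v).const_add q₀
      simpa using this
    have h3 := h1.comp_hasDerivAt (0 : ℂ) h2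
    have h4 : HasDerivAt (fun s : ℂ => (F (q₀ + s • v)) i) ((fderiv ℂ F q₀ v) i) 0 := by
      have h5 := ((EuclideanSpace.proj i : CN 5 →L[ℂ] ℂ).hasFDerivAt
        (x := F (q₀ + (0 : ℂ) • v))).comp_hasDerivAt (0 : ℂ) h3
      exact h5
    exact h4.unique (hD i v)
  have hsurj : Function.Surjective (fderiv ℂ F q₀) := by
    intro c
    obtain ⟨v, hv⟩ := hs (fun i => c i)
    refine ⟨v, ?_⟩
    ext i
    rw [hder, hv]
  have hcont : ContinuousAt (fderiv ℂ F) q₀ := (hFc.continuous_fderiv (by simp)).continuousAt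
  obtain ⟨W, hW1, hW2, hW3⟩ := eventually_nhds_iff.1 (eventually_surj hcont hsurj)
  refine ⟨U ∩ W, F, hU.inter hW2, ⟨hq, hW3⟩, hFd.differentiableOn, fun q hq' => ?_,
    fun q hq' _ => hW1 q hq'.2⟩
  rw [hX q hq'.1]
  constructor
  · intro h
    ext i
    exact h i
  · intro h i
    have := congrArg (fun x : CN 5 => x i) h
    exact this

/-- The equations. -/
def g0 (q : CN 7) : ℂ := q 2
def g1 (t : ℂ) (q : CN 7) : ℂ :=
  q 4 ^ 2 - (q 3 ^ 3 - 3 * q 3 * q 0 * t ^ 2 + 2 * q 1 * t ^ 3 + 2 * t ^ 6)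
def g2 (t : ℂ) (q : CN 7) : ℂ :=
  q 1 ^ 2 - (q 0 ^ 3 + q 3 ^ 3 - 3 * q 3 * q 0 * t ^ 2 + t ^ 6)
def g3 (t : ℂ) (q : CN 7) : ℂ :=
  q 5 ^ 2 - (q 0 ^ 2 * q 3 + 2 * q 0 * q 1 * t + q 3 ^ 2 * t ^ 2 - 2 * q 0 * t ^ 4)
def g4 (t : ℂ) (q : CN 7) : ℂ :=
  q 4 * q 5 - (q 3 ^ 2 * q 0 + q 3 * q 1 * t - 2 * q 0 ^ 2 * t ^ 2 + q 3 * t ^ 4)
def g5 (t : ℂ) (q : CN 7) : ℂ := q 0 * q 4 - (q 3 * q 5 - t * q 6)
def g7 (t : ℂ) (q : CN 7) : ℂ :=
  q 6 * q 4 - ((q 3 ^ 2 - 2 * q 0 * t ^ 2) * q 1 + q 0 ^ 2 * q 3 * t + q 3 ^ 2 * t ^ 3 -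
    2 * q 0 * t ^ 5)
def g10 (t : ℂ) (q : CN 7) : ℂ := q 1 * q 5 - (q 0 * q 6 + t * q 3 * q 4 - t ^ 3 * q 5)
def g12 (t : ℂ) (q : CN 7) : ℂ :=
  (q 3 ^ 2 - 4 * q 0 * t ^ 2) * (q 3 ^ 2 - q 0 * t ^ 2) - (q 3 * q 4 - 2 * q 5 * t ^ 2) * q 4
def g13 (t : ℂ) (q : CN 7) : ℂ :=
  (q 4 ^ 2 - 4 * q 1 * t ^ 3) * (q 3 ^ 2 - 4 * q 0 * t ^ 2) - (q 3 * q 4 - 2 * q 5 * t ^ 2) ^ 2
def g14 (t : ℂ) (q : CN 7) : ℂ :=
  (q 3 * q 4 - 2 * q 5 * t ^ 2) * (q 3 ^ 2 - q 0 * t ^ 2) - (q 4 ^ 2 - 4 * q 1 * t ^ 3) * q 4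

lemma cd0 : ContDiff ℂ ω g0 := by unfold g0; fun_prop
lemma cd1 (t : ℂ) : ContDiff ℂ ω (g1 t) := by unfold g1; fun_prop
lemma cd2 (t : ℂ) : ContDiff ℂ ω (g2 t) := by unfold g2; fun_prop
lemma cd3 (t : ℂ) : ContDiff ℂ ω (g3 t) := by unfold g3; fun_prop
lemma cd4 (t : ℂ) : ContDiff ℂ ω (g4 t) := by unfold g4; fun_prop
lemma cd5 (t : ℂ) : ContDiff ℂ ω (g5 t) := by unfold g5; fun_prop
lemma cd7 (t : ℂ) : ContDiff ℂ ω (g7 t) := by unfold g7; fun_prop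
lemma cd10 (t : ℂ) : ContDiff ℂ ω (g10 t) := by unfold g10; fun_prop
lemma cd12 (t : ℂ) : ContDiff ℂ ω (g12 t) := by unfold g12; fun_prop
lemma cd13 (t : ℂ) : ContDiff ℂ ω (g13 t) := by unfold g13; fun_prop
lemma cd14 (t : ℂ) : ContDiff ℂ ω (g14 t) := by unfold g14; fun_prop

lemma hd (q v : CN 7) (k : Fin 7) : HasDerivAt (fun s : ℂ => (q + s • v) k) (v k) 0 := by
  have : HasDerivAt (fun s : ℂ => q k + s * v k) (1 * v k) 0 :=
    ((hasDerivAt_id (0 : ℂ)).mul_const (v k)).const_add (q k)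
  simpa using this

lemma dd0 (q v : CN 7) : HasDerivAt (fun s : ℂ => g0 (q + s • v)) (v 2) 0 := hd q v 2

lemma dd1 (t : ℂ) (q v : CN 7) : HasDerivAt (fun s : ℂ => g1 t (q + s • v))
    (2 * q 4 * v 4 - (3 * q 3 ^ 2 * v 3 - 3 * (v 3 * q 0 + q 3 * v 0) * t ^ 2 +
      2 * v 1 * t ^ 3)) 0 := by
  have h := hd q v
  refine (((h 4).pow 2).sub ((((h 3).pow 3).sub ((((h 3).const_mul 3).mul (h 0)).mul_const
    (t ^ 2))).add (((h 1).const_mul 2).mul_const (t ^ 3)) |>.add_const (2 * t ^ 6))).congr_deriv ?_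
  simp [-mul_eq_mul_right_iff, -mul_eq_mul_left_iff]
  ring

lemma dd2 (t : ℂ) (q v : CN 7) : HasDerivAt (fun s : ℂ => g2 t (q + s • v))
    (2 * q 1 * v 1 - (3 * q 0 ^ 2 * v 0 + 3 * q 3 ^ 2 * v 3 -
      3 * (v 3 * q 0 + q 3 * v 0) * t ^ 2)) 0 := by
  have h := hd q v
  refine (((h 1).pow 2).sub (((((h 0).pow 3).add ((h 3).pow 3)).sub
    ((((h 3).const_mul 3).mul (h 0)).mul_const (t ^ 2))).add_const (t ^ 6))).congr_deriv ?_
  simp [-mul_eq_mul_right_iff, -mul_eq_mul_left_iff]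
  ring

lemma dd3 (t : ℂ) (q v : CN 7) : HasDerivAt (fun s : ℂ => g3 t (q + s • v))
    (2 * q 5 * v 5 - (2 * q 0 * v 0 * q 3 + q 0 ^ 2 * v 3 + 2 * (v 0 * q 1 + q 0 * v 1) * t +
      2 * q 3 * v 3 * t ^ 2 - 2 * v 0 * t ^ 4)) 0 := by
  have h := hd q v
  refine (((h 5).pow 2).sub ((((((h 0).pow 2).mul (h 3)).add
    ((((h 0).const_mul 2).mul (h 1)).mul_const t)).add (((h 3).pow 2).mul_const (t ^ 2))).sub
    (((h 0).const_mul 2).mul_const (t ^ 4)))).congr_deriv ?_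
  simp [-mul_eq_mul_right_iff, -mul_eq_mul_left_iff]
  ring

lemma dd4 (t : ℂ) (q v : CN 7) : HasDerivAt (fun s : ℂ => g4 t (q + s • v))
    (v 4 * q 5 + q 4 * v 5 - (2 * q 3 * v 3 * q 0 + q 3 ^ 2 * v 0 + (v 3 * q 1 + q 3 * v 1) * t -
      4 * q 0 * v 0 * t ^ 2 + v 3 * t ^ 4)) 0 := by
  have h := hd q v
  refine (((h 4).mul (h 5)).sub ((((((h 3).pow 2).mul (h 0)).add
    (((h 3).mul (h 1)).mul_const t)).sub ((((h 0).pow 2).const_mul 2).mul_const (t ^ 2))).add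
    ((h 3).mul_const (t ^ 4)))).congr_deriv ?_
  simp [-mul_eq_mul_right_iff, -mul_eq_mul_left_iff]
  ring

lemma dd5 (t : ℂ) (q v : CN 7) : HasDerivAt (fun s : ℂ => g5 t (q + s • v))
    (v 0 * q 4 + q 0 * v 4 - (v 3 * q 5 + q 3 * v 5 - t * v 6)) 0 := by
  have h := hd q v
  refine (((h 0).mul (h 4)).sub (((h 3).mul (h 5)).sub ((h 6).const_mul t))).congr_deriv ?_
  simp [-mul_eq_mul_right_iff, -mul_eq_mul_left_iff]

lemma dd7 (t : ℂ) (q v : CN 7) : HasDerivAt (fun s : ℂ => g7 t (q + s • v))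
    (v 6 * q 4 + q 6 * v 4 - ((2 * q 3 * v 3 - 2 * v 0 * t ^ 2) * q 1 +
      (q 3 ^ 2 - 2 * q 0 * t ^ 2) * v 1 + (2 * q 0 * v 0 * q 3 + q 0 ^ 2 * v 3) * t +
      2 * q 3 * v 3 * t ^ 3 - 2 * v 0 * t ^ 5)) 0 := by
  have h := hd q v
  refine (((h 6).mul (h 4)).sub (((((((h 3).pow 2).sub (((h 0).const_mul 2).mul_const
    (t ^ 2))).mul (h 1)).add ((((h 0).pow 2).mul (h 3)).mul_const t)).add
    (((h 3).pow 2).mul_const (t ^ 3))).sub (((h 0).const_mul 2).mul_const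
    (t ^ 5)))).congr_deriv ?_
  simp [-mul_eq_mul_right_iff, -mul_eq_mul_left_iff]

lemma dd10 (t : ℂ) (q v : CN 7) : HasDerivAt (fun s : ℂ => g10 t (q + s • v))
    (v 1 * q 5 + q 1 * v 5 - (v 0 * q 6 + q 0 * v 6 + t * (v 3 * q 4 + q 3 * v 4) -
      t ^ 3 * v 5)) 0 := by
  have h := hd q v
  refine (((h 1).mul (h 5)).sub ((((h 0).mul (h 6)).add (((h 3).const_mul t).mul (h 4))).sub
    ((h 5).const_mul (t ^ 3)))).congr_deriv ?_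
  simp [-mul_eq_mul_right_iff, -mul_eq_mul_left_iff]
  ring

lemma dd12 (t : ℂ) (q v : CN 7) : HasDerivAt (fun s : ℂ => g12 t (q + s • v))
    ((2 * q 3 * v 3 - 4 * v 0 * t ^ 2) * (q 3 ^ 2 - q 0 * t ^ 2) +
      (q 3 ^ 2 - 4 * q 0 * t ^ 2) * (2 * q 3 * v 3 - v 0 * t ^ 2) -
      ((v 3 * q 4 + q 3 * v 4 - 2 * v 5 * t ^ 2) * q 4 +
      (q 3 * q 4 - 2 * q 5 * t ^ 2) * v 4)) 0 := by
  have h := hd q v
  refine (((((h 3).pow 2).sub (((h 0).const_mul 4).mul_const (t ^ 2))).mul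
    (((h 3).pow 2).sub ((h 0).mul_const (t ^ 2)))).sub
    ((((h 3).mul (h 4)).sub (((h 5).const_mul 2).mul_const (t ^ 2))).mul (h 4))).congr_deriv ?_
  simp [-mul_eq_mul_right_iff, -mul_eq_mul_left_iff]

lemma dd13 (t : ℂ) (q v : CN 7) : HasDerivAt (fun s : ℂ => g13 t (q + s • v))
    ((2 * q 4 * v 4 - 4 * v 1 * t ^ 3) * (q 3 ^ 2 - 4 * q 0 * t ^ 2) +
      (q 4 ^ 2 - 4 * q 1 * t ^ 3) * (2 * q 3 * v 3 - 4 * v 0 * t ^ 2) -
      2 * (q 3 * q 4 - 2 * q 5 * t ^ 2) * (v 3 * q 4 + q 3 * v 4 - 2 * v 5 * t ^ 2)) 0 := by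
  have h := hd q v
  refine (((((h 4).pow 2).sub (((h 1).const_mul 4).mul_const (t ^ 3))).mul
    (((h 3).pow 2).sub (((h 0).const_mul 4).mul_const (t ^ 2)))).sub
    ((((h 3).mul (h 4)).sub (((h 5).const_mul 2).mul_const (t ^ 2))).pow 2)).congr_deriv ?_
  simp [-mul_eq_mul_right_iff, -mul_eq_mul_left_iff]

lemma dd14 (t : ℂ) (q v : CN 7) : HasDerivAt (fun s : ℂ => g14 t (q + s • v))
    ((v 3 * q 4 + q 3 * v 4 - 2 * v 5 * t ^ 2) * (q 3 ^ 2 - q 0 * t ^ 2) +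
      (q 3 * q 4 - 2 * q 5 * t ^ 2) * (2 * q 3 * v 3 - v 0 * t ^ 2) -
      ((2 * q 4 * v 4 - 4 * v 1 * t ^ 3) * q 4 + (q 4 ^ 2 - 4 * q 1 * t ^ 3) * v 4)) 0 := by
  have h := hd q v
  refine (((((h 3).mul (h 4)).sub (((h 5).const_mul 2).mul_const (t ^ 2))).mul
    (((h 3).pow 2).sub ((h 0).mul_const (t ^ 2)))).sub
    ((((h 4).pow 2).sub (((h 1).const_mul 4).mul_const (t ^ 3))).mul (h 4))).congr_deriv ?_
  simp [-mul_eq_mul_right_iff, -mul_eq_mul_left_iff]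

end Pool.Agent.SteinFill.Sm
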