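import Pool.Agent.SteinFill.SmoothParam

/-!
# Stein fillings: `A_t` is a smooth complex surface for `t ≠ 0`
-/

namespace Pool.Agent.SteinFill

namespace Sm

open scoped ContDiff

lemma forall5 {f0 f1 f2 f3 f4 : CN 7 → ℂ} {q : CN 7} :
    (∀ i, (![f0, f1, f2, f3, f4] : Fin 5 → CN 7 → ℂ) i q = 0) ↔
      f0 q = 0 ∧ f1 q = 0 ∧ f2 q = 0 ∧ f3 q = 0 ∧ f4 q = 0 := by
  simp [Fin.forall_fin_succ]

/-- chart with five named equations -/
lemma chart5 {X : Set (CN 7)} {q₀ : CN 7} {f0 f1 f2 f3 f4 D0 D1 D2 D3 D4 : CN 7 → ℂ}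
    (c0 : ContDiff ℂ ω f0) (c1 : ContDiff ℂ ω f1) (c2 : ContDiff ℂ ω f2) (c3 : ContDiff ℂ ω f3)
    (c4 : ContDiff ℂ ω f4)
    (d0 : ∀ v, HasDerivAt (fun s : ℂ => f0 (q₀ + s • v)) (D0 v) 0)
    (d1 : ∀ v, HasDerivAt (fun s : ℂ => f1 (q₀ + s • v)) (D1 v) 0)
    (d2 : ∀ v, HasDerivAt (fun s : ℂ => f2 (q₀ + s • v)) (D2 v) 0)
    (d3 : ∀ v, HasDerivAt (fun s : ℂ => f3 (q₀ + s • v)) (D3 v) 0)
    (d4 : ∀ v, HasDerivAt (fun s : ℂ => f4 (q₀ + s • v)) (D4 v) 0)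
    {U : Set (CN 7)} (hU : IsOpen U) (hq : q₀ ∈ U)
    (hX : ∀ q ∈ U, q ∈ X ↔ f0 q = 0 ∧ f1 q = 0 ∧ f2 q = 0 ∧ f3 q = 0 ∧ f4 q = 0)
    (hs : ∀ a0 a1 a2 a3 a4 : ℂ, ∃ v, D0 v = a0 ∧ D1 v = a1 ∧ D2 v = a2 ∧ D3 v = a3 ∧ D4 v = a4) :
    IsComplexSubmanifoldAt 5 X q₀ := by
  refine submanifold_of_chart ![f0, f1, f2, f3, f4] ?_ ![D0, D1, D2, D3, D4] ?_ hU hq
    (fun q hq' => (hX q hq').trans forall5.symm) ?_
  · intro i
    fin_cases i
    · exact c0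
    · exact c1
    · exact c2
    · exact c3
    · exact c4
  · intro i v
    fin_cases i
    · exact d0 v
    · exact d1 v
    · exact d2 v
    · exact d3 v
    · exact d4 v
  · intro c
    obtain ⟨v, h0, h1, h2, h3, h4⟩ := hs (c 0) (c 1) (c 2) (c 3) (c 4)
    refine ⟨v, fun i => ?_⟩
    fin_cases i
    · exact h0
    · exact h1
    · exact h2
    · exact h3
    · exact h4

lemma solve_G {t X Y : ℂ} (ht : t ≠ 0) (h : Y ^ 2 = X ^ 3 + t ^ 6) (γ : ℂ) :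
    ∃ x y : ℂ, 2 * Y * y - 3 * X ^ 2 * x = γ := by
  by_cases hY : Y = 0
  · have hX : X ≠ 0 := by
      rintro rfl
      rw [hY] at h
      have : t ^ 6 = 0 := by linear_combination -h
      exact pow_ne_zero 6 ht this
    refine ⟨-γ / (3 * X ^ 2), 0, ?_⟩
    field_simp
    ring
  · refine ⟨0, γ / (2 * Y), ?_⟩
    field_simp
    ring

/-- the derivatives along the parametrisation -/
lemma param_deriv {t : ℂ} {q v : CN 7} {X1 X2 Y1 Y2 x1 x2 y1 y2 a b : ℂ}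
    (hs : q 3 = X1 + X2) (hp : t ^ 2 * q 0 = X1 * X2) (hσ : q 4 = Y1 + Y2)
    (hπ : t ^ 3 * q 1 = Y1 * Y2) (hτ : t ^ 2 * q 5 = X1 * Y2 + X2 * Y1)
    (e1 : Y1 ^ 2 = X1 ^ 3 + t ^ 6) (e2 : Y2 ^ 2 = X2 ^ 3 + t ^ 6)
    (ws : v 3 = x1 + x2) (wp : t ^ 2 * v 0 = X2 * x1 + X1 * x2 + b) (wσ : v 4 = y1 + y2)
    (wπ : t ^ 3 * v 1 = Y2 * y1 + Y1 * y2 + a)
    (wτ : t ^ 2 * v 5 = Y2 * x1 + X1 * y2 + Y1 * x2 + X2 * y1) :
    (2 * q 4 * v 4 - (3 * q 3 ^ 2 * v 3 - 3 * (v 3 * q 0 + q 3 * v 0) * t ^ 2 +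
      2 * v 1 * t ^ 3) =
      (2 * Y1 * y1 - 3 * X1 ^ 2 * x1) + (2 * Y2 * y2 - 3 * X2 ^ 2 * x2) - 2 * a +
        3 * (X1 + X2) * b) ∧
    ((2 * q 4 * v 4 - 4 * v 1 * t ^ 3) * (q 3 ^ 2 - 4 * q 0 * t ^ 2) +
      (q 4 ^ 2 - 4 * q 1 * t ^ 3) * (2 * q 3 * v 3 - 4 * v 0 * t ^ 2) -
      2 * (q 3 * q 4 - 2 * q 5 * t ^ 2) * (v 3 * q 4 + q 3 * v 4 - 2 * v 5 * t ^ 2) =
      -4 * a * (X1 - X2) ^ 2 - 4 * b * (Y1 - Y2) ^ 2) ∧
    (b = 0 → (2 * q 3 * v 3 - 4 * v 0 * t ^ 2) * (q 3 ^ 2 - q 0 * t ^ 2) +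
      (q 3 ^ 2 - 4 * q 0 * t ^ 2) * (2 * q 3 * v 3 - v 0 * t ^ 2) -
      ((v 3 * q 4 + q 3 * v 4 - 2 * v 5 * t ^ 2) * q 4 +
      (q 3 * q 4 - 2 * q 5 * t ^ 2) * v 4) =
      -(X1 - X2) * ((2 * Y1 * y1 - 3 * X1 ^ 2 * x1) - (2 * Y2 * y2 - 3 * X2 ^ 2 * x2))) ∧
    ((v 3 * q 4 + q 3 * v 4 - 2 * v 5 * t ^ 2) * (q 3 ^ 2 - q 0 * t ^ 2) +
      (q 3 * q 4 - 2 * q 5 * t ^ 2) * (2 * q 3 * v 3 - v 0 * t ^ 2) -
      ((2 * q 4 * v 4 - 4 * v 1 * t ^ 3) * q 4 + (q 4 ^ 2 - 4 * q 1 * t ^ 3) * v 4) =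
      -(Y1 - Y2) * ((2 * Y1 * y1 - 3 * X1 ^ 2 * x1) - (2 * Y2 * y2 - 3 * X2 ^ 2 * x2)) +
        4 * a * (Y1 + Y2) - b * (X1 - X2) * (Y1 - Y2)) := by
  have hp' : q 0 * t ^ 2 = X1 * X2 := by rw [mul_comm]; exact hp
  have hπ' : q 1 * t ^ 3 = Y1 * Y2 := by rw [mul_comm]; exact hπ
  have hτ' : q 5 * t ^ 2 = X1 * Y2 + X2 * Y1 := by rw [mul_comm]; exact hτ
  have wp' : v 0 * t ^ 2 = X2 * x1 + X1 * x2 + b := by rw [mul_comm]; exact wp
  have wπ' : v 1 * t ^ 3 = Y2 * y1 + Y1 * y2 + a := by rw [mul_comm]; exact wπ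
  have wτ' : v 5 * t ^ 2 = Y2 * x1 + X1 * y2 + Y1 * x2 + X2 * y1 := by rw [mul_comm]; exact wτ
  refine ⟨?_, ?_, fun hb => ?_, ?_⟩
  · have e : 2 * q 4 * v 4 - (3 * q 3 ^ 2 * v 3 - 3 * (v 3 * q 0 + q 3 * v 0) * t ^ 2 +
        2 * v 1 * t ^ 3) = 2 * q 4 * v 4 - (3 * q 3 ^ 2 * v 3 - 3 * (v 3 * (q 0 * t ^ 2) +
        q 3 * (v 0 * t ^ 2)) + 2 * (v 1 * t ^ 3)) := by ring
    rw [e, hs, hσ, hp', ws, wp', wσ, wπ']
    ring
  · have e : (2 * q 4 * v 4 - 4 * v 1 * t ^ 3) * (q 3 ^ 2 - 4 * q 0 * t ^ 2) +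
        (q 4 ^ 2 - 4 * q 1 * t ^ 3) * (2 * q 3 * v 3 - 4 * v 0 * t ^ 2) -
        2 * (q 3 * q 4 - 2 * q 5 * t ^ 2) * (v 3 * q 4 + q 3 * v 4 - 2 * v 5 * t ^ 2) =
        (2 * q 4 * v 4 - 4 * (v 1 * t ^ 3)) * (q 3 ^ 2 - 4 * (q 0 * t ^ 2)) +
        (q 4 ^ 2 - 4 * (q 1 * t ^ 3)) * (2 * q 3 * v 3 - 4 * (v 0 * t ^ 2)) -
        2 * (q 3 * q 4 - 2 * (q 5 * t ^ 2)) * (v 3 * q 4 + q 3 * v 4 - 2 * (v 5 * t ^ 2)) := by
      ring
    rw [e, hs, hσ, hp', hπ', hτ', ws, wp', wσ, wπ', wτ']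
    ring
  · have e : (2 * q 3 * v 3 - 4 * v 0 * t ^ 2) * (q 3 ^ 2 - q 0 * t ^ 2) +
        (q 3 ^ 2 - 4 * q 0 * t ^ 2) * (2 * q 3 * v 3 - v 0 * t ^ 2) -
        ((v 3 * q 4 + q 3 * v 4 - 2 * v 5 * t ^ 2) * q 4 +
        (q 3 * q 4 - 2 * q 5 * t ^ 2) * v 4) =
        (2 * q 3 * v 3 - 4 * (v 0 * t ^ 2)) * (q 3 ^ 2 - (q 0 * t ^ 2)) +
        (q 3 ^ 2 - 4 * (q 0 * t ^ 2)) * (2 * q 3 * v 3 - (v 0 * t ^ 2)) -
        ((v 3 * q 4 + q 3 * v 4 - 2 * (v 5 * t ^ 2)) * q 4 +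
        (q 3 * q 4 - 2 * (q 5 * t ^ 2)) * v 4) := by ring
    rw [e, hs, hσ, hp', hτ', ws, wp', wσ, wτ', hb]
    linear_combination (-(x1 - x2)) * (e1 - e2)
  · have e : (v 3 * q 4 + q 3 * v 4 - 2 * v 5 * t ^ 2) * (q 3 ^ 2 - q 0 * t ^ 2) +
        (q 3 * q 4 - 2 * q 5 * t ^ 2) * (2 * q 3 * v 3 - v 0 * t ^ 2) -
        ((2 * q 4 * v 4 - 4 * v 1 * t ^ 3) * q 4 + (q 4 ^ 2 - 4 * q 1 * t ^ 3) * v 4) =
        (v 3 * q 4 + q 3 * v 4 - 2 * (v 5 * t ^ 2)) * (q 3 ^ 2 - (q 0 * t ^ 2)) +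
        (q 3 * q 4 - 2 * (q 5 * t ^ 2)) * (2 * q 3 * v 3 - (v 0 * t ^ 2)) -
        ((2 * q 4 * v 4 - 4 * (v 1 * t ^ 3)) * q 4 + (q 4 ^ 2 - 4 * (q 1 * t ^ 3)) * v 4) := by
      ring
    rw [e, hs, hσ, hp', hπ', hτ', ws, wp', wσ, wπ', wτ']
    linear_combination (-(y1 - y2)) * (e1 - e2)

/-- the roots at a point of the surface -/
lemma exists_roots {t : ℂ} {q : CN 7} (h : SymRel t q)
    (hne : q 3 ^ 2 - 4 * q 0 * t ^ 2 ≠ 0 ∨ q 4 ^ 2 - 4 * q 1 * t ^ 3 ≠ 0) :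
    ∃ X1 X2 Y1 Y2 : ℂ, q 3 = X1 + X2 ∧ t ^ 2 * q 0 = X1 * X2 ∧ q 4 = Y1 + Y2 ∧
      t ^ 3 * q 1 = Y1 * Y2 ∧ t ^ 2 * q 5 = X1 * Y2 + X2 * Y1 ∧ Y1 ^ 2 = X1 ^ 3 + t ^ 6 ∧
      Y2 ^ 2 = X2 ^ 3 + t ^ 6 ∧ (X1 - X2) ^ 2 = q 3 ^ 2 - 4 * q 0 * t ^ 2 ∧
      (Y1 - Y2) ^ 2 = q 4 ^ 2 - 4 * q 1 * t ^ 3 := by
  have key : ∀ D F : ℂ, D ^ 2 = q 3 ^ 2 - 4 * q 0 * t ^ 2 → F ^ 2 = q 4 ^ 2 - 4 * q 1 * t ^ 3 →
      D * F = q 3 * q 4 - 2 * q 5 * t ^ 2 → D * (q 3 ^ 2 - q 0 * t ^ 2) = q 4 * F →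
      ∃ X1 X2 Y1 Y2 : ℂ, q 3 = X1 + X2 ∧ t ^ 2 * q 0 = X1 * X2 ∧ q 4 = Y1 + Y2 ∧
      t ^ 3 * q 1 = Y1 * Y2 ∧ t ^ 2 * q 5 = X1 * Y2 + X2 * Y1 ∧ Y1 ^ 2 = X1 ^ 3 + t ^ 6 ∧
      Y2 ^ 2 = X2 ^ 3 + t ^ 6 ∧ (X1 - X2) ^ 2 = q 3 ^ 2 - 4 * q 0 * t ^ 2 ∧
      (Y1 - Y2) ^ 2 = q 4 ^ 2 - 4 * q 1 * t ^ 3 := by
    intro D F hD hF hDF hG
    have h1 := h.r1
    refine ⟨(q 3 + D) / 2, (q 3 - D) / 2, (q 4 + F) / 2, (q 4 - F) / 2, by ring, ?_, by ring,
      ?_, ?_, ?_, ?_, ?_, ?_⟩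
    · linear_combination hD / 4
    · linear_combination hF / 4
    · linear_combination hDF / 2
    · linear_combination hF / 4 - (3 * q 3 / 8 + D / 8) * hD + h1 / 2 - hG / 2
    · linear_combination hF / 4 - (3 * q 3 / 8 - D / 8) * hD + h1 / 2 + hG / 2
    · linear_combination hD
    · linear_combination hF
  have h12 := rel12 h
  have h13 := rel13 h
  have h14 := rel14 h
  unfold g12 at h12
  unfold g13 at h13
  unfold g14 at h14
  rcases hne with hD | hF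
  · obtain ⟨D, hDD⟩ := IsAlgClosed.exists_eq_mul_self (q 3 ^ 2 - 4 * q 0 * t ^ 2)
    have hD0 : D ≠ 0 := by
      rintro rfl
      rw [mul_zero] at hDD
      exact hD hDD
    refine key D ((q 3 * q 4 - 2 * q 5 * t ^ 2) / D) (by rw [hDD]; ring) ?_ (by field_simp) ?_
    · rw [div_pow, div_eq_iff (pow_ne_zero 2 hD0)]
      rw [hDD] at h13
      linear_combination -h13
    · rw [hDD] at h12
      rw [← mul_div_assoc, eq_div_iff hD0]
      linear_combination h12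
  · obtain ⟨F, hFF⟩ := IsAlgClosed.exists_eq_mul_self (q 4 ^ 2 - 4 * q 1 * t ^ 3)
    have hF0 : F ≠ 0 := by
      rintro rfl
      rw [mul_zero] at hFF
      exact hF hFF
    refine key ((q 3 * q 4 - 2 * q 5 * t ^ 2) / F) F ?_ (by rw [hFF]; ring) (by field_simp) ?_
    · rw [div_pow, div_eq_iff (pow_ne_zero 2 hF0)]
      rw [hFF] at h13
      linear_combination -h13
    · rw [hFF] at h14
      rw [div_mul_eq_mul_div, div_eq_iff hF0]
      linear_combination h14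

end Sm

open Sm in
/-- `A_t` is a complex surface for `t ≠ 0`. -/
theorem tSmooth (hI : TChartI) (hP : TChartP) : TSmooth := by
  intro r hr q₀ hq₀
  have h : SymRel (r : ℂ) q₀ := hq₀
  set t : ℂ := (r : ℂ) with htdef
  have ht : t ≠ 0 := by
    rw [htdef]
    exact_mod_cast hr
  have hmem : ∀ q : CN 7, q ∈ symSurf r ↔ SymRel t q := fun q => Iff.rfl
  by_cases hD : q₀ 3 ^ 2 - 4 * q₀ 0 * t ^ 2 ≠ 0
  · -- chart III
    obtain ⟨X1, X2, Y1, Y2, hs, hp, hσ, hπ, hτ, e1, e2, hXX, -⟩ := exists_roots h (Or.inl hD)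
    have hX0 : X1 - X2 ≠ 0 := by
      intro h0
      rw [h0] at hXX
      apply hD
      rw [← hXX]
      ring
    refine chart5 cd0 (cd5 t) (cd12 t) (cd13 t) (cd1 t) (dd0 q₀) (dd5 t q₀) (dd12 t q₀)
      (dd13 t q₀) (dd1 t q₀) (U := {q | q 3 ^ 2 - 4 * q 0 * t ^ 2 ≠ 0})
      (isOpen_ne_fun (by fun_prop) continuous_const) hD
      (fun q hq => (hmem q).trans (chart3_iff ht hq)) ?_
    intro a0 a1 a2 a3 a4
    set a : ℂ := -a3 / (4 * (X1 - X2) ^ 2) with ha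
    obtain ⟨x1, y1, hxy1⟩ := solve_G ht e1 ((a4 + 2 * a - a2 / (X1 - X2)) / 2)
    obtain ⟨x2, y2, hxy2⟩ := solve_G ht e2 ((a4 + 2 * a + a2 / (X1 - X2)) / 2)
    set v0 : ℂ := (X2 * x1 + X1 * x2) / t ^ 2 with hv0
    set v1 : ℂ := (Y2 * y1 + Y1 * y2 + a) / t ^ 3 with hv1
    set v5 : ℂ := (Y2 * x1 + X1 * y2 + Y1 * x2 + X2 * y1) / t ^ 2 with hv5
    set v6 : ℂ := (a1 - v0 * q₀ 4 - q₀ 0 * (y1 + y2) + (x1 + x2) * q₀ 5 + q₀ 3 * v5) / t with hv6
    set v : CN 7 := WithLp.toLp 2 ![v0, v1, a0, x1 + x2, y1 + y2, v5, v6] with hv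
    have k0 : v 0 = v0 := rfl
    have k1 : v 1 = v1 := rfl
    have k2 : v 2 = a0 := rfl
    have k3 : v 3 = x1 + x2 := rfl
    have k4 : v 4 = y1 + y2 := rfl
    have k5 : v 5 = v5 := rfl
    have k6 : v 6 = v6 := rfl
    obtain ⟨p1, p2, p3, p4⟩ := param_deriv hs hp hσ hπ hτ e1 e2 (v := v) (b := 0) (a := a)
      (x1 := x1) (x2 := x2) (y1 := y1) (y2 := y2) k3
      (by rw [k0, hv0]; field_simp; ring) k4 (by rw [k1, hv1]; field_simp)
      (by rw [k5, hv5]; field_simp)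
    refine ⟨v, k2, ?_, ?_, ?_, ?_⟩
    · rw [k0, k3, k4, k5, k6, hv6]
      field_simp
      ring
    · rw [p3 rfl, hxy1, hxy2]
      field_simp
      ring
    · rw [p2, ha]
      field_simp
      ring
    · rw [p1, hxy1, hxy2]
      ring
  · push Not at hD
    by_cases hF : q₀ 4 ^ 2 - 4 * q₀ 1 * t ^ 3 ≠ 0
    · -- chart IV
      obtain ⟨X1, X2, Y1, Y2, hs, hp, hσ, hπ, hτ, e1, e2, hXX, hYY⟩ :=
        exists_roots h (Or.inr hF)
      have hY0 : Y1 - Y2 ≠ 0 := by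
        intro h0
        rw [h0] at hYY
        apply hF
        rw [← hYY]
        ring
      refine chart5 cd0 (cd5 t) (cd13 t) (cd14 t) (cd1 t) (dd0 q₀) (dd5 t q₀) (dd13 t q₀)
        (dd14 t q₀) (dd1 t q₀) (U := {q | q 4 ^ 2 - 4 * q 1 * t ^ 3 ≠ 0})
        (isOpen_ne_fun (by fun_prop) continuous_const) hF
        (fun q hq => (hmem q).trans (chart4_iff ht hq)) ?_
      intro a0 a1 a2 a3 a4
      set b : ℂ := -a2 / (4 * (Y1 - Y2) ^ 2) with hb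
      set w : ℂ := -(a3 + b * (X1 - X2) * (Y1 - Y2)) / (Y1 - Y2) with hw
      obtain ⟨x1, y1, hxy1⟩ := solve_G ht e1 ((a4 - 3 * (X1 + X2) * b + w) / 2)
      obtain ⟨x2, y2, hxy2⟩ := solve_G ht e2 ((a4 - 3 * (X1 + X2) * b - w) / 2)
      set v0 : ℂ := (X2 * x1 + X1 * x2 + b) / t ^ 2 with hv0
      set v1 : ℂ := (Y2 * y1 + Y1 * y2) / t ^ 3 with hv1
      set v5 : ℂ := (Y2 * x1 + X1 * y2 + Y1 * x2 + X2 * y1) / t ^ 2 with hv5
      set v6 : ℂ := (a1 - v0 * q₀ 4 - q₀ 0 * (y1 + y2) + (x1 + x2) * q₀ 5 + q₀ 3 * v5) / t with hv6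
      set v : CN 7 := WithLp.toLp 2 ![v0, v1, a0, x1 + x2, y1 + y2, v5, v6] with hv
      have k0 : v 0 = v0 := rfl
      have k1 : v 1 = v1 := rfl
      have k2 : v 2 = a0 := rfl
      have k3 : v 3 = x1 + x2 := rfl
      have k4 : v 4 = y1 + y2 := rfl
      have k5 : v 5 = v5 := rfl
      have k6 : v 6 = v6 := rfl
      obtain ⟨p1, p2, p3, p4⟩ := param_deriv hs hp hσ hπ hτ e1 e2 (v := v) (b := b) (a := 0)
        (x1 := x1) (x2 := x2) (y1 := y1) (y2 := y2) k3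
        (by rw [k0, hv0]; field_simp) k4 (by rw [k1, hv1]; field_simp; ring)
        (by rw [k5, hv5]; field_simp)
      refine ⟨v, k2, ?_, ?_, ?_, ?_⟩
      · rw [k0, k3, k4, k5, k6, hv6]
        field_simp
        ring
      · rw [p2, hb]
        field_simp
        ring
      · rw [p4, hxy1, hxy2, hw]
        field_simp
        ring
      · rw [p1, hxy1, hxy2]
        ring
    · push Not at hF
      by_cases hσ : q₀ 4 = 0
      · -- chart P
        have hπ : q₀ 1 = 0 := by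
          have h1 : q₀ 1 * t ^ 3 = 0 := by
            rw [hσ] at hF
            linear_combination -hF / 4
          exact (mul_eq_zero.1 h1).resolve_right (pow_ne_zero 3 ht)
        have r1 := h.r1
        rw [hσ, hπ] at r1
        have hsp : q₀ 3 * q₀ 0 = -2 * t ^ 4 := by
          have h1 : (q₀ 3 * q₀ 0 + 2 * t ^ 4) * t ^ 2 = 0 := by
            linear_combination -r1 - q₀ 3 * hD
          have h2 := (mul_eq_zero.1 h1).resolve_right (pow_ne_zero 2 ht)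
          linear_combination h2
        have hs0 : q₀ 3 ≠ 0 := by
          intro h0
          rw [h0, zero_mul] at hsp
          have : t ^ 4 = 0 := by linear_combination hsp / 2
          exact pow_ne_zero 4 ht this
        have hp0 : q₀ 0 ≠ 0 := by
          intro h0
          rw [h0, mul_zero] at hsp
          have : t ^ 4 = 0 := by linear_combination hsp / 2
          exact pow_ne_zero 4 ht this
        have hpp : q₀ 0 ^ 2 = -q₀ 3 * t ^ 2 / 2 := by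
          have h1 : (q₀ 0 ^ 2 + q₀ 3 * t ^ 2 / 2) * t ^ 2 = 0 := by
            linear_combination -q₀ 0 * hD / 4 + q₀ 3 * hsp / 4
          have h2 := (mul_eq_zero.1 h1).resolve_right (pow_ne_zero 2 ht)
          linear_combination h2
        have hdet : q₀ 0 ^ 2 - t ^ 2 * q₀ 3 ≠ 0 := by
          rw [hpp]
          intro h0
          have h1 : q₀ 3 * t ^ 2 = 0 := by linear_combination -2 * h0 / 3
          exact (mul_ne_zero hs0 (pow_ne_zero 2 ht)) h1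
        have hτ : q₀ 5 = 0 := by
          have h1 := h.r3
          rw [hπ] at h1
          have h2 : q₀ 5 ^ 2 = 0 := by
            linear_combination h1 + q₀ 3 * hpp + t ^ 2 * hD / 2
          exact pow_eq_zero_iff (two_ne_zero) |>.1 h2
        have hκ : q₀ 6 = 0 := by
          have h1 := h.r5
          rw [hσ, hτ] at h1
          have h2 : t * q₀ 6 = 0 := by linear_combination h1
          exact (mul_eq_zero.1 h2).resolve_left ht
        refine chart5 cd0 (cd2 t) (cd3 t) (cd5 t) (cd10 t) (dd0 q₀) (dd2 t q₀) (dd3 t q₀)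
          (dd5 t q₀) (dd10 t q₀) (U := {q | q 0 ^ 2 - t ^ 2 * q 3 ≠ 0})
          (isOpen_ne_fun (by fun_prop) continuous_const) hdet (fun q hq => ?_) ?_
        · rw [hmem]
          constructor
          · intro h'
            refine ⟨h'.r0, ?_, ?_, ?_, ?_⟩
            · unfold g2
              linear_combination h'.r2
            · unfold g3
              linear_combination h'.r3
            · unfold g5
              linear_combination h'.r5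
            · unfold g10
              linear_combination h'.r10
          · rintro ⟨h0, h2, h3, h5, h10⟩
            unfold g2 at h2
            unfold g3 at h3
            unfold g5 at h5
            unfold g10 at h10
            exact hP t q hq h0 (by linear_combination h2) (by linear_combination h3)
              (by linear_combination h5) (by linear_combination h10)
        intro a0 a1 a2 a3 a4
        set dt : ℂ := q₀ 0 ^ 2 - t ^ 2 * q₀ 3 with hdt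
        set v0 : ℂ := -a1 / (3 * dt) with hv0
        set v1 : ℂ := -(a2 + 2 * q₀ 0 * q₀ 3 * v0 - 2 * v0 * t ^ 4) / (2 * q₀ 0 * t) with hv1
        set v4 : ℂ := (q₀ 0 * a3 + t * a4) / dt with hv4
        set v6 : ℂ := (-q₀ 0 * a4 - t * q₀ 3 * a3) / dt with hv6
        set v : CN 7 := WithLp.toLp 2 ![v0, v1, a0, 0, v4, 0, v6] with hv
        have k0 : v 0 = v0 := rfl
        have k1 : v 1 = v1 := rfl
        have k2 : v 2 = a0 := rfl
        have k3 : v 3 = 0 := rfl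
        have k4 : v 4 = v4 := rfl
        have k5 : v 5 = 0 := rfl
        have k6 : v 6 = v6 := rfl
        have z0 : v0 * dt = -a1 / 3 := by
          rw [hv0]
          field_simp
        have z1 : v1 * (2 * q₀ 0 * t) = -(a2 + 2 * q₀ 0 * q₀ 3 * v0 - 2 * v0 * t ^ 4) := by
          rw [hv1]
          field_simp
        have z4 : v4 * dt = q₀ 0 * a3 + t * a4 := by
          rw [hv4]
          field_simp
        have z6 : v6 * dt = -q₀ 0 * a4 - t * q₀ 3 * a3 := by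
          rw [hv6]
          field_simp
        refine ⟨v, k2, ?_, ?_, ?_, ?_⟩
        · rw [k0, k1, k3, hπ]
          linear_combination -3 * z0
        · rw [k0, k1, k3, k5, hπ, hτ]
          linear_combination -z1
        · rw [k0, k3, k4, k5, k6, hσ, hτ]
          refine mul_left_cancel₀ hdet ?_
          linear_combination q₀ 0 * z4 + t * z6
        · rw [k0, k1, k3, k4, k5, k6, hσ, hτ, hκ, hπ]
          refine mul_left_cancel₀ hdet ?_
          linear_combination -(q₀ 0 * z6) - t * q₀ 3 * z4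
      · -- chart I
        have hπ : q₀ 1 ≠ 0 := by
          intro h0
          rw [h0] at hF
          have h1 : q₀ 4 ^ 2 = 0 := by linear_combination hF
          exact pow_ne_zero 2 hσ h1
        refine chart5 cd0 (cd1 t) (cd2 t) (cd4 t) (cd7 t) (dd0 q₀) (dd1 t q₀) (dd2 t q₀)
          (dd4 t q₀) (dd7 t q₀) (U := {q | q 4 ≠ 0})
          (isOpen_ne_fun (by fun_prop) continuous_const) hσ (fun q hq => ?_) ?_
        · rw [hmem]
          constructor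
          · intro h'
            refine ⟨h'.r0, ?_, ?_, ?_, ?_⟩
            · unfold g1
              linear_combination h'.r1
            · unfold g2
              linear_combination h'.r2
            · unfold g4
              linear_combination h'.r4
            · unfold g7
              linear_combination h'.r7
          · rintro ⟨h0, h1, h2, h4, h7⟩
            unfold g1 at h1
            unfold g2 at h2
            unfold g4 at h4
            unfold g7 at h7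
            exact hI t q hq h0 (by linear_combination h1) (by linear_combination h2)
              (by linear_combination h4) (by linear_combination h7)
        intro a0 a1 a2 a3 a4
        set v1 : ℂ := a2 / (2 * q₀ 1) with hv1
        set v4 : ℂ := (a1 + 2 * v1 * t ^ 3) / (2 * q₀ 4) with hv4
        set v5 : ℂ := (a3 - v4 * q₀ 5 + q₀ 3 * v1 * t) / q₀ 4 with hv5
        set v6 : ℂ := (a4 - q₀ 6 * v4 + (q₀ 3 ^ 2 - 2 * q₀ 0 * t ^ 2) * v1) / q₀ 4 with hv6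
        set v : CN 7 := WithLp.toLp 2 ![0, v1, a0, 0, v4, v5, v6] with hv
        have k0 : v 0 = 0 := rfl
        have k1 : v 1 = v1 := rfl
        have k2 : v 2 = a0 := rfl
        have k3 : v 3 = 0 := rfl
        have k4 : v 4 = v4 := rfl
        have k5 : v 5 = v5 := rfl
        have k6 : v 6 = v6 := rfl
        have z1 : 2 * q₀ 1 * v1 = a2 := by
          rw [hv1]
          field_simp
        have z4 : 2 * q₀ 4 * v4 = a1 + 2 * v1 * t ^ 3 := by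
          rw [hv4]
          field_simp
        have z5 : q₀ 4 * v5 = a3 - v4 * q₀ 5 + q₀ 3 * v1 * t := by
          rw [hv5]
          field_simp
        have z6 : q₀ 4 * v6 = a4 - q₀ 6 * v4 + (q₀ 3 ^ 2 - 2 * q₀ 0 * t ^ 2) * v1 := by
          rw [hv6]
          field_simp
        refine ⟨v, k2, ?_, ?_, ?_, ?_⟩
        · rw [k0, k1, k3, k4]
          linear_combination z4
        · rw [k0, k1, k3]
          linear_combination z1
        · rw [k0, k1, k3, k4, k5]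
          linear_combination z5
        · rw [k0, k1, k3, k4, k6]
          linear_combination z6

end Pool.Agent.SteinFill
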