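import Pool.Agent.SteinFill.SmoothAux

/-!
# Stein fillings: the symmetric square parametrisation
-/

namespace Pool.Agent.SteinFill.Sm

lemma symRel_of_param {t : ℂ} (ht : t ≠ 0) {q : CN 7} {X1 Y1 X2 Y2 : ℂ} (h2 : q 2 = 0)
    (hs : q 3 = X1 + X2) (hp : t ^ 2 * q 0 = X1 * X2) (hσ : q 4 = Y1 + Y2)
    (hπ : t ^ 3 * q 1 = Y1 * Y2) (hτ : t ^ 2 * q 5 = X1 * Y2 + X2 * Y1)
    (hκ : t ^ 3 * q 6 = X1 ^ 2 * Y2 + X2 ^ 2 * Y1) (e1 : Y1 ^ 2 = X1 ^ 3 + t ^ 6)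
    (e2 : Y2 ^ 2 = X2 ^ 3 + t ^ 6) : SymRel t q := by
  have hp' : q 0 = X1 * X2 / t ^ 2 := by
    rw [eq_div_iff (pow_ne_zero 2 ht)]
    linear_combination hp
  have hπ' : q 1 = Y1 * Y2 / t ^ 3 := by
    rw [eq_div_iff (pow_ne_zero 3 ht)]
    linear_combination hπ
  have hτ' : q 5 = (X1 * Y2 + X2 * Y1) / t ^ 2 := by
    rw [eq_div_iff (pow_ne_zero 2 ht)]
    linear_combination hτ
  have hκ' : q 6 = (X1 ^ 2 * Y2 + X2 ^ 2 * Y1) / t ^ 3 := by
    rw [eq_div_iff (pow_ne_zero 3 ht)]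
    linear_combination hκ
  refine ⟨h2, ?_, ?_, ?_, ?_, ?_, ?_, ?_, ?_, ?_⟩
  · rw [hs, hp', hσ, hπ']
    field_simp
    linear_combination e1 + e2
  · rw [hs, hp', hπ']
    field_simp
    linear_combination (Y2 ^ 2) * e1 + (X1 ^ 3 + t ^ 6) * e2
  · rw [hs, hp', hπ', hτ']
    field_simp
    linear_combination (X2 ^ 2) * e1 + (X1 ^ 2) * e2
  · rw [hs, hp', hσ, hπ', hτ']
    field_simp
    linear_combination X2 * e1 + X1 * e2
  · rw [hs, hp', hσ, hτ', hκ']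
    field_simp
    ring
  · rw [hs, hp', hσ, hπ', hκ']
    field_simp
    linear_combination (X2 ^ 2) * e1 + (X1 ^ 2) * e2
  · rw [hs, hp', hπ', hκ']
    field_simp
    linear_combination (X2 ^ 4) * e1 + (X1 ^ 4) * e2
  · rw [hs, hp', hσ, hπ', hτ', hκ']
    field_simp
    linear_combination (X2 * Y2) * e1 + (X1 * Y1) * e2
  · rw [hs, hp', hσ, hπ', hτ', hκ']
    field_simp
    linear_combination Y2 * e1 + Y1 * e2

/-- relations from `D`, `F` -/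
lemma symRel_of_roots {t : ℂ} (ht : t ≠ 0) {q : CN 7} {D F : ℂ} (h2 : q 2 = 0)
    (hD : D ^ 2 = q 3 ^ 2 - 4 * q 0 * t ^ 2) (hF : F ^ 2 = q 4 ^ 2 - 4 * q 1 * t ^ 3)
    (hDF : D * F = q 3 * q 4 - 2 * q 5 * t ^ 2) (h5 : g5 t q = 0) (h1 : g1 t q = 0)
    (hG : D * (q 3 ^ 2 - q 0 * t ^ 2) = q 4 * F) : SymRel t q := by
  unfold g5 at h5
  unfold g1 at h1
  refine symRel_of_param ht (X1 := (q 3 + D) / 2) (X2 := (q 3 - D) / 2) (Y1 := (q 4 + F) / 2)
    (Y2 := (q 4 - F) / 2) h2 (by ring) ?_ (by ring) ?_ ?_ ?_ ?_ ?_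
  · linear_combination hD / 4
  · linear_combination hF / 4
  · linear_combination hDF / 2
  · linear_combination (q 3 * hDF / 2 - q 4 * hD / 4 + t ^ 2 * h5)
  · linear_combination hF / 4 - (3 * q 3 / 8 + D / 8) * hD + h1 / 2 - hG / 2
  · linear_combination hF / 4 - (3 * q 3 / 8 - D / 8) * hD + h1 / 2 + hG / 2

/-- relations that follow from `SymRel` -/
lemma rel12 {t : ℂ} {q : CN 7} (h : SymRel t q) : g12 t q = 0 := by
  unfold g12
  linear_combination (-q 3) * h.r1 + 2 * t ^ 2 * h.r4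

lemma rel13 {t : ℂ} {q : CN 7} (h : SymRel t q) : g13 t q = 0 := by
  unfold g13
  linear_combination (4 * t ^ 2) * (-q 0 * h.r1 + q 3 * h.r4 - t ^ 2 * h.r3)

lemma rel14 {t : ℂ} {q : CN 7} (h : SymRel t q) : g14 t q = 0 := by
  unfold g14
  linear_combination (-q 4) * h.r1 + 2 * q 3 * t ^ 2 * h.r5 + 2 * t ^ 3 * h.r11

/-- Chart III. -/
lemma chart3_iff {t : ℂ} (ht : t ≠ 0) {q : CN 7} (hD : q 3 ^ 2 - 4 * q 0 * t ^ 2 ≠ 0) :
    SymRel t q ↔ g0 q = 0 ∧ g5 t q = 0 ∧ g12 t q = 0 ∧ g13 t q = 0 ∧ g1 t q = 0 := by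
  constructor
  · intro h
    refine ⟨h.r0, ?_, rel12 h, rel13 h, ?_⟩
    · unfold g5
      linear_combination h.r5
    · unfold g1
      linear_combination h.r1
  · rintro ⟨h0, h5, h12, h13, h1⟩
    obtain ⟨D, hDD⟩ := IsAlgClosed.exists_eq_mul_self (q 3 ^ 2 - 4 * q 0 * t ^ 2)
    have hD0 : D ≠ 0 := by
      rintro rfl
      rw [mul_zero] at hDD
      exact hD hDD
    refine symRel_of_roots ht (D := D) (F := (q 3 * q 4 - 2 * q 5 * t ^ 2) / D) h0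
      (by rw [hDD]; ring) ?_ (by field_simp) h5 h1 ?_
    · unfold g13 at h13
      rw [div_pow, div_eq_iff (pow_ne_zero 2 hD0)]
      rw [hDD] at h13
      linear_combination -h13
    · unfold g12 at h12
      rw [hDD] at h12
      rw [← mul_div_assoc, eq_div_iff hD0]
      linear_combination h12

/-- Chart IV. -/
lemma chart4_iff {t : ℂ} (ht : t ≠ 0) {q : CN 7} (hF : q 4 ^ 2 - 4 * q 1 * t ^ 3 ≠ 0) :
    SymRel t q ↔ g0 q = 0 ∧ g5 t q = 0 ∧ g13 t q = 0 ∧ g14 t q = 0 ∧ g1 t q = 0 := by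
  constructor
  · intro h
    refine ⟨h.r0, ?_, rel13 h, rel14 h, ?_⟩
    · unfold g5
      linear_combination h.r5
    · unfold g1
      linear_combination h.r1
  · rintro ⟨h0, h5, h13, h14, h1⟩
    obtain ⟨F, hFF⟩ := IsAlgClosed.exists_eq_mul_self (q 4 ^ 2 - 4 * q 1 * t ^ 3)
    have hF0 : F ≠ 0 := by
      rintro rfl
      rw [mul_zero] at hFF
      exact hF hFF
    refine symRel_of_roots ht (F := F) (D := (q 3 * q 4 - 2 * q 5 * t ^ 2) / F) h0 ?_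
      (by rw [hFF]; ring) (by field_simp) h5 h1 ?_
    · unfold g13 at h13
      rw [div_pow, div_eq_iff (pow_ne_zero 2 hF0)]
      rw [hFF] at h13
      linear_combination -h13
    · unfold g14 at h14
      rw [hFF] at h14
      rw [div_mul_eq_mul_div, div_eq_iff hF0]
      linear_combination h14

end Pool.Agent.SteinFill.Sm
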