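import Pool.Agent.SteinFill.Defs

/-!
# Stein fillings of branched covers: target statements
-/

namespace Pool.Agent.SteinFill

open scoped ContDiff
open Complex (I)

noncomputable section

/-! ### General analysis -/

/-- TTan: tangent space of a level set. -/
def TTan : Prop :=
  ∀ (E G : Type) [NormedAddCommGroup E] [NormedSpace ℝ E] [FiniteDimensional ℝ E]
    [NormedAddCommGroup G] [NormedSpace ℝ G] [FiniteDimensional ℝ G]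
    (F : E → G) (F' : E →L[ℝ] G) (S : Set E) (p : E),
    HasStrictFDerivAt F F' p → Function.Surjective F' → F p = 0 →
    (∀ᶠ q in nhds p, q ∈ S ↔ F q = 0) → Tan S p = {v | F' v = 0}

/-- TFlow: smooth flow of a compactly supported smooth vector field. -/
def TFlow : Prop :=
  ∀ (E : Type) [NormedAddCommGroup E] [NormedSpace ℝ E] [FiniteDimensional ℝ E] (Z : E → E),
    ContDiff ℝ ∞ Z → HasCompactSupport Z →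
    ∃ Φ : ℝ → E → E, (∀ x, Φ 0 x = x) ∧ (∀ s t x, Φ s (Φ t x) = Φ (s + t) x) ∧
      (∀ t x, HasDerivAt (fun s => Φ s x) (Z (Φ t x)) t) ∧
      (∀ t, ContDiff ℝ ∞ (Φ t)) ∧
      (∀ t x v, HasDerivAt (fun s => fderiv ℝ (Φ s) x v)
        (fderiv ℝ Z (Φ t x) (fderiv ℝ (Φ t) x v)) t)

/-- TNagumo: a compact set is invariant under a Lipschitz vector field tangent to it. -/
def TNagumo : Prop :=
  ∀ (E : Type) [NormedAddCommGroup E] [NormedSpace ℝ E] [FiniteDimensional ℝ E]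
    (Z : E → E) (K : NNReal) (M : Set E), LipschitzWith K Z → IsCompact M →
    (∀ m ∈ M, Z m ∈ Tan M m) → ∀ γ : ℝ → E, (∀ t, HasDerivAt γ (Z (γ t)) t) →
    γ 0 ∈ M → ∀ t, γ t ∈ M

/-! ### Families of links -/

/-- The slice of a family. -/
def slice {N : ℕ} (X : Set (CN N × ℝ)) (t : ℝ) : Set (CN N) := {p | (p, t) ∈ X}

/-- The link `Y ∩ S^{2N-1}`. -/
def link {N : ℕ} (Y : Set (CN N)) : Set (CN N) := {p | p ∈ Y ∧ ‖p‖ = 1}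

/-- Local presentation of the family `X` near `r₀ = (p₀,t₀)` (valid for `t ∈ T`): `X` is the zero
set of a smooth map `F(p,t)`, holomorphic in `p`, and `(D_p F, ⟨p, ·⟩)` is surjective at `r₀`. -/
def LocalFamily {N : ℕ} (k : ℕ) (T : Set ℝ) (X : Set (CN N × ℝ)) (r₀ : CN N × ℝ) : Prop :=
  ∃ (O : Set (CN N × ℝ)) (F : CN N × ℝ → CN k), IsOpen O ∧ r₀ ∈ O ∧ ContDiffOn ℝ ∞ F O ∧
    (∀ r ∈ O, DifferentiableAt ℂ (fun p => F (p, r.2)) r.1) ∧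
    (∀ r ∈ O, r.2 ∈ T → (r ∈ X ↔ F r = 0)) ∧
    ∀ (c : CN k) (a : ℂ), ∃ v, fderiv ℂ (fun p => F (p, r₀.2)) r₀.1 v = c ∧ inner ℂ r₀.1 v = a

/-- A smooth family of complex submanifolds transverse to the unit sphere, over `[0,1]`. -/
structure SphereFamily {N : ℕ} (k : ℕ) (X : Set (CN N × ℝ)) : Prop where
  compact : IsCompact {r | r ∈ X ∧ ‖r.1‖ = 1 ∧ r.2 ∈ Set.Icc (0 : ℝ) 1}
  loc : ∀ r ∈ X, ‖r.1‖ = 1 → r.2 ∈ Set.Icc (0 : ℝ) 1 → LocalFamily k (Set.Icc 0 1) X r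

/-- The same over `[-1,2]`, with local equations valid for all `t`. -/
structure SphereFamilyR {N : ℕ} (k : ℕ) (X : Set (CN N × ℝ)) : Prop where
  compact : IsCompact {r | r ∈ X ∧ ‖r.1‖ = 1 ∧ r.2 ∈ Set.Icc (-1 : ℝ) 2}
  loc : ∀ r ∈ X, ‖r.1‖ = 1 → r.2 ∈ Set.Icc (-1 : ℝ) 2 → LocalFamily k Set.univ X r

/-- Contactomorphism of links: a diffeomorphism `g : M → M'` such that
`Im ⟨p, v⟩` and `Im ⟨g p, Dg v⟩` have the same sign for every `v` tangent to `M`. -/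
def LinkIso {N N' : ℕ} (M : Set (CN N)) (M' : Set (CN N')) : Prop :=
  ∃ (g : CN N → CN N') (g' : CN N' → CN N), ContDiff ℝ ∞ g ∧ ContDiff ℝ ∞ g' ∧
    Set.MapsTo g M M' ∧ Set.MapsTo g' M' M ∧ (∀ p ∈ M, g' (g p) = p) ∧ (∀ q ∈ M', g (g' q) = q) ∧
    ∀ p ∈ M, ∀ v ∈ Tan M p,
      (0 < (inner ℂ p v : ℂ).im ↔ 0 < (inner ℂ (g p) (fderiv ℝ g p v) : ℂ).im) ∧
      ((inner ℂ p v : ℂ).im = 0 ↔ (inner ℂ (g p) (fderiv ℝ g p v) : ℂ).im = 0)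

/-- LinkIso is transitive. -/
def TLinkTrans : Prop :=
  ∀ (N₁ N₂ N₃ : ℕ) (M₁ : Set (CN N₁)) (M₂ : Set (CN N₂)) (M₃ : Set (CN N₃)),
    LinkIso M₁ M₂ → LinkIso M₂ M₃ → LinkIso M₁ M₃

/-- TReparam. -/
def TReparam : Prop :=
  ∀ (N k : ℕ) (X : Set (CN N × ℝ)), SphereFamily k X →
    ∃ X' : Set (CN N × ℝ), SphereFamilyR k X' ∧ slice X' 0 = slice X 0 ∧ slice X' 1 = slice X 1

/-- TLocal: consequences of a local presentation, at every nearby point of the family: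
tangent spaces of the total space and of the slice, and of their intersections with the sphere;
surjectivity of `(D_pF, ⟨p,·⟩)` is an open condition. -/
def TLocal : Prop :=
  ∀ (N k : ℕ) (X : Set (CN N × ℝ)) (r₀ : CN N × ℝ), r₀ ∈ X → ‖r₀.1‖ = 1 →
    LocalFamily k Set.univ X r₀ →
    ∃ (O : Set (CN N × ℝ)) (F : CN N × ℝ → CN k), IsOpen O ∧ r₀ ∈ O ∧ ContDiffOn ℝ ∞ F O ∧
      (∀ r ∈ O, DifferentiableAt ℂ (fun p => F (p, r.2)) r.1) ∧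
      (∀ r ∈ O, r ∈ X ↔ F r = 0) ∧
      (∀ r ∈ O, ∀ (c : CN k) (a : ℂ), ∃ v, fderiv ℂ (fun p => F (p, r.2)) r.1 v = c ∧
        inner ℂ r.1 v = a) ∧
      ∀ r ∈ O, r ∈ X →
        Tan X r = {w : CN N × ℝ | fderiv ℝ F r w = 0} ∧
        Tan (slice X r.2) r.1 = {v | fderiv ℂ (fun p => F (p, r.2)) r.1 v = 0} ∧
        (‖r.1‖ = 1 →
          Tan {r' | r' ∈ X ∧ ‖r'.1‖ = 1} r =
            {w : CN N × ℝ | fderiv ℝ F r w = 0 ∧ (inner ℂ r.1 w.1 : ℂ).re = 0} ∧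
          Tan (link (slice X r.2)) r.1 =
            {v | fderiv ℂ (fun p => F (p, r.2)) r.1 v = 0 ∧ (inner ℂ r.1 v : ℂ).re = 0})

/-- TField: the contact isotopy field of a family. -/
def TField : Prop :=
  ∀ (N k : ℕ) (X : Set (CN N × ℝ)), SphereFamilyR k X →
    ∃ V : CN N × ℝ → CN N, ContDiff ℝ ∞ V ∧
      ∀ r ∈ X, ‖r.1‖ = 1 → r.2 ∈ Set.Icc (-1 : ℝ) 2 →
        ((V r, (1 : ℝ)) : CN N × ℝ) ∈ Tan X r ∧ inner ℂ r.1 (V r) = 0 ∧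
        ∀ w ∈ Tan (slice X r.2) r.1, inner ℂ r.1 w = 0 → inner ℂ w (V r) = 0

/-- TUnif: uniform transversality. -/
def TUnif : Prop :=
  ∀ (N k : ℕ) (X : Set (CN N × ℝ)), SphereFamilyR k X →
    ∃ C : ℝ, 0 ≤ C ∧ ∀ r ∈ X, ‖r.1‖ = 1 → r.2 ∈ Set.Icc (-1 : ℝ) 2 →
      ∃ u ∈ Tan (slice X r.2) r.1, inner ℂ r.1 u = 1 ∧ ‖u‖ ≤ C

/-- TGray: the ends of a family are contactomorphic. -/
def TGray : Prop :=
  ∀ (N k : ℕ) (X : Set (CN N × ℝ)), SphereFamily k X →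
    LinkIso (link (slice X 0)) (link (slice X 1))

/-! ### The families -/

/-- Family 1: `z⁶ = c(t) (y² - x³ - (1-t)/8)`, from the branched cover (`c³`-scaled) to the
cone. -/
def fam1 (c : ℝ) : Set (CN 7 × ℝ) :=
  {r | r.1 3 = 0 ∧ r.1 4 = 0 ∧ r.1 5 = 0 ∧ r.1 6 = 0 ∧
    (r.1 2) ^ 6 = (((1 - r.2) * c + r.2 : ℝ) : ℂ) *
      ((r.1 1) ^ 2 - (r.1 0) ^ 3 - (((1 - r.2) / 8 : ℝ) : ℂ))}

/-- Family 2: re-embedding of the cone. -/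
def fam2 : Set (CN 7 × ℝ) :=
  {r | ∃ x y z : ℂ, y ^ 2 = x ^ 3 + z ^ 6 ∧
    r.1 = WithLp.toLp 2 ![x, y, (1 - r.2) * z, r.2 * z ^ 2, r.2 * z ^ 3, r.2 * (x * z),
      r.2 * (y * z)]}

/-- The homogenized equations of `Sym²(E∖0)`, `E : y² = x³ + 1`, in the coordinates
`q 0 = p = x₁x₂`, `q 1 = π = y₁y₂`, `q 2 = 0`, `q 3 = s = x₁+x₂`, `q 4 = σ = y₁+y₂`,
`q 5 = τ = x₁y₂+x₂y₁`, `q 6 = κ = x₁²y₂+x₂²y₁` (weights `2,3,-,2,3,3,4`). -/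
structure SymRel (t : ℂ) (q : CN 7) : Prop where
  r0 : q 2 = 0
  r1 : (q 4) ^ 2 = (q 3) ^ 3 - 3 * q 3 * q 0 * t ^ 2 + 2 * q 1 * t ^ 3 + 2 * t ^ 6
  r2 : (q 1) ^ 2 = (q 0) ^ 3 + (q 3) ^ 3 - 3 * q 3 * q 0 * t ^ 2 + t ^ 6
  r3 : (q 5) ^ 2 = (q 0) ^ 2 * q 3 + 2 * q 0 * q 1 * t + (q 3) ^ 2 * t ^ 2 - 2 * q 0 * t ^ 4
  r4 : q 4 * q 5 = (q 3) ^ 2 * q 0 + q 3 * q 1 * t - 2 * (q 0) ^ 2 * t ^ 2 + q 3 * t ^ 4
  r5 : q 0 * q 4 = q 3 * q 5 - t * q 6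
  r7 : q 6 * q 4 = ((q 3) ^ 2 - 2 * q 0 * t ^ 2) * q 1 + (q 0) ^ 2 * q 3 * t +
    (q 3) ^ 2 * t ^ 3 - 2 * q 0 * t ^ 5
  r9 : (q 6) ^ 2 = (q 0) ^ 3 * q 3 + (q 3) ^ 4 - 4 * (q 3) ^ 2 * q 0 * t ^ 2 +
    2 * (q 0) ^ 2 * t ^ 4 + 2 * (q 0) ^ 2 * q 1 * t
  r10 : q 1 * q 5 = q 0 * q 6 + t * q 3 * q 4 - t ^ 3 * q 5
  r11 : q 1 * q 4 = q 3 * q 6 - t * q 0 * q 5 + t ^ 3 * q 4

/-- `A_t`. -/
def symSurf (t : ℝ) : Set (CN 7) := {q | SymRel (t : ℂ) q}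

/-- Family 3: `A_{t t₀}`, from the re-embedded cone to `A_{t₀}`. -/
def fam3 (t₀ : ℝ) : Set (CN 7 × ℝ) := {r | SymRel ((r.2 * t₀ : ℝ) : ℂ) r.1}

/-- Family 0 (in `ℂ²`): the isotopy of knots `y² = x³ + t/8`. -/
def fam0 : Set (CN 2 × ℝ) := {r | (r.1 1) ^ 2 - (r.1 0) ^ 3 - ((r.2 / 8 : ℝ) : ℂ) = 0}

/-- TFam0. -/
def TFam0 : Prop := SphereFamily 1 fam0

/-- TFam1. -/
def TFam1 : Prop := ∀ c : ℝ, 0 < c → c ≤ 1 → SphereFamily 5 (fam1 c)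

/-- TFam2. -/
def TFam2 : Prop := SphereFamily 5 fam2

/-- TChartI: local equations of `A_t` where `σ ≠ 0`. -/
def TChartI : Prop := ∀ (t : ℂ) (q : CN 7), q 4 ≠ 0 → q 2 = 0 →
  (q 4) ^ 2 = (q 3) ^ 3 - 3 * q 3 * q 0 * t ^ 2 + 2 * q 1 * t ^ 3 + 2 * t ^ 6 →
  (q 1) ^ 2 = (q 0) ^ 3 + (q 3) ^ 3 - 3 * q 3 * q 0 * t ^ 2 + t ^ 6 →
  q 4 * q 5 = (q 3) ^ 2 * q 0 + q 3 * q 1 * t - 2 * (q 0) ^ 2 * t ^ 2 + q 3 * t ^ 4 →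
  q 6 * q 4 = ((q 3) ^ 2 - 2 * q 0 * t ^ 2) * q 1 + (q 0) ^ 2 * q 3 * t +
    (q 3) ^ 2 * t ^ 3 - 2 * q 0 * t ^ 5 → SymRel t q

/-- TChartP: local equations of `A_t` where `p² ≠ t² s`. -/
def TChartP : Prop := ∀ (t : ℂ) (q : CN 7), (q 0) ^ 2 - t ^ 2 * q 3 ≠ 0 → q 2 = 0 →
  (q 1) ^ 2 = (q 0) ^ 3 + (q 3) ^ 3 - 3 * q 3 * q 0 * t ^ 2 + t ^ 6 →
  (q 5) ^ 2 = (q 0) ^ 2 * q 3 + 2 * q 0 * q 1 * t + (q 3) ^ 2 * t ^ 2 - 2 * q 0 * t ^ 4 →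
  q 0 * q 4 = q 3 * q 5 - t * q 6 →
  q 1 * q 5 = q 0 * q 6 + t * q 3 * q 4 - t ^ 3 * q 5 → SymRel t q

/-- TFam3. -/
def TFam3 : Prop := ∃ t₀ : ℝ, 0 < t₀ ∧ t₀ ≤ 1 / 2 ∧ SphereFamily 5 (fam3 t₀)

/-- TEnds: the ends of the families match. -/
def TEnds : Prop :=
  (∀ c : ℝ, link (slice (fam1 c) 1) = link (slice fam2 0)) ∧
  (∀ t₀ : ℝ, link (slice fam2 1) = link (slice (fam3 t₀) 0))

/-- TSmooth: `A_t` is a complex surface for `t ≠ 0`. -/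
def TSmooth : Prop := ∀ t : ℝ, t ≠ 0 → ∀ q ∈ symSurf t, IsComplexSubmanifoldAt 5 (symSurf t) q

/-- TV: the Stein domain `V = A_{t₀} ∩ B`. -/
def TV : Prop := ∀ t₀ : ℝ, 0 < t₀ → SphereFamily 5 (fam3 t₀) →
  ∃ V : SteinDomain 7, V.X = symSurf t₀ ∧ V.φ = fun q => ‖q‖ ^ 2 - 1

/-! ### The branched cover -/

/-- TCurve: the complex curve `y² = x³ + 1/8`. -/
def TCurve : Prop := ∃ C : ComplexCurve, C.U = Set.univ ∧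
  C.f = fun p => (p 1) ^ 2 - (p 0) ^ 3 - 1 / 8

/-- TKnot: its boundary is a knot. -/
def TKnot : Prop := ∀ C : ComplexCurve, (C.f = fun p => (p 1) ^ 2 - (p 0) ^ 3 - 1 / 8) →
  IsKnot C.bd

/-- TCover: its 6-fold branched cover is a Stein domain. -/
def TCover : Prop := ∀ ε : ℝ, 0 < ε → ε ≤ 1 → ∃ D : SteinDomain 3,
  D.X = {q | (q 2) ^ 6 = (q 1) ^ 2 - (q 0) ^ 3 - 1 / 8} ∧
  D.φ = fun q => ‖base q‖ ^ 2 + ε * ‖q 2‖ ^ 2 - 1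

/-- TBridge: from links to contact boundaries. -/
def TBridge : Prop := ∀ (ε : ℝ), 0 < ε → ε ≤ 1 → ∀ (D : SteinDomain 3) (V : SteinDomain 7),
  D.X = {q | (q 2) ^ 6 = (q 1) ^ 2 - (q 0) ^ 3 - 1 / 8} →
  (D.φ = fun q => ‖base q‖ ^ 2 + ε * ‖q 2‖ ^ 2 - 1) →
  (V.φ = fun q => ‖q‖ ^ 2 - 1) →
  LinkIso (link (slice (fam1 (ε ^ 3)) 0)) (link V.X) → Contactomorphic D V

/-! ### The obstruction -/

/-- A continuous nowhere vanishing section `Ω` of the canonical bundle of `(T X|_W, J)`. -/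
structure IsTriv {N : ℕ} (X W : Set (CN N)) (J : CN N → CN N → CN N)
    (Ω : CN N → CN N → CN N → ℂ) : Prop where
  cont : ContinuousOn (fun x : CN N × CN N × CN N => Ω x.1 x.2.1 x.2.2)
    {x | x.1 ∈ W ∧ x.2.1 ∈ Tan X x.1 ∧ x.2.2 ∈ Tan X x.1}
  add : ∀ p ∈ W, ∀ u ∈ Tan X p, ∀ v ∈ Tan X p, ∀ w ∈ Tan X p,
    Ω p (u + v) w = Ω p u w + Ω p v w
  smul : ∀ p ∈ W, ∀ v ∈ Tan X p, ∀ w ∈ Tan X p, ∀ a : ℝ, Ω p (a • v) w = a * Ω p v w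
  alt : ∀ p ∈ W, ∀ v ∈ Tan X p, Ω p v v = 0
  jlin : ∀ p ∈ W, ∀ v ∈ Tan X p, ∀ w ∈ Tan X p, Ω p (J p v) w = I * Ω p v w
  nondeg : ∀ p ∈ W, ∀ v ∈ Tan X p, ∀ w ∈ Tan X p, Ω p v w = 0 →
    ∃ a b c d : ℝ, (a, b, c, d) ≠ (0, 0, 0, 0) ∧ a • v + b • J p v + c • w + d • J p w = 0

/-- The canonical bundle is topologically trivial. -/
def TrivCan {N : ℕ} (X W : Set (CN N)) (J : CN N → CN N → CN N) : Prop :=
  ∃ Ω : CN N → CN N → CN N → ℂ, IsTriv X W J Ω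

/-- Multiplication by `i`. -/
def mulI {N : ℕ} : CN N → CN N → CN N := fun _ v => I • v

/-- TPath: triviality is invariant along a continuous path of almost complex structures. -/
def TPath : Prop := ∀ (N k : ℕ) (X W U : Set (CN N)) (J : ℝ → CN N → CN N →L[ℝ] CN N),
  IsCompact W → W ⊆ X → W ⊆ U → (∀ p ∈ W, IsComplexSubmanifoldAt k X p) →
  ContinuousOn (fun x : ℝ × CN N => J x.1 x.2) (Set.Icc 0 1 ×ˢ U) →
  (∀ s ∈ Set.Icc (0 : ℝ) 1, ∀ p ∈ W, ∀ v ∈ Tan X p, J s p v ∈ Tan X p ∧ J s p (J s p v) = -v) →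
  TrivCan X W (fun p v => J 0 p v) → TrivCan X W (fun p v => J 1 p v)

/-- TInv: invariance under Stein deformation equivalence. -/
def TInv : Prop := ∀ (N N' : ℕ) (D : SteinDomain N) (D' : SteinDomain N'),
  SteinDeformationEquivalent D D' → TrivCan D.X D.W mulI → TrivCan D'.X D'.W mulI

/-- TCoverTriv: branched covers along complex curves have trivial canonical bundle. -/
def TCoverTriv : Prop := ∀ (C : ComplexCurve) (m : ℕ) (ε : ℝ) (D : SteinDomain 3),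
  2 ≤ m → 0 < ε → IsBranchedCover C m ε D → TrivCan D.X D.W mulI

/-- TZero: a function on the torus cannot have exactly one zero, of index one. -/
def TZero : Prop := ∀ (h : ℝ × ℝ → ℂ) (A B k : ℂ), Continuous h →
  (∀ x y, h (x + 1, y) = h (x, y)) → (∀ x y, h (x, y + 1) = h (x, y)) →
  (∀ x y : ℝ, h (x, y) = 0 → (∃ m : ℤ, x = m) ∧ (∃ n : ℤ, y = n)) →
  k ≠ 0 → (starRingEnd ℂ A * B).im ≠ 0 →
  (∀ δ : ℝ, 0 < δ → ∀ᶠ x : ℝ × ℝ in nhds 0,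
    ‖h x - k * (A * x.1 - B * x.2)‖ ≤ δ * ‖x‖) → False

/-- TLoops: the two loops on `E : y² = x³ + 1`. -/
def TLoops : Prop := ∃ (a b : ℝ → ℂ × ℂ) (A B : ℂ), Continuous a ∧ Continuous b ∧
  (∀ x, a (x + 1) = a x) ∧ (∀ x, b (x + 1) = b x) ∧
  (∀ x, (a x).2 ^ 2 = (a x).1 ^ 3 + 1 ∧ ‖(a x).1‖ ≤ 1) ∧
  (∀ x, (b x).2 ^ 2 = (b x).1 ^ 3 + 1 ∧ ‖(b x).1‖ ≤ 1) ∧
  (∀ x y, a x = b y → (∃ m : ℤ, x = m) ∧ (∃ n : ℤ, y = n)) ∧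
  a 0 = (-1, 0) ∧ b 0 = (-1, 0) ∧
  HasDerivAt (fun x => (a x).2) A 0 ∧ HasDerivAt (fun x => (b x).2) B 0 ∧
  (starRingEnd ℂ A * B).im ≠ 0

/-- TObs: the canonical bundle of `A_t ∩ B` is not trivial. -/
def TObs : Prop := ∀ t : ℝ, 0 < t → t ≤ 1 / 2 →
  ¬ TrivCan (symSurf t) {q | q ∈ symSurf t ∧ ‖q‖ ^ 2 - 1 ≤ 0} mulI

/-- Final statement. -/
def TFinal : Prop :=
  ∃ (C : ComplexCurve) (V : SteinDomain 7),
    C.U = Set.univ ∧ (C.f = fun p => (p 1) ^ 2 - (p 0) ^ 3 - 1 / 8) ∧ IsKnot C.bd ∧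
    IsSteinFillingOfCover C 6 V ∧
    ∀ (C' : ComplexCurve) (m : ℕ) (ε : ℝ) (D : SteinDomain 3), 2 ≤ m → 0 < ε →
      IsBranchedCover C' m ε D → ¬ SteinDeformationEquivalent D V

end

end Pool.Agent.SteinFill
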