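import Pool.Agent.SteinFill.Spec

/-!
# Stein fillings of cyclic branched covers along quasipositive knots (MP_be6ab7_gt): the
definitions used in the final statement

All objects live in `ℂ^N = CN N`.  A *Stein domain* is a compact sublevel set `{φ ≤ 0}` of a
strictly plurisubharmonic function on a complex surface embedded in `ℂ^N`; its boundary `{φ = 0}`
carries the contact structure of complex tangencies.

The first part of the file only gives short names (without hidden arguments) to standard notions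
of Mathlib for functions on `ℂ^N`.
-/

namespace Pool.Agent.SteinFill.St

open scoped ContDiff
open Complex (I)

noncomputable section

/-! ### Short names -/

/-- The real derivative `Dg_p(v)` of a map `g : ℂ^N → ℂ^M`. -/
def der {N M : ℕ} (g : CN N → CN M) (p v : CN N) : CN M := fderiv ℝ g p v

/-- The real derivative `dφ_p(v)` of a function `φ : ℂ^N → ℝ`. -/
def dre {N : ℕ} (φ : CN N → ℝ) (p v : CN N) : ℝ := fderiv ℝ φ p v

/-- The second real derivative `D²φ_p(v, w)`. -/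
def hess {E : Type} [NormedAddCommGroup E] [NormedSpace ℝ E] (φ : E → ℝ) (p v w : E) : ℝ :=
  fderiv ℝ (fderiv ℝ φ) p v w

/-- The complex derivative of a map `F : ℂ^N → ℂ^k`. -/
def cder {N k : ℕ} (F : CN N → CN k) (p v : CN N) : CN k := fderiv ℂ F p v

/-- The complex derivative of a function `f : ℂ² → ℂ`. -/
def dco (f : CN 2 → ℂ) (p v : CN 2) : ℂ := fderiv ℂ f p v

/-- `g : ℂ^N → ℂ^M` is of class `C^∞` on `U`. -/
def SmoothOn {N M : ℕ} (g : CN N → CN M) (U : Set (CN N)) : Prop := ContDiffOn ℝ ∞ g U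

/-- `φ : ℂ^N → ℝ` is of class `C^∞`. -/
def SmoothFun {N : ℕ} (φ : CN N → ℝ) : Prop := ContDiff ℝ ∞ φ

/-- `F : ℂ^N → ℂ^k` is holomorphic on `O`. -/
def HolomorphicOn {N k : ℕ} (F : CN N → CN k) (O : Set (CN N)) : Prop := DifferentiableOn ℂ F O

/-- `f : ℂ² → ℂ` is holomorphic on `U`. -/
def HolFunOn (f : CN 2 → ℂ) (U : Set (CN 2)) : Prop := DifferentiableOn ℂ f U

/-- `U` is open in `ℂ^N`. -/
def Opn {N : ℕ} (U : Set (CN N)) : Prop := IsOpen U

/-- `K` is compact in `ℂ^N`. -/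
def Cpt {N : ℕ} (K : Set (CN N)) : Prop := IsCompact K

/-- Multiplication by `i`. -/
def mi {N : ℕ} (v : CN N) : CN N := I • v

/-- The euclidean norm. -/
def nrm {N : ℕ} (p : CN N) : ℝ := ‖p‖

/-- The Hermitian product of `p` and `v`. -/
def herm {N : ℕ} (p v : CN N) : ℂ := ∑ j, (starRingEnd ℂ) (p j) * v j

/-- The origin of `ℂ^N`. -/
def orig (N : ℕ) : CN N := 0

/-- Velocities at `p` of curves contained in `S` (near time `0`).  If `S` is a submanifold this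
is the tangent space `T_p S`. -/
def Tg {N : ℕ} (S : Set (CN N)) (p : CN N) : Set (CN N) :=
  {v | ∃ γ : ℝ → CN N, γ 0 = p ∧ (∀ᶠ s in nhds (0 : ℝ), γ s ∈ S) ∧ HasDerivAt γ v 0}

/-! ### Stein domains -/

/-- `X ⊂ ℂ^N` is, near its point `p`, a complex submanifold of codimension `k`:  on an
open set `O` around `p`, `X` is the zero set of a holomorphic map to `ℂ^k` whose complex
derivative is surjective at the points of `X ∩ O`. -/
def IsComplexSubmanifoldAt {N : ℕ} (k : ℕ) (X : Set (CN N)) (p : CN N) : Prop :=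
  ∃ (O : Set (CN N)) (F : CN N → CN k), Opn O ∧ p ∈ O ∧ HolomorphicOn F O ∧
    (∀ q ∈ O, q ∈ X ↔ F q = orig k) ∧ ∀ q ∈ O, q ∈ X → Function.Surjective (cder F q)

/-- The Levi form `D²φ(v,v) + D²φ(iv,iv)` (`= 4 ∂∂̄φ(v, v̄)`) of a smooth function. -/
def levi {N : ℕ} (φ : CN N → ℝ) (p v : CN N) : ℝ :=
  hess φ p v v + hess φ p (mi v) (mi v)

/-- A Stein domain of complex dimension two: `W = {p ∈ X | φ p ≤ 0}` where `X` is a complex
surface in `ℂ^N` and `φ` is strictly plurisubharmonic on `X` near `W`, with `0` a regular value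
on `X`. -/
structure SteinDomain (N : ℕ) where
  /-- The complex surface. -/
  X : Set (CN N)
  /-- The defining function. -/
  φ : CN N → ℝ
  smooth : SmoothFun φ
  compact : Cpt {p | p ∈ X ∧ φ p ≤ 0}
  surface : ∀ p ∈ X, φ p ≤ 0 → ∃ k, k + 2 = N ∧ IsComplexSubmanifoldAt k X p
  psh : ∀ p ∈ X, φ p ≤ 0 → ∀ v ∈ Tg X p, v ≠ orig N → 0 < levi φ p v
  regular : ∀ p ∈ X, φ p = 0 → ∃ v ∈ Tg X p, dre φ p v ≠ 0

variable {N N' : ℕ}

/-- The compact domain itself. -/
def SteinDomain.W (D : SteinDomain N) : Set (CN N) := {p | p ∈ D.X ∧ D.φ p ≤ 0}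

/-- The boundary. -/
def SteinDomain.bd (D : SteinDomain N) : Set (CN N) := {p | p ∈ D.X ∧ D.φ p = 0}

/-- The contact plane at a boundary point: the complex tangencies
`T_p ∂W ∩ i T_p ∂W`. -/
def SteinDomain.ξ (D : SteinDomain N) (p : CN N) : Set (CN N) :=
  {v | v ∈ Tg D.bd p ∧ mi v ∈ Tg D.bd p}

/-- `g : ∂W → ∂W'` is a diffeomorphism with inverse `g'` (both extend smoothly to open
neighbourhoods `U`, `U'` in the ambient spaces). -/
structure IsBoundaryDiffeo (D : SteinDomain N) (D' : SteinDomain N') (g : CN N → CN N')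
    (g' : CN N' → CN N) (U : Set (CN N)) (U' : Set (CN N')) : Prop where
  open_U : Opn U
  open_U' : Opn U'
  sub : D.bd ⊆ U
  sub' : D'.bd ⊆ U'
  smooth : SmoothOn g U
  smooth' : SmoothOn g' U'
  maps : ∀ p ∈ D.bd, g p ∈ D'.bd ∧ g' (g p) = p
  maps' : ∀ q ∈ D'.bd, g' q ∈ D.bd ∧ g (g' q) = q

/-- The boundaries of the two Stein domains are contactomorphic: there is a diffeomorphism
`g : ∂W → ∂W'` which maps the contact planes to the contact planes and preserves their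
coorientation by `v ↦ -dφ(iv)`. -/
def Contactomorphic (D : SteinDomain N) (D' : SteinDomain N') : Prop :=
  ∃ (g : CN N → CN N') (g' : CN N' → CN N) (U : Set (CN N)) (U' : Set (CN N')),
    IsBoundaryDiffeo D D' g g' U U' ∧
    ∀ p ∈ D.bd, ∀ v ∈ Tg D.bd p,
      (v ∈ D.ξ p ↔ der g p v ∈ D'.ξ (g p)) ∧
      (dre D.φ p (mi v) < 0 ↔ dre D'.φ (g p) (mi (der g p v)) < 0)

/-! ### Stein deformations -/

/-- Real linear endomorphisms of `ℂ^N`. -/
def EndR (N : ℕ) : Type := CN N →L[ℝ] CN N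

/-- The value of an endomorphism. -/
def ap (A : EndR N) (v : CN N) : CN N := (show CN N →L[ℝ] CN N from A) v

/-- The path `J_s` of fields of endomorphisms, `0 ≤ s ≤ 1`, is smooth in `(s, p)`, `p ∈ U`. -/
def SmoothPathEnd (J : ℝ → CN N → EndR N) (U : Set (CN N)) : Prop :=
  ContDiffOn ℝ ∞ (fun x : ℝ × CN N => (show CN N →L[ℝ] CN N from J x.1 x.2))
    (Set.Icc 0 1 ×ˢ U)

/-- The path `Φ_s` of functions, `0 ≤ s ≤ 1`, is smooth in `(s, p)`, `p ∈ U`. -/
def SmoothPathFun (Φ : ℝ → CN N → ℝ) (U : Set (CN N)) : Prop :=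
  ContDiffOn ℝ ∞ (fun x : ℝ × CN N => Φ x.1 x.2) (Set.Icc 0 1 ×ˢ U)

/-- `(J, Φ)` is a Stein structure on the (real four-dimensional) manifold `X` near `p`:
there are local `J`-holomorphic coordinates `ψ` on `X` around `p` in which `Φ` is a strictly
plurisubharmonic function `h`. -/
def IsSteinStructureAt (X : Set (CN N)) (J : CN N → EndR N) (Φ : CN N → ℝ) (p : CN N) : Prop :=
  ∃ (O : Set (CN N)) (ψ : CN N → CN 2) (h : CN 2 → ℝ), Opn O ∧ p ∈ O ∧
    SmoothOn ψ O ∧ SmoothFun h ∧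
    (∀ q ∈ X ∩ O, ∀ v ∈ Tg X q,
      der ψ q (ap (J q) v) = mi (der ψ q v) ∧ (der ψ q v = orig 2 → v = orig N)) ∧
    (∀ q ∈ X ∩ O, Φ q = h (ψ q)) ∧ ∀ v : CN 2, v ≠ orig 2 → 0 < levi h (ψ p) v

/-- `g` is a diffeomorphism, with inverse `g'`, from the neighbourhood `X ∩ U` of `W` in `X` onto
the neighbourhood `X' ∩ U'` of `W'` in `X'`, and `g(W) = W'`. -/
structure IsDiffeo (D : SteinDomain N) (D' : SteinDomain N') (g : CN N → CN N')
    (g' : CN N' → CN N) (U : Set (CN N)) (U' : Set (CN N')) : Prop where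
  open_U : Opn U
  open_U' : Opn U'
  W_sub : D.W ⊆ U
  W_sub' : D'.W ⊆ U'
  smooth_g : SmoothOn g U
  smooth_g' : SmoothOn g' U'
  mapsTo : ∀ p ∈ D.X ∩ U, g p ∈ D'.X ∩ U' ∧ g' (g p) = p
  mapsTo' : ∀ q ∈ D'.X ∩ U', g' q ∈ D.X ∩ U ∧ g (g' q) = q
  image : g '' D.W = D'.W

/-- `(J_s, Φ_s)`, `0 ≤ s ≤ 1`, is a smooth path of Stein structures on `W`, defined on the
neighbourhood `X ∩ U` of `W` in `X`: `W = {Φ_s ≤ 0}` and `0` is a regular value of `Φ_s`. -/
structure IsSteinPath (D : SteinDomain N) (U : Set (CN N)) (J : ℝ → CN N → EndR N)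
    (Φ : ℝ → CN N → ℝ) : Prop where
  smooth_J : SmoothPathEnd J U
  smooth_Φ : SmoothPathFun Φ U
  J_tan : ∀ s ∈ Set.Icc (0 : ℝ) 1, ∀ p ∈ D.X ∩ U, ∀ v ∈ Tg D.X p,
    ap (J s p) v ∈ Tg D.X p ∧ ap (J s p) (ap (J s p) v) = mi (mi v)
  sublevel : ∀ s ∈ Set.Icc (0 : ℝ) 1, {p | p ∈ D.X ∩ U ∧ Φ s p ≤ 0} = D.W
  regular : ∀ s ∈ Set.Icc (0 : ℝ) 1, ∀ p ∈ D.X ∩ U, Φ s p = 0 →
    ∃ v ∈ Tg D.X p, dre (Φ s) p v ≠ 0
  stein : ∀ s ∈ Set.Icc (0 : ℝ) 1, ∀ p ∈ D.W, IsSteinStructureAt D.X (J s) (Φ s) p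

/-- The path `(J_s, Φ_s)` starts at `(i, φ)` and ends at the pull-back of `(i, φ')` by `g`. -/
structure Joins (D : SteinDomain N) (D' : SteinDomain N') (g : CN N → CN N') (U : Set (CN N))
    (J : ℝ → CN N → EndR N) (Φ : ℝ → CN N → ℝ) : Prop where
  J_zero : ∀ p ∈ D.X ∩ U, ∀ v ∈ Tg D.X p, ap (J 0 p) v = mi v
  J_one : ∀ p ∈ D.X ∩ U, ∀ v ∈ Tg D.X p, der g p (ap (J 1 p) v) = mi (der g p v)
  Φ_zero : ∀ p ∈ D.X ∩ U, Φ 0 p = D.φ p
  Φ_one : ∀ p ∈ D.X ∩ U, Φ 1 p = D'.φ (g p)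

/-- Stein deformation equivalence of two Stein domains: a diffeomorphism `g : W → W'`
(of open neighbourhoods in `X`, `X'`) and a smooth path `(J_s, Φ_s)`, `0 ≤ s ≤ 1`, of
Stein structures on `W` from `(i, φ)` to the pull-back of `(i, φ')`. -/
def SteinDeformationEquivalent (D : SteinDomain N) (D' : SteinDomain N') : Prop :=
  ∃ (g : CN N → CN N') (g' : CN N' → CN N) (U : Set (CN N)) (U' : Set (CN N'))
    (J : ℝ → CN N → EndR N) (Φ : ℝ → CN N → ℝ),
    IsDiffeo D D' g g' U U' ∧ IsSteinPath D U J Φ ∧ Joins D D' g U J Φ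

/-! ### Complex curves in the ball and their branched covers -/

/-- A complex curve `Σ = {f = 0}` in the unit ball `B⁴ ⊂ ℂ²`: `f` is holomorphic near the
closed ball, `Σ` is smooth and transverse to `S³`.  (Every smooth complex analytic curve defined
on a neighbourhood of the closed ball has such a global equation near the closed ball.) -/
structure ComplexCurve where
  /-- The equation. -/
  f : CN 2 → ℂ
  /-- Its domain. -/
  U : Set (CN 2)
  open_U : Opn U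
  ball_sub : ∀ p, nrm p ≤ 1 → p ∈ U
  holo : HolFunOn f U
  smooth : ∀ p, nrm p ≤ 1 → f p = 0 → ∃ v, dco f p v ≠ 0
  transverse : ∀ p, nrm p = 1 → f p = 0 → ∃ v, dco f p v = 0 ∧ herm p v ≠ 0

/-- The boundary link `Σ ∩ S³`. -/
def ComplexCurve.bd (C : ComplexCurve) : Set (CN 2) := {p | nrm p = 1 ∧ C.f p = 0}

/-- `K ⊂ ℂ²` is a smoothly embedded circle. -/
def IsKnot (K : Set (CN 2)) : Prop :=
  ∃ γ : ℝ → CN 2, ContDiff ℝ ∞ γ ∧ (∀ s, γ (s + 1) = γ s) ∧ (∀ s, deriv γ s ≠ orig 2) ∧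
    Set.InjOn γ (Set.Ico 0 1) ∧ Set.range γ = K

/-- The base point `(x,y)` of `(x,y,z)`. -/
def base (q : CN 3) : CN 2 := WithLp.toLp 2 ![q 0, q 1]

/-- `D` is the `n`-fold cyclic branched cover `W_{n,Σ} = {z^n = f(x,y)}` of `B⁴` along
`Σ = {f = 0}`, with the Stein structure given by the complex structure and the function
`|x|² + |y|² + ε|z|² - 1`. -/
def IsBranchedCover (C : ComplexCurve) (n : ℕ) (ε : ℝ) (D : SteinDomain 3) : Prop :=
  D.X = {q | base q ∈ C.U ∧ (q 2) ^ n = C.f (base q)} ∧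
  D.φ = fun q => nrm (base q) ^ 2 + ε * ‖q 2‖ ^ 2 - 1

/-- `V` is a Stein filling of `(Y, ξ)`, the `n`-fold cyclic cover of `(S³, ξ_st)` branched
along the transverse link `∂Σ`: for all small `ε` the domain `W_{n,Σ}` exists and its contact
boundary is contactomorphic to that of `V`. -/
def IsSteinFillingOfCover (C : ComplexCurve) (n : ℕ) (V : SteinDomain N) : Prop :=
  ∃ ε₀ : ℝ, 0 < ε₀ ∧ ∀ ε : ℝ, 0 < ε → ε ≤ ε₀ →
    ∃ D : SteinDomain 3, IsBranchedCover C n ε D ∧ Contactomorphic D V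

end

end Pool.Agent.SteinFill.St
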